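import Pool.Agent.Lib.MP_293bbf_nt.Defs

section

/-!
S1. The Selberg upper bound sieve (general form), on top of `Mathlib.NumberTheory.SelbergSieve`.

PROOF. Write `P = s.prodPrimes`, `g = s.selbergTerms`, `ν = s.nu`, `S = Σ_{l ∣ P, l ≤ y} g l > 0`
(the term `l = 1` is `g 1 = 1`).  Define for `d ∣ P`, `d ≤ y`
  `w d = (ν d)⁻¹ * g d * μ d * S⁻¹ * Σ_{m ∣ P, m coprime to d, d * m ≤ y} g m`
and `w d = 0` for all other `d`.  Then
(1) `w 1 = 1`.
(2) For `l ∣ P`: `Σ_{d ∣ P, l ∣ d} ν d * w d = g l * μ l / S` if `l ≤ y` and `= 0` if `l > y`: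
    for `d = l * e` and `m` coprime to `d`, `g (l e) g m = g l * g (e m)`; group by `n = e m`
    (`n ∣ P`, coprime to `l`, `l n ≤ y`): the sum is `g l μ l S⁻¹ Σ_n g n Σ_{e ∣ n} μ e`, only
    `n = 1` survives.
(3) hence by `BoundingSieve.mainSum_lambdaSquared_eq_sum_mul_sum_sq`,
    `mainSum (lambdaSquared w) = Σ_{l ≤ y} (g l)⁻¹ (g l)² / S² = 1 / S`.
(4) `|w d| ≤ 1`: for `d ∣ P`, `S = Σ_{k ∣ d} Σ_{m ∣ P, gcd(m, d) = k, m ≤ y} g m`
    `= Σ_{k ∣ d} g k Σ_{m' coprime to d, m' ≤ y / k} g m'` `≥ (Σ_{k ∣ d} g k) Σ_{m' coprime to d, d m' ≤ y} g m'`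
    and `Σ_{k ∣ d} g k = g d (ν d)⁻¹`
    (`BoundingSieve.sum_divisors_selbergTerms_eq_selbergTerms_mul_nu_inv`).
(5) `siftedSum ≤ totalMass * mainSum + errSum` with `muPlus = lambdaSquared w`
    (`siftedSum_le_mainSum_errSum_of_upperMoebius`, `upperMoebius_lambdaSquared`), and
    `errSum ≤ Σ_{d₁, d₂} |w d₁| |w d₂| |rem (lcm d₁ d₂)|`.
-/

open Finset

namespace MP293bbf

open ArithmeticFunction in
private theorem s1_mu (n : ℕ) (hn : Squarefree n) (l : ℕ) (hl : l ∣ n) :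
    ∑ d ∈ n.divisors.filter (fun d => l ∣ d), ((ArithmeticFunction.moebius d : ℤ) : ℝ)
      = if n = l then ((ArithmeticFunction.moebius l : ℤ) : ℝ) else 0 := by
  obtain ⟨k, rfl⟩ := hl
  have hlk := (Nat.squarefree_mul_iff.1 hn)
  have hl0 : l ≠ 0 := hlk.2.1.ne_zero
  have hk0 : k ≠ 0 := hlk.2.2.ne_zero
  have h1 : (l * k).divisors.filter (fun d => l ∣ d) = k.divisors.image (fun e => l * e) := by
    ext d
    rw [Finset.mem_filter, Nat.mem_divisors, Finset.mem_image]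
    constructor
    · rintro ⟨⟨h, _⟩, e, rfl⟩
      exact ⟨e, Nat.mem_divisors.2 ⟨Nat.dvd_of_mul_dvd_mul_left (Nat.pos_of_ne_zero hl0) h, hk0⟩,
        rfl⟩
    · rintro ⟨e, he, rfl⟩
      exact ⟨⟨Nat.mul_dvd_mul_left l (Nat.dvd_of_mem_divisors he), by positivity⟩,
        Dvd.intro e rfl⟩
  rw [h1, Finset.sum_image (fun a _ b _ h => Nat.eq_of_mul_eq_mul_left (Nat.pos_of_ne_zero hl0) h)]
  have h2 : ∀ e ∈ k.divisors, ((ArithmeticFunction.moebius (l * e) : ℤ) : ℝ)
      = ((ArithmeticFunction.moebius l : ℤ) : ℝ) * ((ArithmeticFunction.moebius e : ℤ) : ℝ) := by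
    intro e he
    rw [ArithmeticFunction.isMultiplicative_moebius.map_mul_of_coprime
      (hlk.1.coprime_dvd_right (Nat.dvd_of_mem_divisors he))]
    push_cast
    rfl
  rw [Finset.sum_congr rfl h2, ← Finset.mul_sum]
  have h3 : ∑ e ∈ k.divisors, ((ArithmeticFunction.moebius e : ℤ) : ℝ) = if k = 1 then 1 else 0 := by
    have h4 : ((ArithmeticFunction.moebius * (ArithmeticFunction.zeta :
        ArithmeticFunction ℤ) : ArithmeticFunction ℤ)) k = (1 : ArithmeticFunction ℤ) k := by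
      rw [ArithmeticFunction.moebius_mul_coe_zeta]
    rw [ArithmeticFunction.coe_mul_zeta_apply, ArithmeticFunction.one_apply] at h4
    rw [← Int.cast_sum, h4]
    split_ifs <;> simp
  rw [h3]
  by_cases hk : k = 1
  · subst hk
    simp
  · rw [if_neg hk, if_neg, mul_zero]
    intro h
    apply hk
    exact Nat.eq_of_mul_eq_mul_left (Nat.pos_of_ne_zero hl0) (by rw [h, mul_one])

variable (s : BoundingSieve) (y : ℕ)

/-- the sieve weights -/
private noncomputable def s1w (S : ℝ) (d : ℕ) : ℝ :=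
  (s.nu d)⁻¹ * ((ArithmeticFunction.moebius d : ℤ) : ℝ) * S⁻¹ *
    ∑ n ∈ (s.prodPrimes.divisors.filter (fun l => l ≤ y)).filter (fun n => d ∣ n), s.selbergTerms n

private theorem s1_S_pos (hy : 1 ≤ y) :
    0 < ∑ l ∈ s.prodPrimes.divisors.filter (fun l => l ≤ y), s.selbergTerms l := by
  apply Finset.sum_pos
  · intro l hl
    exact BoundingSieve.selbergTerms_pos (Nat.dvd_of_mem_divisors (Finset.mem_filter.1 hl).1)
  · refine ⟨1, Finset.mem_filter.2 ⟨Nat.mem_divisors.2 ⟨one_dvd _,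
      BoundingSieve.prodPrimes_ne_zero⟩, hy⟩⟩

private theorem s1_one (S : ℝ) (hS : S ≠ 0)
    (hSd : S = ∑ l ∈ s.prodPrimes.divisors.filter (fun l => l ≤ y), s.selbergTerms l) :
    s1w s y S 1 = 1 := by
  unfold s1w
  rw [s.nu_mult.map_one, ArithmeticFunction.isMultiplicative_moebius.map_one]
  rw [Finset.filter_true_of_mem (fun n _ => one_dvd n), ← hSd]
  simp [hS]

/-- (2) -/
private theorem s1_diag (S : ℝ) (l : ℕ) (hl : l ∈ s.prodPrimes.divisors) :
    (∑ d ∈ s.prodPrimes.divisors, if l ∣ d then s.nu d * s1w s y S d else 0) =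
      if l ≤ y then S⁻¹ * s.selbergTerms l * ((ArithmeticFunction.moebius l : ℤ) : ℝ) else 0 := by
  have hP0 : s.prodPrimes ≠ 0 := BoundingSieve.prodPrimes_ne_zero
  have h1 : ∀ d ∈ s.prodPrimes.divisors, s.nu d * s1w s y S d =
      ∑ n ∈ s.prodPrimes.divisors.filter (fun l => l ≤ y),
        if d ∣ n then S⁻¹ * s.selbergTerms n * ((ArithmeticFunction.moebius d : ℤ) : ℝ) else 0 := by
    intro d hd
    have hν := BoundingSieve.nu_ne_zero (s := s) (Nat.dvd_of_mem_divisors hd)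
    unfold s1w
    rw [← Finset.sum_filter, Finset.mul_sum, Finset.mul_sum]
    refine Finset.sum_congr rfl fun n _ => ?_
    field_simp
  have h2 : (∑ d ∈ s.prodPrimes.divisors, if l ∣ d then s.nu d * s1w s y S d else 0) =
      ∑ d ∈ s.prodPrimes.divisors, ∑ n ∈ s.prodPrimes.divisors.filter (fun l => l ≤ y),
        if l ∣ d ∧ d ∣ n then S⁻¹ * s.selbergTerms n * ((ArithmeticFunction.moebius d : ℤ) : ℝ)
          else 0 := by
    refine Finset.sum_congr rfl fun d hd => ?_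
    by_cases hld : l ∣ d
    · rw [if_pos hld, h1 d hd]
      refine Finset.sum_congr rfl fun n _ => ?_
      simp only [hld, true_and]
    · rw [if_neg hld]
      refine (Finset.sum_eq_zero fun n _ => ?_).symm
      simp only [hld, false_and, if_false]
  rw [h2, Finset.sum_comm]
  have h3 : ∀ n ∈ s.prodPrimes.divisors.filter (fun l => l ≤ y),
      (∑ d ∈ s.prodPrimes.divisors, if l ∣ d ∧ d ∣ n then
        S⁻¹ * s.selbergTerms n * ((ArithmeticFunction.moebius d : ℤ) : ℝ) else 0) =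
      if n = l then S⁻¹ * s.selbergTerms l * ((ArithmeticFunction.moebius l : ℤ) : ℝ) else 0 := by
    intro n hn
    have hnP := Nat.dvd_of_mem_divisors (Finset.mem_filter.1 hn).1
    have hnsq : Squarefree n := BoundingSieve.squarefree_of_dvd_prodPrimes (s := s) hnP
    have hset : s.prodPrimes.divisors.filter (fun d => l ∣ d ∧ d ∣ n) =
        n.divisors.filter (fun d => l ∣ d) := by
      ext d
      simp only [Finset.mem_filter, Nat.mem_divisors]
      constructor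
      · rintro ⟨_, h, h'⟩
        exact ⟨⟨h', hnsq.ne_zero⟩, h⟩
      · rintro ⟨⟨h, _⟩, h'⟩
        exact ⟨⟨h.trans hnP, hP0⟩, h', h⟩
    rw [← Finset.sum_filter, hset, ← Finset.mul_sum]
    by_cases hln : l ∣ n
    · rw [s1_mu n hnsq l hln]
      by_cases h : n = l
      · rw [if_pos h, if_pos h, h]
      · rw [if_neg h, if_neg h, mul_zero]
    · have hempty : n.divisors.filter (fun d => l ∣ d) = ∅ := by
        rw [Finset.filter_eq_empty_iff]
        intro d hd hld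
        exact hln (hld.trans (Nat.dvd_of_mem_divisors hd))
      rw [hempty, Finset.sum_empty, mul_zero, if_neg]
      rintro rfl
      exact hln dvd_rfl
  rw [Finset.sum_congr rfl h3, Finset.sum_ite_eq']
  by_cases hly : l ≤ y
  · rw [if_pos hly, if_pos (Finset.mem_filter.2 ⟨hl, hly⟩)]
  · have hno : l ∉ s.prodPrimes.divisors.filter (fun l => l ≤ y) :=
      fun h => hly (Finset.mem_filter.1 h).2
    rw [if_neg hly, if_neg hno]

/-- (3) -/
private theorem s1_main (hy : 1 ≤ y) (S : ℝ)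
    (hSd : S = ∑ l ∈ s.prodPrimes.divisors.filter (fun l => l ≤ y), s.selbergTerms l) :
    s.mainSum (BoundingSieve.lambdaSquared (s1w s y S)) = S⁻¹ := by
  have hS : 0 < S := hSd ▸ s1_S_pos s y hy
  rw [BoundingSieve.mainSum_lambdaSquared_eq_sum_mul_sum_sq]
  have h1 : ∀ l ∈ s.prodPrimes.divisors, (s.selbergTerms l)⁻¹ *
      (∑ d ∈ s.prodPrimes.divisors, if l ∣ d then s.nu d * s1w s y S d else 0) ^ 2 =
      if l ≤ y then (S⁻¹) ^ 2 * s.selbergTerms l else 0 := by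
    intro l hl
    rw [s1_diag s y S l hl]
    have hlP := Nat.dvd_of_mem_divisors hl
    have hg := (BoundingSieve.selbergTerms_pos (s := s) hlP).ne'
    have hmu : ((ArithmeticFunction.moebius l : ℤ) : ℝ) ^ 2 = 1 := by
      have := ArithmeticFunction.moebius_sq_eq_one_of_squarefree
        (BoundingSieve.squarefree_of_dvd_prodPrimes (s := s) hlP)
      exact_mod_cast this
    by_cases hly : l ≤ y
    · rw [if_pos hly, if_pos hly, mul_pow, hmu]
      field_simp
    · rw [if_neg hly, if_neg hly]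
      simp
  rw [Finset.sum_congr rfl h1, ← Finset.sum_filter, ← Finset.mul_sum, ← hSd]
  field_simp

/-- (4) -/
private theorem s1_bound (hy : 1 ≤ y) (S : ℝ)
    (hSd : S = ∑ l ∈ s.prodPrimes.divisors.filter (fun l => l ≤ y), s.selbergTerms l)
    (d : ℕ) (hd : d ∈ s.prodPrimes.divisors) : |s1w s y S d| ≤ 1 := by
  have hS : 0 < S := hSd ▸ s1_S_pos s y hy
  have hP0 : s.prodPrimes ≠ 0 := BoundingSieve.prodPrimes_ne_zero
  have hdP := Nat.dvd_of_mem_divisors hd
  have hdsq : Squarefree d := BoundingSieve.squarefree_of_dvd_prodPrimes (s := s) hdP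
  have hd0 : 0 < d := Nat.pos_of_ne_zero hdsq.ne_zero
  have hν := BoundingSieve.nu_pos_of_dvd_prodPrimes (s := s) hdP
  set M : Finset ℕ := s.prodPrimes.divisors.filter (fun m => d.Coprime m ∧ d * m ≤ y) with hM
  -- the sum over multiples
  have h1 : ∑ n ∈ (s.prodPrimes.divisors.filter (fun l => l ≤ y)).filter (fun n => d ∣ n),
      s.selbergTerms n = s.selbergTerms d * ∑ m ∈ M, s.selbergTerms m := by
    have h2 : (s.prodPrimes.divisors.filter (fun l => l ≤ y)).filter (fun n => d ∣ n) =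
        M.image (fun m => d * m) := by
      ext n
      simp only [hM, Finset.mem_filter, Finset.mem_image, Nat.mem_divisors]
      constructor
      · rintro ⟨⟨⟨h, _⟩, hny⟩, m, rfl⟩
        have hsq : Squarefree (d * m) := BoundingSieve.squarefree_of_dvd_prodPrimes (s := s) h
        exact ⟨m, ⟨⟨(Dvd.intro_left d rfl).trans h, hP0⟩, (Nat.squarefree_mul_iff.1 hsq).1, hny⟩,
          rfl⟩
      · rintro ⟨m, ⟨⟨h, _⟩, hc, hmy⟩, rfl⟩
        exact ⟨⟨⟨hc.mul_dvd_of_dvd_of_dvd hdP h, hP0⟩, hmy⟩, Dvd.intro m rfl⟩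
    rw [h2, Finset.sum_image (fun a _ b _ h => Nat.eq_of_mul_eq_mul_left hd0 h), Finset.mul_sum]
    refine Finset.sum_congr rfl fun m hm => ?_
    rw [hM, Finset.mem_filter] at hm
    exact BoundingSieve.selbergTerms_isMultiplicative.map_mul_of_coprime hm.2.1
  have h3 : s.selbergTerms d * (s.nu d)⁻¹ = ∑ k ∈ d.divisors, s.selbergTerms k := by
    rw [← BoundingSieve.sum_divisors_selbergTerms_eq_selbergTerms_mul_nu_inv hdP,
      ← Finset.sum_filter, Nat.divisors_filter_dvd_of_dvd hP0 hdP]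
  have h4 : (∑ k ∈ d.divisors, s.selbergTerms k) * ∑ m ∈ M, s.selbergTerms m ≤ S := by
    rw [Finset.sum_mul_sum, ← Finset.sum_product', hSd]
    have h5 : ∑ x ∈ d.divisors ×ˢ M, s.selbergTerms x.1 * s.selbergTerms x.2 =
        ∑ n ∈ (d.divisors ×ˢ M).image (fun x => x.1 * x.2), s.selbergTerms n := by
      rw [Finset.sum_image]
      · refine Finset.sum_congr rfl fun x hx => ?_
        rw [Finset.mem_product, hM, Finset.mem_filter] at hx
        exact (BoundingSieve.selbergTerms_isMultiplicative.map_mul_of_coprime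
          (hx.2.2.1.coprime_dvd_left (Nat.dvd_of_mem_divisors hx.1))).symm
      · rintro ⟨k, m⟩ hx ⟨k', m'⟩ hx' h
        rw [Finset.mem_coe, Finset.mem_product, hM, Finset.mem_filter] at hx hx'
        simp only at h hx hx'
        have hk : k = k' := by
          have e1 : Nat.gcd (k * m) d = k := by
            rw [Nat.Coprime.gcd_mul_right_cancel _ hx.2.2.1.symm]
            exact Nat.gcd_eq_left (Nat.dvd_of_mem_divisors hx.1)
          have e2 : Nat.gcd (k' * m') d = k' := by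
            rw [Nat.Coprime.gcd_mul_right_cancel _ hx'.2.2.1.symm]
            exact Nat.gcd_eq_left (Nat.dvd_of_mem_divisors hx'.1)
          rw [← e1, ← e2, h]
        subst hk
        have hk0 : 0 < k := Nat.pos_of_mem_divisors hx.1
        rw [Nat.eq_of_mul_eq_mul_left hk0 h]
    rw [h5]
    apply Finset.sum_le_sum_of_subset_of_nonneg
    · intro n hn
      obtain ⟨⟨k, m⟩, hx, rfl⟩ := Finset.mem_image.1 hn
      rw [Finset.mem_product, hM, Finset.mem_filter] at hx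
      simp only at hx ⊢
      obtain ⟨hk, hm, hc, hmy⟩ := hx
      have hkd := Nat.dvd_of_mem_divisors hk
      rw [Finset.mem_filter, Nat.mem_divisors]
      refine ⟨⟨(hc.coprime_dvd_left hkd).mul_dvd_of_dvd_of_dvd (hkd.trans hdP)
        (Nat.dvd_of_mem_divisors hm), hP0⟩, ?_⟩
      exact (Nat.mul_le_mul_right m (Nat.le_of_dvd hd0 hkd)).trans hmy
    · intro n hn _
      exact (BoundingSieve.selbergTerms_pos
        (Nat.dvd_of_mem_divisors (Finset.mem_filter.1 hn).1)).le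
  have hgpos : 0 ≤ ∑ n ∈ (s.prodPrimes.divisors.filter (fun l => l ≤ y)).filter
      (fun n => d ∣ n), s.selbergTerms n := by
    apply Finset.sum_nonneg
    intro n hn
    exact (BoundingSieve.selbergTerms_pos (Nat.dvd_of_mem_divisors
      (Finset.mem_filter.1 (Finset.mem_filter.1 hn).1).1)).le
  have hmu : |((ArithmeticFunction.moebius d : ℤ) : ℝ)| = 1 := by
    have h6 := ArithmeticFunction.moebius_sq_eq_one_of_squarefree hdsq
    have h7 : ((ArithmeticFunction.moebius d : ℤ) : ℝ) ^ 2 = 1 := by exact_mod_cast h6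
    have h8 : |((ArithmeticFunction.moebius d : ℤ) : ℝ)| ^ 2 = 1 := by rw [sq_abs, h7]
    have h9 := abs_nonneg (((ArithmeticFunction.moebius d : ℤ) : ℝ))
    nlinarith
  unfold s1w
  rw [abs_mul, abs_mul, abs_mul, hmu, abs_of_pos (inv_pos.2 hν), abs_of_pos (inv_pos.2 hS),
    abs_of_nonneg hgpos, mul_one, h1]
  have h8 : (s.nu d)⁻¹ * S⁻¹ * (s.selbergTerms d * ∑ m ∈ M, s.selbergTerms m) =
      ((∑ k ∈ d.divisors, s.selbergTerms k) * ∑ m ∈ M, s.selbergTerms m) / S := by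
    rw [← h3]
    ring
  rw [h8, div_le_one hS]
  exact h4

private theorem s1_zero (S : ℝ) (d : ℕ) (hd : y < d) : s1w s y S d = 0 := by
  unfold s1w
  have : (s.prodPrimes.divisors.filter (fun l => l ≤ y)).filter (fun n => d ∣ n) = ∅ := by
    rw [Finset.filter_eq_empty_iff]
    intro n hn hdn
    rw [Finset.mem_filter] at hn
    have := Nat.le_of_dvd (Nat.pos_of_mem_divisors hn.1) hdn
    omega
  rw [this, Finset.sum_empty, mul_zero]

/-- (5) -/
private theorem s1_err (hy : 1 ≤ y) (S : ℝ)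
    (hSd : S = ∑ l ∈ s.prodPrimes.divisors.filter (fun l => l ≤ y), s.selbergTerms l) :
    s.errSum (BoundingSieve.lambdaSquared (s1w s y S)) ≤
      ∑ d₁ ∈ s.prodPrimes.divisors.filter (fun l => l ≤ y),
          ∑ d₂ ∈ s.prodPrimes.divisors.filter (fun l => l ≤ y), |s.rem (Nat.lcm d₁ d₂)| := by
  have hP0 : s.prodPrimes ≠ 0 := BoundingSieve.prodPrimes_ne_zero
  unfold BoundingSieve.errSum
  have h1 : ∀ d ∈ s.prodPrimes.divisors,
      |BoundingSieve.lambdaSquared (s1w s y S) d| * |s.rem d| ≤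
      ∑ d₁ ∈ s.prodPrimes.divisors, ∑ d₂ ∈ s.prodPrimes.divisors,
        if d = Nat.lcm d₁ d₂ then |s1w s y S d₁| * |s1w s y S d₂| * |s.rem (Nat.lcm d₁ d₂)|
          else 0 := by
    intro d hd
    have hdP := Nat.dvd_of_mem_divisors hd
    unfold BoundingSieve.lambdaSquared
    have h2 : |∑ d1 ∈ d.divisors, ∑ d2 ∈ d.divisors,
        if d = Nat.lcm d1 d2 then s1w s y S d1 * s1w s y S d2 else 0| ≤
        ∑ d1 ∈ d.divisors, ∑ d2 ∈ d.divisors,
          if d = Nat.lcm d1 d2 then |s1w s y S d1| * |s1w s y S d2| else 0 := by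
      refine (Finset.abs_sum_le_sum_abs _ _).trans (Finset.sum_le_sum fun d1 _ => ?_)
      refine (Finset.abs_sum_le_sum_abs _ _).trans (Finset.sum_le_sum fun d2 _ => ?_)
      split_ifs
      · rw [abs_mul]
      · rw [abs_zero]
    refine (mul_le_mul_of_nonneg_right h2 (abs_nonneg _)).trans ?_
    rw [Finset.sum_mul]
    have hsub : d.divisors ⊆ s.prodPrimes.divisors := Nat.divisors_subset_of_dvd hP0 hdP
    have hnn : ∀ d1 d2 : ℕ, 0 ≤ (if d = Nat.lcm d1 d2 then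
        |s1w s y S d1| * |s1w s y S d2| * |s.rem (Nat.lcm d1 d2)| else 0) := by
      intro d1 d2
      split_ifs
      · positivity
      · exact le_rfl
    have h3 : ∀ d1 ∈ d.divisors, (∑ d2 ∈ d.divisors,
          if d = Nat.lcm d1 d2 then |s1w s y S d1| * |s1w s y S d2| else 0) * |s.rem d| ≤
        ∑ d2 ∈ s.prodPrimes.divisors, if d = Nat.lcm d1 d2 then
          |s1w s y S d1| * |s1w s y S d2| * |s.rem (Nat.lcm d1 d2)| else 0 := by
      intro d1 _
      rw [Finset.sum_mul]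
      refine le_trans (le_of_eq ?_)
        (Finset.sum_le_sum_of_subset_of_nonneg hsub fun d2 _ _ => hnn d1 d2)
      refine Finset.sum_congr rfl fun d2 _ => ?_
      by_cases h : d = Nat.lcm d1 d2
      · rw [if_pos h, if_pos h, ← h]
      · rw [if_neg h, if_neg h, zero_mul]
    refine (Finset.sum_le_sum h3).trans ?_
    exact Finset.sum_le_sum_of_subset_of_nonneg hsub fun d1 _ _ =>
      Finset.sum_nonneg fun d2 _ => hnn d1 d2
  refine (Finset.sum_le_sum h1).trans ?_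
  rw [Finset.sum_comm]
  have h4 : ∀ d₁ ∈ s.prodPrimes.divisors, (∑ d ∈ s.prodPrimes.divisors,
      ∑ d₂ ∈ s.prodPrimes.divisors,
        if d = Nat.lcm d₁ d₂ then |s1w s y S d₁| * |s1w s y S d₂| * |s.rem (Nat.lcm d₁ d₂)|
          else 0) =
      ∑ d₂ ∈ s.prodPrimes.divisors,
        |s1w s y S d₁| * |s1w s y S d₂| * |s.rem (Nat.lcm d₁ d₂)| := by
    intro d₁ hd₁
    rw [Finset.sum_comm]
    refine Finset.sum_congr rfl fun d₂ hd₂ => ?_
    rw [Finset.sum_ite_eq', if_pos]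
    exact Nat.mem_divisors.2 ⟨Nat.lcm_dvd (Nat.dvd_of_mem_divisors hd₁)
      (Nat.dvd_of_mem_divisors hd₂), hP0⟩
  rw [Finset.sum_congr rfl h4]
  have hb : ∀ d ∈ s.prodPrimes.divisors, |s1w s y S d| ≤ if d ≤ y then 1 else 0 := by
    intro d hd
    by_cases h : d ≤ y
    · rw [if_pos h]
      exact s1_bound s y hy S hSd d hd
    · rw [if_neg h, s1_zero s y S d (by omega), abs_zero]
  rw [Finset.sum_filter]
  refine Finset.sum_le_sum fun d₁ hd₁ => ?_
  rw [Finset.sum_filter]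
  have h5 := hb d₁ hd₁
  by_cases hy1 : d₁ ≤ y
  · rw [if_pos hy1] at h5 ⊢
    refine Finset.sum_le_sum fun d₂ hd₂ => ?_
    have h6 := hb d₂ hd₂
    by_cases hy2 : d₂ ≤ y
    · rw [if_pos hy2] at h6 ⊢
      have h7 : |s1w s y S d₁| * |s1w s y S d₂| ≤ 1 := mul_le_one₀ h5 (abs_nonneg _) h6
      calc _ ≤ 1 * |s.rem (Nat.lcm d₁ d₂)| := mul_le_mul_of_nonneg_right h7 (abs_nonneg _)
        _ = _ := one_mul _
    · rw [if_neg hy2] at h6 ⊢
      have h7 : |s1w s y S d₂| = 0 := le_antisymm h6 (abs_nonneg _)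
      rw [h7, mul_zero, zero_mul]
  · rw [if_neg hy1] at h5 ⊢
    have h7 : |s1w s y S d₁| = 0 := le_antisymm h5 (abs_nonneg _)
    refine le_of_eq (Finset.sum_eq_zero fun d₂ _ => ?_)
    rw [h7, zero_mul, zero_mul]

theorem selberg_sieve (s : BoundingSieve) (y : ℕ) (hy : 1 ≤ y) :
    s.siftedSum ≤ s.totalMass /
        (∑ l ∈ s.prodPrimes.divisors.filter (fun l => l ≤ y), s.selbergTerms l)
      + ∑ d₁ ∈ s.prodPrimes.divisors.filter (fun l => l ≤ y),
          ∑ d₂ ∈ s.prodPrimes.divisors.filter (fun l => l ≤ y), |s.rem (Nat.lcm d₁ d₂)| := by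
  obtain ⟨S, hSd⟩ : ∃ S, S = ∑ l ∈ s.prodPrimes.divisors.filter (fun l => l ≤ y),
    s.selbergTerms l := ⟨_, rfl⟩
  have hS : 0 < S := hSd ▸ s1_S_pos s y hy
  have h1 := BoundingSieve.siftedSum_le_mainSum_errSum_of_upperMoebius (s := s)
    (BoundingSieve.lambdaSquared (s1w s y S))
    (BoundingSieve.upperMoebius_lambdaSquared _ (s1_one s y S hS.ne' hSd))
  rw [s1_main s y hy S hSd] at h1
  have h2 := s1_err s y hy S hSd
  rw [← hSd, div_eq_mul_inv]
  linarith

end MP293bbf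
end

section

section

/-!
S2. Counting `n ≤ X` with `q ∣ n (n + d)` for squarefree `q` coprime to `d`.

PROOF. If `q ∣ n (n + d)` put `a = gcd(q, n)`, `b = q / a`. Since `q` is squarefree, `a` and `b` are
coprime, `b` is coprime to `n`, so `b ∣ n + d`.  Conversely, for a factorisation `q = a b`
with `a ∣ n` and `b ∣ n + d` we have `gcd(b, n) ∣ d` and `gcd(b,n) ∣ q`, so `gcd(b, n) = 1`
(`q` coprime to `d`) and `a = gcd(q, n)`.  So the set is the disjoint union over `a ∈ divisors q` of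
`{n : a ∣ n, q / a ∣ n + d}`; each of these is, by the Chinese remainder theorem, one residue class
mod `q` and has between `X / q - 1` and `X / q + 1` elements in `[1, X]`
(`Nat.count_modEq_card`, `Nat.Ioc_filter_modEq_card` or directly).
-/

open Finset

namespace MP293bbf

theorem s2_card_modEq (X q v : ℕ) (hq : 0 < q) :
    |(((Icc 1 X).filter (fun n => n ≡ v [MOD q])).card : ℝ) - (X : ℝ) / q| ≤ 1 := by
  have h1 : Icc 1 X = Ioc 0 X := by
    ext n
    simp only [mem_Icc, mem_Ioc]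
    omega
  rw [h1]
  have h2 := Nat.Ioc_filter_modEq_card 0 X hq v
  have hqQ : (0 : ℚ) < q := by exact_mod_cast hq
  have h3 : ((0 : ℕ) - (v : ℚ)) / (q : ℚ) ≤ ((X : ℚ) - v) / q := by
    apply div_le_div_of_nonneg_right _ hqQ.le
    have : (0 : ℚ) ≤ X := Nat.cast_nonneg X
    push_cast
    linarith
  have h4 : ⌊((0 : ℕ) - (v : ℚ)) / (q : ℚ)⌋ ≤ ⌊((X : ℚ) - v) / q⌋ := Int.floor_le_floor h3
  rw [max_eq_left (by linarith)] at h2
  have h5 : ((#{x ∈ Ioc 0 X | x ≡ v [MOD q]} : ℤ) : ℚ)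
      = (⌊((X : ℚ) - v) / q⌋ : ℚ) - (⌊((0 : ℕ) - (v : ℚ)) / (q : ℚ)⌋ : ℚ) := by
    rw [h2]
    push_cast
    ring
  have a1 := Int.floor_le (((X : ℚ) - v) / q)
  have a2 := Int.lt_floor_add_one (((X : ℚ) - v) / q)
  have b1 := Int.floor_le (((0 : ℕ) - (v : ℚ)) / (q : ℚ))
  have b2 := Int.lt_floor_add_one (((0 : ℕ) - (v : ℚ)) / (q : ℚ))
  have h6 : ((X : ℚ) - v) / q - ((0 : ℕ) - (v : ℚ)) / (q : ℚ) = (X : ℚ) / q := by
    push_cast
    ring
  have h7 : |((#{x ∈ Ioc 0 X | x ≡ v [MOD q]} : ℤ) : ℚ) - (X : ℚ) / q| ≤ 1 := by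
    rw [h5, abs_le]
    constructor
    · linarith
    · linarith
  have h8 : ((|((#{x ∈ Ioc 0 X | x ≡ v [MOD q]} : ℤ) : ℚ) - (X : ℚ) / q| : ℚ) : ℝ) ≤ 1 := by
    exact_mod_cast h7
  push_cast at h8
  exact h8

theorem s2_iff (n d q a : ℕ) (hq : Squarefree q) (hc : q.Coprime d) (ha : a ∣ q) :
    (q ∣ n * (n + d) ∧ q.gcd n = a) ↔ (a ∣ n ∧ q / a ∣ n + d) := by
  obtain ⟨b, rfl⟩ := ha
  have hne : a * b ≠ 0 := hq.ne_zero
  have ha0 : 0 < a := Nat.pos_of_ne_zero (fun h => hne (by simp [h]))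
  have hab : a.Coprime b := Nat.coprime_of_squarefree_mul hq
  rw [Nat.mul_div_cancel_left b ha0]
  constructor
  · rintro ⟨h1, h2⟩
    have h3 : a ∣ n := h2 ▸ Nat.gcd_dvd_right (a * b) n
    refine ⟨h3, ?_⟩
    have h4 : b.Coprime n := by
      have h5 : b.gcd n ∣ a := by
        rw [← h2]
        exact Nat.dvd_gcd ((Nat.gcd_dvd_left b n).trans (Dvd.intro_left a rfl))
          (Nat.gcd_dvd_right b n)
      have h6 : b.gcd n ∣ a.gcd b := Nat.dvd_gcd (by simpa [h2] using h5) (Nat.gcd_dvd_left b n)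
      rw [hab.gcd_eq_one] at h6
      exact Nat.dvd_one.mp h6
    have h7 : b ∣ n * (n + d) := (Dvd.intro_left a rfl).trans h1
    exact h4.dvd_of_dvd_mul_left h7
  · rintro ⟨h1, h2⟩
    refine ⟨Nat.mul_dvd_mul h1 h2, ?_⟩
    have h4 : b.Coprime n := by
      have h5 : b.gcd n ∣ d := by
        have h6 : b.gcd n ∣ n + d := (Nat.gcd_dvd_left b n).trans h2
        exact (Nat.dvd_add_right (Nat.gcd_dvd_right b n)).mp h6
      have h7 : b.gcd n ∣ a * b := (Nat.gcd_dvd_left b n).trans (Dvd.intro_left a rfl)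
      have h8 : b.gcd n ∣ (a * b).gcd d := Nat.dvd_gcd h7 h5
      rw [hc.gcd_eq_one] at h8
      exact Nat.dvd_one.mp h8
    rw [Nat.Coprime.gcd_mul_right_cancel a h4]
    exact Nat.gcd_eq_left h1

theorem s2_crt (d q a : ℕ) (hq : Squarefree q) (ha : a ∣ q) :
    ∃ v : ℕ, ∀ n : ℕ, (a ∣ n ∧ q / a ∣ n + d) ↔ n ≡ v [MOD q] := by
  obtain ⟨b, rfl⟩ := ha
  have hne : a * b ≠ 0 := hq.ne_zero
  have ha0 : 0 < a := Nat.pos_of_ne_zero (fun h => hne (by simp [h]))
  have hb0 : 0 < b := Nat.pos_of_ne_zero (fun h => hne (by simp [h]))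
  have hab : a.Coprime b := Nat.coprime_of_squarefree_mul hq
  rw [Nat.mul_div_cancel_left b ha0]
  obtain ⟨v, hv1, hv2⟩ := Nat.chineseRemainder hab 0 (b * d - d)
  have hbd : b * d - d + d = b * d := Nat.sub_add_cancel (Nat.le_mul_of_pos_left d hb0)
  refine ⟨v, fun n => ?_⟩
  rw [← Nat.modEq_and_modEq_iff_modEq_mul hab]
  have e1 : a ∣ n ↔ n ≡ v [MOD a] := by
    constructor
    · intro h
      exact ((Nat.modEq_zero_iff_dvd).mpr h).trans hv1.symm
    · intro h
      exact (Nat.modEq_zero_iff_dvd).mp (h.trans hv1)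
  have e2 : b ∣ n + d ↔ n ≡ v [MOD b] := by
    constructor
    · intro h
      have h1 : n + d ≡ 0 [MOD b] := (Nat.modEq_zero_iff_dvd).mpr h
      have h2 : v + d ≡ 0 [MOD b] := by
        have h3 : v + d ≡ b * d - d + d [MOD b] := Nat.ModEq.add_right d hv2
        rw [hbd] at h3
        exact h3.trans ((Nat.modEq_zero_iff_dvd).mpr (Dvd.intro d rfl))
      exact Nat.ModEq.add_right_cancel' d (h1.trans h2.symm)
    · intro h
      have h3 : n + d ≡ b * d - d + d [MOD b] := Nat.ModEq.add_right d (h.trans hv2)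
      rw [hbd] at h3
      exact (Nat.modEq_zero_iff_dvd).mp
        (h3.trans ((Nat.modEq_zero_iff_dvd).mpr (Dvd.intro d rfl)))
  rw [e1, e2]

theorem count_dvd (X d q : ℕ) (hq : Squarefree q) (hc : q.Coprime d) :
    |(((Icc 1 X).filter (fun n => q ∣ n * (n + d))).card : ℝ) - (q.divisors.card : ℝ) / q * X|
      ≤ q.divisors.card := by
  have hq0 : 0 < q := Nat.pos_of_ne_zero hq.ne_zero
  have h1 : ((Icc 1 X).filter (fun n => q ∣ n * (n + d))).card
      = ∑ a ∈ q.divisors,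
        (((Icc 1 X).filter (fun n => q ∣ n * (n + d))).filter (fun n => q.gcd n = a)).card := by
    apply Finset.card_eq_sum_card_fiberwise
    intro n _
    simp only [Finset.mem_coe, Nat.mem_divisors]
    exact ⟨Nat.gcd_dvd_left q n, hq.ne_zero⟩
  have h2 : ∀ a ∈ q.divisors,
      |((((Icc 1 X).filter (fun n => q ∣ n * (n + d))).filter (fun n => q.gcd n = a)).card : ℝ)
        - (X : ℝ) / q| ≤ 1 := by
    intro a ha
    have ha' : a ∣ q := Nat.dvd_of_mem_divisors ha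
    obtain ⟨v, hv⟩ := s2_crt d q a hq ha'
    have h3 : ((Icc 1 X).filter (fun n => q ∣ n * (n + d))).filter (fun n => q.gcd n = a)
        = (Icc 1 X).filter (fun n => n ≡ v [MOD q]) := by
      rw [Finset.filter_filter]
      apply Finset.filter_congr
      intro n _
      rw [s2_iff n d q a hq hc ha', hv n]
    rw [h3]
    exact s2_card_modEq X q v hq0
  have h4 : (((Icc 1 X).filter (fun n => q ∣ n * (n + d))).card : ℝ)
        - (q.divisors.card : ℝ) / q * X
      = ∑ a ∈ q.divisors,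
        (((((Icc 1 X).filter (fun n => q ∣ n * (n + d))).filter
          (fun n => q.gcd n = a)).card : ℝ) - (X : ℝ) / q) := by
    rw [Finset.sum_sub_distrib, Finset.sum_const, nsmul_eq_mul]
    conv_lhs => rw [h1]
    push_cast
    ring
  rw [h4]
  calc |∑ a ∈ q.divisors,
        (((((Icc 1 X).filter (fun n => q ∣ n * (n + d))).filter
          (fun n => q.gcd n = a)).card : ℝ) - (X : ℝ) / q)|
      ≤ ∑ a ∈ q.divisors,
        |(((((Icc 1 X).filter (fun n => q ∣ n * (n + d))).filter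
          (fun n => q.gcd n = a)).card : ℝ) - (X : ℝ) / q)| := Finset.abs_sum_le_sum_abs _ _
    _ ≤ ∑ a ∈ q.divisors, (1 : ℝ) := Finset.sum_le_sum h2
    _ = q.divisors.card := by simp

end MP293bbf
end

section

/-!
S4. `(Σ_{a ≤ z, squarefree, coprime to m} 1/a)² ≤ 2 Σ_{q ≤ z², squarefree, coprime to m} τ(q)/q`.

PROOF. Expand the square: pairs `(a, b)`. Put `g = gcd(a, b)`, `a = g a'`, `b = g b'`; then
`g, a', b'` are pairwise coprime and squarefree, `q = a' b' ≤ z²` is squarefree and coprime to `m`,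
and `1/(a b) = 1/g² * 1/q`. The map `(a, b) ↦ (g, q, a')` is injective with `g ≤ z`, `a' ∣ q`.
So the square is at most `(Σ_{g ≤ z} 1/g²) * Σ_q (1/q) τ(q)` and `Σ_{g ≤ z} 1/g² ≤ 2`
(e.g. `1/g² ≤ 1/(g-1) - 1/g`).
-/

open Finset

namespace MP293bbf

theorem sum_inv_sq_succ (n : ℕ) :
    ∑ g ∈ Icc 1 (n + 1), ((1 : ℝ) / g) ^ 2 ≤ 2 - 1 / ((n : ℝ) + 1) := by
  induction n with
  | zero => norm_num
  | succ n ih =>
    rw [Finset.sum_Icc_succ_top (by omega)]
    have h1 : (0 : ℝ) < (n : ℝ) + 1 := by positivity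
    have h2 : (0 : ℝ) < (n : ℝ) + 1 + 1 := by positivity
    push_cast
    have h3 : ((1 : ℝ) / ((n : ℝ) + 1 + 1)) ^ 2 ≤ 1 / ((n : ℝ) + 1) - 1 / ((n : ℝ) + 1 + 1) := by
      rw [div_pow, one_pow, div_sub_div _ _ h1.ne' h2.ne', div_le_div_iff₀ (by positivity)
        (by positivity)]
      nlinarith
    linarith

theorem sum_inv_sq_le (z : ℕ) : ∑ g ∈ Icc 1 z, ((1 : ℝ) / g) ^ 2 ≤ 2 := by
  cases z with
  | zero => simp
  | succ n =>
    have h := sum_inv_sq_succ n
    have : (0 : ℝ) ≤ 1 / ((n : ℝ) + 1) := by positivity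
    linarith

theorem sq2_lower (m z : ℕ) : (sqf m z) ^ 2 ≤ 2 * sq2 m (z ^ 2) := by
  classical
  set A : Finset ℕ := (Icc 1 z).filter (fun a => Squarefree a ∧ a.Coprime m) with hA
  set Q : Finset ℕ := (Icc 1 (z ^ 2)).filter (fun q => Squarefree q ∧ q.Coprime m) with hQ
  have hsq : (sqf m z) ^ 2 = ∑ x ∈ A ×ˢ A, (1 : ℝ) / x.1 * (1 / x.2) := by
    rw [sq, sqf, sum_mul_sum, sum_product]
  let f : ℕ × ℕ → ℕ × (Σ _ : ℕ, ℕ) := fun x =>
    (Nat.gcd x.1 x.2, ⟨(x.1 / Nat.gcd x.1 x.2) * (x.2 / Nat.gcd x.1 x.2), x.1 / Nat.gcd x.1 x.2⟩)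
  let w : ℕ × (Σ _ : ℕ, ℕ) → ℝ := fun y => ((1 : ℝ) / y.1) ^ 2 * (1 / (y.2.1 : ℝ))
  have hmem : ∀ x ∈ A ×ˢ A, ((1 ≤ x.1 ∧ x.1 ≤ z) ∧ Squarefree x.1 ∧ x.1.Coprime m) ∧
      ((1 ≤ x.2 ∧ x.2 ≤ z) ∧ Squarefree x.2 ∧ x.2.Coprime m) := by
    intro x hx
    simpa [hA] using hx
  have hw : ∀ x ∈ A ×ˢ A, (1 : ℝ) / x.1 * (1 / x.2) = w (f x) := by
    rintro ⟨a, b⟩ hx
    obtain ⟨⟨⟨ha1, haz⟩, hasq, ham⟩, ⟨⟨hb1, hbz⟩, hbsq, hbm⟩⟩ := hmem _ hx
    simp only at ha1 haz hasq ham hb1 hbz hbsq hbm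
    have hg : 0 < Nat.gcd a b := Nat.gcd_pos_of_pos_left _ ha1
    obtain ⟨a', ha'⟩ := Nat.gcd_dvd_left a b
    obtain ⟨b', hb'⟩ := Nat.gcd_dvd_right a b
    have e1 : a / Nat.gcd a b = a' := Nat.div_eq_of_eq_mul_right hg ha'
    have e2 : b / Nat.gcd a b = b' := Nat.div_eq_of_eq_mul_right hg hb'
    simp only [f, w, e1, e2]
    have hga : (a : ℝ) = (Nat.gcd a b : ℝ) * a' := by exact_mod_cast ha'
    have hgb : (b : ℝ) = (Nat.gcd a b : ℝ) * b' := by exact_mod_cast hb'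
    have hg' : (Nat.gcd a b : ℝ) ≠ 0 := by exact_mod_cast hg.ne'
    have ha'0 : (a' : ℝ) ≠ 0 := by
      intro h; rw [h, mul_zero] at hga; have : (1 : ℝ) ≤ a := by exact_mod_cast ha1
      linarith
    have hb'0 : (b' : ℝ) ≠ 0 := by
      intro h; rw [h, mul_zero] at hgb; have : (1 : ℝ) ≤ b := by exact_mod_cast hb1
      linarith
    generalize (Nat.gcd a b : ℝ) = G at *
    rw [hga, hgb]
    push_cast
    field_simp
  have hmaps : ∀ x ∈ A ×ˢ A, f x ∈ (Icc 1 z) ×ˢ (Q.sigma (fun q => q.divisors)) := by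
    rintro ⟨a, b⟩ hx
    obtain ⟨⟨⟨ha1, haz⟩, hasq, ham⟩, ⟨⟨hb1, hbz⟩, hbsq, hbm⟩⟩ := hmem _ hx
    simp only at ha1 haz hasq ham hb1 hbz hbsq hbm
    have hg : 0 < Nat.gcd a b := Nat.gcd_pos_of_pos_left _ ha1
    obtain ⟨a', ha'⟩ := Nat.gcd_dvd_left a b
    obtain ⟨b', hb'⟩ := Nat.gcd_dvd_right a b
    have e1 : a / Nat.gcd a b = a' := Nat.div_eq_of_eq_mul_right hg ha'
    have e2 : b / Nat.gcd a b = b' := Nat.div_eq_of_eq_mul_right hg hb'
    have hcop : Nat.Coprime a' b' := by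
      have := Nat.coprime_div_gcd_div_gcd hg
      rwa [e1, e2] at this
    have hda : a' ∣ a := ⟨Nat.gcd a b, by rw [mul_comm]; exact ha'⟩
    have hdb : b' ∣ b := ⟨Nat.gcd a b, by rw [mul_comm]; exact hb'⟩
    have hsa : Squarefree a' := hasq.squarefree_of_dvd hda
    have hsb : Squarefree b' := hbsq.squarefree_of_dvd hdb
    have ha'1 : 1 ≤ a' := Nat.pos_of_dvd_of_pos hda ha1
    have hb'1 : 1 ≤ b' := Nat.pos_of_dvd_of_pos hdb hb1
    have ha'z : a' ≤ z := (Nat.le_of_dvd ha1 hda).trans haz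
    have hb'z : b' ≤ z := (Nat.le_of_dvd hb1 hdb).trans hbz
    simp only [f, e1, e2, mem_product, mem_sigma, mem_Icc, hQ, mem_filter, Nat.mem_divisors]
    refine ⟨⟨hg, (Nat.le_of_dvd ha1 (Nat.gcd_dvd_left a b)).trans haz⟩, ⟨⟨?_, ?_⟩, ?_, ?_⟩,
      Dvd.intro _ rfl, ?_⟩
    · exact Nat.mul_pos ha'1 hb'1
    · rw [sq]; exact Nat.mul_le_mul ha'z hb'z
    · exact (Nat.squarefree_mul hcop).2 ⟨hsa, hsb⟩
    · exact Nat.Coprime.mul_left (ham.coprime_dvd_left hda) (hbm.coprime_dvd_left hdb)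
    · exact (Nat.mul_pos ha'1 hb'1).ne'
  have hinj : Set.InjOn f (A ×ˢ A : Finset (ℕ × ℕ)) := by
    rintro ⟨a, b⟩ hx ⟨c, d⟩ hy hxy
    obtain ⟨⟨⟨ha1, haz⟩, hasq, ham⟩, ⟨⟨hb1, hbz⟩, hbsq, hbm⟩⟩ := hmem _ hx
    obtain ⟨⟨⟨hc1, hcz⟩, hcsq, hcm⟩, ⟨⟨hd1, hdz⟩, hdsq, hdm⟩⟩ := hmem _ hy
    simp only at ha1 haz hasq ham hb1 hbz hbsq hbm hc1 hcz hcsq hcm hd1 hdz hdsq hdm
    have hg : 0 < Nat.gcd a b := Nat.gcd_pos_of_pos_left _ ha1
    have hg2 : 0 < Nat.gcd c d := Nat.gcd_pos_of_pos_left _ hc1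
    obtain ⟨a', ha'⟩ := Nat.gcd_dvd_left a b
    obtain ⟨b', hb'⟩ := Nat.gcd_dvd_right a b
    obtain ⟨c', hc'⟩ := Nat.gcd_dvd_left c d
    obtain ⟨d', hd'⟩ := Nat.gcd_dvd_right c d
    have e1 : a / Nat.gcd a b = a' := Nat.div_eq_of_eq_mul_right hg ha'
    have e2 : b / Nat.gcd a b = b' := Nat.div_eq_of_eq_mul_right hg hb'
    have e3 : c / Nat.gcd c d = c' := Nat.div_eq_of_eq_mul_right hg2 hc'
    have e4 : d / Nat.gcd c d = d' := Nat.div_eq_of_eq_mul_right hg2 hd'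
    simp only [f, e1, e2, e3, e4, Prod.mk.injEq, Sigma.mk.injEq, heq_eq_eq] at hxy
    obtain ⟨h1, h2, h3⟩ := hxy
    have ha'0 : 0 < a' := by
      rcases Nat.eq_zero_or_pos a' with h | h
      · rw [h, mul_zero] at ha'; omega
      · exact h
    subst h3
    have h4 : b' = d' := Nat.eq_of_mul_eq_mul_left ha'0 h2
    subst h4
    rw [h1] at ha' hb'
    rw [Prod.mk.injEq]
    exact ⟨ha'.trans hc'.symm, hb'.trans hd'.symm⟩
  have hwnn : ∀ y, 0 ≤ w y := fun y => by positivity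
  calc (sqf m z) ^ 2 = ∑ x ∈ A ×ˢ A, w (f x) := by rw [hsq]; exact sum_congr rfl hw
    _ = ∑ y ∈ (A ×ˢ A).image f, w y := (sum_image hinj).symm
    _ ≤ ∑ y ∈ (Icc 1 z) ×ˢ (Q.sigma (fun q => q.divisors)), w y := by
        refine sum_le_sum_of_subset_of_nonneg ?_ (fun y _ _ => hwnn y)
        intro y hy
        obtain ⟨x, hx, rfl⟩ := mem_image.1 hy
        exact hmaps x hx
    _ = (∑ g ∈ Icc 1 z, ((1 : ℝ) / g) ^ 2) * sq2 m (z ^ 2) := by
        rw [sum_product, sum_mul]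
        refine sum_congr rfl fun g _ => ?_
        simp only [w]
        rw [← mul_sum, sq2, sum_sigma]
        congr 1
        refine sum_congr rfl fun q _ => ?_
        simp only [sum_const, nsmul_eq_mul]
        ring
    _ ≤ 2 * sq2 m (z ^ 2) := by
        refine mul_le_mul_of_nonneg_right (sum_inv_sq_le z) ?_
        exact sum_nonneg fun q _ => div_nonneg (Nat.cast_nonneg _) (Nat.cast_nonneg _)

end MP293bbf
end

section

/-!
S5. Three elementary sums.

`harm_le`: every `n ≤ z` is `n = s² a` with `a` squarefree (`Nat.sq_mul_squarefree`), so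
`Σ_{n ≤ z} 1/n ≤ (Σ_{s ≤ z} 1/s²) (Σ_{a ≤ z squarefree} 1/a) ≤ 2 sqf 1 z`.

`sqf_coprime`: for squarefree `a ≤ z` put `k = gcd(a, m)`, `a = k a'`; then `k ∣ m`, `a' ≤ z` is
squarefree and coprime to `m` (a common prime of `a'` and `m` would divide `k`, so its square would
divide `a`).  The map `a ↦ (k, a')` is injective and `1/a = 1/k * 1/a'`.

`tau_sum`: `Σ_{q ≤ y} τ(q) = Σ_{k ≤ y} ⌊y/k⌋ ≤ y Σ_{k ≤ y} 1/k ≤ y (1 + log y)`
(`harmonic_le_one_add_log`); for `y = 0` both sides are `0`.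
-/

open Finset

namespace MP293bbf

private theorem s5_inv_sq (z : ℕ) : ∑ s ∈ Icc 1 z, (1 : ℝ) / (s : ℝ) ^ 2 ≤ 2 := by
  have key : ∀ n : ℕ, ∑ s ∈ Icc 1 (n + 1), (1 : ℝ) / (s : ℝ) ^ 2 ≤ 2 - 1 / ((n : ℝ) + 1) := by
    intro n
    induction n with
    | zero => simp; norm_num
    | succ n ih =>
      rw [← Finset.insert_Icc_right_eq_Icc_add_one (by omega), Finset.sum_insert (by simp)]
      have h1 : (1 : ℝ) / (((n + 1 + 1 : ℕ) : ℝ)) ^ 2 ≤
          1 / ((n : ℝ) + 1) - 1 / (((n + 1 : ℕ) : ℝ) + 1) := by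
        push_cast
        have ha : (0 : ℝ) < (n : ℝ) + 1 := by positivity
        have hb : (0 : ℝ) < (n : ℝ) + 1 + 1 := by positivity
        rw [div_sub_div _ _ ha.ne' hb.ne', div_le_div_iff₀ (by positivity) (by positivity)]
        nlinarith
      linarith
  cases z with
  | zero => simp
  | succ n =>
    have := key n
    have h2 : (0 : ℝ) < 1 / ((n : ℝ) + 1) := by positivity
    linarith

theorem harm_le (z : ℕ) : ∑ n ∈ Icc 1 z, (1 : ℝ) / n ≤ 2 * sqf 1 z := by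
  classical
  choose a b h using Nat.sq_mul_squarefree
  set φ : ℕ → ℕ × ℕ := fun n => (b n, a n) with hφ
  set P : Finset ℕ := (Icc 1 z).filter (fun a => Squarefree a ∧ a.Coprime 1) with hP
  have hinj : Set.InjOn φ (Icc 1 z : Finset ℕ) := by
    intro n _ m _ hnm
    have h1 := congrArg Prod.fst hnm
    have h2 := congrArg Prod.snd hnm
    simp only [hφ] at h1 h2
    rw [← (h n).1, ← (h m).1, h1, h2]
  have hsub : (Icc 1 z).image φ ⊆ Icc 1 z ×ˢ P := by
    intro x hx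
    rw [Finset.mem_image] at hx
    obtain ⟨n, hn, rfl⟩ := hx
    rw [Finset.mem_Icc] at hn
    have hb0 : 0 < b n := by
      rcases Nat.eq_zero_or_pos (b n) with h0 | h0
      · have := (h n).1
        rw [h0] at this
        simp at this
        omega
      · exact h0
    have ha0 : 0 < a n := by
      rcases Nat.eq_zero_or_pos (a n) with h0 | h0
      · have := (h n).1
        rw [h0] at this
        simp at this
        omega
      · exact h0
    have hbn : b n ≤ n := by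
      calc b n ≤ b n ^ 2 := Nat.le_self_pow (by norm_num) _
        _ ≤ b n ^ 2 * a n := Nat.le_mul_of_pos_right _ ha0
        _ = n := (h n).1
    have han : a n ≤ n := by
      calc a n ≤ b n ^ 2 * a n := Nat.le_mul_of_pos_left _ (by positivity)
        _ = n := (h n).1
    rw [Finset.mem_product]
    refine ⟨Finset.mem_Icc.2 ⟨hb0, by simp only [hφ]; omega⟩, ?_⟩
    rw [hP, Finset.mem_filter]
    exact ⟨Finset.mem_Icc.2 ⟨ha0, by simp only [hφ]; omega⟩, (h n).2, Nat.coprime_one_right _⟩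
  have h1 : ∑ n ∈ Icc 1 z, (1 : ℝ) / n =
      ∑ x ∈ (Icc 1 z).image φ, (1 : ℝ) / (x.1 : ℝ) ^ 2 * (1 / (x.2 : ℝ)) := by
    rw [Finset.sum_image hinj]
    refine Finset.sum_congr rfl (fun n _ => ?_)
    have h2 : (n : ℝ) = (b n : ℝ) ^ 2 * (a n : ℝ) := by
      have := (h n).1
      exact_mod_cast this.symm
    simp only [hφ]
    rw [one_div_mul_one_div, ← h2]
  rw [h1]
  refine (Finset.sum_le_sum_of_subset_of_nonneg hsub (fun x _ _ => by positivity)).trans ?_
  rw [Finset.sum_product]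
  dsimp only
  rw [← Finset.sum_mul_sum]
  unfold sqf
  apply mul_le_mul_of_nonneg_right (s5_inv_sq z)
  exact Finset.sum_nonneg (fun _ _ => by positivity)

theorem sqf_coprime (m z : ℕ) (hm : 0 < m) : sqf 1 z ≤ sig m * sqf m z := by
  classical
  unfold sqf sig
  set φ : ℕ → ℕ × ℕ := fun n => (Nat.gcd n m, n / Nat.gcd n m) with hφ
  set Q : Finset ℕ := (Icc 1 z).filter (fun a => Squarefree a ∧ a.Coprime 1) with hQ
  set P : Finset ℕ := (Icc 1 z).filter (fun a => Squarefree a ∧ a.Coprime m) with hP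
  have hmul : ∀ n, Nat.gcd n m * (n / Nat.gcd n m) = n := fun n =>
    Nat.mul_div_cancel' (Nat.gcd_dvd_left n m)
  have hinj : Set.InjOn φ (Q : Set ℕ) := by
    intro n _ k _ hnk
    have h1 := congrArg Prod.fst hnk
    have h2 := congrArg Prod.snd hnk
    simp only [hφ] at h1 h2
    rw [← hmul n, ← hmul k, h2, h1]
  have hsub : Q.image φ ⊆ m.divisors ×ˢ P := by
    intro x hx
    rw [Finset.mem_image] at hx
    obtain ⟨n, hn, rfl⟩ := hx
    rw [hQ, Finset.mem_filter, Finset.mem_Icc] at hn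
    obtain ⟨⟨hn1, hn2⟩, hsq, -⟩ := hn
    rw [Finset.mem_product]
    refine ⟨Nat.mem_divisors.2 ⟨Nat.gcd_dvd_right n m, hm.ne'⟩, ?_⟩
    rw [hP, Finset.mem_filter, Finset.mem_Icc]
    simp only [hφ]
    have hg : 0 < Nat.gcd n m := Nat.gcd_pos_of_pos_left _ hn1
    have hsq' : Squarefree (Nat.gcd n m * (n / Nat.gcd n m)) := by rw [hmul n]; exact hsq
    rw [Nat.squarefree_mul_iff] at hsq'
    refine ⟨⟨Nat.div_pos (Nat.gcd_le_left m hn1) hg, le_trans (Nat.div_le_self _ _) hn2⟩,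
      hsq'.2.2, ?_⟩
    have h1 : Nat.gcd (n / Nat.gcd n m) m ∣ Nat.gcd n m := by
      apply Nat.dvd_gcd
      · exact (Nat.gcd_dvd_left _ _).trans (Nat.div_dvd_of_dvd (Nat.gcd_dvd_left n m))
      · exact Nat.gcd_dvd_right _ _
    have h2 : Nat.gcd (n / Nat.gcd n m) m ∣ n / Nat.gcd n m := Nat.gcd_dvd_left _ _
    exact Nat.eq_one_of_dvd_coprimes hsq'.1 h1 h2
  have h1 : ∑ n ∈ Q, (1 : ℝ) / n =
      ∑ x ∈ Q.image φ, (1 : ℝ) / (x.1 : ℝ) * (1 / (x.2 : ℝ)) := by
    rw [Finset.sum_image hinj]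
    refine Finset.sum_congr rfl (fun n _ => ?_)
    have h2 : (n : ℝ) = (Nat.gcd n m : ℝ) * ((n / Nat.gcd n m : ℕ) : ℝ) := by
      exact_mod_cast (hmul n).symm
    simp only [hφ]
    rw [one_div_mul_one_div, ← h2]
  rw [h1]
  refine (Finset.sum_le_sum_of_subset_of_nonneg hsub (fun x _ _ => by positivity)).trans ?_
  rw [Finset.sum_product]
  dsimp only
  rw [← Finset.sum_mul_sum]

theorem tau_sum (y : ℕ) : ∑ q ∈ Icc 1 y, (q.divisors.card : ℝ) ≤ y * (1 + Real.log y) := by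
  classical
  have h1 : ∀ q ∈ Icc 1 y, (q.divisors.card : ℝ) =
      ∑ k ∈ Icc 1 y, if k ∣ q then (1 : ℝ) else 0 := by
    intro q hq
    rw [Finset.mem_Icc] at hq
    rw [← Finset.sum_filter, Finset.sum_const, nsmul_eq_mul, mul_one]
    congr 2
    ext k
    rw [Nat.mem_divisors, Finset.mem_filter, Finset.mem_Icc]
    constructor
    · rintro ⟨hk, hq0⟩
      exact ⟨⟨Nat.pos_of_dvd_of_pos hk (by omega), (Nat.le_of_dvd (by omega) hk).trans hq.2⟩, hk⟩
    · rintro ⟨_, hk⟩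
      exact ⟨hk, by omega⟩
  rw [Finset.sum_congr rfl h1, Finset.sum_comm]
  have h2 : ∀ k ∈ Icc 1 y, (∑ q ∈ Icc 1 y, if k ∣ q then (1 : ℝ) else 0) ≤ y * (1 / (k : ℝ)) := by
    intro k _
    rw [← Finset.sum_filter, Finset.sum_const, nsmul_eq_mul, mul_one]
    have h3 : ((Icc 1 y).filter (fun q => k ∣ q)).card = y / k := by
      have := Nat.Ioc_filter_dvd_card_eq_div y k
      rw [← this]
      congr 1
    rw [h3, mul_one_div]
    exact Nat.cast_div_le
  refine (Finset.sum_le_sum h2).trans ?_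
  rw [← Finset.mul_sum]
  apply mul_le_mul_of_nonneg_left _ (Nat.cast_nonneg y)
  have h4 := harmonic_le_one_add_log y
  have h5 : ((harmonic y : ℚ) : ℝ) = ∑ k ∈ Icc 1 y, 1 / (k : ℝ) := by
    rw [harmonic_eq_sum_Icc]
    push_cast
    simp
  rw [← h5]
  exact h4

end MP293bbf
end

section

/-!
S6. Second moment of `σ(d)/d`.

PROOF. `Σ_{d ≤ h} (Σ_{k ∣ d} 1/k)² = Σ_{k, l ≤ h} 1/(k l) #{d ≤ h : lcm(k,l) ∣ d}`
`≤ Σ_{k, l ≤ h} h / (k l lcm(k, l))` and `lcm(k, l) ≥ max(k, l) ≥ sqrt(k l)`, so this is at most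
`h (Σ_{k ≤ h} k^{-3/2})²`, and `Σ_{k ≤ h} k^{-3/2} ≤ 3`
(e.g. by induction `Σ_{k ≤ h} k^{-3/2} ≤ 3 - 2/√h` for `h ≥ 1`:
`1/(h+1)^{3/2} ≤ 2/√h - 2/√(h+1)`).
-/

open Finset

namespace MP293bbf

private theorem s6_step (a b : ℝ) (ha : 0 < a) (hab : a ≤ b) (h : b ^ 2 = a ^ 2 + 1) :
    1 / (b ^ 2 * b) ≤ 2 / a - 2 / b := by
  have hb : 0 < b := ha.trans_le hab
  have h1 : 2 / a - 2 / b - 1 / (b ^ 2 * b) = (2 * b ^ 2 * (b - a) - a) / (a * b ^ 3) := by
    field_simp
  have h2 : 1 ≤ (b - a) * (2 * b) := by nlinarith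
  have h3 : 0 ≤ 2 * b ^ 2 * (b - a) - a := by nlinarith
  have h4 : 0 ≤ (2 * b ^ 2 * (b - a) - a) / (a * b ^ 3) := by positivity
  linarith

private theorem s6_sum (h : ℕ) :
    ∑ k ∈ Icc 1 (h + 1), (1 : ℝ) / (k * Real.sqrt k) ≤ 3 - 2 / Real.sqrt (h + 1 : ℕ) := by
  induction h with
  | zero => norm_num
  | succ h ih =>
    rw [Finset.sum_Icc_succ_top (by omega)]
    have e1 := s6_step (Real.sqrt (h + 1 : ℕ)) (Real.sqrt (h + 1 + 1 : ℕ))
      (Real.sqrt_pos.2 (by positivity)) (Real.sqrt_le_sqrt (by push_cast; linarith)) (by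
        rw [Real.sq_sqrt (by positivity), Real.sq_sqrt (by positivity)]
        push_cast
        ring)
    rw [Real.sq_sqrt (by positivity)] at e1
    linarith

private theorem s6_sum' (h : ℕ) : ∑ k ∈ Icc 1 h, (1 : ℝ) / (k * Real.sqrt k) ≤ 3 := by
  rcases h with _ | h
  · simp
  · have := s6_sum h
    have h2 : 0 ≤ 2 / Real.sqrt (h + 1 : ℕ) := by positivity
    linarith

private theorem s6_card (h k l : ℕ) (hk : 0 < k) (hl : 0 < l) :
    (((Icc 1 h).filter (fun d => k ∣ d ∧ l ∣ d)).card : ℝ) ≤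
      h * ((1 / Real.sqrt k) * (1 / Real.sqrt l)) := by
  obtain ⟨c, hc⟩ : ∃ c, c = ((Icc 1 h).filter (fun d => k ∣ d ∧ l ∣ d)).card := ⟨_, rfl⟩
  rw [← hc]
  have hdiv : ∀ q : ℕ, ((Icc 1 h).filter (fun d => q ∣ d)).card = h / q := fun q =>
    Nat.Ioc_filter_dvd_card_eq_div h q
  have h1 : c ≤ h / k := by
    rw [hc, ← hdiv k]
    exact card_le_card (monotone_filter_right _ fun d _ hd => hd.1)
  have h2 : c ≤ h / l := by
    rw [hc, ← hdiv l]
    exact card_le_card (monotone_filter_right _ fun d _ hd => hd.2)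
  have h3 : (c : ℝ) * k ≤ h := by exact_mod_cast (Nat.le_div_iff_mul_le hk).1 h1
  have h4 : (c : ℝ) * l ≤ h := by exact_mod_cast (Nat.le_div_iff_mul_le hl).1 h2
  have hk' : (0 : ℝ) < k := by exact_mod_cast hk
  have hl' : (0 : ℝ) < l := by exact_mod_cast hl
  have sk := Real.sqrt_pos.2 hk'
  have sl := Real.sqrt_pos.2 hl'
  have h5 : (c : ℝ) * (Real.sqrt k * Real.sqrt l) ≤ h := by
    refine le_of_sq_le_sq ?_ (Nat.cast_nonneg h)
    have : ((c : ℝ) * (Real.sqrt k * Real.sqrt l)) ^ 2 = (c * k) * (c * l) := by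
      rw [mul_pow, mul_pow, Real.sq_sqrt hk'.le, Real.sq_sqrt hl'.le]
      ring
    rw [this, sq]
    exact mul_le_mul h3 h4 (by positivity) (Nat.cast_nonneg h)
  rw [one_div_mul_one_div, mul_one_div, le_div_iff₀ (by positivity)]
  exact h5

private theorem s6_sig (h d : ℕ) (hd : d ∈ Icc 1 h) :
    sig d = ∑ k ∈ Icc 1 h, if k ∣ d then (1 : ℝ) / k else 0 := by
  rw [mem_Icc] at hd
  have : d.divisors = (Icc 1 h).filter (fun k => k ∣ d) := by
    ext k
    rw [Nat.mem_divisors, mem_filter, mem_Icc]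
    constructor
    · rintro ⟨h1, h2⟩
      have h3 := Nat.le_of_dvd (by omega) h1
      have h4 : 0 < k := Nat.pos_of_dvd_of_pos h1 (by omega)
      exact ⟨⟨h4, h3.trans hd.2⟩, h1⟩
    · rintro ⟨h1, h2⟩
      exact ⟨h2, by omega⟩
  rw [sig, this, sum_filter]

theorem sig_sq_sum (h : ℕ) : ∑ d ∈ Icc 1 h, (sig d) ^ 2 ≤ 9 * h := by
  have h1 : ∑ d ∈ Icc 1 h, (sig d) ^ 2 = ∑ k ∈ Icc 1 h, ∑ l ∈ Icc 1 h,
      (((Icc 1 h).filter (fun d => k ∣ d ∧ l ∣ d)).card : ℝ) * (1 / k * (1 / l)) := by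
    have e1 : ∀ d ∈ Icc 1 h, (sig d) ^ 2 = ∑ k ∈ Icc 1 h, ∑ l ∈ Icc 1 h,
        if k ∣ d ∧ l ∣ d then (1 : ℝ) / k * (1 / l) else 0 := by
      intro d hd
      rw [s6_sig h d hd, sq, sum_mul_sum]
      refine sum_congr rfl fun k _ => sum_congr rfl fun l _ => ?_
      by_cases h1 : k ∣ d <;> by_cases h2 : l ∣ d <;> simp [h1, h2]
    rw [sum_congr rfl e1, sum_comm]
    refine sum_congr rfl fun k _ => ?_
    rw [sum_comm]
    refine sum_congr rfl fun l _ => ?_
    rw [← sum_filter, sum_const, nsmul_eq_mul]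
  have h2 : ∑ k ∈ Icc 1 h, ∑ l ∈ Icc 1 h,
      (((Icc 1 h).filter (fun d => k ∣ d ∧ l ∣ d)).card : ℝ) * (1 / k * (1 / l)) ≤
      ∑ k ∈ Icc 1 h, ∑ l ∈ Icc 1 h,
        (h : ℝ) * ((1 / (k * Real.sqrt k)) * (1 / (l * Real.sqrt l))) := by
    refine sum_le_sum fun k hk => sum_le_sum fun l hl => ?_
    rw [mem_Icc] at hk hl
    refine (mul_le_mul_of_nonneg_right (s6_card h k l (by omega) (by omega))
      (by positivity)).trans (le_of_eq ?_)
    rw [one_div_mul_one_div, one_div_mul_one_div, one_div_mul_one_div, mul_assoc,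
      one_div_mul_one_div]
    congr 2
    ring
  have h3 : ∑ k ∈ Icc 1 h, ∑ l ∈ Icc 1 h,
        (h : ℝ) * ((1 / (k * Real.sqrt k)) * (1 / (l * Real.sqrt l))) =
      h * (∑ k ∈ Icc 1 h, (1 : ℝ) / (k * Real.sqrt k)) ^ 2 := by
    rw [sq, sum_mul_sum, mul_sum]
    exact sum_congr rfl fun k _ => by rw [mul_sum]
  rw [h1]
  refine h2.trans ?_
  rw [h3]
  have h4 := s6_sum' h
  have h5 : 0 ≤ ∑ k ∈ Icc 1 h, (1 : ℝ) / (k * Real.sqrt k) := sum_nonneg fun k _ => by positivity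
  have h6 : (∑ k ∈ Icc 1 h, (1 : ℝ) / (k * Real.sqrt k)) ^ 2 ≤ 3 ^ 2 := pow_le_pow_left₀ h5 h4 2
  have h7 : (0 : ℝ) ≤ h := Nat.cast_nonneg h
  nlinarith

end MP293bbf
end

section

/-!
S3. Selberg's sieve for prime pairs `p, p + d`, `d` even (uses `selberg_sieve` (S1) and
`count_dvd` (S2), which may still be `sorry` in their files).

PROOF. Take the `BoundingSieve` with `support = image (fun n => n * (n + d)) (Icc 1 X)`
(the map is injective on `n ≥ 1`, strictly increasing), `weights = 1`, `totalMass = X`,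
`prodPrimes = ∏` of the primes `p ≤ y` not dividing `d` (squarefree, odd since `d` is even),
`nu q = τ(q)/q` (multiplicative; e.g. `ArithmeticFunction` `sigma 0` times `1/id`), so
`0 < nu p = 2/p < 1` since `p ≥ 3`.
* If `p > y`, `p` and `p + d` prime, then `p (p + d)` is coprime to `prodPrimes`, so
  `twin X d ≤ y + siftedSum`.
* divisors of `prodPrimes` which are `≤ y` = squarefree `q ≤ y` coprime to `d`; for these
  `selbergTerms q ≥ nu q = τ(q)/q` (the factors `(1 - nu p)⁻¹` are `≥ 1`), so the denominator in S1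
  is `≥ sq2 d y` (and `sq2 d y ≥ 1`, from `q = 1`).
* `|rem q| ≤ τ(q)` by S2 for `q ∣ prodPrimes` (a divisor is squarefree and coprime to `d`), and
  `τ(lcm(d₁, d₂)) ≤ τ(d₁) τ(d₂)`; hence the error is at most `(Σ_{q ≤ y} τ(q))²`.
-/

open Finset

namespace MP293bbf

/-- the multiplicative function `τ(q)/q`. -/
noncomputable def s3nu : ArithmeticFunction ℝ :=
  ((ArithmeticFunction.sigma 0 : ArithmeticFunction ℕ) : ArithmeticFunction ℝ).pdiv
    ((ArithmeticFunction.id : ArithmeticFunction ℕ) : ArithmeticFunction ℝ)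

theorem s3nu_apply (q : ℕ) : s3nu q = (q.divisors.card : ℝ) / q := by
  simp [s3nu, ArithmeticFunction.sigma_zero_apply]

theorem s3nu_mult : s3nu.IsMultiplicative :=
  ArithmeticFunction.IsMultiplicative.pdiv
    ArithmeticFunction.isMultiplicative_sigma.natCast
    ArithmeticFunction.isMultiplicative_id.natCast

theorem s3nu_prime {p : ℕ} (hp : p.Prime) : s3nu p = 2 / p := by
  rw [s3nu_apply, hp.divisors, Finset.card_pair hp.one_lt.ne]
  norm_num

/-- the primes `p ≤ y` not dividing `d`. -/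
def s3pr (d y : ℕ) : Finset ℕ := (Icc 1 y).filter (fun p => p.Prime ∧ ¬ p ∣ d)

theorem s3sqf (d y : ℕ) : Squarefree (∏ p ∈ s3pr d y, p) := by
  refine Finset.squarefree_prod_of_pairwise_isCoprime (fun p hp q hq hpq => ?_) (fun p hp => ?_)
  · simp only [s3pr, Finset.coe_filter, Set.mem_ofPred_eq] at hp hq
    show IsRelPrime p q
    exact Nat.coprime_iff_isRelPrime.1 ((Nat.coprime_primes hp.2.1 hq.2.1).2 hpq)
  · simp only [s3pr, Finset.mem_filter] at hp
    exact hp.2.1.prime.squarefree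

theorem s3dvd (d y p : ℕ) (hp : p.Prime) (h : p ∣ ∏ p ∈ s3pr d y, p) : p ∈ s3pr d y := by
  obtain ⟨q, hq, hpq⟩ := (Prime.dvd_finsetProd_iff hp.prime _).1 h
  have hq' := hq
  simp only [s3pr, Finset.mem_filter] at hq'
  rw [(Nat.prime_dvd_prime_iff_eq hp hq'.2.1).1 hpq]
  exact hq

theorem s3cop (d y : ℕ) : (∏ p ∈ s3pr d y, p).Coprime d := by
  refine Nat.Coprime.prod_left (fun p hp => ?_)
  simp only [s3pr, Finset.mem_filter] at hp
  exact (Nat.Prime.coprime_iff_not_dvd hp.2.1).2 hp.2.2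

theorem s3inj (d : ℕ) : Function.Injective (fun n : ℕ => n * (n + d)) := by
  have : StrictMono (fun n : ℕ => n * (n + d)) := by
    intro a b hab
    show a * (a + d) < b * (b + d)
    nlinarith
  exact this.injective

/-- the sieve problem. -/
noncomputable def s3sieve (X d y : ℕ) (hde : Even d) : BoundingSieve where
  support := (Icc 1 X).image (fun n => n * (n + d))
  prodPrimes := ∏ p ∈ s3pr d y, p
  prodPrimes_squarefree := s3sqf d y
  weights := fun _ => 1
  weights_nonneg := fun _ => zero_le_one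
  totalMass := X
  nu := s3nu
  nu_mult := s3nu_mult
  nu_pos_of_prime := fun p hp _ => by
    rw [s3nu_prime hp]
    have : (0 : ℝ) < p := by exact_mod_cast hp.pos
    positivity
  nu_lt_one_of_prime := fun p hp h => by
    have h1 := s3dvd d y p hp h
    simp only [s3pr, Finset.mem_filter] at h1
    have h2 : p ≠ 2 := by
      rintro rfl
      exact h1.2.2 hde.two_dvd
    have h3 : 2 < p := lt_of_le_of_ne hp.two_le (Ne.symm h2)
    rw [s3nu_prime hp, div_lt_one (by exact_mod_cast hp.pos)]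
    exact_mod_cast h3

theorem s3tau_mono {a b : ℕ} (h : a ∣ b) (hb : b ≠ 0) : a.divisors.card ≤ b.divisors.card :=
  Finset.card_le_card (Nat.divisors_subset_of_dvd hb h)

theorem s3tau_lcm {a b : ℕ} (ha : a ≠ 0) (hb : b ≠ 0) :
    (Nat.lcm a b).divisors.card ≤ a.divisors.card * b.divisors.card := by
  have h1 : (Nat.lcm a b).divisors ⊆ (a * b).divisors :=
    Nat.divisors_subset_of_dvd (mul_ne_zero ha hb) (Nat.lcm_dvd_mul a b)
  refine (Finset.card_le_card h1).trans ?_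
  rw [Nat.divisors_mul]
  exact Finset.card_mul_le

theorem s3_one_le_sq2 (d y : ℕ) (hy : 1 ≤ y) : 1 ≤ sq2 d y := by
  have h1 : (1 : ℕ) ∈ (Icc 1 y).filter (fun q => Squarefree q ∧ q.Coprime d) := by
    simp [hy]
  have h2 := Finset.single_le_sum (s := (Icc 1 y).filter (fun q => Squarefree q ∧ q.Coprime d))
    (f := fun q : ℕ => (q.divisors.card : ℝ) / q) (fun i _ => by positivity) h1
  simpa [sq2] using h2

/-- squarefree numbers `≤ y` coprime to `d` are the divisors `≤ y` of the product. -/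
theorem s3mem (d y q : ℕ) (h1 : Squarefree q) (h2 : q.Coprime d) (h3 : q ≤ y) :
    q ∣ ∏ p ∈ s3pr d y, p := by
  rw [← Nat.prod_primeFactors_of_squarefree h1]
  refine Finset.prod_dvd_prod_of_subset _ _ _ (fun p hp => ?_)
  have hp1 := Nat.prime_of_mem_primeFactors hp
  have hp2 := Nat.dvd_of_mem_primeFactors hp
  simp only [s3pr, Finset.mem_filter, Finset.mem_Icc]
  have hq0 : 0 < q := Nat.pos_of_ne_zero h1.ne_zero
  refine ⟨⟨hp1.one_lt.le, (Nat.le_of_dvd hq0 hp2).trans h3⟩, hp1, fun h => ?_⟩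
  exact hp1.one_lt.ne' (Nat.eq_one_of_dvd_coprimes h2 hp2 h)

theorem s3_selbergTerms (X d y : ℕ) (hde : Even d) (q : ℕ) (hq : q ∣ ∏ p ∈ s3pr d y, p) :
    (q.divisors.card : ℝ) / q ≤ (s3sieve X d y hde).selbergTerms q := by
  rw [BoundingSieve.selbergTerms_apply]
  have e : (s3sieve X d y hde).nu = s3nu := rfl
  rw [e, s3nu_apply]
  refine le_mul_of_one_le_right (by positivity) ?_
  have key : ∀ p ∈ q.primeFactors, (1 : ℝ) ≤ (1 - s3nu p)⁻¹ := ?_
  · calc (1 : ℝ) = ∏ p ∈ q.primeFactors, (1 : ℝ) := by simp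
      _ ≤ _ := Finset.prod_le_prod (fun _ _ => zero_le_one) key
  intro p hp
  have hp1 := Nat.prime_of_mem_primeFactors hp
  have hp2 := (Nat.dvd_of_mem_primeFactors hp).trans hq
  have a1 := (s3sieve X d y hde).nu_pos_of_prime p hp1 hp2
  have a2 := (s3sieve X d y hde).nu_lt_one_of_prime p hp1 hp2
  rw [e] at a1 a2
  refine (one_le_inv₀ (by linarith)).2 (by linarith)

theorem s3_den (X d y : ℕ) (hde : Even d) :
    sq2 d y ≤ ∑ l ∈ (s3sieve X d y hde).prodPrimes.divisors.filter (fun l => l ≤ y),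
      (s3sieve X d y hde).selbergTerms l := by
  have hP : (s3sieve X d y hde).prodPrimes = ∏ p ∈ s3pr d y, p := rfl
  have hsub : (Icc 1 y).filter (fun q => Squarefree q ∧ q.Coprime d) ⊆
      (s3sieve X d y hde).prodPrimes.divisors.filter (fun l => l ≤ y) := by
    intro q hq
    simp only [Finset.mem_filter, Finset.mem_Icc] at hq
    rw [Finset.mem_filter, Nat.mem_divisors, hP]
    exact ⟨⟨s3mem d y q hq.2.1 hq.2.2 hq.1.2, (s3sqf d y).ne_zero⟩, hq.1.2⟩
  refine le_trans ?_ (Finset.sum_le_sum_of_subset_of_nonneg hsub ?_)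
  · refine Finset.sum_le_sum (fun q hq => ?_)
    have := hsub hq
    rw [Finset.mem_filter, Nat.mem_divisors, hP] at this
    exact s3_selbergTerms X d y hde q this.1.1
  · intro q hq _
    rw [Finset.mem_filter, Nat.mem_divisors] at hq
    exact (BoundingSieve.selbergTerms_pos hq.1.1).le

theorem s3_rem (X d y : ℕ) (hde : Even d) (q : ℕ) (hq : q ∣ ∏ p ∈ s3pr d y, p) :
    |(s3sieve X d y hde).rem q| ≤ q.divisors.card := by
  have h1 : Squarefree q := Squarefree.squarefree_of_dvd hq (s3sqf d y)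
  have h2 : q.Coprime d := Nat.Coprime.coprime_dvd_left hq (s3cop d y)
  have h3 := count_dvd X d q h1 h2
  have h4 : (s3sieve X d y hde).rem q =
      (((Icc 1 X).filter (fun n => q ∣ n * (n + d))).card : ℝ) - (q.divisors.card : ℝ) / q * X := by
    have e1 : (s3sieve X d y hde).multSum q =
        (((Icc 1 X).filter (fun n => q ∣ n * (n + d))).card : ℝ) := by
      unfold BoundingSieve.multSum
      show (∑ n ∈ (Icc 1 X).image (fun n => n * (n + d)), if q ∣ n then (1 : ℝ) else 0) = _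
      rw [Finset.sum_image (fun a _ b _ h => s3inj d h), ← Finset.sum_filter]
      simp
    unfold BoundingSieve.rem
    rw [e1]
    show _ - s3nu q * (X : ℝ) = _
    rw [s3nu_apply]
  rw [h4]
  exact h3

theorem s3_sifted (X d y : ℕ) (hde : Even d) :
    twin X d ≤ y + (s3sieve X d y hde).siftedSum := by
  have e1 : (s3sieve X d y hde).siftedSum =
      (((Icc 1 X).filter (fun n => Nat.Coprime (∏ p ∈ s3pr d y, p) (n * (n + d)))).card : ℝ) := by
    unfold BoundingSieve.siftedSum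
    show (∑ n ∈ (Icc 1 X).image (fun n => n * (n + d)),
      if Nat.Coprime (∏ p ∈ s3pr d y, p) n then (1 : ℝ) else 0) = _
    rw [Finset.sum_image (fun a _ b _ h => s3inj d h), ← Finset.sum_filter]
    simp
  rw [e1]
  unfold twin
  have hsub : (Icc 1 X).filter (fun p => p.Prime ∧ (p + d).Prime) ⊆
      (Icc 1 y) ∪ (Icc 1 X).filter (fun n => Nat.Coprime (∏ p ∈ s3pr d y, p) (n * (n + d))) := by
    intro p hp
    simp only [Finset.mem_filter, Finset.mem_Icc] at hp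
    rw [Finset.mem_union, Finset.mem_Icc, Finset.mem_filter, Finset.mem_Icc]
    by_cases h : p ≤ y
    · exact Or.inl ⟨hp.1.1, h⟩
    · refine Or.inr ⟨hp.1, Nat.Coprime.prod_left (fun r hr => ?_)⟩
      simp only [s3pr, Finset.mem_filter, Finset.mem_Icc] at hr
      refine Nat.Coprime.mul_right ?_ ?_
      · exact (Nat.coprime_primes hr.2.1 hp.2.1).2 (by omega)
      · exact (Nat.coprime_primes hr.2.1 hp.2.2).2 (by omega)
  have h1 := (Finset.card_le_card hsub).trans (Finset.card_union_le _ _)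
  rw [Nat.card_Icc, Nat.add_sub_cancel] at h1
  exact_mod_cast h1

theorem pair_sieve (X d y : ℕ) (hd : 0 < d) (hde : Even d) (hy : 1 ≤ y) :
    twin X d ≤ y + X / sq2 d y + (∑ q ∈ Icc 1 y, (q.divisors.card : ℝ)) ^ 2 := by
  have h0 := s3_sifted X d y hde
  have h1 := selberg_sieve (s3sieve X d y hde) y hy
  have h2 := s3_den X d y hde
  have h3 := s3_one_le_sq2 d y hy
  have hP : (s3sieve X d y hde).prodPrimes = ∏ p ∈ s3pr d y, p := rfl
  have hsub : (s3sieve X d y hde).prodPrimes.divisors.filter (fun l => l ≤ y) ⊆ Icc 1 y := by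
    intro q hq
    rw [Finset.mem_filter] at hq
    exact Finset.mem_Icc.2 ⟨Nat.pos_of_mem_divisors hq.1, hq.2⟩
  have h4 : (s3sieve X d y hde).totalMass /
        (∑ l ∈ (s3sieve X d y hde).prodPrimes.divisors.filter (fun l => l ≤ y),
          (s3sieve X d y hde).selbergTerms l) ≤ X / sq2 d y := by
    show (X : ℝ) / _ ≤ _
    gcongr
  have h5 : ∑ d₁ ∈ (s3sieve X d y hde).prodPrimes.divisors.filter (fun l => l ≤ y),
      ∑ d₂ ∈ (s3sieve X d y hde).prodPrimes.divisors.filter (fun l => l ≤ y),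
        |(s3sieve X d y hde).rem (Nat.lcm d₁ d₂)|
      ≤ (∑ q ∈ Icc 1 y, (q.divisors.card : ℝ)) ^ 2 := by
    have h6 : ∑ d₁ ∈ (s3sieve X d y hde).prodPrimes.divisors.filter (fun l => l ≤ y),
      ∑ d₂ ∈ (s3sieve X d y hde).prodPrimes.divisors.filter (fun l => l ≤ y),
        |(s3sieve X d y hde).rem (Nat.lcm d₁ d₂)| ≤
        ∑ d₁ ∈ (s3sieve X d y hde).prodPrimes.divisors.filter (fun l => l ≤ y),
      ∑ d₂ ∈ (s3sieve X d y hde).prodPrimes.divisors.filter (fun l => l ≤ y),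
        (d₁.divisors.card : ℝ) * d₂.divisors.card := by
      refine Finset.sum_le_sum (fun a ha => Finset.sum_le_sum (fun b hb => ?_))
      rw [Finset.mem_filter, Nat.mem_divisors, hP] at ha hb
      refine (s3_rem X d y hde _ (Nat.lcm_dvd ha.1.1 hb.1.1)).trans ?_
      have ha0 : a ≠ 0 := ne_zero_of_dvd_ne_zero ha.1.2 ha.1.1
      have hb0 : b ≠ 0 := ne_zero_of_dvd_ne_zero hb.1.2 hb.1.1
      exact_mod_cast s3tau_lcm ha0 hb0
    refine h6.trans ?_
    rw [← Finset.sum_mul_sum, ← sq]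
    gcongr
  linarith

end MP293bbf
end

section

/-!
S7. The average pair bound (all lemmas of S3, S4, S5, S6 may be used, `sorry` or not).

PROOF. Let `X` be large, `z = ⌊X^{1/8}⌋`, `y = z²`.
* `d` odd: `p` and `p + d` both prime forces `p = 2` (one of them is even), so `twin X d ≤ 1`.
* `d` even, `d ≥ 2`: S3 gives `twin X d ≤ y + X / sq2 d y + (Σ_{q ≤ y} τ(q))²`.
  `sq2 d (z²) ≥ (sqf d z)²/2` (S4), `sqf d z ≥ sqf 1 z / sig d ≥ H_z / (2 sig d)` with
  `H_z = Σ_{n ≤ z} 1/n ≥ log z` (`log_add_one_le_harmonic`), so `X / sq2 d y ≤ 8 X (sig d)² / (log z)²`,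
  and `log z ≥ (1/16) log X` for large `X`.
  Further `(Σ_{q ≤ y} τ(q))² ≤ y² (1 + log y)² ≤ X^{1/2} (1 + log X)² ≤ X / (log X)²` and
  `y ≤ X^{1/4} ≤ X / (log X)²`, `1 ≤ X / (log X)²` for large `X`.
* Sum over `1 ≤ d ≤ h`: `≤ h * 2 X/(log X)² + 2048 X/(log X)² * Σ_{d ≤ h} (sig d)²`
  and `Σ_{d ≤ h} (sig d)² ≤ 9 h` (S6). (Any constant `C` is fine.)
-/

open Finset

namespace MP293bbf

theorem s7_sig_nonneg (d : ℕ) : 0 ≤ sig d := by
  unfold sig
  exact Finset.sum_nonneg (fun k _ => by positivity)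

theorem s7_sqf_nonneg (m z : ℕ) : 0 ≤ sqf m z := by
  unfold sqf
  exact Finset.sum_nonneg (fun k _ => by positivity)

theorem s7_twin_odd (X d : ℕ) (hd : 0 < d) (ho : ¬ Even d) : twin X d ≤ 1 := by
  unfold twin
  have hsub : (Icc 1 X).filter (fun p => p.Prime ∧ (p + d).Prime) ⊆ {2} := by
    intro p hp
    rw [Finset.mem_filter] at hp
    obtain ⟨_, hp1, hp2⟩ := hp
    rw [Finset.mem_singleton]
    by_contra hne
    have hpo : Odd p := hp1.odd_of_ne_two hne
    have hdo : Odd d := Nat.not_even_iff_odd.mp ho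
    have hev : Even (p + d) := hpo.add_odd hdo
    have h2 : p + d = 2 := (Nat.Prime.even_iff hp2).mp hev
    have := hp1.two_le
    omega
  have := Finset.card_le_card hsub
  rw [Finset.card_singleton] at this
  exact_mod_cast this

theorem s7_log_le_harm (z : ℕ) (hz : 1 ≤ z) : Real.log z ≤ ∑ n ∈ Icc 1 z, (1 : ℝ) / n := by
  have h1 := log_add_one_le_harmonic z
  have h2 : Real.log z ≤ Real.log ((z : ℝ) + 1) := by
    apply Real.log_le_log
    · exact_mod_cast hz
    · linarith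
  have h3 : ((harmonic z : ℚ) : ℝ) = ∑ n ∈ Icc 1 z, (1 : ℝ) / n := by
    rw [harmonic_eq_sum_Icc]
    push_cast
    refine Finset.sum_congr rfl (fun n _ => ?_)
    rw [one_div]
  rw [← h3]
  refine h2.trans ?_
  exact_mod_cast h1

theorem s7_pair_even (X z d : ℕ) (hz : 2 ≤ z) (hd : 0 < d) (hde : Even d) :
    twin X d ≤ (z : ℝ) ^ 2 + 8 * X * (sig d) ^ 2 / (Real.log z) ^ 2
      + ((z : ℝ) ^ 2 * (1 + Real.log ((z : ℝ) ^ 2))) ^ 2 := by
  have hz1 : 1 ≤ z := by omega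
  have hzr : (2 : ℝ) ≤ z := by exact_mod_cast hz
  have hlog : 0 < Real.log z := Real.log_pos (by linarith)
  have hy : 1 ≤ z ^ 2 := Nat.one_le_pow _ _ hz1
  have h1 := pair_sieve X d (z ^ 2) hd hde hy
  have h2 := sq2_lower d z
  have h3 := harm_le z
  have h4 := sqf_coprime d z hd
  have h5 := tau_sum (z ^ 2)
  have h6 := s7_log_le_harm z hz1
  have hs0 := s7_sig_nonneg d
  have hq0 := s7_sqf_nonneg d z
  push_cast at h1 h5
  have h7 : Real.log z ≤ 2 * (sig d * sqf d z) := by linarith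
  have h8 : (Real.log z) ^ 2 ≤ 8 * (sig d) ^ 2 * sq2 d (z ^ 2) := by
    have h9 : (Real.log z) ^ 2 ≤ (2 * (sig d * sqf d z)) ^ 2 :=
      pow_le_pow_left₀ hlog.le h7 2
    have h10 : (sig d) ^ 2 * (sqf d z) ^ 2 ≤ (sig d) ^ 2 * (2 * sq2 d (z ^ 2)) :=
      mul_le_mul_of_nonneg_left h2 (by positivity)
    nlinarith [h9, h10]
  have hl2 : 0 < (Real.log z) ^ 2 := by positivity
  have hsq : 0 < sq2 d (z ^ 2) := by
    by_contra hneg
    push Not at hneg
    have : 8 * (sig d) ^ 2 * sq2 d (z ^ 2) ≤ 0 :=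
      mul_nonpos_of_nonneg_of_nonpos (by positivity) hneg
    linarith
  have h11 : (X : ℝ) / sq2 d (z ^ 2) ≤ 8 * X * (sig d) ^ 2 / (Real.log z) ^ 2 := by
    rw [div_le_div_iff₀ hsq hl2]
    have hX : (0 : ℝ) ≤ X := Nat.cast_nonneg X
    have := mul_le_mul_of_nonneg_left h8 hX
    nlinarith [this]
  have h12 : (∑ q ∈ Icc 1 (z ^ 2), (q.divisors.card : ℝ)) ^ 2
      ≤ ((z : ℝ) ^ 2 * (1 + Real.log ((z : ℝ) ^ 2))) ^ 2 := by
    refine pow_le_pow_left₀ (Finset.sum_nonneg (fun q _ => by positivity)) h5 2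
  linarith

theorem pair_bound : ∃ C X0 : ℝ, 0 < C ∧ ∀ X : ℕ, X0 ≤ X → ∀ h : ℕ,
    ∑ d ∈ Icc 1 h, twin X d ≤ C * h * X / (Real.log X) ^ 2 := by
  have hlo := (isLittleO_log_rpow_atTop (show (0 : ℝ) < 1 / 16 by norm_num)).bound
    (show (0 : ℝ) < 1 by norm_num)
  rw [Filter.eventually_atTop] at hlo
  obtain ⟨X1, hX1⟩ := hlo
  refine ⟨20000, max X1 (4 ^ 16), by norm_num, ?_⟩
  intro X hX h
  have hXa : X1 ≤ (X : ℝ) := (le_max_left _ _).trans hX
  have hXb : (4 : ℝ) ^ 16 ≤ X := (le_max_right _ _).trans hX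
  have hXpos : (0 : ℝ) < X := lt_of_lt_of_le (by norm_num) hXb
  have hX1' : (1 : ℝ) < X := lt_of_lt_of_le (by norm_num) hXb
  have hlogpos : 0 < Real.log X := Real.log_pos hX1'
  set t : ℝ := (X : ℝ) ^ ((1 : ℝ) / 16) with ht
  have ht16 : t ^ 16 = X := by
    rw [ht, ← Real.rpow_natCast, ← Real.rpow_mul hXpos.le]
    norm_num
  have ht4 : 4 ≤ t := by
    by_contra hlt
    push Not at hlt
    have ht0 : 0 ≤ t := Real.rpow_nonneg hXpos.le _
    have : t ^ 16 < 4 ^ 16 := pow_lt_pow_left₀ hlt ht0 (by norm_num)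
    rw [ht16] at this
    linarith
  have hlogt : Real.log X ≤ t := by
    have := hX1 X hXa
    rw [one_mul, Real.norm_of_nonneg hlogpos.le, Real.norm_of_nonneg (Real.rpow_nonneg hXpos.le _)]
      at this
    exact this
  have ht0 : 0 < t := by linarith
  -- the quantity T
  set T : ℝ := (X : ℝ) / (Real.log X) ^ 2 with hT
  have hTt : t ^ 14 ≤ T := by
    rw [hT, le_div_iff₀ (by positivity)]
    calc t ^ 14 * (Real.log X) ^ 2 ≤ t ^ 14 * t ^ 2 :=
          mul_le_mul_of_nonneg_left (pow_le_pow_left₀ hlogpos.le hlogt 2) (by positivity)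
      _ = t ^ 16 := by ring
      _ = X := ht16
  have hT0 : 0 < T := by positivity
  have hT1 : 1 ≤ T := le_trans (one_le_pow₀ (by linarith)) hTt
  -- z
  set z : ℕ := ⌊t ^ 2⌋₊ with hz
  have hzle : (z : ℝ) ≤ t ^ 2 := Nat.floor_le (by positivity)
  have hzge : t ≤ z := by
    have h1 : t ^ 2 < z + 1 := Nat.lt_floor_add_one _
    nlinarith
  have hz2 : 2 ≤ z := by
    have : (2 : ℝ) ≤ z := by linarith
    exact_mod_cast this
  have hzr : (2 : ℝ) ≤ z := by exact_mod_cast hz2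
  have hlogz : Real.log X / 16 ≤ Real.log z := by
    have h1 : Real.log X = 16 * Real.log t := by
      rw [← ht16, Real.log_pow]
      norm_num
    have h2 : Real.log t ≤ Real.log z := Real.log_le_log ht0 hzge
    linarith
  have hz4 : (z : ℝ) ^ 2 ≤ t ^ 4 := by
    calc (z : ℝ) ^ 2 ≤ (t ^ 2) ^ 2 := pow_le_pow_left₀ (by linarith) hzle 2
      _ = t ^ 4 := by ring
  have hlz : Real.log ((z : ℝ) ^ 2) ≤ t := by
    refine le_trans (Real.log_le_log (by positivity) ?_) hlogt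
    calc (z : ℝ) ^ 2 ≤ t ^ 4 := hz4
      _ ≤ t ^ 16 := pow_le_pow_right₀ (by linarith) (by norm_num)
      _ = X := ht16
  have hlz0 : 0 ≤ Real.log ((z : ℝ) ^ 2) := Real.log_nonneg (by nlinarith)
  have hA : (z : ℝ) ^ 2 ≤ T := by
    refine hz4.trans (le_trans (pow_le_pow_right₀ (by linarith) (by norm_num)) hTt)
  have hB : ((z : ℝ) ^ 2 * (1 + Real.log ((z : ℝ) ^ 2))) ^ 2 ≤ T := by
    have h1 : (z : ℝ) ^ 2 * (1 + Real.log ((z : ℝ) ^ 2)) ≤ t ^ 4 * (2 * t) := by
      refine mul_le_mul hz4 (by linarith) (by positivity) (by positivity)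
    calc ((z : ℝ) ^ 2 * (1 + Real.log ((z : ℝ) ^ 2))) ^ 2 ≤ (t ^ 4 * (2 * t)) ^ 2 :=
          pow_le_pow_left₀ (by positivity) h1 2
      _ = 4 * t ^ 10 := by ring
      _ ≤ t ^ 4 * t ^ 10 := by
          refine mul_le_mul_of_nonneg_right ?_ (by positivity)
          calc (4 : ℝ) ≤ t := ht4
            _ = t ^ 1 := (pow_one t).symm
            _ ≤ t ^ 4 := pow_le_pow_right₀ (by linarith) (by norm_num)
      _ = t ^ 14 := by ring
      _ ≤ T := hTt
  have hterm : ∀ d ∈ Icc 1 h, twin X d ≤ 2 * T + 2048 * T * (sig d) ^ 2 := by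
    intro d hd
    rw [Finset.mem_Icc] at hd
    have hd0 : 0 < d := by omega
    have hs : 0 ≤ 2048 * T * (sig d) ^ 2 := by positivity
    by_cases he : Even d
    · have h1 := s7_pair_even X z d hz2 hd0 he
      have h2 : 8 * X * (sig d) ^ 2 / (Real.log z) ^ 2 ≤ 2048 * T * (sig d) ^ 2 := by
        have hlz' : 0 < Real.log z := by linarith [div_pos hlogpos (show (0 : ℝ) < 16 by norm_num)]
        rw [div_le_iff₀ (by positivity)]
        have h3 : (Real.log X / 16) ^ 2 ≤ (Real.log z) ^ 2 :=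
          pow_le_pow_left₀ (by positivity) hlogz 2
        have h4 : (X : ℝ) = T * (Real.log X) ^ 2 := by
          rw [hT]
          field_simp
        have h5 : 0 ≤ T * (sig d) ^ 2 := by positivity
        have h6 := mul_le_mul_of_nonneg_left h3 h5
        have h7 : 8 * (X : ℝ) * (sig d) ^ 2 = 8 * (T * (Real.log X) ^ 2) * (sig d) ^ 2 :=
          congrArg (fun u : ℝ => 8 * u * (sig d) ^ 2) h4
        calc 8 * (X : ℝ) * (sig d) ^ 2 = 2048 * (T * (sig d) ^ 2 * (Real.log X / 16) ^ 2) := by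
              rw [h7]
              ring
          _ ≤ 2048 * (T * (sig d) ^ 2 * (Real.log z) ^ 2) := by linarith
          _ = _ := by ring
      linarith
    · have h1 := s7_twin_odd X d hd0 he
      linarith
  calc ∑ d ∈ Icc 1 h, twin X d ≤ ∑ d ∈ Icc 1 h, (2 * T + 2048 * T * (sig d) ^ 2) :=
        Finset.sum_le_sum hterm
    _ = h * (2 * T) + 2048 * T * ∑ d ∈ Icc 1 h, (sig d) ^ 2 := by
        rw [Finset.sum_add_distrib, Finset.sum_const, Nat.card_Icc,
          nsmul_eq_mul, Nat.add_sub_cancel, Finset.mul_sum]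
    _ ≤ h * (2 * T) + 2048 * T * (9 * h) := by
        have := mul_le_mul_of_nonneg_left (sig_sq_sum h) (show 0 ≤ 2048 * T by positivity)
        linarith
    _ ≤ 20000 * h * T := by
        have h1 : 0 ≤ (h : ℝ) * T := by positivity
        nlinarith
    _ = 20000 * h * X / (Real.log X) ^ 2 := by
        rw [hT]
        ring

end MP293bbf
end
end

section

/-!
G3. `energy S h ≤ |S| + 2 Σ_{1 ≤ d ≤ h} #{p ∈ S : p + d ∈ S}`.

PROOF. The ordered pairs `(x, x')` with `x = x'` are `|S|`; those with `x' = x + d`, `1 ≤ d < h`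
are `#{x ∈ S : x + d ∈ S}` for each `d`, and the same for `x = x' + d`.
-/

open Finset

namespace MP293bbf

theorem energy_le (S : Finset ℕ) (h : ℕ) :
    energy S h ≤ S.card + 2 * ∑ d ∈ Icc 1 h, (S.filter (fun p => p + d ∈ S)).card := by
  have hsub : (S ×ˢ S).filter (fun z => z.1 < z.2 + h ∧ z.2 < z.1 + h) ⊆
      S.image (fun x => (x, x)) ∪
        ((Icc 1 h).biUnion (fun d => (S.filter (fun p => p + d ∈ S)).image (fun p => (p, p + d))) ∪
         (Icc 1 h).biUnion (fun d => (S.filter (fun p => p + d ∈ S)).image (fun p => (p + d, p)))) := by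
    rintro ⟨x, y⟩ hz
    simp only [mem_filter, mem_product] at hz
    obtain ⟨⟨hx, hy⟩, h1, h2⟩ := hz
    simp only [mem_union, mem_image, mem_biUnion, mem_filter, mem_Icc, Prod.mk.injEq]
    rcases lt_trichotomy x y with hlt | heq | hgt
    · right; left
      refine ⟨y - x, ⟨by omega, by omega⟩, x, ⟨hx, ?_⟩, rfl, by omega⟩
      have : x + (y - x) = y := by omega
      rw [this]; exact hy
    · left
      exact ⟨x, hx, rfl, heq⟩
    · right; right
      refine ⟨x - y, ⟨by omega, by omega⟩, y, ⟨hy, ?_⟩, by omega, rfl⟩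
      have : y + (x - y) = x := by omega
      rw [this]; exact hx
  have hA : (S.image (fun x => (x, x))).card ≤ S.card := card_image_le
  have hB : ((Icc 1 h).biUnion
      (fun d => (S.filter (fun p => p + d ∈ S)).image (fun p => (p, p + d)))).card ≤
      ∑ d ∈ Icc 1 h, (S.filter (fun p => p + d ∈ S)).card :=
    card_biUnion_le.trans (sum_le_sum (fun d _ => card_image_le))
  have hC : ((Icc 1 h).biUnion
      (fun d => (S.filter (fun p => p + d ∈ S)).image (fun p => (p + d, p)))).card ≤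
      ∑ d ∈ Icc 1 h, (S.filter (fun p => p + d ∈ S)).card :=
    card_biUnion_le.trans (sum_le_sum (fun d _ => card_image_le))
  unfold energy
  refine (card_le_card hsub).trans ?_
  refine (card_union_le _ _).trans ?_
  have h3 := card_union_le ((Icc 1 h).biUnion
      (fun d => (S.filter (fun p => p + d ∈ S)).image (fun p => (p, p + d))))
      ((Icc 1 h).biUnion
      (fun d => (S.filter (fun p => p + d ∈ S)).image (fun p => (p + d, p))))
  omega

end MP293bbf
end
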