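import Pool.Agent.Lib.MP_293bbf_nt.Defs
import Pool.Agent.Lib.MP_293bbf_nt.G3
import Pool.Agent.Lib.PNT.Main

section

/-!
G1. Greedy covering, lower half.

`lower_fwd` PROOF. Claim: for all `u ≤ M`, `#{p ∈ B : u ≤ p} ≤ c (M - u)` (strong induction on
`M - u`). If there is no `p ∈ B`, `p ≥ u`, done. Otherwise let `p` be the smallest one and `m` as in
the hypothesis (so `p + m ≤ M`). The elements of `B` in `[p, p+m)` are at most `num S p (p+m) ≤ c m`,
those `≥ p + m` are at most `c (M - p - m)`; total `≤ c (M - p) ≤ c (M - u)`. Take `u = 0`.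

`lower_bwd` is the mirror image: for all `u ≤ M`, `#{p ∈ B : p < u} ≤ c u`; take the largest
`p < u` in `B`, the elements of `B` in `[p+1-m, p+1)` are at most `c m`, those `< p + 1 - m` are at
most `c (p + 1 - m)`, total `≤ c (p + 1) ≤ c u`.
-/

open Finset

namespace MP293bbf

theorem lower_fwd (S B : Finset ℕ) (c : ℝ) (M : ℕ) (hc : 0 ≤ c) (hBS : B ⊆ S)
    (hB : ∀ p ∈ B, ∃ m : ℕ, 1 ≤ m ∧ p + m ≤ M ∧ (num S p (p + m) : ℝ) ≤ c * m) :
    (B.card : ℝ) ≤ c * M := by
  have key : ∀ n u : ℕ, u ≤ M → M - u ≤ n →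
      ((B.filter (fun q => u ≤ q)).card : ℝ) ≤ c * ((M : ℝ) - u) := by
    intro n
    induction n with
    | zero =>
      intro u hu hn
      have huM : u = M := by omega
      have he : B.filter (fun q => u ≤ q) = ∅ := by
        rw [Finset.filter_eq_empty_iff]
        intro q hq hqu
        obtain ⟨m, hm1, hm2, _⟩ := hB q hq
        omega
      rw [he, huM]
      simp
    | succ n ih =>
      intro u hu hn
      have huM : (u : ℝ) ≤ M := by exact_mod_cast hu
      rcases (B.filter (fun q => u ≤ q)).eq_empty_or_nonempty with he | hne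
      · rw [he]
        simp only [Finset.card_empty, Nat.cast_zero]
        exact mul_nonneg hc (by linarith)
      · obtain ⟨p, hp, hmin⟩ := Finset.exists_min_image _ (fun q => q) hne
        rw [Finset.mem_filter] at hp
        obtain ⟨m, hm1, hm2, hm3⟩ := hB p hp.1
        have hsub : B.filter (fun q => u ≤ q) ⊆
            S.filter (fun q => p ≤ q ∧ q < p + m) ∪ B.filter (fun q => p + m ≤ q) := by
          intro q hq
          have hpq := hmin q hq
          rw [Finset.mem_filter] at hq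
          rw [Finset.mem_union, Finset.mem_filter, Finset.mem_filter]
          by_cases hqm : q < p + m
          · exact Or.inl ⟨hBS hq.1, hpq, hqm⟩
          · exact Or.inr ⟨hq.1, by omega⟩
        have hcard := (Finset.card_le_card hsub).trans (Finset.card_union_le _ _)
        have hcard' : ((B.filter (fun q => u ≤ q)).card : ℝ) ≤
            (num S p (p + m) : ℝ) + ((B.filter (fun q => p + m ≤ q)).card : ℝ) := by
          unfold num
          exact_mod_cast hcard
        have hih := ih (p + m) hm2 (by omega)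
        have hup : (u : ℝ) ≤ p := by exact_mod_cast hp.2
        push_cast at hih
        have h1 : c * (m : ℝ) + c * ((M : ℝ) - (p + m)) = c * ((M : ℝ) - p) := by ring
        have h2 : c * ((M : ℝ) - p) ≤ c * ((M : ℝ) - u) :=
          mul_le_mul_of_nonneg_left (by linarith) hc
        linarith
  have h := key M 0 (Nat.zero_le _) (by omega)
  have he : B.filter (fun q => 0 ≤ q) = B := by simp
  rw [he] at h
  simpa using h

theorem lower_bwd (S B : Finset ℕ) (c : ℝ) (M : ℕ) (hc : 0 ≤ c) (hBS : B ⊆ S)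
    (hM : ∀ p ∈ B, p < M)
    (hB : ∀ p ∈ B, ∃ m : ℕ, 1 ≤ m ∧ m ≤ p + 1 ∧ (num S (p + 1 - m) (p + 1) : ℝ) ≤ c * m) :
    (B.card : ℝ) ≤ c * M := by
  have key : ∀ u : ℕ, ((B.filter (fun q => q < u)).card : ℝ) ≤ c * (u : ℝ) := by
    intro u
    induction u using Nat.strong_induction_on with
    | _ u ih =>
      rcases (B.filter (fun q => q < u)).eq_empty_or_nonempty with he | hne
      · rw [he]
        simp only [Finset.card_empty, Nat.cast_zero]
        exact mul_nonneg hc (Nat.cast_nonneg _)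
      · obtain ⟨p, hp, hmax⟩ := Finset.exists_max_image _ (fun q => q) hne
        rw [Finset.mem_filter] at hp
        obtain ⟨m, hm1, hm2, hm3⟩ := hB p hp.1
        have hsub : B.filter (fun q => q < u) ⊆
            S.filter (fun q => p + 1 - m ≤ q ∧ q < p + 1) ∪
              B.filter (fun q => q < p + 1 - m) := by
          intro q hq
          have hpq := hmax q hq
          rw [Finset.mem_filter] at hq
          rw [Finset.mem_union, Finset.mem_filter, Finset.mem_filter]
          by_cases hqm : q < p + 1 - m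
          · exact Or.inr ⟨hq.1, hqm⟩
          · exact Or.inl ⟨hBS hq.1, by omega, by omega⟩
        have hcard := (Finset.card_le_card hsub).trans (Finset.card_union_le _ _)
        have hcard' : ((B.filter (fun q => q < u)).card : ℝ) ≤
            (num S (p + 1 - m) (p + 1) : ℝ) + ((B.filter (fun q => q < p + 1 - m)).card : ℝ) := by
          unfold num
          exact_mod_cast hcard
        have hih := ih (p + 1 - m) (by omega)
        have hup : ((p : ℝ) + 1) ≤ u := by exact_mod_cast hp.2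
        have hc1 : ((p + 1 - m : ℕ) : ℝ) = (p : ℝ) + 1 - m := by
          rw [Nat.cast_sub hm2]
          push_cast
          ring
        rw [hc1] at hih
        have h1 : c * (m : ℝ) + c * ((p : ℝ) + 1 - m) = c * ((p : ℝ) + 1) := by ring
        have h2 : c * ((p : ℝ) + 1) ≤ c * (u : ℝ) := mul_le_mul_of_nonneg_left hup hc
        linarith
  have h := key M
  have he : B.filter (fun q => q < M) = B := Finset.filter_true_of_mem hM
  rw [he] at h
  exact h

end MP293bbf
end

section

/-!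
G2. Greedy covering and Cauchy-Schwarz, upper half.

`upper_fwd` PROOF. Claim: for all `u`,
`#{p ∈ V : u ≤ p} ≤ 2/(L h) * #{(x, x') ∈ S × S : u ≤ x, |x - x'| < h}` (induction on the number of
elements of `V` that are `≥ u`, or strong induction downwards). If there is no `p ∈ V` with `p ≥ u`,
done. Otherwise let `p` be the smallest one, `m ≥ h` as in the hypothesis, `J = [p, p + m)`.
Cut `J` into `k = ⌈m/h⌉ ≤ m/h + 1 ≤ 2m/h` cells `[p + i h, p + (i+1) h) ∩ J`, `i < k`, let `n_i` be the
number of elements of `S` in the `i`-th cell, `N = Σ n_i = num S p (p+m) ≥ L m ≥ (L h / 2) k`, `N > 0`.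
By Cauchy-Schwarz `N² ≤ k Σ n_i² ≤ (2/(L h)) N Σ n_i²`, so
`N ≤ (2/(L h)) Σ n_i² ≤ (2/(L h)) #{(x, x') ∈ S × S : x ∈ J, |x - x'| < h}` (two points of one cell are
at distance `< h`). The elements of `V` in `J` are at most `N`, those `≥ p + m` are handled by
the induction hypothesis; the two sets of pairs (`x ∈ J`, `x ≥ p + m`) are disjoint.

`upper_bwd` is the mirror image (intervals `[p + 1 - m, p + 1)` with natural subtraction, i.e.
truncated at `0`; the number of cells needed is at most `⌈m/h⌉`), by induction on `u` for `{p ∈ V : p < u}`.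
-/

open Finset

namespace MP293bbf

/-- pairs at distance `< h` with first element in `[a, b)`. -/
def en (S : Finset ℕ) (h a b : ℕ) : ℕ :=
  ((S ×ˢ S).filter (fun z => (a ≤ z.1 ∧ z.1 < b) ∧ z.1 < z.2 + h ∧ z.2 < z.1 + h)).card

theorem local_bound (S : Finset ℕ) (h m a b : ℕ) (L : ℝ) (hL : 0 < L) (hh : 1 ≤ h)
    (hm : h ≤ m) (hab : b ≤ a + m) (hN : L * m ≤ num S a b) :
    (num S a b : ℝ) ≤ 2 / (L * h) * en S h a b := by
  classical
  set T : Finset ℕ := S.filter (fun q => a ≤ q ∧ q < b) with hT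
  set k : ℕ := (m + h - 1) / h with hk
  have hkm : m ≤ k * h := by
    have h1 := Nat.lt_div_mul_add (a := m + h - 1) (b := h) (by omega)
    rw [← hk] at h1
    omega
  have hkm2 : k * h ≤ 2 * m := by
    have h1 := Nat.div_mul_le_self (m + h - 1) h
    rw [← hk] at h1
    omega
  have hk0 : 0 < k := by
    rcases Nat.eq_zero_or_pos k with h0 | h0
    · rw [h0, zero_mul] at hkm
      omega
    · exact h0
  have hmaps : ∀ x ∈ T, (x - a) / h ∈ range k := by
    intro x hx
    rw [hT, mem_filter] at hx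
    rw [mem_range, Nat.div_lt_iff_lt_mul (by omega)]
    omega
  have hcard : T.card = ∑ i ∈ range k, (T.filter (fun x => (x - a) / h = i)).card :=
    card_eq_sum_card_fiberwise hmaps
  set P : Finset (ℕ × ℕ) := (T ×ˢ T).filter (fun z => (z.1 - a) / h = (z.2 - a) / h) with hP
  have hPcard : P.card = ∑ i ∈ range k, (P.filter (fun z => (z.1 - a) / h = i)).card := by
    apply card_eq_sum_card_fiberwise
    intro z hz
    rw [hP, coe_filter, Set.mem_ofPred_eq, mem_product] at hz
    exact hmaps z.1 hz.1.1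
  have hfib : ∀ i ∈ range k, (P.filter (fun z => (z.1 - a) / h = i)).card =
      (T.filter (fun x => (x - a) / h = i)).card ^ 2 := by
    intro i _
    rw [sq, ← card_product]
    congr 1
    ext z
    simp only [hP, mem_filter, mem_product]
    constructor
    · rintro ⟨⟨⟨h1, h2⟩, h3⟩, h4⟩
      exact ⟨⟨h1, h4⟩, h2, by rw [← h3]; exact h4⟩
    · rintro ⟨⟨h1, h2⟩, h3, h4⟩
      exact ⟨⟨⟨h1, h3⟩, by rw [h2, h4]⟩, h2⟩
  have hPle : P.card ≤ en S h a b := by
    apply card_le_card
    intro z hz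
    rw [hP, mem_filter, mem_product, hT, mem_filter, mem_filter] at hz
    obtain ⟨⟨⟨h1, h2⟩, h3, h4⟩, h5⟩ := hz
    rw [mem_filter, mem_product]
    have e1 := Nat.div_add_mod (z.1 - a) h
    have e2 := Nat.div_add_mod (z.2 - a) h
    have e3 := Nat.mod_lt (z.1 - a) (show 0 < h by omega)
    have e4 := Nat.mod_lt (z.2 - a) (show 0 < h by omega)
    rw [h5] at e1
    refine ⟨⟨h1, h3⟩, h2, ?_, ?_⟩ <;> omega
  have hCS : ((T.card : ℝ)) ^ 2 ≤ (k : ℝ) * P.card := by
    have h1 := sq_sum_le_card_mul_sum_sq (s := range k)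
      (f := fun i => ((T.filter (fun x => (x - a) / h = i)).card : ℝ))
    rw [card_range] at h1
    have h2 : (T.card : ℝ) = ∑ i ∈ range k, ((T.filter (fun x => (x - a) / h = i)).card : ℝ) := by
      rw [hcard]
      push_cast
      rfl
    have h3 : (P.card : ℝ) =
        ∑ i ∈ range k, ((T.filter (fun x => (x - a) / h = i)).card : ℝ) ^ 2 := by
      rw [hPcard]
      push_cast
      apply sum_congr rfl
      intro i hi
      rw [hfib i hi]
      push_cast
      rfl
    rw [h2, h3]
    exact h1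
  have hnum : num S a b = T.card := rfl
  rw [hnum] at hN ⊢
  have hkR : (0 : ℝ) < k := by exact_mod_cast hk0
  have hhR : (0 : ℝ) < h := by exact_mod_cast (show 0 < h by omega)
  have hmR : (k : ℝ) * h ≤ 2 * m := by exact_mod_cast hkm2
  have hPR : (P.card : ℝ) ≤ en S h a b := by exact_mod_cast hPle
  have hN0 : (0 : ℝ) ≤ T.card := Nat.cast_nonneg _
  have h1 : (T.card : ℝ) * (L * h / 2 * k) ≤ k * P.card := by
    have h2 : L * h / 2 * k ≤ T.card := by nlinarith
    calc (T.card : ℝ) * (L * h / 2 * k) ≤ T.card * T.card :=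
          mul_le_mul_of_nonneg_left h2 hN0
      _ = (T.card : ℝ) ^ 2 := by ring
      _ ≤ _ := hCS
  have h3 : (T.card : ℝ) * (L * h / 2) ≤ P.card := by
    have h4 : k * ((T.card : ℝ) * (L * h / 2)) ≤ k * P.card := by linarith
    exact le_of_mul_le_mul_left h4 hkR
  rw [div_mul_eq_mul_div, le_div_iff₀ (by positivity)]
  nlinarith

theorem upper_fwd_aux (S V : Finset ℕ) (h : ℕ) (L : ℝ) (hL : 0 < L) (hh : 1 ≤ h) (hVS : V ⊆ S)
    (hV : ∀ p ∈ V, ∃ m : ℕ, h ≤ m ∧ L * m ≤ num S p (p + m)) (n : ℕ) :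
    ∀ u, (V.filter (fun p => u ≤ p)).card ≤ n →
    ((V.filter (fun p => u ≤ p)).card : ℝ) ≤ 2 / (L * h) *
      (((S ×ˢ S).filter (fun z => u ≤ z.1 ∧ z.1 < z.2 + h ∧ z.2 < z.1 + h)).card : ℝ) := by
  classical
  have hhR : (0 : ℝ) < h := by exact_mod_cast (show 0 < h by omega)
  have hc : (0 : ℝ) ≤ 2 / (L * h) := by positivity
  induction n with
  | zero =>
    intro u hu
    have h0 : (V.filter (fun p => u ≤ p)).card = 0 := by omega
    rw [h0]
    push_cast
    positivity
  | succ n ih =>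
    intro u hu
    rcases (V.filter (fun p => u ≤ p)).eq_empty_or_nonempty with h0 | h0
    · rw [h0]
      simp only [card_empty, Nat.cast_zero]
      positivity
    · set p := (V.filter (fun p => u ≤ p)).min' h0 with hp
      have hpm : p ∈ V.filter (fun p => u ≤ p) := min'_mem _ _
      have hpV := (mem_filter.1 hpm).1
      have hup := (mem_filter.1 hpm).2
      obtain ⟨m, hm, hLm⟩ := hV p hpV
      have hloc := local_bound S h m p (p + m) L hL hh hm le_rfl hLm
      have hsub : V.filter (fun q => p + m ≤ q) ⊆ (V.filter (fun p => u ≤ p)).erase p := by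
        intro q hq
        rw [mem_filter] at hq
        rw [mem_erase, mem_filter]
        refine ⟨by omega, hq.1, by omega⟩
      have hcard1 : (V.filter (fun q => p + m ≤ q)).card ≤ n := by
        have h1 := card_le_card hsub
        rw [card_erase_of_mem hpm] at h1
        omega
      have hI := ih (p + m) hcard1
      have hW : (V.filter (fun p => u ≤ p)).card ≤
          num S p (p + m) + (V.filter (fun q => p + m ≤ q)).card := by
        have h1 : V.filter (fun p => u ≤ p) ⊆
            S.filter (fun q => p ≤ q ∧ q < p + m) ∪ V.filter (fun q => p + m ≤ q) := by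
          intro q hq
          have hq1 : p ≤ q := min'_le _ _ hq
          rw [mem_filter] at hq
          rw [mem_union, mem_filter, mem_filter]
          by_cases hqm : q < p + m
          · exact Or.inl ⟨hVS hq.1, hq1, hqm⟩
          · exact Or.inr ⟨hq.1, by omega⟩
        exact (card_le_card h1).trans (card_union_le _ _)
      have hE : en S h p (p + m) +
          ((S ×ˢ S).filter (fun z => p + m ≤ z.1 ∧ z.1 < z.2 + h ∧ z.2 < z.1 + h)).card ≤
          ((S ×ˢ S).filter (fun z => u ≤ z.1 ∧ z.1 < z.2 + h ∧ z.2 < z.1 + h)).card := by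
        unfold en
        rw [← card_union_of_disjoint]
        · apply card_le_card
          intro z hz
          rw [mem_union, mem_filter, mem_filter] at hz
          rw [mem_filter]
          rcases hz with hz | hz
          · exact ⟨hz.1, by omega, hz.2.2⟩
          · exact ⟨hz.1, by omega, hz.2.2⟩
        · rw [disjoint_left]
          intro z hz hz'
          rw [mem_filter] at hz hz'
          omega
      have hWR : ((V.filter (fun p => u ≤ p)).card : ℝ) ≤
          num S p (p + m) + (V.filter (fun q => p + m ≤ q)).card := by exact_mod_cast hW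
      have hER : (en S h p (p + m) : ℝ) +
          ((S ×ˢ S).filter (fun z => p + m ≤ z.1 ∧ z.1 < z.2 + h ∧ z.2 < z.1 + h)).card ≤
          ((S ×ˢ S).filter (fun z => u ≤ z.1 ∧ z.1 < z.2 + h ∧ z.2 < z.1 + h)).card := by
        exact_mod_cast hE
      calc ((V.filter (fun p => u ≤ p)).card : ℝ)
          ≤ num S p (p + m) + (V.filter (fun q => p + m ≤ q)).card := hWR
        _ ≤ 2 / (L * h) * en S h p (p + m) + 2 / (L * h) *
          ((S ×ˢ S).filter (fun z => p + m ≤ z.1 ∧ z.1 < z.2 + h ∧ z.2 < z.1 + h)).card :=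
            add_le_add hloc hI
        _ = 2 / (L * h) * (en S h p (p + m) +
          ((S ×ˢ S).filter (fun z => p + m ≤ z.1 ∧ z.1 < z.2 + h ∧ z.2 < z.1 + h)).card) := by
            ring
        _ ≤ _ := mul_le_mul_of_nonneg_left hER hc

theorem upper_bwd_aux (S V : Finset ℕ) (h : ℕ) (L : ℝ) (hL : 0 < L) (hh : 1 ≤ h) (hVS : V ⊆ S)
    (hV : ∀ p ∈ V, ∃ m : ℕ, h ≤ m ∧ L * m ≤ num S (p + 1 - m) (p + 1)) (n : ℕ) :
    ∀ u, (V.filter (fun p => p < u)).card ≤ n →
    ((V.filter (fun p => p < u)).card : ℝ) ≤ 2 / (L * h) *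
      (((S ×ˢ S).filter (fun z => z.1 < u ∧ z.1 < z.2 + h ∧ z.2 < z.1 + h)).card : ℝ) := by
  classical
  have hhR : (0 : ℝ) < h := by exact_mod_cast (show 0 < h by omega)
  have hc : (0 : ℝ) ≤ 2 / (L * h) := by positivity
  induction n with
  | zero =>
    intro u hu
    have h0 : (V.filter (fun p => p < u)).card = 0 := by omega
    rw [h0]
    push_cast
    positivity
  | succ n ih =>
    intro u hu
    rcases (V.filter (fun p => p < u)).eq_empty_or_nonempty with h0 | h0
    · rw [h0]
      simp only [card_empty, Nat.cast_zero]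
      positivity
    · set p := (V.filter (fun p => p < u)).max' h0 with hp
      have hpm : p ∈ V.filter (fun p => p < u) := max'_mem _ _
      have hpV := (mem_filter.1 hpm).1
      have hup := (mem_filter.1 hpm).2
      obtain ⟨m, hm, hLm⟩ := hV p hpV
      have hloc := local_bound S h m (p + 1 - m) (p + 1) L hL hh hm (by omega) hLm
      have hsub : V.filter (fun q => q < p + 1 - m) ⊆ (V.filter (fun p => p < u)).erase p := by
        intro q hq
        rw [mem_filter] at hq
        rw [mem_erase, mem_filter]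
        refine ⟨by omega, hq.1, by omega⟩
      have hcard1 : (V.filter (fun q => q < p + 1 - m)).card ≤ n := by
        have h1 := card_le_card hsub
        rw [card_erase_of_mem hpm] at h1
        omega
      have hI := ih (p + 1 - m) hcard1
      have hW : (V.filter (fun p => p < u)).card ≤
          num S (p + 1 - m) (p + 1) + (V.filter (fun q => q < p + 1 - m)).card := by
        have h1 : V.filter (fun p => p < u) ⊆
            S.filter (fun q => p + 1 - m ≤ q ∧ q < p + 1) ∪ V.filter (fun q => q < p + 1 - m) := by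
          intro q hq
          have hq1 : q ≤ p := le_max' _ _ hq
          rw [mem_filter] at hq
          rw [mem_union, mem_filter, mem_filter]
          by_cases hqm : q < p + 1 - m
          · exact Or.inr ⟨hq.1, hqm⟩
          · exact Or.inl ⟨hVS hq.1, by omega, by omega⟩
        exact (card_le_card h1).trans (card_union_le _ _)
      have hE : en S h (p + 1 - m) (p + 1) +
          ((S ×ˢ S).filter (fun z => z.1 < p + 1 - m ∧ z.1 < z.2 + h ∧ z.2 < z.1 + h)).card ≤
          ((S ×ˢ S).filter (fun z => z.1 < u ∧ z.1 < z.2 + h ∧ z.2 < z.1 + h)).card := by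
        unfold en
        rw [← card_union_of_disjoint]
        · apply card_le_card
          intro z hz
          rw [mem_union, mem_filter, mem_filter] at hz
          rw [mem_filter]
          rcases hz with hz | hz
          · exact ⟨hz.1, by omega, hz.2.2⟩
          · exact ⟨hz.1, by omega, hz.2.2⟩
        · rw [disjoint_left]
          intro z hz hz'
          rw [mem_filter] at hz hz'
          omega
      have hWR : ((V.filter (fun p => p < u)).card : ℝ) ≤
          num S (p + 1 - m) (p + 1) + (V.filter (fun q => q < p + 1 - m)).card := by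
        exact_mod_cast hW
      have hER : (en S h (p + 1 - m) (p + 1) : ℝ) +
          ((S ×ˢ S).filter (fun z => z.1 < p + 1 - m ∧ z.1 < z.2 + h ∧ z.2 < z.1 + h)).card ≤
          ((S ×ˢ S).filter (fun z => z.1 < u ∧ z.1 < z.2 + h ∧ z.2 < z.1 + h)).card := by
        exact_mod_cast hE
      calc ((V.filter (fun p => p < u)).card : ℝ)
          ≤ num S (p + 1 - m) (p + 1) + (V.filter (fun q => q < p + 1 - m)).card := hWR
        _ ≤ 2 / (L * h) * en S h (p + 1 - m) (p + 1) + 2 / (L * h) *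
          ((S ×ˢ S).filter (fun z => z.1 < p + 1 - m ∧ z.1 < z.2 + h ∧ z.2 < z.1 + h)).card :=
            add_le_add hloc hI
        _ = 2 / (L * h) * (en S h (p + 1 - m) (p + 1) +
          ((S ×ˢ S).filter (fun z => z.1 < p + 1 - m ∧ z.1 < z.2 + h ∧ z.2 < z.1 + h)).card) := by
            ring
        _ ≤ _ := mul_le_mul_of_nonneg_left hER hc

theorem upper_fwd (S V : Finset ℕ) (h : ℕ) (L : ℝ) (hL : 0 < L) (hh : 1 ≤ h) (hVS : V ⊆ S)
    (hV : ∀ p ∈ V, ∃ m : ℕ, h ≤ m ∧ L * m ≤ num S p (p + m)) :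
    (V.card : ℝ) ≤ 2 / (L * h) * energy S h := by
  classical
  have h1 := upper_fwd_aux S V h L hL hh hVS hV _ 0 le_rfl
  have h2 : V.filter (fun p => 0 ≤ p) = V := filter_true_of_mem (fun p _ => Nat.zero_le p)
  rw [h2] at h1
  refine h1.trans (le_of_eq ?_)
  congr 2
  unfold energy
  congr 1
  apply filter_congr
  intro z _
  simp

theorem upper_bwd (S V : Finset ℕ) (h : ℕ) (L : ℝ) (hL : 0 < L) (hh : 1 ≤ h) (hVS : V ⊆ S)
    (hV : ∀ p ∈ V, ∃ m : ℕ, h ≤ m ∧ L * m ≤ num S (p + 1 - m) (p + 1)) :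
    (V.card : ℝ) ≤ 2 / (L * h) * energy S h := by
  classical
  have hhR : (0 : ℝ) < h := by exact_mod_cast (show 0 < h by omega)
  have hc : (0 : ℝ) ≤ 2 / (L * h) := by positivity
  have h1 := upper_bwd_aux S V h L hL hh hVS hV _ (V.sup id + 1) le_rfl
  have h2 : V.filter (fun p => p < V.sup id + 1) = V := by
    apply filter_true_of_mem
    intro p hp
    have : p ≤ V.sup id := le_sup (f := id) hp
    omega
  rw [h2] at h1
  refine h1.trans (mul_le_mul_of_nonneg_left ?_ hc)
  unfold energy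
  norm_cast
  apply card_le_card
  intro z hz
  rw [mem_filter] at hz ⊢
  exact ⟨hz.1, hz.2.2⟩

end MP293bbf
end

section

/-!
A1. Chebyshev bounds in every interval around almost every prime (uses `pair_bound`, `lower_fwd`,
`lower_bwd`, `upper_fwd`, `upper_bwd`, `energy_le` and `Pool.Agent.Lib.PNT.pnt_pi`).

PROOF. Let `X` be large, `L = log X`, `M = ⌊5X⌋₊`, `S` = the primes `≤ M`, `h = ⌈L⌉₊`,
`c = 2/(lam L)`, `Λ = lam/(4L)`.
Let `p ≤ X` be a bad prime with `a < p ≤ b ≤ 4X`, `lam L ≤ b - a`. Put `m₁ = ⌊b⌋₊ + 1 - p ≥ 1`,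
`m₂ = p - ⌊a⌋₊ ≥ 1` (`⌊a⌋₊ < p` since `a < p`), so `m₁ + m₂ = ⌊b⌋₊ + 1 - ⌊a⌋₊`, `b - a ≤ m₁ + m₂ ≤ b - a + 2`, `p + m₁ ≤ M`.
The primes in `(a, b]` are the elements of `S` in `[p, p + m₁)` or in `[p + 1 - m₂, p + 1)`,
`p` counted twice: `cnt a b = num S p (p+m₁) + num S (p+1-m₂) (p+1) - 1`.
* If `cnt a b < (b-a)/(lam L)`: since `c (m₁ + m₂) - 1 ≥ 2(b-a)/(lam L) - 1 ≥ (b-a)/(lam L)`, one has
  `num S p (p+m₁) ≤ c m₁` or `num S (p+1-m₂) (p+1) ≤ c m₂`. So by `lower_fwd`, `lower_bwd`
  there are at most `2 c M ≤ 20 X/(lam L)` such `p`.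
* If `lam (b-a)/L < cnt a b`: let `m₁' = max(m₁, h)`, `m₂' = max(m₂, h)`. Since
  `Λ (m₁' + m₂') ≤ Λ (b - a + 2 + 2h) ≤ Λ * 7 (b-a)`... more precisely `2 + 2h ≤ 2L + 4 ≤ 3L ≤ 3 (b-a)`
  for large `X` (`lam ≥ 1`), so `Λ (m₁' + m₂') ≤ 4 Λ (b-a) = lam (b-a)/L < cnt a b`, hence
  `Λ m₁' ≤ num S p (p+m₁')` or `Λ m₂' ≤ num S (p+1-m₂') (p+1)`. By `upper_fwd`, `upper_bwd` there
  are at most `2 * 2/(Λ h) * energy S h ≤ (16/lam) energy S h` such `p`, and
  `energy S h ≤ |S| + 2 Σ_{d ≤ h} twin M d ≤ |S| + 2 C h M/(log M)²` by `energy_le`, `pair_bound`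
  which is `≤ C' X / L` (`|S| = π(M) ≤ 2 M / log M` by the prime number theorem).
Finally `X / L ≤ 2 π(⌊X⌋₊)` for large `X`.
-/

open Finset

namespace MP293bbf

/-- The primes `≤ M`. -/
def prS (M : ℕ) : Finset ℕ := (Icc 1 M).filter Nat.Prime

theorem mem_prS {M q : ℕ} : q ∈ prS M ↔ q ≤ M ∧ q.Prime := by
  unfold prS
  rw [mem_filter, mem_Icc]
  constructor
  · rintro ⟨⟨_, h⟩, h'⟩
    exact ⟨h, h'⟩
  · rintro ⟨h, h'⟩
    exact ⟨⟨h'.one_lt.le, h⟩, h'⟩

theorem num_prS (M u v : ℕ) (huv : u ≤ v) (hv : v ≤ M + 1) :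
    (num (prS M) u v : ℝ) = (Nat.primeCounting' v : ℝ) - Nat.primeCounting' u := by
  have h1 : Nat.primeCounting' v = Nat.primeCounting' u + num (prS M) u v := by
    unfold Nat.primeCounting' num
    rw [Nat.count_eq_card_filter_range, Nat.count_eq_card_filter_range, ← card_union_of_disjoint]
    · congr 1
      ext q
      simp only [mem_filter, mem_range, mem_union, mem_prS]
      constructor
      · rintro ⟨h, h'⟩
        by_cases hq : q < u
        · exact Or.inl ⟨hq, h'⟩
        · exact Or.inr ⟨⟨by omega, h'⟩, by omega, h⟩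
      · rintro (⟨h, h'⟩ | ⟨⟨h, h'⟩, h2, h3⟩)
        · exact ⟨by omega, h'⟩
        · exact ⟨h3, h'⟩
    · rw [disjoint_left]
      intro q hq hq'
      simp only [mem_filter, mem_range] at hq hq'
      omega
  rw [h1]
  push_cast
  ring

theorem num_mono (S : Finset ℕ) {u v u' v' : ℕ} (hu : u' ≤ u) (hv : v ≤ v') :
    (num S u v : ℝ) ≤ num S u' v' := by
  unfold num
  have h : (S.filter (fun q => u ≤ q ∧ q < v)) ⊆ (S.filter (fun q => u' ≤ q ∧ q < v')) := by
    intro q hq
    rw [mem_filter] at hq ⊢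
    exact ⟨hq.1, by omega, by omega⟩
  exact_mod_cast card_le_card h

theorem card_prS (M : ℕ) : (prS M).card = Nat.primeCounting M := by
  unfold Nat.primeCounting Nat.primeCounting'
  rw [Nat.count_eq_card_filter_range]
  congr 1
  ext q
  simp only [mem_filter, mem_range, mem_prS]
  constructor
  · rintro ⟨h, h'⟩
    exact ⟨by omega, h'⟩
  · rintro ⟨h, h'⟩
    exact ⟨by omega, h'⟩

/-- The counting identity. -/
theorem cnt_split (M p : ℕ) (hp : p.Prime) (a b : ℝ) (ha : 0 ≤ a) (hap : a < p) (hpb : (p : ℝ) ≤ b)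
    (hbM : ⌊b⌋₊ ≤ M) :
    cnt a b = num (prS M) p (p + (⌊b⌋₊ + 1 - p)) + num (prS M) (p + 1 - (p - ⌊a⌋₊)) (p + 1) - 1 := by
  have h1 : ⌊a⌋₊ < p := (Nat.floor_lt ha).mpr hap
  have h2 : p ≤ ⌊b⌋₊ := Nat.le_floor hpb
  have e1 : p + (⌊b⌋₊ + 1 - p) = ⌊b⌋₊ + 1 := by omega
  have e2 : p + 1 - (p - ⌊a⌋₊) = ⌊a⌋₊ + 1 := by omega
  rw [e1, e2, num_prS M _ _ (by omega) (by omega), num_prS M _ _ (by omega) (by omega)]
  unfold cnt Nat.primeCounting
  have h3 : Nat.primeCounting' (p + 1) = Nat.primeCounting' p + 1 := by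
    unfold Nat.primeCounting'
    rw [Nat.count_succ, if_pos hp]
  rw [h3]
  push_cast
  ring

/-- Consequences of the prime number theorem. -/
theorem pnt_upper_lower : ∃ X1 : ℝ, ∀ X : ℝ, X1 ≤ X →
    X / Real.log X ≤ 2 * Nat.primeCounting ⌊X⌋₊ ∧
      (Nat.primeCounting ⌊X⌋₊ : ℝ) ≤ 2 * (X / Real.log X) := by
  have h := Pool.Agent.Lib.PNT.pnt_pi
  have h1 : ∀ᶠ x : ℝ in Filter.atTop,
      (Nat.primeCounting ⌊x⌋₊ : ℝ) * Real.log x / x ∈ Set.Ioo (1/2 : ℝ) 2 :=
    h.eventually (Ioo_mem_nhds (by norm_num) (by norm_num))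
  have h2 : ∀ᶠ x : ℝ in Filter.atTop, (3 : ℝ) ≤ x := Filter.eventually_ge_atTop 3
  obtain ⟨X1, hX1⟩ := Filter.eventually_atTop.mp (h1.and h2)
  refine ⟨X1, fun X hX => ?_⟩
  obtain ⟨⟨h3, h4⟩, h5⟩ := hX1 X hX
  have hXpos : 0 < X := by linarith
  have hlog : 0 < Real.log X := Real.log_pos (by linarith)
  rw [lt_div_iff₀ hXpos] at h3
  rw [div_lt_iff₀ hXpos] at h4
  constructor
  · rw [div_le_iff₀ hlog]
    linarith
  · rw [mul_div_assoc', le_div_iff₀ hlog]
    linarith

theorem all_intervals : ∃ C X0 : ℝ, 0 < C ∧ ∀ X lam : ℝ, X0 ≤ X → 1 ≤ lam →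
    (({p : ℕ | p.Prime ∧ (p : ℝ) ≤ X ∧ ∃ a b : ℝ, 0 ≤ a ∧ a < p ∧ (p : ℝ) ≤ b ∧
      b ≤ 4 * X ∧ lam * Real.log X ≤ b - a ∧
      (cnt a b < (b - a) / (lam * Real.log X) ∨
        lam * (b - a) / Real.log X < cnt a b)}.ncard : ℕ) : ℝ)
      ≤ C / lam * Nat.primeCounting ⌊X⌋₊ := by
  classical
  obtain ⟨C, X0, hC, hpair⟩ := pair_bound
  obtain ⟨X1, hX1⟩ := pnt_upper_lower
  refine ⟨360 + 640 * C, max (max X0 (max X1 0)) (Real.exp 4), by positivity, ?_⟩
  intro X lam hX hlam
  have hXX0 : X0 ≤ X := le_trans (le_trans (le_max_left _ _) (le_max_left _ _)) hX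
  have hXX1 : X1 ≤ X :=
    le_trans (le_trans (le_trans (le_max_left _ _) (le_max_right _ _)) (le_max_left _ _)) hX
  have hXe : Real.exp 4 ≤ X := le_trans (le_max_right _ _) hX
  have hX5 : (5 : ℝ) ≤ X := by
    have := Real.add_one_le_exp (4 : ℝ)
    linarith
  have hXpos : 0 < X := by linarith
  set L := Real.log X with hL
  have hL4 : 4 ≤ L := by
    rw [hL, Real.le_log_iff_exp_le hXpos]
    exact hXe
  have hLpos : 0 < L := by linarith
  have hlampos : 0 < lam := by linarith
  set M := ⌊5 * X⌋₊ with hM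
  have hMle : (M : ℝ) ≤ 5 * X := Nat.floor_le (by linarith)
  have hMge : 5 * X - 1 < M := by
    have := Nat.lt_floor_add_one (5 * X)
    rw [← hM] at this
    linarith
  have hMX : X ≤ M := by linarith
  have hMpos : (0 : ℝ) < M := by linarith
  have hlogM : L ≤ Real.log M := Real.log_le_log hXpos hMX
  set h := ⌈L⌉₊ with hh
  have hhL : L ≤ h := Nat.le_ceil L
  have hhL1 : (h : ℝ) < L + 1 := Nat.ceil_lt_add_one hLpos.le
  have hhpos : (0 : ℝ) < h := by linarith
  have hh1 : 1 ≤ h := by exact_mod_cast (by linarith : (0:ℝ) < h)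
  set S := prS M with hS
  set c : ℝ := 2 / (lam * L) with hc
  have hcpos : 0 < c := by positivity
  set Λ : ℝ := lam / (4 * L) with hΛ
  have hΛpos : 0 < Λ := by positivity
  -- the four bad sets
  set P : Finset ℕ := S.filter (fun p => (p : ℝ) ≤ X) with hP
  have hPS : P ⊆ S := filter_subset _ _
  set B1 : Finset ℕ := P.filter (fun p => ∃ m : ℕ, 1 ≤ m ∧ p + m ≤ M ∧
    (num S p (p + m) : ℝ) ≤ c * m) with hB1
  set B2 : Finset ℕ := P.filter (fun p => ∃ m : ℕ, 1 ≤ m ∧ m ≤ p + 1 ∧
    (num S (p + 1 - m) (p + 1) : ℝ) ≤ c * m) with hB2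
  set V1 : Finset ℕ := P.filter (fun p => ∃ m : ℕ, h ≤ m ∧ Λ * m ≤ num S p (p + m)) with hV1
  set V2 : Finset ℕ := P.filter (fun p => ∃ m : ℕ, h ≤ m ∧
    Λ * m ≤ num S (p + 1 - m) (p + 1)) with hV2
  have cB1 : (B1.card : ℝ) ≤ c * M :=
    lower_fwd S B1 c M hcpos.le ((filter_subset _ _).trans hPS)
      (fun p hp => (mem_filter.mp hp).2)
  have cB2 : (B2.card : ℝ) ≤ c * M :=
    lower_bwd S B2 c M hcpos.le ((filter_subset _ _).trans hPS)
      (fun p hp => by
        have h1 := (mem_filter.mp (mem_filter.mp hp).1).2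
        have h2 : (p : ℝ) < M := by linarith
        exact_mod_cast h2)
      (fun p hp => (mem_filter.mp hp).2)
  have cV1 : (V1.card : ℝ) ≤ 2 / (Λ * h) * energy S h :=
    upper_fwd S V1 h Λ hΛpos hh1 ((filter_subset _ _).trans hPS)
      (fun p hp => (mem_filter.mp hp).2)
  have cV2 : (V2.card : ℝ) ≤ 2 / (Λ * h) * energy S h :=
    upper_bwd S V2 h Λ hΛpos hh1 ((filter_subset _ _).trans hPS)
      (fun p hp => (mem_filter.mp hp).2)
  -- the energy
  have hE : (energy S h : ℝ) ≤ (10 + 20 * C) * (X / L) := by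
    have e1 : (energy S h : ℝ) ≤ S.card + 2 * ∑ d ∈ Icc 1 h, twin M d := by
      have e2 := energy_le S h
      have e3 : (energy S h : ℝ) ≤
          S.card + 2 * ∑ d ∈ Icc 1 h, ((S.filter (fun p => p + d ∈ S)).card : ℝ) := by
        exact_mod_cast e2
      refine e3.trans ?_
      gcongr with d hd
      unfold twin
      gcongr
      intro p hp
      rw [mem_filter] at hp ⊢
      rw [hS, mem_prS, mem_prS] at hp
      rw [mem_Icc]
      exact ⟨⟨hp.1.2.one_lt.le, hp.1.1⟩, hp.1.2, hp.2.2⟩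
    have e4 : ∑ d ∈ Icc 1 h, twin M d ≤ C * h * M / (Real.log M) ^ 2 :=
      hpair M (by linarith) h
    have e5 : C * h * M / (Real.log M) ^ 2 ≤ 10 * C * (X / L) := by
      have e6 : C * h * M / (Real.log M) ^ 2 ≤ C * (2 * L) * (5 * X) / L ^ 2 := by
        gcongr
        linarith
      refine e6.trans (le_of_eq ?_)
      field_simp
      ring
    have e7 : (S.card : ℝ) ≤ 10 * (X / L) := by
      rw [hS, card_prS]
      have e8 := (hX1 (5 * X) (by linarith)).2
      rw [← hM] at e8
      refine e8.trans ?_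
      have e9 : L ≤ Real.log (5 * X) := Real.log_le_log hXpos (by linarith)
      calc 2 * (5 * X / Real.log (5 * X)) ≤ 2 * (5 * X / L) := by gcongr
        _ = 10 * (X / L) := by ring
    linarith
  have hpi : X / L ≤ 2 * Nat.primeCounting ⌊X⌋₊ := (hX1 X hXX1).1
  -- the cover
  have hcover : {p : ℕ | p.Prime ∧ (p : ℝ) ≤ X ∧ ∃ a b : ℝ, 0 ≤ a ∧ a < p ∧ (p : ℝ) ≤ b ∧
      b ≤ 4 * X ∧ lam * L ≤ b - a ∧
      (cnt a b < (b - a) / (lam * L) ∨ lam * (b - a) / L < cnt a b)} ⊆
      ((B1 ∪ B2 ∪ V1 ∪ V2 : Finset ℕ) : Set ℕ) := by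
    rintro p ⟨hp, hpX, a, b, ha, hap, hpb, hbX, hlen, hbad⟩
    have hpM : (p : ℝ) ≤ M := hpX.trans hMX
    have hpP : p ∈ P := by
      rw [hP, mem_filter, hS, mem_prS]
      exact ⟨⟨by exact_mod_cast hpM, hp⟩, hpX⟩
    have hbpos : 0 ≤ b := le_trans (Nat.cast_nonneg p) hpb
    have f1 : ⌊a⌋₊ < p := (Nat.floor_lt ha).mpr hap
    have f2 : p ≤ ⌊b⌋₊ := Nat.le_floor hpb
    have hfb : (⌊b⌋₊ : ℝ) ≤ b := Nat.floor_le hbpos
    have hfb' : b < ⌊b⌋₊ + 1 := Nat.lt_floor_add_one b
    have hfa : (⌊a⌋₊ : ℝ) ≤ a := Nat.floor_le ha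
    have hfa' : a < ⌊a⌋₊ + 1 := Nat.lt_floor_add_one a
    have hbM : ⌊b⌋₊ + 1 ≤ M := by
      have : ((⌊b⌋₊ + 1 : ℕ) : ℝ) ≤ M := by
        push_cast
        linarith
      exact_mod_cast this
    have hsplit := cnt_split M p hp a b ha hap hpb (by omega)
    rw [← hS] at hsplit
    set m1 := ⌊b⌋₊ + 1 - p with hm1
    set m2 := p - ⌊a⌋₊ with hm2
    have hm1p : 1 ≤ m1 := by omega
    have hm2p : 1 ≤ m2 := by omega
    have hmsum : (m1 : ℝ) + m2 = ⌊b⌋₊ + 1 - ⌊a⌋₊ := by
      have : m1 + m2 + ⌊a⌋₊ = ⌊b⌋₊ + 1 := by omega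
      have h2 : (m1 : ℝ) + m2 + ⌊a⌋₊ = ⌊b⌋₊ + 1 := by exact_mod_cast this
      linarith
    simp only [coe_union, Set.mem_union, mem_coe]
    rcases hbad with hbad | hbad
    · -- few primes
      have key : (num S p (p + m1) : ℝ) ≤ c * m1 ∨ (num S (p + 1 - m2) (p + 1) : ℝ) ≤ c * m2 := by
        by_contra hcon
        push Not at hcon
        obtain ⟨k1, k2⟩ := hcon
        have k3 : c * (b - a) ≤ c * (m1 + m2) := by
          apply mul_le_mul_of_nonneg_left _ hcpos.le
          rw [hmsum]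
          linarith
        have k4 : c * (b - a) = 2 * ((b - a) / (lam * L)) := by
          rw [hc]
          ring
        have k5 : 1 ≤ (b - a) / (lam * L) := by
          rw [le_div_iff₀ (by positivity)]
          linarith
        have k6 : c * (m1 + m2) = c * m1 + c * m2 := by ring
        linarith
      rcases key with key | key
      · left; left; left
        rw [hB1, mem_filter]
        exact ⟨hpP, m1, hm1p, by omega, key⟩
      · left; left; right
        rw [hB2, mem_filter]
        exact ⟨hpP, m2, hm2p, by omega, key⟩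
    · -- many primes
      have key : Λ * ((max m1 h : ℕ) : ℝ) ≤ (num S p (p + max m1 h) : ℝ) ∨
          Λ * ((max m2 h : ℕ) : ℝ) ≤ (num S (p + 1 - max m2 h) (p + 1) : ℝ) := by
        by_contra hcon
        push Not at hcon
        obtain ⟨k1, k2⟩ := hcon
        have n1 : (num S p (p + m1) : ℝ) ≤ num S p (p + max m1 h) :=
          num_mono S le_rfl (by have := le_max_left m1 h; omega)
        have n2 : (num S (p + 1 - m2) (p + 1) : ℝ) ≤ num S (p + 1 - max m2 h) (p + 1) :=
          num_mono S (by have := le_max_left m2 h; omega) le_rfl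
        have g1 : ((max m1 h : ℕ) : ℝ) ≤ m1 + h := by
          exact_mod_cast max_le (Nat.le_add_right _ _) (Nat.le_add_left _ _)
        have g2 : ((max m2 h : ℕ) : ℝ) ≤ m2 + h := by
          exact_mod_cast max_le (Nat.le_add_right _ _) (Nat.le_add_left _ _)
        have g3 : Λ * ((max m1 h : ℕ) : ℝ) + Λ * ((max m2 h : ℕ) : ℝ) ≤ Λ * (4 * (b - a)) := by
          rw [← mul_add]
          apply mul_le_mul_of_nonneg_left _ hΛpos.le
          have g4 : L ≤ lam * L := by nlinarith
          linarith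
        have g5 : Λ * (4 * (b - a)) = lam * (b - a) / L := by
          rw [hΛ]
          field_simp
        linarith
      rcases key with key | key
      · left; right
        rw [hV1, mem_filter]
        exact ⟨hpP, max m1 h, le_max_right _ _, key⟩
      · right
        rw [hV2, mem_filter]
        exact ⟨hpP, max m2 h, le_max_right _ _, key⟩
  have hcard : (({p : ℕ | p.Prime ∧ (p : ℝ) ≤ X ∧ ∃ a b : ℝ, 0 ≤ a ∧ a < p ∧ (p : ℝ) ≤ b ∧
      b ≤ 4 * X ∧ lam * L ≤ b - a ∧
      (cnt a b < (b - a) / (lam * L) ∨ lam * (b - a) / L < cnt a b)}.ncard : ℕ) : ℝ) ≤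
      B1.card + B2.card + V1.card + V2.card := by
    have h1 := Set.ncard_le_ncard hcover (finite_toSet _)
    rw [Set.ncard_coe_finset] at h1
    have h2 : (B1 ∪ B2 ∪ V1 ∪ V2).card ≤ B1.card + B2.card + V1.card + V2.card := by
      refine (card_union_le _ _).trans ?_
      gcongr
      refine (card_union_le _ _).trans ?_
      gcongr
      exact card_union_le _ _
    exact_mod_cast h1.trans h2
  refine hcard.trans ?_
  have hcM : c * M ≤ 10 / lam * (X / L) := by
    calc c * M ≤ c * (5 * X) := by gcongr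
      _ = 10 / lam * (X / L) := by
        rw [hc]
        field_simp
        ring
  have hEE : 2 / (Λ * h) * energy S h ≤ 8 / lam * ((10 + 20 * C) * (X / L)) := by
    have h1 : 2 / (Λ * h) ≤ 8 / lam := by
      rw [hΛ, div_le_div_iff₀ (by positivity) hlampos]
      have h2 : 8 * (lam / (4 * L) * h) = 2 * lam * (h / L) := by
        field_simp
        ring
      rw [h2]
      have h3 : 1 ≤ h / L := by
        rw [le_div_iff₀ hLpos]
        linarith
      nlinarith
    gcongr
  have hfin : B1.card + B2.card + V1.card + V2.card ≤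
      2 * (10 / lam * (X / L)) + 2 * (8 / lam * ((10 + 20 * C) * (X / L))) := by
    linarith
  refine hfin.trans ?_
  have : 2 * (10 / lam * (X / L)) + 2 * (8 / lam * ((10 + 20 * C) * (X / L))) =
      (180 + 320 * C) / lam * (X / L) := by
    ring
  rw [this]
  calc (180 + 320 * C) / lam * (X / L)
      ≤ (180 + 320 * C) / lam * (2 * Nat.primeCounting ⌊X⌋₊) := by gcongr
    _ = (360 + 640 * C) / lam * Nat.primeCounting ⌊X⌋₊ := by ring

end MP293bbf
end
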