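import Pool.Agent.Lib.MP_293bbf_nt.G3
import Pool.Agent.Lib.PNT.Main
import Pool.Agent.Lib.MP_293bbf_nt.A1

section

/-!
A0. Few primes have another prime within `κ log X` (uses `pair_bound` (S7) and
`Pool.Agent.Lib.PNT.pnt_pi`: `π(x) log x / x → 1`).

PROOF. Let `N = ⌊X⌋₊`, `h = ⌊κ log X⌋₊`. If `q > p` put `d = q - p ≤ h`: `p` is counted by `twin N d`.
If `q < p` put `d = p - q ≤ h`: then `q ≤ N` is counted by `twin N d`, and `(q, d)` determines `p`.
So the number is at most `2 Σ_{d ≤ h} twin N d ≤ 2 C h N/(log N)²`, `h ≤ κ log X`, and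
`N / log N ≤ 2 π(N)`, `log X ≤ 2 log N` for large `X`.
-/

open Finset

namespace MP293bbf

theorem a0_pi_lower : ∃ Y0 : ℝ, ∀ x : ℝ, Y0 ≤ x → x / Real.log x ≤ 2 * Nat.primeCounting ⌊x⌋₊ := by
  have h1 := Pool.Agent.Lib.PNT.pnt_pi
  have h2 : ∀ᶠ x : ℝ in Filter.atTop,
      (1 / 2 : ℝ) < (Nat.primeCounting ⌊x⌋₊ : ℝ) * Real.log x / x :=
    h1.eventually (lt_mem_nhds (by norm_num))
  rw [Filter.eventually_atTop] at h2
  obtain ⟨Y, hY⟩ := h2
  refine ⟨max Y 2, fun x hx => ?_⟩
  have hxY : Y ≤ x := (le_max_left _ _).trans hx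
  have hx2 : 2 ≤ x := (le_max_right _ _).trans hx
  have hlog : 0 < Real.log x := Real.log_pos (by linarith)
  have h3 := hY x hxY
  rw [lt_div_iff₀ (by linarith)] at h3
  rw [div_le_iff₀ hlog]
  linarith

/-- the finite set of primes having a neighbour within `h` -/
theorem a0_close_card (N h : ℕ) :
    (({p : ℕ | p.Prime ∧ p ≤ N ∧ ∃ q : ℕ, q.Prime ∧ q ≠ p ∧ p ≤ q + h ∧ q ≤ p + h}.ncard : ℕ) : ℝ)
      ≤ 2 * ∑ d ∈ Icc 1 h, twin N d := by
  classical
  set A : ℕ → Finset ℕ := fun d => (Icc 1 N).filter (fun p => p.Prime ∧ (p + d).Prime) with hA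
  set F : Finset ℕ := (Icc 1 h).biUnion A ∪ (Icc 1 h).biUnion (fun d => (A d).image (· + d)) with hF
  have hsub : {p : ℕ | p.Prime ∧ p ≤ N ∧ ∃ q : ℕ, q.Prime ∧ q ≠ p ∧ p ≤ q + h ∧ q ≤ p + h}
      ⊆ (F : Set ℕ) := by
    rintro p ⟨hp, hpN, q, hq, hqp, h1, h2⟩
    rw [Finset.mem_coe, hF, Finset.mem_union, Finset.mem_biUnion, Finset.mem_biUnion]
    rcases lt_or_gt_of_ne hqp with hlt | hgt
    · right
      refine ⟨p - q, ?_, ?_⟩
      · rw [Finset.mem_Icc]
        omega
      · rw [Finset.mem_image]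
        refine ⟨q, ?_, by omega⟩
        rw [hA, Finset.mem_filter, Finset.mem_Icc]
        refine ⟨⟨hq.one_le, by omega⟩, hq, ?_⟩
        have : q + (p - q) = p := by omega
        rw [this]
        exact hp
    · left
      refine ⟨q - p, ?_, ?_⟩
      · rw [Finset.mem_Icc]
        omega
      · rw [hA, Finset.mem_filter, Finset.mem_Icc]
        refine ⟨⟨hp.one_le, hpN⟩, hp, ?_⟩
        have : p + (q - p) = q := by omega
        rw [this]
        exact hq
  have h1 : {p : ℕ | p.Prime ∧ p ≤ N ∧ ∃ q : ℕ, q.Prime ∧ q ≠ p ∧ p ≤ q + h ∧ q ≤ p + h}.ncard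
      ≤ F.card := by
    have := Set.ncard_le_ncard hsub (Finset.finite_toSet F)
    rwa [Set.ncard_coe_finset] at this
  have h2 : F.card ≤ ∑ d ∈ Icc 1 h, (A d).card + ∑ d ∈ Icc 1 h, (A d).card := by
    refine (Finset.card_union_le _ _).trans (Nat.add_le_add Finset.card_biUnion_le ?_)
    exact Finset.card_biUnion_le.trans (Finset.sum_le_sum (fun d _ => Finset.card_image_le))
  have h3 : ((F.card : ℕ) : ℝ) ≤ 2 * ∑ d ∈ Icc 1 h, twin N d := by
    have h4 : ((F.card : ℕ) : ℝ)
        ≤ ((∑ d ∈ Icc 1 h, (A d).card + ∑ d ∈ Icc 1 h, (A d).card : ℕ) : ℝ) := by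
      exact_mod_cast h2
    have h5 : ((∑ d ∈ Icc 1 h, (A d).card : ℕ) : ℝ) = ∑ d ∈ Icc 1 h, twin N d := by
      push_cast
      rfl
    rw [Nat.cast_add, h5] at h4
    linarith
  have h6 : (({p : ℕ | p.Prime ∧ p ≤ N ∧
      ∃ q : ℕ, q.Prime ∧ q ≠ p ∧ p ≤ q + h ∧ q ≤ p + h}.ncard : ℕ) : ℝ) ≤ F.card := by
    exact_mod_cast h1
  exact h6.trans h3

theorem close_pairs : ∃ C X0 : ℝ, 0 < C ∧ ∀ X κ : ℝ, X0 ≤ X → 0 < κ →
    (({p : ℕ | p.Prime ∧ (p : ℝ) ≤ X ∧ ∃ q : ℕ, q.Prime ∧ q ≠ p ∧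
      |(q : ℝ) - p| ≤ κ * Real.log X}.ncard : ℕ) : ℝ) ≤ C * κ * Nat.primeCounting ⌊X⌋₊ := by
  obtain ⟨C, X1, hC, hpair⟩ := pair_bound
  obtain ⟨Y0, hY0⟩ := a0_pi_lower
  refine ⟨8 * C, max (max (X1 + 1) (Y0 + 1)) 5, by positivity, ?_⟩
  intro X κ hX hκ
  have hXa : X1 + 1 ≤ X := ((le_max_left _ _).trans (le_max_left _ _)).trans hX
  have hXb : Y0 + 1 ≤ X := ((le_max_right _ _).trans (le_max_left _ _)).trans hX
  have hXc : 5 ≤ X := (le_max_right _ _).trans hX
  set N : ℕ := ⌊X⌋₊ with hN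
  have hN1 : X < N + 1 := Nat.lt_floor_add_one X
  have hN2 : (N : ℝ) ≤ X := Nat.floor_le (by linarith)
  have hN4 : (4 : ℝ) ≤ N := by
    have : (4 : ℝ) < (N : ℝ) + 1 := by linarith
    have h4 : (4 : ℕ) ≤ N := by
      have : (4 : ℕ) < N + 1 := by exact_mod_cast this
      omega
    exact_mod_cast h4
  have hlogN : 0 < Real.log N := Real.log_pos (by linarith)
  have hlogX : Real.log X ≤ 2 * Real.log N := by
    have h1 : X ≤ (N : ℝ) ^ 2 := by nlinarith
    calc Real.log X ≤ Real.log ((N : ℝ) ^ 2) := Real.log_le_log (by linarith) h1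
      _ = 2 * Real.log N := by
          rw [Real.log_pow]
          norm_num
  have hlogX0 : 0 < Real.log X := Real.log_pos (by linarith)
  set h : ℕ := ⌊κ * Real.log X⌋₊ with hh
  have hhle : (h : ℝ) ≤ κ * Real.log X := Nat.floor_le (by positivity)
  have hsub : {p : ℕ | p.Prime ∧ (p : ℝ) ≤ X ∧ ∃ q : ℕ, q.Prime ∧ q ≠ p ∧
      |(q : ℝ) - p| ≤ κ * Real.log X}
      ⊆ {p : ℕ | p.Prime ∧ p ≤ N ∧ ∃ q : ℕ, q.Prime ∧ q ≠ p ∧ p ≤ q + h ∧ q ≤ p + h} := by
    rintro p ⟨hp, hpX, q, hq, hqp, hab⟩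
    rw [abs_le] at hab
    refine ⟨hp, Nat.le_floor hpX, q, hq, hqp, ?_, ?_⟩
    · by_cases hle : p ≤ q
      · omega
      · have h1 : ((p - q : ℕ) : ℝ) ≤ κ * Real.log X := by
          rw [Nat.cast_sub (by omega)]
          linarith [hab.1]
        have h2 : p - q ≤ h := Nat.le_floor h1
        omega
    · by_cases hle : q ≤ p
      · omega
      · have h1 : ((q - p : ℕ) : ℝ) ≤ κ * Real.log X := by
          rw [Nat.cast_sub (by omega)]
          linarith [hab.2]
        have h2 : q - p ≤ h := Nat.le_floor h1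
        omega
  have hfin : {p : ℕ | p.Prime ∧ p ≤ N ∧
      ∃ q : ℕ, q.Prime ∧ q ≠ p ∧ p ≤ q + h ∧ q ≤ p + h}.Finite :=
    (Set.finite_Iic N).subset (fun p hp => hp.2.1)
  have h1 : (({p : ℕ | p.Prime ∧ (p : ℝ) ≤ X ∧ ∃ q : ℕ, q.Prime ∧ q ≠ p ∧
      |(q : ℝ) - p| ≤ κ * Real.log X}.ncard : ℕ) : ℝ)
      ≤ (({p : ℕ | p.Prime ∧ p ≤ N ∧
      ∃ q : ℕ, q.Prime ∧ q ≠ p ∧ p ≤ q + h ∧ q ≤ p + h}.ncard : ℕ) : ℝ) := by
    exact_mod_cast Set.ncard_le_ncard hsub hfin
  have h2 := a0_close_card N h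
  have h3 := hpair N (by linarith) h
  have h4 := hY0 (N : ℝ) (by linarith)
  rw [Nat.floor_natCast] at h4
  have h5 : C * h * N / (Real.log N) ^ 2 ≤ C * κ * (4 * Nat.primeCounting N) := by
    have h6 : C * (h : ℝ) * N / (Real.log N) ^ 2
        = C * ((h : ℝ) / Real.log N) * (N / Real.log N) := by
      field_simp
    rw [h6]
    have h7 : (h : ℝ) / Real.log N ≤ 2 * κ := by
      rw [div_le_iff₀ hlogN]
      have := mul_le_mul_of_nonneg_left hlogX hκ.le
      linarith
    have h8 : (0 : ℝ) ≤ (N : ℝ) / Real.log N := by positivity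
    calc C * ((h : ℝ) / Real.log N) * (N / Real.log N)
        ≤ C * (2 * κ) * (N / Real.log N) :=
          mul_le_mul_of_nonneg_right (mul_le_mul_of_nonneg_left h7 hC.le) h8
      _ ≤ C * (2 * κ) * (2 * Nat.primeCounting N) :=
          mul_le_mul_of_nonneg_left h4 (by positivity)
      _ = _ := by ring
  calc (({p : ℕ | p.Prime ∧ (p : ℝ) ≤ X ∧ ∃ q : ℕ, q.Prime ∧ q ≠ p ∧
      |(q : ℝ) - p| ≤ κ * Real.log X}.ncard : ℕ) : ℝ)
      ≤ 2 * ∑ d ∈ Icc 1 h, twin N d := h1.trans h2
    _ ≤ 2 * (C * h * N / (Real.log N) ^ 2) := by linarith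
    _ ≤ 2 * (C * κ * (4 * Nat.primeCounting N)) := by linarith
    _ = 8 * C * κ * Nat.primeCounting N := by ring

end MP293bbf
end

section

/-!
A2. A positive proportion of real `x` with two-sided bounds for all `K log x ≤ y ≤ x`
(uses `close_pairs` (A0), `all_intervals` (A1), `lower_fwd` (G1), `Pool.Agent.Lib.PNT.pnt_pi`).

PROOF. Let `0 < δ < 1`. Put `δ' = (1+δ)/2`, choose `η > 0` with `δ' (1 + 2η) ≤ (3 + δ)/4 =: δ''`
(`δ'' < 1`), let `X` be large, `L = log X`, `N = ⌊X⌋₊`, `S` = primes `≤ ⌊(1+2η) X⌋₊`.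
(1) `B1` = primes `p ≤ X` for which some `m ≥ 1`, `p + m ≤ (1+2η)X`, has
    `num S p (p+m) ≤ (δ'/L) m`: `#B1 ≤ δ' (1+2η) X / L ≤ δ'' X / L` (`lower_fwd`).
(2) `B2` = exceptional primes of A1 for a large `lam₀`: `#B2 ≤ (C₁/lam₀) π(N)`.
(3) `B3` = primes having another prime within `κ L`: `#B3 ≤ C₀ κ π(N)`.
(4) `B4` = primes `p ≤ β X`: `#B4 ≤ 2 β X / L` (`β > 0` small, large `X`).
Choose `lam₀` large and `κ`, `β` small (depending on `δ`) such that, with `π(N) ≥ (1 - small) X / L`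
(prime number theorem), the set `G` of the remaining primes has `#G ≥ c₀ X / L`, `c₀ > 0`.
For `p ∈ G` consider the real interval `I_p = (p - κ L, p)`: these are pairwise disjoint (there is
no other prime within `κ L` of `p`), contained in `(1, X]`, total length `≥ κ c₀ X` (take e.g.
`c = κ c₀ / 2` or so; `volume` of a finite disjoint union of intervals).
For `x ∈ I_p` and `K log x ≤ y ≤ x` (`K` large, depending on `δ, κ, β, lam₀`): 
* upper: `(x, x+y]` contains `p` (as `y ≥ κ L`), `x ≥ 0`, `x + y ≤ 4X`, `y ≥ lam₀ L` (since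
  `log x ≥ L / 2`), so by (2) `cnt x (x+y) ≤ lam₀ y / L ≤ lam₀ y / log x`: `R x y ≤ lam₀`.
* lower, `y ≤ η X`: `cnt x (x+y) ≥ num S p (⌊x+y⌋₊ + 1) ≥ (δ'/L) (⌊x+y⌋₊ + 1 - p) ≥ (δ'/L) (y - κ L)`
  and `≥ δ y / log x`, because `log x ≥ log (βX/2) ≥ (1 - small) L` and `y ≥ K log x`.
* lower, `y > η X`: by the prime number theorem `cnt x (x+y) ≥ δ y / log x` for large `X`
  (`π(t) = (1 + o(1)) t / log t` for `t = x` and `t = x + y`, `log (x+y) ≤ log x + log 2`, and
  `x ≤ y/η`).
-/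

open Finset

namespace MP293bbf

theorem a2_pnt (ε : ℝ) (hε : 0 < ε) : ∃ T0 : ℝ, ∀ t : ℝ, T0 ≤ t →
    (1 - ε) * (t / Real.log t) ≤ Nat.primeCounting ⌊t⌋₊ ∧
    (Nat.primeCounting ⌊t⌋₊ : ℝ) ≤ (1 + ε) * (t / Real.log t) := by
  have h1 := Pool.Agent.Lib.PNT.pnt_pi
  have h2 : ∀ᶠ x : ℝ in Filter.atTop,
      (1 - ε : ℝ) < (Nat.primeCounting ⌊x⌋₊ : ℝ) * Real.log x / x :=
    h1.eventually (lt_mem_nhds (by linarith))
  have h3 : ∀ᶠ x : ℝ in Filter.atTop,
      (Nat.primeCounting ⌊x⌋₊ : ℝ) * Real.log x / x < 1 + ε :=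
    h1.eventually (gt_mem_nhds (by linarith))
  have h4 := h2.and h3
  rw [Filter.eventually_atTop] at h4
  obtain ⟨Y, hY⟩ := h4
  refine ⟨max Y 2, fun x hx => ?_⟩
  have hxY : Y ≤ x := (le_max_left _ _).trans hx
  have hx2 : 2 ≤ x := (le_max_right _ _).trans hx
  have hx0 : 0 < x := by linarith
  have hlog : 0 < Real.log x := Real.log_pos (by linarith)
  obtain ⟨h5, h6⟩ := hY x hxY
  rw [lt_div_iff₀ hx0] at h5
  rw [div_lt_iff₀ hx0] at h6
  constructor
  · rw [← mul_div_assoc, div_le_iff₀ hlog]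
    exact h5.le
  · rw [← mul_div_assoc, le_div_iff₀ hlog]
    exact h6.le

theorem a2_cnt_ge (S : Finset ℕ) (hS : ∀ q ∈ S, q.Prime) (x b : ℝ) (p : ℕ) (hx : 0 ≤ x)
    (hxp : x < p) : (num S p (⌊b⌋₊ + 1) : ℝ) ≤ cnt x b ∨ b < x := by
  classical
  by_cases hbx : b < x
  · exact Or.inr hbx
  left
  push Not at hbx
  have hab : ⌊x⌋₊ ≤ ⌊b⌋₊ := Nat.floor_le_floor hbx
  have hap : ⌊x⌋₊ < p := (Nat.floor_lt hx).mpr hxp
  unfold cnt num
  have hpc : ∀ n : ℕ, Nat.primeCounting n = ((range (n + 1)).filter Nat.Prime).card := by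
    intro n
    rw [Nat.primeCounting, Nat.primeCounting', Nat.count_eq_card_filter_range]
  have hdisj : Disjoint ((range (⌊x⌋₊ + 1)).filter Nat.Prime)
      (S.filter (fun q => p ≤ q ∧ q < ⌊b⌋₊ + 1)) := by
    rw [Finset.disjoint_left]
    intro q hq hq'
    rw [Finset.mem_filter, Finset.mem_range] at hq
    rw [Finset.mem_filter] at hq'
    omega
  have hsub : ((range (⌊x⌋₊ + 1)).filter Nat.Prime) ∪
      (S.filter (fun q => p ≤ q ∧ q < ⌊b⌋₊ + 1)) ⊆ (range (⌊b⌋₊ + 1)).filter Nat.Prime := by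
    intro q hq
    rw [Finset.mem_union, Finset.mem_filter, Finset.mem_filter, Finset.mem_range] at hq
    rw [Finset.mem_filter, Finset.mem_range]
    rcases hq with ⟨h1, h2⟩ | ⟨h1, h2, h3⟩
    · exact ⟨by omega, h2⟩
    · exact ⟨h3, hS q h1⟩
  have hcard := Finset.card_le_card hsub
  rw [Finset.card_union_of_disjoint hdisj] at hcard
  rw [hpc, hpc]
  have : (((range (⌊x⌋₊ + 1)).filter Nat.Prime).card : ℝ)
      + ((S.filter (fun q => p ≤ q ∧ q < ⌊b⌋₊ + 1)).card : ℝ)
      ≤ (((range (⌊b⌋₊ + 1)).filter Nat.Prime).card : ℝ) := by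
    exact_mod_cast hcard
  linarith

theorem a2_volume (G : Finset ℕ) (r : ℝ) (A : Set ℝ)
    (hG : ∀ p ∈ G, ∀ q ∈ G, p ≠ q → r < |(q : ℝ) - p|)
    (hA : ∀ p ∈ G, ∀ x : ℝ, (p : ℝ) - r < x → x < p → x ∈ A) :
    ENNReal.ofReal (G.card * r) ≤ MeasureTheory.volume A := by
  classical
  have hsub : (⋃ p ∈ G, Set.Ioo ((p : ℝ) - r) p) ⊆ A := by
    intro x hx
    rw [Set.mem_iUnion₂] at hx
    obtain ⟨p, hp, hx⟩ := hx
    exact hA p hp x hx.1 hx.2
  refine le_trans ?_ (MeasureTheory.measure_mono hsub)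
  rw [MeasureTheory.measure_biUnion_finset]
  · have h1 : ∀ p ∈ G, MeasureTheory.volume (Set.Ioo ((p : ℝ) - r) p) = ENNReal.ofReal r := by
      intro p _
      rw [Real.volume_Ioo]
      congr 1
      ring
    rw [Finset.sum_congr rfl h1, Finset.sum_const, nsmul_eq_mul,
      ENNReal.ofReal_mul (Nat.cast_nonneg _), ENNReal.ofReal_natCast]
  · intro p hp q hq hpq
    have h1 := hG p hp q hq hpq
    rw [Function.onFun, Set.disjoint_left]
    intro x hx hx'
    have h2 := hx.1
    have h3 := hx.2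
    have h4 := hx'.1
    have h5 := hx'.2
    have h6 : |(q : ℝ) - p| < r := by
      rw [abs_lt]
      constructor <;> linarith
    linarith
  · intro p _
    exact measurableSet_Ioo

/-- long intervals: the prime number theorem -/
theorem a2_long (δ η β : ℝ) (hδ1 : δ < 1) (hη : 0 < η) (hη1 : η ≤ 1) (hβ : 0 < β) :
    ∃ X0 : ℝ, ∀ X : ℝ, X0 ≤ X → ∀ x y : ℝ, β * X ≤ x → x ≤ X → η * X < y → y ≤ x →
      δ ≤ R x y := by
  set ε : ℝ := (1 - δ) * η / 5 with hεdef
  have hε : 0 < ε := by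
    have : 0 < 1 - δ := by linarith
    positivity
  obtain ⟨T0, hT0⟩ := a2_pnt ε hε
  have hlt : Filter.Tendsto Real.log Filter.atTop Filter.atTop := Real.tendsto_log_atTop
  obtain ⟨T1, hT1⟩ := Filter.eventually_atTop.mp (hlt.eventually_ge_atTop (Real.log 2 / ε + 1))
  refine ⟨max 1 (max (T0 / β) (T1 / β)), ?_⟩
  intro X hX x y hx1 hx2 hy1 hy2
  have hX1 : 1 ≤ X := (le_max_left _ _).trans hX
  have hXa : T0 / β ≤ X := ((le_max_left _ _).trans (le_max_right _ _)).trans hX
  have hXb : T1 / β ≤ X := ((le_max_right _ _).trans (le_max_right _ _)).trans hX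
  rw [div_le_iff₀ hβ] at hXa hXb
  have hxT0 : T0 ≤ x := by linarith
  have hxT1 : T1 ≤ x := by linarith
  have hX0 : 0 < X := by linarith
  have hy0 : 0 < y := lt_trans (by positivity) hy1
  have hx0 : 0 < x := lt_of_lt_of_le hy0 hy2
  have hlogx := hT1 x hxT1
  have hlog2 : 0 < Real.log 2 := Real.log_pos (by norm_num)
  have hlx : 0 < Real.log x := lt_of_lt_of_le (by positivity) hlogx
  have h1 := (hT0 (x + y) (by linarith)).1
  have h2 := (hT0 x hxT0).2
  have hlxy : Real.log (x + y) ≤ Real.log x + Real.log 2 := by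
    rw [← Real.log_mul hx0.ne' (by norm_num)]
    exact Real.log_le_log (by linarith) (by linarith)
  have hlxy0 : 0 < Real.log (x + y) := lt_of_lt_of_le hlx (Real.log_le_log hx0 (by linarith))
  by_cases hε1 : 1 ≤ ε
  · -- cannot happen as ε ≤ (1-δ)/5; if δ is very negative the bound is trivial
    have h3 : δ ≤ 0 := by
      have : (1 - δ) * η / 5 ≤ (1 - δ) / 5 := by
        have : 0 < 1 - δ := by linarith
        have h4 : (1 - δ) * η ≤ (1 - δ) * 1 := mul_le_mul_of_nonneg_left hη1 this.le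
        linarith
      linarith
    have h4 : 0 ≤ R x y := by
      unfold R cnt
      have h5 : (Nat.primeCounting ⌊x⌋₊ : ℝ) ≤ Nat.primeCounting ⌊x + y⌋₊ := by
        exact_mod_cast Nat.monotone_primeCounting (Nat.floor_le_floor (by linarith))
      have h6 : 0 ≤ (Nat.primeCounting ⌊x + y⌋₊ : ℝ) - Nat.primeCounting ⌊x⌋₊ := by linarith
      positivity
    linarith
  push Not at hε1
  have hratio : (1 - ε) * Real.log (x + y) ≤ Real.log x := by
    have h3 : Real.log 2 ≤ ε * Real.log x := by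
      have h4 : Real.log 2 / ε ≤ Real.log x := by linarith
      rw [div_le_iff₀ hε] at h4
      linarith
    have h5 : (1 - ε) * Real.log (x + y) ≤ (1 - ε) * (Real.log x + Real.log 2) :=
      mul_le_mul_of_nonneg_left hlxy (by linarith)
    nlinarith
  have h3 : (1 - ε) ^ 2 * ((x + y) / Real.log x) ≤ Nat.primeCounting ⌊x + y⌋₊ := by
    refine le_trans ?_ h1
    have h4 : (1 - ε) * ((x + y) / Real.log x) ≤ (x + y) / Real.log (x + y) := by
      rw [← mul_div_assoc, div_le_div_iff₀ hlx hlxy0]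
      have := mul_le_mul_of_nonneg_left hratio (show 0 ≤ x + y by linarith)
      nlinarith
    have h5 := mul_le_mul_of_nonneg_left h4 (show 0 ≤ 1 - ε by linarith)
    calc (1 - ε) ^ 2 * ((x + y) / Real.log x) = (1 - ε) * ((1 - ε) * ((x + y) / Real.log x)) := by
          ring
      _ ≤ _ := h5
  unfold R cnt
  rw [le_div_iff₀ (by positivity)]
  have h6 : ((1 - ε) ^ 2 * (x + y) - (1 + ε) * x) / Real.log x
      ≤ (Nat.primeCounting ⌊x + y⌋₊ : ℝ) - Nat.primeCounting ⌊x⌋₊ := by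
    rw [sub_div, mul_div_assoc, mul_div_assoc]
    linarith
  refine le_trans ?_ h6
  rw [← mul_div_assoc]
  refine div_le_div_of_nonneg_right ?_ hlx.le
  -- δ y ≤ (1-ε)^2 (x+y) - (1+ε) x
  have h7 : η * x ≤ y := by
    have := mul_le_mul_of_nonneg_left hx2 hη.le
    linarith
  have h8 : (1 - 2 * ε) * (x + y) ≤ (1 - ε) ^ 2 * (x + y) := by
    have : 0 ≤ ε ^ 2 * (x + y) := by positivity
    nlinarith
  have h9 : ε * x ≤ (1 - δ) * y / 5 := by
    have : (1 - δ) * (η * x) ≤ (1 - δ) * y := mul_le_mul_of_nonneg_left h7 (by linarith)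
    rw [hεdef]
    nlinarith
  have h10 : ε * y ≤ (1 - δ) * y / 5 := by
    have h11 : (1 - δ) * η ≤ (1 - δ) * 1 := mul_le_mul_of_nonneg_left hη1 (by linarith)
    have : (1 - δ) * η / 5 * y ≤ (1 - δ) / 5 * y := mul_le_mul_of_nonneg_right (by linarith) hy0.le
    rw [hεdef]
    linarith
  nlinarith

theorem reals : ∀ δ : ℝ, 0 < δ → δ < 1 → ∃ K lam c X0 : ℝ, 0 < c ∧ ∀ X : ℝ, X0 ≤ X →
    ENNReal.ofReal (c * X) ≤ MeasureTheory.volume {x : ℝ | 1 < x ∧ x ≤ X ∧
      ∀ y : ℝ, K * Real.log x ≤ y → y ≤ x → δ ≤ R x y ∧ R x y ≤ lam} := by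
  classical
  intro δ hδ0 hδ1
  have h1δ : 0 < 1 - δ := by linarith
  set δ' : ℝ := (1 + δ) / 2 with hδ'
  set η : ℝ := (1 - δ) / (4 * (1 + δ)) with hη
  set γ : ℝ := (1 - δ) / 16 with hγ
  have hγ0 : 0 < γ := by positivity
  have hη0 : 0 < η := by positivity
  have hη1 : η ≤ 1 := by
    rw [hη, div_le_one (by positivity)]
    linarith
  have hηδ : δ' * (1 + 2 * η) = 1 - 4 * γ := by
    rw [hδ', hη, hγ]
    field_simp
    ring
  obtain ⟨C1, X1, hC1, hint⟩ := all_intervals
  obtain ⟨C0, X2, hC0, hclose⟩ := close_pairs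
  set lam0 : ℝ := max 1 (4 * C1 / γ) with hlam0
  have hlam1 : 1 ≤ lam0 := le_max_left _ _
  have hlam2 : C1 / lam0 * 2 ≤ γ / 2 := by
    have h1 : 4 * C1 / γ ≤ lam0 := le_max_right _ _
    rw [div_le_iff₀ hγ0] at h1
    have h2 : 0 < lam0 := by linarith
    rw [div_mul_eq_mul_div, div_le_iff₀ h2]
    linarith
  set κ : ℝ := γ / (4 * C0) with hκ
  have hκ0 : 0 < κ := by positivity
  have hκ2 : C0 * κ * 2 = γ / 2 := by
    rw [hκ]
    field_simp
    ring
  set β : ℝ := γ / 4 with hβ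
  have hβ0 : 0 < β := by positivity
  have hβ1 : β ≤ 1 := by
    rw [hβ, hγ]
    linarith
  set ε2 : ℝ := (1 - δ) / 4 with hε2
  have hε20 : 0 < ε2 := by positivity
  set K : ℝ := max (2 * κ) (max (2 * lam0) (2 * κ / ε2)) with hK
  have hK1 : 2 * κ ≤ K := le_max_left _ _
  have hK2 : 2 * lam0 ≤ K := (le_max_left _ _).trans (le_max_right _ _)
  have hK3 : 2 * κ / ε2 ≤ K := (le_max_right _ _).trans (le_max_right _ _)
  have hK0 : 0 < K := by linarith
  obtain ⟨X3, hlong⟩ := a2_long δ η (β / 2) hδ1 hη0 hη1 (by positivity)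
  obtain ⟨T0, hpnt⟩ := a2_pnt γ hγ0
  have hlt : Filter.Tendsto Real.log Filter.atTop Filter.atTop := Real.tendsto_log_atTop
  -- log large
  obtain ⟨T1, hT1⟩ := Filter.eventually_atTop.mp
    (hlt.eventually_ge_atTop (max 1 (max (2 * Real.log (2 / β)) (Real.log (2 / β) / ε2))))
  -- κ log X + 1 ≤ (β/2) X and 3 ≤ η X
  have hlo := (Real.isLittleO_log_id_atTop).bound (show (0 : ℝ) < β / (4 * κ) by positivity)
  obtain ⟨T2, hT2⟩ := Filter.eventually_atTop.mp hlo
  refine ⟨K, lam0, γ * κ, max (max (max X1 X2) (max X3 (T0 / β)))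
    (max (max T1 T2) (max (max T0 (4 / β)) (max (3 / η) 3))), by positivity, ?_⟩
  intro X hX
  have hXX1 : X1 ≤ X := (((le_max_left _ _).trans (le_max_left _ _)).trans (le_max_left _ _)).trans hX
  have hXX2 : X2 ≤ X := (((le_max_right _ _).trans (le_max_left _ _)).trans (le_max_left _ _)).trans hX
  have hXX3 : X3 ≤ X := (((le_max_left _ _).trans (le_max_right _ _)).trans (le_max_left _ _)).trans hX
  have hXT0β : T0 / β ≤ X :=
    (((le_max_right _ _).trans (le_max_right _ _)).trans (le_max_left _ _)).trans hX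
  have hXT1 : T1 ≤ X := (((le_max_left _ _).trans (le_max_left _ _)).trans (le_max_right _ _)).trans hX
  have hXT2 : T2 ≤ X := (((le_max_right _ _).trans (le_max_left _ _)).trans (le_max_right _ _)).trans hX
  have hXT0 : T0 ≤ X := ((((le_max_left _ _).trans (le_max_left _ _)).trans
    (le_max_right _ _)).trans (le_max_right _ _)).trans hX
  have hX4β : 4 / β ≤ X := ((((le_max_right _ _).trans (le_max_left _ _)).trans
    (le_max_right _ _)).trans (le_max_right _ _)).trans hX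
  have hX3η : 3 / η ≤ X := ((((le_max_left _ _).trans (le_max_right _ _)).trans
    (le_max_right _ _)).trans (le_max_right _ _)).trans hX
  have hX3 : 3 ≤ X := ((((le_max_right _ _).trans (le_max_right _ _)).trans
    (le_max_right _ _)).trans (le_max_right _ _)).trans hX
  clear hX
  have hX0 : 0 < X := by linarith
  have hT1X := hT1 X hXT1
  set L : ℝ := Real.log X with hL
  have hL1 : 1 ≤ L := (le_max_left _ _).trans hT1X
  have hL2 : 2 * Real.log (2 / β) ≤ L := ((le_max_left _ _).trans (le_max_right _ _)).trans hT1X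
  have hL3 : Real.log (2 / β) / ε2 ≤ L := ((le_max_right _ _).trans (le_max_right _ _)).trans hT1X
  have hL0 : 0 < L := by linarith
  have hκL : κ * L + 1 ≤ β / 2 * X := by
    have h1 := hT2 X hXT2
    rw [Real.norm_of_nonneg hL0.le, id, Real.norm_of_nonneg hX0.le] at h1
    have h2 : κ * L ≤ κ * (β / (4 * κ) * X) := mul_le_mul_of_nonneg_left h1 hκ0.le
    have h3 : κ * (β / (4 * κ) * X) = β / 4 * X := by
      field_simp
    rw [div_le_iff₀ hβ0] at hX4β
    linarith
  have hηX : 3 ≤ η * X := by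
    rw [div_le_iff₀ hη0] at hX3η
    linarith
  -- log of x in [β X / 2, X]
  have hlogx : ∀ x : ℝ, β / 2 * X ≤ x → L - Real.log (2 / β) ≤ Real.log x := by
    intro x hx
    have h1 : Real.log (β / 2 * X) ≤ Real.log x := Real.log_le_log (by positivity) hx
    have h2 : Real.log (β / 2 * X) = Real.log X - Real.log (2 / β) := by
      rw [← Real.log_div hX0.ne' (by positivity)]
      congr 1
      field_simp
    linarith
  have hlog2β : 0 ≤ Real.log (2 / β) := by
    apply Real.log_nonneg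
    rw [le_div_iff₀ hβ0]
    linarith
  have hN := hpnt X hXT0
  set N : ℕ := ⌊X⌋₊ with hNdef
  set M : ℕ := ⌊(1 + 2 * η) * X⌋₊ with hM
  set P : Finset ℕ := (range (N + 1)).filter Nat.Prime with hP
  set S : Finset ℕ := (range (M + 1)).filter Nat.Prime with hS
  have hPcard : P.card = Nat.primeCounting N := by
    rw [hP, Nat.primeCounting, Nat.primeCounting', Nat.count_eq_card_filter_range]
  have hηX0 : 0 < η * X := mul_pos hη0 hX0
  have hNM : N ≤ M := Nat.floor_le_floor (by linarith)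
  have hPS : P ⊆ S := by
    intro q hq
    rw [hP, Finset.mem_filter, Finset.mem_range] at hq
    rw [hS, Finset.mem_filter, Finset.mem_range]
    exact ⟨by omega, hq.2⟩
  have hPX : ∀ p ∈ P, p.Prime ∧ (p : ℝ) ≤ X := by
    intro p hp
    rw [hP, Finset.mem_filter, Finset.mem_range] at hp
    refine ⟨hp.2, le_trans ?_ (Nat.floor_le hX0.le)⟩
    exact_mod_cast Nat.lt_succ_iff.mp hp.1
  -- the bad sets
  set B1 : Finset ℕ := P.filter (fun p => ∃ m : ℕ, 1 ≤ m ∧ p + m ≤ M ∧
    (num S p (p + m) : ℝ) ≤ δ' / L * m) with hB1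
  set bad2 : Set ℕ := {p : ℕ | p.Prime ∧ (p : ℝ) ≤ X ∧ ∃ a b : ℝ, 0 ≤ a ∧ a < p ∧ (p : ℝ) ≤ b ∧
      b ≤ 4 * X ∧ lam0 * Real.log X ≤ b - a ∧
      (cnt a b < (b - a) / (lam0 * Real.log X) ∨
        lam0 * (b - a) / Real.log X < cnt a b)} with hbad2
  set bad3 : Set ℕ := {p : ℕ | p.Prime ∧ (p : ℝ) ≤ X ∧ ∃ q : ℕ, q.Prime ∧ q ≠ p ∧
      |(q : ℝ) - p| ≤ κ * Real.log X} with hbad3
  set B2 : Finset ℕ := P.filter (fun p => p ∈ bad2) with hB2
  set B3 : Finset ℕ := P.filter (fun p => p ∈ bad3) with hB3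
  set B4 : Finset ℕ := P.filter (fun p => (p : ℝ) ≤ β * X) with hB4
  set G : Finset ℕ := P.filter (fun p => p ∉ B1 ∧ p ∉ B2 ∧ p ∉ B3 ∧ p ∉ B4) with hG
  have hfinX : {p : ℕ | (p : ℝ) ≤ X}.Finite := by
    refine (Set.finite_Iic N).subset (fun p hp => ?_)
    exact Nat.le_floor hp
  have hcB1 : (B1.card : ℝ) ≤ (1 - 4 * γ) * (X / L) := by
    have h1 := lower_fwd S B1 (δ' / L) M (by positivity)
      ((Finset.filter_subset _ _).trans hPS) (by
        intro p hp
        rw [hB1, Finset.mem_filter] at hp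
        exact hp.2)
    refine h1.trans ?_
    have h2 : (M : ℝ) ≤ (1 + 2 * η) * X := Nat.floor_le (by positivity)
    calc δ' / L * M ≤ δ' / L * ((1 + 2 * η) * X) :=
          mul_le_mul_of_nonneg_left h2 (by positivity)
      _ = (δ' * (1 + 2 * η)) * (X / L) := by ring
      _ = _ := by rw [hηδ]
  have hπ2 : (Nat.primeCounting N : ℝ) ≤ 2 * (X / L) := by
    refine hN.2.trans (mul_le_mul_of_nonneg_right ?_ (by positivity))
    rw [hγ]
    linarith
  have hcB2 : (B2.card : ℝ) ≤ γ / 2 * (X / L) := by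
    have h1 := hint X lam0 hXX1 hlam1
    have h2 : (B2.card : ℝ) ≤ (bad2.ncard : ℝ) := by
      have h3 : (B2 : Set ℕ) ⊆ bad2 := by
        intro p hp
        rw [Finset.mem_coe, hB2, Finset.mem_filter] at hp
        exact hp.2
      have h4 := Set.ncard_le_ncard h3 (hfinX.subset (fun p hp => hp.2.1))
      rw [Set.ncard_coe_finset] at h4
      exact_mod_cast h4
    refine (h2.trans h1).trans ?_
    calc C1 / lam0 * (Nat.primeCounting N : ℝ) ≤ C1 / lam0 * (2 * (X / L)) :=
          mul_le_mul_of_nonneg_left hπ2 (by positivity)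
      _ = (C1 / lam0 * 2) * (X / L) := by ring
      _ ≤ γ / 2 * (X / L) := mul_le_mul_of_nonneg_right hlam2 (by positivity)
  have hcB3 : (B3.card : ℝ) ≤ γ / 2 * (X / L) := by
    have h1 := hclose X κ hXX2 hκ0
    have h2 : (B3.card : ℝ) ≤ (bad3.ncard : ℝ) := by
      have h3 : (B3 : Set ℕ) ⊆ bad3 := by
        intro p hp
        rw [Finset.mem_coe, hB3, Finset.mem_filter] at hp
        exact hp.2
      have h4 := Set.ncard_le_ncard h3 (hfinX.subset (fun p hp => hp.2.1))
      rw [Set.ncard_coe_finset] at h4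
      exact_mod_cast h4
    refine (h2.trans h1).trans ?_
    calc C0 * κ * (Nat.primeCounting N : ℝ) ≤ C0 * κ * (2 * (X / L)) :=
          mul_le_mul_of_nonneg_left hπ2 (by positivity)
      _ = (C0 * κ * 2) * (X / L) := by ring
      _ = γ / 2 * (X / L) := by rw [hκ2]
  have hcB4 : (B4.card : ℝ) ≤ γ * (X / L) := by
    have hβT : T0 ≤ β * X := by
      rw [div_le_iff₀ hβ0] at hXT0β
      linarith
    have h1 := (hpnt (β * X) hβT).2
    have h2 : B4.card ≤ Nat.primeCounting ⌊β * X⌋₊ := by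
      rw [Nat.primeCounting, Nat.primeCounting', Nat.count_eq_card_filter_range]
      refine Finset.card_le_card ?_
      intro p hp
      rw [hB4, Finset.mem_filter] at hp
      rw [Finset.mem_filter, Finset.mem_range]
      exact ⟨Nat.lt_succ_of_le (Nat.le_floor hp.2), (hPX p hp.1).1⟩
    have h3 : L / 2 ≤ Real.log (β * X) := by
      have h30 : 0 < β * X := mul_pos hβ0 hX0
      have := hlogx (β * X) (by linarith)
      linarith
    have h4 : (B4.card : ℝ) ≤ (1 + γ) * (β * X / Real.log (β * X)) := by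
      refine le_trans ?_ h1
      exact_mod_cast h2
    refine h4.trans ?_
    have h5 : β * X / Real.log (β * X) ≤ β * X / (L / 2) :=
      div_le_div_of_nonneg_left (by positivity) (by positivity) h3
    calc (1 + γ) * (β * X / Real.log (β * X)) ≤ 2 * (β * X / (L / 2)) := by
          refine mul_le_mul ?_ h5 ?_ (by norm_num)
          · rw [hγ]
            linarith
          · have : 0 < Real.log (β * X) := by linarith
            positivity
      _ = (4 * β) * (X / L) := by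
          field_simp
          ring
      _ = γ * (X / L) := by
          rw [hβ]
          ring
  have hcG : γ * (X / L) ≤ (G.card : ℝ) := by
    have hsub : P ⊆ G ∪ (B1 ∪ (B2 ∪ (B3 ∪ B4))) := by
      intro p hp
      by_cases h1 : p ∈ B1
      · simp [h1]
      by_cases h2 : p ∈ B2
      · simp [h2]
      by_cases h3 : p ∈ B3
      · simp [h3]
      by_cases h4 : p ∈ B4
      · simp [h4]
      rw [Finset.mem_union]
      left
      rw [hG, Finset.mem_filter]
      exact ⟨hp, h1, h2, h3, h4⟩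
    have h1 := Finset.card_le_card hsub
    have h2 := Finset.card_union_le G (B1 ∪ (B2 ∪ (B3 ∪ B4)))
    have h3 := Finset.card_union_le B1 (B2 ∪ (B3 ∪ B4))
    have h4 := Finset.card_union_le B2 (B3 ∪ B4)
    have h5 := Finset.card_union_le B3 B4
    have h6 : P.card ≤ G.card + (B1.card + (B2.card + (B3.card + B4.card))) := by omega
    rw [hPcard] at h6
    have h7 : (Nat.primeCounting N : ℝ)
        ≤ G.card + (B1.card + (B2.card + (B3.card + B4.card))) := by exact_mod_cast h6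
    have h8 := hN.1
    linarith
  -- the volume
  refine le_trans ?_ (a2_volume G (κ * L) _ ?_ ?_)
  · refine ENNReal.ofReal_le_ofReal ?_
    calc γ * κ * X = (γ * (X / L)) * (κ * L) := by
          field_simp
      _ ≤ G.card * (κ * L) := mul_le_mul_of_nonneg_right hcG (by positivity)
  · intro p hp q hq hpq
    rw [hG, Finset.mem_filter] at hp hq
    by_contra hle
    push Not at hle
    apply hp.2.2.2.1
    rw [hB3, Finset.mem_filter]
    refine ⟨hp.1, (hPX p hp.1).1, (hPX p hp.1).2, q, (hPX q hq.1).1, fun h => hpq h.symm, hle⟩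
  · intro p hp x hx1 hx2
    rw [hG, Finset.mem_filter] at hp
    obtain ⟨hpP, hpB1, hpB2, hpB3, hpB4⟩ := hp
    obtain ⟨hpp, hpX⟩ := hPX p hpP
    have hpβ : β * X < p := by
      by_contra hle
      push Not at hle
      exact hpB4 (by rw [hB4, Finset.mem_filter]; exact ⟨hpP, hle⟩)
    have hxβ : β / 2 * X ≤ x := by linarith
    have hx1' : 1 < x := by linarith
    have hxX : x ≤ X := by linarith
    have hx0 : 0 < x := by linarith
    have hlx := hlogx x hxβ
    have hlx2 : L / 2 ≤ Real.log x := by linarith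
    have hlxL : Real.log x ≤ L := Real.log_le_log hx0 hxX
    have hlx0 : 0 < Real.log x := by linarith
    have hlx3 : (1 - ε2) * L ≤ Real.log x := by
      have h1 : Real.log (2 / β) ≤ ε2 * L := by
        rw [div_le_iff₀ hε20] at hL3
        linarith
      linarith
    refine ⟨hx1', hxX, ?_⟩
    intro y hy1 hy2
    have hyK : K * (L / 2) ≤ y := (mul_le_mul_of_nonneg_left hlx2 hK0.le).trans hy1
    have hyκ : κ * L ≤ y := by
      have := mul_le_mul_of_nonneg_right hK1 (show 0 ≤ L / 2 by positivity)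
      linarith
    have hylam : lam0 * L ≤ y := by
      have := mul_le_mul_of_nonneg_right hK2 (show 0 ≤ L / 2 by positivity)
      linarith
    have hyε : κ * L ≤ ε2 * y := by
      have h1 := mul_le_mul_of_nonneg_right hK3 (show 0 ≤ L / 2 by positivity)
      have h2 : 2 * κ / ε2 * (L / 2) = κ * L / ε2 := by
        field_simp
      rw [h2] at h1
      have h3 := h1.trans hyK
      rw [div_le_iff₀ hε20] at h3
      linarith
    have hy0 : 0 < y := lt_of_lt_of_le (by positivity) hyκ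
    constructor
    · -- lower bound
      by_cases hyη : y ≤ η * X
      · have h1 := a2_cnt_ge S (fun q hq => (Finset.mem_filter.mp hq).2) x (x + y) p hx0.le hx2
        have h2 : (num S p (⌊x + y⌋₊ + 1) : ℝ) ≤ cnt x (x + y) := by
          rcases h1 with h1 | h1
          · exact h1
          · linarith
        have hpf : p ≤ ⌊x + y⌋₊ := Nat.le_floor (by linarith)
        set m : ℕ := ⌊x + y⌋₊ + 1 - p with hm
        have hm1 : 1 ≤ m := by omega
        have hpm : p + m = ⌊x + y⌋₊ + 1 := by omega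
        have hpM : p + m ≤ M := by
          rw [hpm]
          refine Nat.le_floor ?_
          push_cast
          have : (⌊x + y⌋₊ : ℝ) ≤ x + y := Nat.floor_le (by linarith)
          linarith
        have h3 : δ' / L * m < (num S p (p + m) : ℝ) := by
          by_contra hle
          push Not at hle
          exact hpB1 (by
            rw [hB1, Finset.mem_filter]
            exact ⟨hpP, m, hm1, hpM, hle⟩)
        rw [hpm] at h3
        have h4 : y - κ * L ≤ (m : ℝ) := by
          have h5 : x + y < (⌊x + y⌋₊ : ℝ) + 1 := Nat.lt_floor_add_one _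
          have h6 : (m : ℝ) = (⌊x + y⌋₊ : ℝ) + 1 - p := by
            rw [hm, Nat.cast_sub (by omega)]
            push_cast
            ring
          rw [h6]
          linarith
        have h5 : δ' / L * ((1 - ε2) * y) ≤ cnt x (x + y) := by
          have h6 : (1 - ε2) * y ≤ m := by linarith
          have h7 : δ' / L * ((1 - ε2) * y) ≤ δ' / L * m :=
            mul_le_mul_of_nonneg_left h6 (by positivity)
          linarith
        unfold R
        rw [le_div_iff₀ (by positivity)]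
        refine le_trans ?_ h5
        rw [← mul_div_assoc, div_mul_eq_mul_div, div_le_div_iff₀ hlx0 hL0]
        have h6 : δ' * ((1 - ε2) * y) * ((1 - ε2) * L) ≤ δ' * ((1 - ε2) * y) * Real.log x := by
          refine mul_le_mul_of_nonneg_left hlx3 ?_
          have : 0 ≤ 1 - ε2 := by
            rw [hε2]
            linarith
          positivity
        refine le_trans ?_ h6
        have h7 : δ ≤ δ' * (1 - ε2) ^ 2 := by
          have h70 : δ' * (1 - ε2) ^ 2 - δ = (1 - δ) ^ 2 * (9 + δ) / 32 := by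
            rw [hδ', hε2]
            ring
          have h71 : 0 ≤ (1 - δ) ^ 2 * (9 + δ) / 32 := by positivity
          linarith
        have h8 : 0 < y * L := by positivity
        have h9 := mul_le_mul_of_nonneg_right h7 h8.le
        calc δ * y * L = δ * (y * L) := by ring
          _ ≤ δ' * (1 - ε2) ^ 2 * (y * L) := h9
          _ = _ := by ring
      · push Not at hyη
        exact hlong X hXX3 x y hxβ hxX hyη hy2
    · -- upper bound
      have h1 : cnt x (x + y) ≤ lam0 * y / L := by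
        by_contra hlt'
        push Not at hlt'
        apply hpB2
        rw [hB2, Finset.mem_filter]
        refine ⟨hpP, hpp, hpX, x, x + y, hx0.le, hx2, by linarith, by linarith, ?_, Or.inr ?_⟩
        · show lam0 * L ≤ x + y - x
          linarith
        · show lam0 * (x + y - x) / L < cnt x (x + y)
          have : x + y - x = y := by ring
          rw [this]
          exact hlt'
      unfold R
      rw [div_le_iff₀ (by positivity)]
      refine h1.trans ?_
      rw [mul_div_assoc]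
      refine mul_le_mul_of_nonneg_left ?_ (by linarith)
      exact div_le_div_of_nonneg_left hy0.le hlx0 hlxL

end MP293bbf
end
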