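import Pool.Agent.Lib.MP_293bbf_nt.A0
import Pool.Agent.Lib.MP_293bbf_nt.A1

/-!
A3. Spacings of primes at all scales (uses `close_pairs` (A0), `all_intervals` (A1),
`Pool.Agent.Lib.PNT.pnt_pi`).  `p_n := Nat.nth Nat.Prime n` (so `p_0 = 2`).

PROOF. Let `ε > 0`, `N` large, `X = p_N` (as a real), `L = log X`. Then `π(X) = N + 1`,
`(1/2) L ≤ log N ≤ L` for large `N` (`p_N ≤ N²`), and `p_{2N} ≤ 4X` for large `N` (prime number
theorem: `π(4X) ≥ 2N + 1`). Choose `lam = lam(ε) ≥ 1` with `C₁/lam ≤ ε/8`, `κ ≤ 1` with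
`C₀ κ ≤ ε/8` (constants of A1, A0). The indices `n ≤ N` for which `p_n` is exceptional in A1 or A0, and
the indices `n ≤ ε N / 4`, are at most `ε N` in number. For all other `n ≤ N` and `1 ≤ m ≤ n`:
let `D = p_{n+m} - p_n`, `I = (p_n - 1, p_{n+m} - 1]` which contains `p_n` and exactly `m` primes.
* if `D ≥ lam L`: `D/(lam L) ≤ m ≤ lam D / L`;
* if `D < lam L`: `D < lam L ≤ lam m L`. And `I' = (p_n - 1, p_n - 1 + lam L]` contains
  `p_n, ..., p_{n+m-1}` so `m ≤ cnt I' ≤ lam² `; while `D ≥ κ L` because `p_{n+m}` is not within `κ L` of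
  `p_n`; so `D ≥ κ L ≥ (κ/lam²) m L`.
Same for `p_n - p_{n-m}` with the interval `(p_{n-m}, p_n]` (it contains exactly `m` primes, and
`p_n`). Finally `log n` and `L` are comparable for `n ≥ ε N/4`: `(1/4) L ≤ log n ≤ L`.
-/

open Finset

namespace MP293bbf

theorem a3_inf : (Set.ofPred Nat.Prime).Infinite := Nat.infinite_setOfPred_prime

theorem a3_pi (n : ℕ) : Nat.primeCounting (Nat.nth Nat.Prime n) = n + 1 := by
  rw [Nat.primeCounting, Nat.primeCounting']
  exact Nat.count_nth_succ_of_infinite a3_inf n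

theorem a3_pi' (n : ℕ) : Nat.primeCounting (Nat.nth Nat.Prime n - 1) = n := by
  have h2 : 2 ≤ Nat.nth Nat.Prime n := (Nat.prime_nth_prime n).two_le
  rw [Nat.primeCounting, Nat.primeCounting']
  have : Nat.nth Nat.Prime n - 1 + 1 = Nat.nth Nat.Prime n := by omega
  rw [this]
  exact Nat.count_nth_of_infinite a3_inf n

theorem a3_cnt_fwd (n m : ℕ) :
    cnt ((Nat.nth Nat.Prime n : ℝ) - 1) ((Nat.nth Nat.Prime (n + m) : ℝ) - 1) = m := by
  have h1 : ∀ k : ℕ, ⌊(Nat.nth Nat.Prime k : ℝ) - 1⌋₊ = Nat.nth Nat.Prime k - 1 := by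
    intro k
    have h2 : 2 ≤ Nat.nth Nat.Prime k := (Nat.prime_nth_prime k).two_le
    have h3 : (Nat.nth Nat.Prime k : ℝ) - 1 = ((Nat.nth Nat.Prime k - 1 : ℕ) : ℝ) := by
      rw [Nat.cast_sub (by omega)]
      simp
    rw [h3, Nat.floor_natCast]
  unfold cnt
  rw [h1, h1, a3_pi', a3_pi']
  push_cast
  ring

theorem a3_cnt_bwd (n m : ℕ) (hm : m ≤ n) :
    cnt (Nat.nth Nat.Prime (n - m) : ℝ) (Nat.nth Nat.Prime n : ℝ) = m := by
  unfold cnt
  rw [Nat.floor_natCast, Nat.floor_natCast, a3_pi, a3_pi]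
  push_cast [Nat.cast_sub hm]
  ring

theorem a3_mono_r (a b b' : ℝ) (h : b ≤ b') : cnt a b ≤ cnt a b' := by
  unfold cnt
  have : (Nat.primeCounting ⌊b⌋₊ : ℝ) ≤ Nat.primeCounting ⌊b'⌋₊ := by
    exact_mod_cast Nat.monotone_primeCounting (Nat.floor_le_floor h)
  linarith

theorem a3_mono_l (a a' b : ℝ) (h : a' ≤ a) : cnt a b ≤ cnt a' b := by
  unfold cnt
  have : (Nat.primeCounting ⌊a'⌋₊ : ℝ) ≤ Nat.primeCounting ⌊a⌋₊ := by
    exact_mod_cast Nat.monotone_primeCounting (Nat.floor_le_floor h)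
  linarith

/-- the two cases -/
theorem a3_dich (lam κ L D m cn cn' : ℝ) (hlam : 1 ≤ lam) (hκ0 : 0 < κ) (hκ1 : κ ≤ 1)
    (hL : 0 < L) (hm : 1 ≤ m) (hcn : cn = m) (hκD : κ * L ≤ D)
    (h1 : lam * L ≤ D → D / (lam * L) ≤ cn ∧ cn ≤ lam * D / L)
    (h2 : D < lam * L → cn ≤ cn' ∧ cn' ≤ lam * (lam * L) / L) :
    κ / lam ^ 2 * (m * L) ≤ D ∧ D ≤ lam * (m * L) := by
  have hlam0 : 0 < lam := by linarith
  subst hcn
  rcases le_or_gt (lam * L) D with h | h
  · obtain ⟨h3, h4⟩ := h1 h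
    rw [div_le_iff₀ (by positivity)] at h3
    rw [le_div_iff₀ hL] at h4
    constructor
    · have h5 : κ / lam ^ 2 ≤ 1 / lam := by
        rw [div_le_div_iff₀ (by positivity) hlam0]
        nlinarith
      have h6 : 1 / lam * (cn * L) ≤ D := by
        rw [div_mul_eq_mul_div, div_le_iff₀ hlam0]
        linarith
      have h7 : κ / lam ^ 2 * (cn * L) ≤ 1 / lam * (cn * L) :=
        mul_le_mul_of_nonneg_right h5 (by positivity)
      linarith
    · linarith
  · obtain ⟨h3, h4⟩ := h2 h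
    have h5 : cn ≤ lam ^ 2 := by
      have : lam * (lam * L) / L = lam ^ 2 := by
        field_simp
      linarith
    constructor
    · rw [div_mul_eq_mul_div, div_le_iff₀ (by positivity)]
      have h6 : κ * (cn * L) ≤ κ * (lam ^ 2 * L) :=
        mul_le_mul_of_nonneg_left (mul_le_mul_of_nonneg_right h5 hL.le) hκ0.le
      have h7 : κ * L * lam ^ 2 ≤ D * lam ^ 2 := mul_le_mul_of_nonneg_right hκD (by positivity)
      linarith
    · have h6 : lam * L * 1 ≤ lam * L * cn := mul_le_mul_of_nonneg_left hm (by positivity)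
      linarith

/-- consequences of the prime number theorem for `X = p_N` -/
theorem a3_large (T0 : ℝ) : ∃ N0 : ℕ, ∀ N : ℕ, N0 ≤ N → ∀ X : ℝ,
    X = (Nat.nth Nat.Prime N : ℝ) →
      T0 ≤ X ∧ 1 ≤ N ∧ (N : ℝ) ≤ X ∧ X ≤ (N : ℝ) ^ 2 ∧
      (Nat.nth Nat.Prime (2 * N) : ℝ) ≤ 4 * X := by
  have h1 := Pool.Agent.Lib.PNT.pnt_pi
  have h2 : ∀ᶠ x : ℝ in Filter.atTop,
      (7 / 8 : ℝ) < (Nat.primeCounting ⌊x⌋₊ : ℝ) * Real.log x / x :=
    h1.eventually (lt_mem_nhds (by norm_num))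
  have h3 : ∀ᶠ x : ℝ in Filter.atTop,
      (Nat.primeCounting ⌊x⌋₊ : ℝ) * Real.log x / x < 9 / 8 :=
    h1.eventually (gt_mem_nhds (by norm_num))
  obtain ⟨Y1, hY1⟩ := Filter.eventually_atTop.mp (h2.and h3)
  have hlt : Filter.Tendsto Real.log Filter.atTop Filter.atTop := Real.tendsto_log_atTop
  obtain ⟨Y2, hY2⟩ := Filter.eventually_atTop.mp
    (hlt.eventually_ge_atTop (max 1 (8 * Real.log 4)))
  have hlo := (isLittleO_log_rpow_atTop (show (0 : ℝ) < 1 / 2 by norm_num)).bound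
    (show (0 : ℝ) < 1 / 4 by norm_num)
  obtain ⟨Y3, hY3⟩ := Filter.eventually_atTop.mp hlo
  refine ⟨⌈max (max T0 Y1) (max (max Y2 Y3) 4)⌉₊, fun N hN X hX => ?_⟩
  have hNr : max (max T0 Y1) (max (max Y2 Y3) 4) ≤ (N : ℝ) := Nat.ceil_le.mp hN
  have hNX : (N : ℝ) + 2 ≤ X := by
    rw [hX]
    exact_mod_cast Nat.add_two_le_nth_prime N
  have hN1 : T0 ≤ N := ((le_max_left _ _).trans (le_max_left _ _)).trans hNr
  have hN2 : Y1 ≤ N := ((le_max_right _ _).trans (le_max_left _ _)).trans hNr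
  have hN3 : Y2 ≤ N :=
    (((le_max_left _ _).trans (le_max_left _ _)).trans (le_max_right _ _)).trans hNr
  have hN4 : Y3 ≤ N :=
    (((le_max_right _ _).trans (le_max_left _ _)).trans (le_max_right _ _)).trans hNr
  have hN5 : 4 ≤ (N : ℝ) := ((le_max_right _ _).trans (le_max_right _ _)).trans hNr
  have hX0 : 0 < X := by linarith
  have hpiX : (Nat.primeCounting ⌊X⌋₊ : ℝ) = N + 1 := by
    rw [hX, Nat.floor_natCast, a3_pi]
    push_cast
    ring
  have hl1 := hY2 X (by linarith)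
  have hL1 : 1 ≤ Real.log X := (le_max_left _ _).trans hl1
  have hL2 : 8 * Real.log 4 ≤ Real.log X := (le_max_right _ _).trans hl1
  have hlog4 : 0 < Real.log 4 := Real.log_pos (by norm_num)
  obtain ⟨hA, hB⟩ := hY1 X (by linarith)
  rw [hpiX, lt_div_iff₀ hX0] at hA
  rw [hpiX, div_lt_iff₀ hX0] at hB
  refine ⟨by linarith, ?_, by linarith, ?_, ?_⟩
  · have : (1 : ℝ) ≤ N := by linarith
    exact_mod_cast this
  · -- X ≤ N^2
    have h4 := hY3 X (by linarith)
    rw [Real.norm_of_nonneg (by linarith), Real.norm_of_nonneg (Real.rpow_nonneg hX0.le _),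
      ← Real.sqrt_eq_rpow] at h4
    set s : ℝ := Real.sqrt X with hs
    have hs2 : s ^ 2 = X := Real.sq_sqrt hX0.le
    have hs1 : 2 ≤ s := by
      rw [hs]
      apply Real.le_sqrt_of_sq_le
      linarith
    have h5 : 7 / 8 * s ^ 2 < ((N : ℝ) + 1) * (1 / 4 * s) := by
      rw [hs2]
      have h6 : ((N : ℝ) + 1) * Real.log X ≤ ((N : ℝ) + 1) * (1 / 4 * s) :=
        mul_le_mul_of_nonneg_left h4 (by linarith)
      linarith
    have h6 : 7 / 2 * s < (N : ℝ) + 1 := by
      by_contra hle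
      push Not at hle
      have := mul_le_mul_of_nonneg_right hle (show 0 ≤ 1 / 4 * s by linarith)
      nlinarith
    have h7 : s ≤ N := by linarith
    rw [← hs2]
    exact pow_le_pow_left₀ (by linarith) h7 2
  · -- p_{2N} ≤ 4X
    have h4 := (hY1 (4 * X) (by linarith)).1
    rw [lt_div_iff₀ (by linarith)] at h4
    have hl4 : Real.log (4 * X) = Real.log 4 + Real.log X :=
      Real.log_mul (by norm_num) hX0.ne'
    have h5 : Real.log (4 * X) ≤ 9 / 8 * Real.log X := by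
      rw [hl4]
      linarith
    have h6 : (2 * N : ℕ) < Nat.primeCounting ⌊4 * X⌋₊ := by
      by_contra hle
      push Not at hle
      have h7 : (Nat.primeCounting ⌊4 * X⌋₊ : ℝ) ≤ 2 * N := by exact_mod_cast hle
      have h8 : (Nat.primeCounting ⌊4 * X⌋₊ : ℝ) * Real.log (4 * X)
          ≤ 2 * N * (9 / 8 * Real.log X) :=
        mul_le_mul h7 h5 (by linarith) (by positivity)
      nlinarith
    rw [Nat.primeCounting, Nat.primeCounting'] at h6
    have h7 := Nat.nth_lt_of_lt_count h6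
    have h8 : Nat.nth Nat.Prime (2 * N) ≤ ⌊4 * X⌋₊ := by omega
    calc (Nat.nth Nat.Prime (2 * N) : ℝ) ≤ (⌊4 * X⌋₊ : ℝ) := by exact_mod_cast h8
      _ ≤ 4 * X := Nat.floor_le (by linarith)

theorem gaps : ∀ ε : ℝ, 0 < ε → ∃ C : ℝ, 0 < C ∧ ∃ N0 : ℕ, ∀ N : ℕ, N0 ≤ N →
    (({n : ℕ | 1 ≤ n ∧ n ≤ N ∧ ¬ ∀ m : ℕ, 1 ≤ m → m ≤ n →
      (m * Real.log n / C ≤ (Nat.nth Nat.Prime (n + m) : ℝ) - Nat.nth Nat.Prime n ∧
        (Nat.nth Nat.Prime (n + m) : ℝ) - Nat.nth Nat.Prime n ≤ C * m * Real.log n) ∧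
      (m * Real.log n / C ≤ (Nat.nth Nat.Prime n : ℝ) - Nat.nth Nat.Prime (n - m) ∧
        (Nat.nth Nat.Prime n : ℝ) - Nat.nth Nat.Prime (n - m) ≤ C * m * Real.log n)}.ncard : ℕ) : ℝ)
      ≤ ε * N := by
  classical
  intro ε hε
  obtain ⟨C1, X1, hC1, hint⟩ := all_intervals
  obtain ⟨C0, X2, hC0, hclose⟩ := close_pairs
  set lam : ℝ := max 1 (8 * C1 / ε) with hlam
  have hlam1 : 1 ≤ lam := le_max_left _ _
  have hlam0 : 0 < lam := by linarith
  have hlam2 : C1 / lam ≤ ε / 8 := by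
    have h1 : 8 * C1 / ε ≤ lam := le_max_right _ _
    rw [div_le_iff₀ hε] at h1
    rw [div_le_iff₀ hlam0]
    linarith
  set κ : ℝ := min 1 (ε / (8 * C0)) with hκ
  have hκ0 : 0 < κ := lt_min one_pos (by positivity)
  have hκ1 : κ ≤ 1 := min_le_left _ _
  have hκ2 : C0 * κ ≤ ε / 8 := by
    have h1 : κ ≤ ε / (8 * C0) := min_le_right _ _
    rw [le_div_iff₀ (by positivity)] at h1
    linarith
  -- large T0: log X ≥ 8 |log (4/ε)|, lam log X ≤ (ε/4) sqrt X, lam log X ≤ X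
  have hlt : Filter.Tendsto Real.log Filter.atTop Filter.atTop := Real.tendsto_log_atTop
  obtain ⟨Y1, hY1⟩ := Filter.eventually_atTop.mp
    (hlt.eventually_ge_atTop (max 1 (4 * Real.log (4 / ε))))
  have hlo := (isLittleO_log_rpow_atTop (show (0 : ℝ) < 1 / 2 by norm_num)).bound
    (show (0 : ℝ) < min (ε / (4 * lam)) (1 / lam) by
      apply lt_min <;> positivity)
  obtain ⟨Y2, hY2⟩ := Filter.eventually_atTop.mp hlo
  obtain ⟨N0, hN0⟩ := a3_large (max (max X1 X2) (max (max Y1 Y2) 1))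
  refine ⟨4 * lam ^ 2 / κ, by positivity, N0, ?_⟩
  intro N hN
  set X : ℝ := (Nat.nth Nat.Prime N : ℝ) with hX
  obtain ⟨hT, hN1, hNX, hXN, h2N⟩ := hN0 N hN X hX
  have hXX1 : X1 ≤ X := ((le_max_left _ _).trans (le_max_left _ _)).trans hT
  have hXX2 : X2 ≤ X := ((le_max_right _ _).trans (le_max_left _ _)).trans hT
  have hXY1 : Y1 ≤ X := (((le_max_left _ _).trans (le_max_left _ _)).trans (le_max_right _ _)).trans hT
  have hXY2 : Y2 ≤ X := (((le_max_right _ _).trans (le_max_left _ _)).trans (le_max_right _ _)).trans hT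
  have hX1 : 1 ≤ X := ((le_max_right _ _).trans (le_max_right _ _)).trans hT
  have hX0 : 0 < X := by linarith
  have hNr : (1 : ℝ) ≤ N := by exact_mod_cast hN1
  set L : ℝ := Real.log X with hL
  have hl1 := hY1 X hXY1
  have hL1 : 1 ≤ L := (le_max_left _ _).trans hl1
  have hL2 : 4 * Real.log (4 / ε) ≤ L := (le_max_right _ _).trans hl1
  have hL0 : 0 < L := by linarith
  have hl2 := hY2 X hXY2
  rw [Real.norm_of_nonneg hL0.le, Real.norm_of_nonneg (Real.rpow_nonneg hX0.le _),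
    ← Real.sqrt_eq_rpow] at hl2
  have hsX : Real.sqrt X ≤ X := by
    rw [Real.sqrt_le_left hX0.le]
    exact le_self_pow₀ hX1 (by norm_num)
  have hsN : Real.sqrt X ≤ N := by
    rw [Real.sqrt_le_left (by linarith)]
    exact hXN
  have hs0 : 0 ≤ Real.sqrt X := Real.sqrt_nonneg _
  have hlamL1 : lam * L ≤ ε / 4 * N := by
    have h1 : L ≤ ε / (4 * lam) * Real.sqrt X :=
      hl2.trans (mul_le_mul_of_nonneg_right (min_le_left _ _) hs0)
    calc lam * L ≤ lam * (ε / (4 * lam) * Real.sqrt X) := mul_le_mul_of_nonneg_left h1 hlam0.le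
      _ = ε / 4 * Real.sqrt X := by
          field_simp
      _ ≤ ε / 4 * N := mul_le_mul_of_nonneg_left hsN (by positivity)
  have hlamL2 : lam * L ≤ X := by
    have h1 : L ≤ 1 / lam * Real.sqrt X :=
      hl2.trans (mul_le_mul_of_nonneg_right (min_le_right _ _) hs0)
    calc lam * L ≤ lam * (1 / lam * Real.sqrt X) := mul_le_mul_of_nonneg_left h1 hlam0.le
      _ = Real.sqrt X := by
          field_simp
      _ ≤ X := hsX
  have hpiX : (Nat.primeCounting ⌊X⌋₊ : ℝ) = N + 1 := by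
    rw [hX, Nat.floor_natCast, a3_pi]
    push_cast
    ring
  -- bad primes
  set bad1 : Set ℕ := {p : ℕ | p.Prime ∧ (p : ℝ) ≤ X ∧ ∃ a b : ℝ, 0 ≤ a ∧ a < p ∧ (p : ℝ) ≤ b ∧
      b ≤ 4 * X ∧ lam * Real.log X ≤ b - a ∧
      (cnt a b < (b - a) / (lam * Real.log X) ∨
        lam * (b - a) / Real.log X < cnt a b)} with hbad1
  set bad2 : Set ℕ := {p : ℕ | p.Prime ∧ (p : ℝ) ≤ X ∧ ∃ q : ℕ, q.Prime ∧ q ≠ p ∧
      |(q : ℝ) - p| ≤ κ * Real.log X} with hbad2
  have hfinX : {p : ℕ | (p : ℝ) ≤ X}.Finite := by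
    refine (Set.finite_Iic (Nat.nth Nat.Prime N)).subset (fun p hp => ?_)
    rw [Set.mem_ofPred_eq, hX] at hp
    exact_mod_cast hp
  have hb1 : (bad1.ncard : ℝ) ≤ ε / 8 * (N + 1) := by
    refine (hint X lam hXX1 hlam1).trans ?_
    rw [hpiX]
    exact mul_le_mul_of_nonneg_right hlam2 (by linarith)
  have hb2 : (bad2.ncard : ℝ) ≤ ε / 8 * (N + 1) := by
    refine (hclose X κ hXX2 hκ0).trans ?_
    rw [hpiX]
    exact mul_le_mul_of_nonneg_right hκ2 (by linarith)
  have hfb1 : bad1.Finite := hfinX.subset (fun p hp => hp.2.1)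
  have hfb2 : bad2.Finite := hfinX.subset (fun p hp => hp.2.1)
  have hinj : Function.Injective (Nat.nth Nat.Prime) := Nat.nth_injective a3_inf
  have hmono : StrictMono (Nat.nth Nat.Prime) := Nat.nth_strictMono a3_inf
  -- the index sets
  set E1 : Set ℕ := (Nat.nth Nat.Prime) ⁻¹' bad1 with hE1
  set E2 : Set ℕ := (Nat.nth Nat.Prime) ⁻¹' bad2 with hE2
  set E3 : Set ℕ := {n : ℕ | 1 ≤ n ∧ (n : ℝ) ≤ ε / 4 * N} with hE3
  have hE1c : E1.ncard ≤ bad1.ncard := by
    rw [← Set.ncard_image_of_injective E1 hinj]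
    exact Set.ncard_le_ncard (Set.image_preimage_subset _ _) hfb1
  have hE2c : E2.ncard ≤ bad2.ncard := by
    rw [← Set.ncard_image_of_injective E2 hinj]
    exact Set.ncard_le_ncard (Set.image_preimage_subset _ _) hfb2
  have hE3c : (E3.ncard : ℝ) ≤ ε / 4 * N := by
    have h1 : E3 ⊆ ((Finset.Icc 1 ⌊ε / 4 * N⌋₊ : Finset ℕ) : Set ℕ) := by
      intro n hn
      rw [Finset.mem_coe, Finset.mem_Icc]
      exact ⟨hn.1, Nat.le_floor hn.2⟩
    have h2 := Set.ncard_le_ncard h1 (Finset.finite_toSet _)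
    rw [Set.ncard_coe_finset, Nat.card_Icc, Nat.add_sub_cancel] at h2
    calc (E3.ncard : ℝ) ≤ (⌊ε / 4 * N⌋₊ : ℝ) := by exact_mod_cast h2
      _ ≤ ε / 4 * N := Nat.floor_le (by positivity)
  have hfE1 : E1.Finite := hfb1.preimage hinj.injOn
  have hfE2 : E2.Finite := hfb2.preimage hinj.injOn
  have hfE3 : E3.Finite := by
    refine (Set.finite_Iic ⌊ε / 4 * N⌋₊).subset (fun n hn => ?_)
    exact Nat.le_floor hn.2
  have hsub : {n : ℕ | 1 ≤ n ∧ n ≤ N ∧ ¬ ∀ m : ℕ, 1 ≤ m → m ≤ n →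
      (m * Real.log n / (4 * lam ^ 2 / κ) ≤
          (Nat.nth Nat.Prime (n + m) : ℝ) - Nat.nth Nat.Prime n ∧
        (Nat.nth Nat.Prime (n + m) : ℝ) - Nat.nth Nat.Prime n
          ≤ 4 * lam ^ 2 / κ * m * Real.log n) ∧
      (m * Real.log n / (4 * lam ^ 2 / κ) ≤
          (Nat.nth Nat.Prime n : ℝ) - Nat.nth Nat.Prime (n - m) ∧
        (Nat.nth Nat.Prime n : ℝ) - Nat.nth Nat.Prime (n - m)
          ≤ 4 * lam ^ 2 / κ * m * Real.log n)} ⊆ E1 ∪ (E2 ∪ E3) := by
    rintro n ⟨hn1, hnN, hbad⟩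
    by_contra hnot
    rw [Set.mem_union, Set.mem_union, not_or, not_or] at hnot
    obtain ⟨hn1', hn2', hn3'⟩ := hnot
    apply hbad
    intro m hm1 hmn
    have hpp : (Nat.nth Nat.Prime n).Prime := Nat.prime_nth_prime n
    have hpX : (Nat.nth Nat.Prime n : ℝ) ≤ X := by
      rw [hX]
      exact_mod_cast hmono.monotone hnN
    have hgood1 : ∀ a b : ℝ, 0 ≤ a → a < Nat.nth Nat.Prime n → (Nat.nth Nat.Prime n : ℝ) ≤ b →
        b ≤ 4 * X → lam * L ≤ b - a →
        (b - a) / (lam * L) ≤ cnt a b ∧ cnt a b ≤ lam * (b - a) / L := by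
      intro a b h1 h2 h3 h4 h5
      by_contra hcon
      apply hn1'
      refine ⟨hpp, hpX, a, b, h1, h2, h3, h4, h5, ?_⟩
      rw [not_and_or, not_le, not_le] at hcon
      exact hcon
    have hgood2 : ∀ q : ℕ, q.Prime → q ≠ Nat.nth Nat.Prime n →
        κ * L < |(q : ℝ) - Nat.nth Nat.Prime n| := by
      intro q h1 h2
      by_contra hcon
      push Not at hcon
      exact hn2' ⟨hpp, hpX, q, h1, h2, hcon⟩
    have hnbig : ε / 4 * N < n := by
      by_contra hle
      push Not at hle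
      exact hn3' ⟨hn1, hle⟩
    have hn0 : (1 : ℝ) ≤ n := by exact_mod_cast hn1
    have hnN' : (n : ℝ) ≤ N := by exact_mod_cast hnN
    have hmr : (1 : ℝ) ≤ m := by exact_mod_cast hm1
    -- logarithms
    have hln1 : Real.log n ≤ L := Real.log_le_log (by linarith) (by linarith)
    have hln2 : L / 4 ≤ Real.log n := by
      have h1 : Real.log (ε / 4 * N) ≤ Real.log n := Real.log_le_log (by positivity) hnbig.le
      have h2 : Real.log (ε / 4 * N) = Real.log N - Real.log (4 / ε) := by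
        rw [← Real.log_div (by linarith) (by positivity)]
        congr 1
        field_simp
      have h3 : L ≤ 2 * Real.log N := by
        have h4 := Real.log_le_log hX0 hXN
        rw [Real.log_pow] at h4
        exact_mod_cast h4
      linarith
    have hln0 : 0 < Real.log n := by linarith
    -- from the dichotomy to the claim
    have hfinal : ∀ D : ℝ, κ / lam ^ 2 * (m * L) ≤ D → D ≤ lam * (m * L) →
        m * Real.log n / (4 * lam ^ 2 / κ) ≤ D ∧ D ≤ 4 * lam ^ 2 / κ * m * Real.log n := by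
      intro D h1 h2
      constructor
      · refine le_trans ?_ h1
        have h3 : (m : ℝ) * Real.log n / (4 * lam ^ 2 / κ)
            = κ / lam ^ 2 * (m * (Real.log n / 4)) := by
          field_simp
        rw [h3]
        refine mul_le_mul_of_nonneg_left (mul_le_mul_of_nonneg_left ?_ (by linarith))
          (by positivity)
        linarith
      · refine h2.trans ?_
        have h3 : lam * (m * L) ≤ lam * (m * (4 * Real.log n)) :=
          mul_le_mul_of_nonneg_left (mul_le_mul_of_nonneg_left (by linarith) (by linarith))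
            hlam0.le
        have h4 : lam ≤ lam ^ 2 / κ := by
          rw [le_div_iff₀ hκ0]
          calc lam * κ ≤ lam * lam :=
                mul_le_mul_of_nonneg_left (hκ1.trans hlam1) hlam0.le
            _ = lam ^ 2 := by ring
        have h5 : lam * (m * (4 * Real.log n)) ≤ lam ^ 2 / κ * (m * (4 * Real.log n)) :=
          mul_le_mul_of_nonneg_right h4 (by positivity)
        calc lam * (m * L) ≤ lam ^ 2 / κ * (m * (4 * Real.log n)) := h3.trans h5
          _ = _ := by ring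
    have hp1 : (1 : ℝ) ≤ Nat.nth Nat.Prime n := by exact_mod_cast hpp.one_le
    have hpn : (n : ℝ) ≤ Nat.nth Nat.Prime n := by
      have := Nat.add_two_le_nth_prime n
      exact_mod_cast (show n ≤ Nat.nth Nat.Prime n by omega)
    constructor
    · -- forward
      have hlt1 : Nat.nth Nat.Prime n < Nat.nth Nat.Prime (n + m) := hmono (by omega)
      have hlt2 : (Nat.nth Nat.Prime n : ℝ) + 1 ≤ Nat.nth Nat.Prime (n + m) := by
        exact_mod_cast hlt1
      have hle4 : (Nat.nth Nat.Prime (n + m) : ℝ) ≤ 4 * X := by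
        refine le_trans ?_ h2N
        exact_mod_cast hmono.monotone (show n + m ≤ 2 * N by omega)
      have hκD := hgood2 (Nat.nth Nat.Prime (n + m)) (Nat.prime_nth_prime _) hlt1.ne'
      rw [abs_of_pos (by linarith)] at hκD
      obtain ⟨h1, h2⟩ := a3_dich lam κ L
        ((Nat.nth Nat.Prime (n + m) : ℝ) - Nat.nth Nat.Prime n) m _
        (cnt ((Nat.nth Nat.Prime n : ℝ) - 1) ((Nat.nth Nat.Prime n : ℝ) - 1 + lam * L))
        hlam1 hκ0 hκ1 hL0 hmr (a3_cnt_fwd n m) hκD.le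
        (by
          intro hD
          have h3 := hgood1 ((Nat.nth Nat.Prime n : ℝ) - 1)
            ((Nat.nth Nat.Prime (n + m) : ℝ) - 1) (by linarith) (by linarith) (by linarith)
            (by linarith) (by linarith)
          have h4 : (Nat.nth Nat.Prime (n + m) : ℝ) - 1 - ((Nat.nth Nat.Prime n : ℝ) - 1)
              = (Nat.nth Nat.Prime (n + m) : ℝ) - Nat.nth Nat.Prime n := by ring
          rw [h4] at h3
          exact h3)
        (by
          intro hD
          refine ⟨a3_mono_r _ _ _ (by linarith), ?_⟩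
          have hlL : 1 ≤ lam * L := one_le_mul_of_one_le_of_one_le hlam1 hL1
          have h3 := (hgood1 ((Nat.nth Nat.Prime n : ℝ) - 1)
            ((Nat.nth Nat.Prime n : ℝ) - 1 + lam * L) (by linarith) (by linarith) (by linarith)
            (by linarith) (by linarith)).2
          have h4 : (Nat.nth Nat.Prime n : ℝ) - 1 + lam * L - ((Nat.nth Nat.Prime n : ℝ) - 1)
              = lam * L := by ring
          rw [h4] at h3
          exact h3)
      exact hfinal _ h1 h2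
    · -- backward
      have hlt1 : Nat.nth Nat.Prime (n - m) < Nat.nth Nat.Prime n := hmono (by omega)
      have hlt2 : (Nat.nth Nat.Prime (n - m) : ℝ) + 1 ≤ Nat.nth Nat.Prime n := by
        exact_mod_cast hlt1
      have hκD := hgood2 (Nat.nth Nat.Prime (n - m)) (Nat.prime_nth_prime _) hlt1.ne
      rw [abs_sub_comm, abs_of_pos (by linarith)] at hκD
      have hpos : (0 : ℝ) ≤ Nat.nth Nat.Prime (n - m) := Nat.cast_nonneg _
      obtain ⟨h1, h2⟩ := a3_dich lam κ L
        ((Nat.nth Nat.Prime n : ℝ) - Nat.nth Nat.Prime (n - m)) m _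
        (cnt ((Nat.nth Nat.Prime n : ℝ) - lam * L) (Nat.nth Nat.Prime n : ℝ))
        hlam1 hκ0 hκ1 hL0 hmr (a3_cnt_bwd n m hmn) hκD.le
        (by
          intro hD
          exact hgood1 (Nat.nth Nat.Prime (n - m) : ℝ) (Nat.nth Nat.Prime n : ℝ) hpos
            (by linarith) le_rfl (by linarith) hD)
        (by
          intro hD
          refine ⟨a3_mono_l _ _ _ (by linarith), ?_⟩
          have hlL : 0 < lam * L := by positivity
          have h3 := (hgood1 ((Nat.nth Nat.Prime n : ℝ) - lam * L)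
            (Nat.nth Nat.Prime n : ℝ) (by linarith) (by linarith) le_rfl
            (by linarith) (by linarith)).2
          have h4 : (Nat.nth Nat.Prime n : ℝ) - ((Nat.nth Nat.Prime n : ℝ) - lam * L)
              = lam * L := by ring
          rw [h4] at h3
          exact h3)
      exact hfinal _ h1 h2
  have hfin : (E1 ∪ (E2 ∪ E3)).Finite := hfE1.union (hfE2.union hfE3)
  have h1 := Set.ncard_le_ncard hsub hfin
  have h2 := Set.ncard_union_le E1 (E2 ∪ E3)
  have h3 := Set.ncard_union_le E2 E3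
  have h4 : (E1 ∪ (E2 ∪ E3)).ncard ≤ bad1.ncard + (bad2.ncard + E3.ncard) := by omega
  have h5 : ((E1 ∪ (E2 ∪ E3)).ncard : ℝ) ≤ bad1.ncard + (bad2.ncard + E3.ncard) := by
    exact_mod_cast h4
  refine le_trans (Nat.cast_le.mpr h1) (h5.trans ?_)
  have h6 : ε / 8 * ((N : ℝ) + 1) ≤ ε / 8 * (2 * N) :=
    mul_le_mul_of_nonneg_left (by linarith) (by positivity)
  have h7 : 0 < ε * N := by positivity
  linarith

end MP293bbf
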