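import Pool.Agent.Lib.MP_293bbf_nt.BDefs

section

/-!
B2. The trivial bounds for one block `[Y, 2Y]`.

`trivV` PROOF. Put `M_x = Σ_{n ∈ (x, x+2Y]} |g n|`. For a pair `(s, t)`, with `S_y = Σ_{(x,x+y]} g`,
`S_s/s - S_t/t = (S_s - S_t)/s + S_t (1/s - 1/t)`, so
`|Av s - Av t| ≤ (1/Y) Σ_{(x+s,x+t]} |g| + (t-s)/Y² M_x`. Summing over the non-overlapping pairs
of `[Y,2Y]`: `Σ |Av s - Av t| ≤ 2 M_x / Y`, hence `Vs ≤ (Σ |..|)² ≤ 4 M_x²/Y² ≤ (8/Y) Σ_{(x,x+2Y]} g²`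
(Cauchy-Schwarz, `2Y` terms). Sum over `x < W`: every `n < W` lies in at most `2Y` of the windows
`(x, x+2Y]`, and `g n = 0` for `n ≥ W`: total `≤ 16 nsq g W`.

`trivC` PROOF. `(Av g x y)² ≤ (1/y) Σ_{(x,x+y]} g² ≤ (1/Y) Σ_{(x,x+2Y]} g²`; sum over `x`: `≤ 2 nsq g W`.
-/

open Finset

namespace MP293bbf

/-- the `l²` mass of the windows. -/
private theorem b2_windows (g : ℕ → ℝ) (L W : ℕ) (hs : ∀ n, W ≤ n → g n = 0) :
    ∑ x ∈ range W, ∑ n ∈ Ioc x (x + L), (g n) ^ 2 ≤ (L : ℝ) * nsq g W := by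
  have h1 : ∀ x, ∑ n ∈ Ioc x (x + L), (g n) ^ 2 = ∑ j ∈ range L, (g (x + 1 + j)) ^ 2 := by
    intro x
    have e : Ioc x (x + L) = Ico (x + 1) (x + 1 + L) := by
      ext n
      simp only [mem_Ioc, mem_Ico]
      omega
    rw [e, Finset.sum_Ico_eq_sum_range]
    congr 1
    congr 1
    omega
  rw [Finset.sum_congr rfl (fun x _ => h1 x), Finset.sum_comm]
  have h2 : ∀ j ∈ range L, ∑ x ∈ range W, (g (x + 1 + j)) ^ 2 ≤ nsq g W := by
    intro j _
    unfold nsq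
    have e1 : ∑ x ∈ range W, (g (x + 1 + j)) ^ 2 =
        ∑ n ∈ (range W).image (fun x => x + 1 + j), (g n) ^ 2 := by
      rw [Finset.sum_image]
      intro a _ b _ hab
      simp only at hab
      omega
    rw [e1]
    have e2 : ∑ n ∈ (range W).image (fun x => x + 1 + j), (g n) ^ 2 =
        ∑ n ∈ ((range W).image (fun x => x + 1 + j)).filter (fun n => n < W), (g n) ^ 2 := by
      symm
      apply Finset.sum_subset (Finset.filter_subset _ _)
      intro n hn hn'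
      have : ¬ n < W := fun h => hn' (Finset.mem_filter.2 ⟨hn, h⟩)
      rw [hs n (by omega)]
      norm_num
    rw [e2]
    apply Finset.sum_le_sum_of_subset_of_nonneg
    · intro n hn
      exact Finset.mem_range.2 (Finset.mem_filter.1 hn).2
    · intro n _ _
      exact sq_nonneg _
  calc ∑ j ∈ range L, ∑ x ∈ range W, (g (x + 1 + j)) ^ 2 ≤ ∑ j ∈ range L, nsq g W :=
        Finset.sum_le_sum h2
    _ = (L : ℝ) * nsq g W := by rw [Finset.sum_const, card_range, nsmul_eq_mul]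

private theorem b2_pair (g : ℕ → ℝ) (x Y s t : ℕ) (hY : 1 ≤ Y) (h1 : Y ≤ s) (h2 : s < t)
    (h3 : t ≤ 2 * Y) :
    |Av g x s - Av g x t| ≤ (1 / (Y : ℝ)) * ∑ n ∈ Ioc (x + s) (x + t), |g n| +
      ((t - s : ℕ) : ℝ) / (Y : ℝ) ^ 2 * ∑ n ∈ Ioc x (x + 2 * Y), |g n| := by
  have hYr : (0 : ℝ) < Y := by exact_mod_cast hY
  have hsr : (Y : ℝ) ≤ s := by exact_mod_cast h1
  have htr : (s : ℝ) < t := by exact_mod_cast h2
  have hs0 : (0 : ℝ) < s := lt_of_lt_of_le hYr hsr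
  have ht0 : (0 : ℝ) < t := hs0.trans htr
  have hts : ((t - s : ℕ) : ℝ) = (t : ℝ) - s := by
    rw [Nat.cast_sub h2.le]
  rw [hts]
  have hsplit : ∑ n ∈ Ioc x (x + t), g n =
      ∑ n ∈ Ioc x (x + s), g n + ∑ n ∈ Ioc (x + s) (x + t), g n := by
    rw [Finset.sum_Ioc_consecutive _ (by omega) (by omega)]
  set D := ∑ n ∈ Ioc (x + s) (x + t), g n with hD
  set A := ∑ n ∈ Ioc x (x + s), g n with hA
  set B := ∑ n ∈ Ioc x (x + t), g n with hB
  have hDabs : |D| ≤ ∑ n ∈ Ioc (x + s) (x + t), |g n| := Finset.abs_sum_le_sum_abs _ _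
  have hBabs : |B| ≤ ∑ n ∈ Ioc x (x + 2 * Y), |g n| := by
    refine (Finset.abs_sum_le_sum_abs _ _).trans ?_
    apply Finset.sum_le_sum_of_subset_of_nonneg
    · intro n hn
      rw [mem_Ioc] at hn ⊢
      omega
    · intro n _ _; exact abs_nonneg _
  have hM0 : 0 ≤ ∑ n ∈ Ioc x (x + 2 * Y), |g n| := Finset.sum_nonneg fun _ _ => abs_nonneg _
  have hD0 : 0 ≤ ∑ n ∈ Ioc (x + s) (x + t), |g n| := Finset.sum_nonneg fun _ _ => abs_nonneg _
  have key : Av g x s - Av g x t = - D / s + B * (((t : ℝ) - s) / (s * t)) := by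
    unfold Av
    rw [← hA, ← hB]
    have : A = B - D := by rw [hsplit]; ring
    rw [this]
    field_simp
    ring
  rw [key]
  have b1 : |(- D / s : ℝ)| ≤ (1 / (Y : ℝ)) * ∑ n ∈ Ioc (x + s) (x + t), |g n| := by
    rw [abs_div, abs_neg, abs_of_pos hs0, div_eq_mul_one_div, mul_comm]
    exact mul_le_mul (one_div_le_one_div_of_le hYr hsr) hDabs (abs_nonneg _)
      (one_div_nonneg.2 hYr.le)
  have b2 : |B * (((t : ℝ) - s) / (s * t))| ≤
      ((t : ℝ) - s) / (Y : ℝ) ^ 2 * ∑ n ∈ Ioc x (x + 2 * Y), |g n| := by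
    have hpos : 0 ≤ ((t : ℝ) - s) / (s * t) :=
      div_nonneg (by linarith) (mul_pos hs0 ht0).le
    rw [abs_mul, abs_of_nonneg hpos, mul_comm]
    refine mul_le_mul ?_ hBabs (abs_nonneg _) (div_nonneg (by linarith) (by positivity))
    apply div_le_div_of_nonneg_left (by linarith) (by positivity)
    nlinarith
  exact (abs_add_le _ _).trans (add_le_add b1 b2)

private theorem b2_disj (P : Finset (ℕ × ℕ)) (x : ℕ) (hP : Disj P) :
    (P : Set (ℕ × ℕ)).PairwiseDisjoint (fun z => Ioc (x + z.1) (x + z.2)) := by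
  intro z hz z' hz' hne
  rw [Function.onFun, Finset.disjoint_left]
  intro n hn hn'
  rw [mem_Ioc] at hn hn'
  rcases hP z hz z' hz' hne with h | h
  · omega
  · omega

private theorem b2_sum (g : ℕ → ℝ) (x Y : ℕ) (hY : 1 ≤ Y) (P : Finset (ℕ × ℕ)) (hP : Fam Y P) :
    Vs g x P ≤ (8 / (Y : ℝ)) * ∑ n ∈ Ioc x (x + 2 * Y), (g n) ^ 2 := by
  have hYr : (0 : ℝ) < Y := by exact_mod_cast hY
  obtain ⟨hdis, hz⟩ := hP
  set M := ∑ n ∈ Ioc x (x + 2 * Y), |g n| with hM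
  have hM0 : 0 ≤ M := Finset.sum_nonneg fun _ _ => abs_nonneg _
  -- the sum of the masses
  have s1 : ∑ z ∈ P, ∑ n ∈ Ioc (x + z.1) (x + z.2), |g n| ≤ M := by
    rw [← Finset.sum_biUnion (b2_disj P x hdis)]
    apply Finset.sum_le_sum_of_subset_of_nonneg
    · intro n hn
      rw [Finset.mem_biUnion] at hn
      obtain ⟨z, hzP, hn⟩ := hn
      have := hz z hzP
      rw [mem_Ioc] at hn ⊢
      omega
    · intro n _ _; exact abs_nonneg _
  have s2 : ∑ z ∈ P, (z.2 - z.1) ≤ Y := by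
    have e1 : ∑ z ∈ P, (z.2 - z.1) = ∑ z ∈ P, (Ioc (0 + z.1) (0 + z.2)).card := by
      apply Finset.sum_congr rfl
      intro z _
      rw [Nat.card_Ioc]
      omega
    rw [e1, ← Finset.card_biUnion (fun z hz z' hz' hne => b2_disj P 0 hdis hz hz' hne)]
    have e2 : (P.biUnion fun z => Ioc (0 + z.1) (0 + z.2)) ⊆ Ioc Y (2 * Y) := by
      intro n hn
      rw [Finset.mem_biUnion] at hn
      obtain ⟨z, hzP, hn⟩ := hn
      have := hz z hzP
      rw [mem_Ioc] at hn ⊢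
      omega
    refine (Finset.card_le_card e2).trans ?_
    rw [Nat.card_Ioc]
    omega
  have s2' : (∑ z ∈ P, ((z.2 - z.1 : ℕ) : ℝ)) ≤ Y := by
    have : ((∑ z ∈ P, (z.2 - z.1) : ℕ) : ℝ) ≤ (Y : ℝ) := by exact_mod_cast s2
    rwa [Nat.cast_sum] at this
  have tot : ∑ z ∈ P, |Av g x z.1 - Av g x z.2| ≤ 2 * M / Y := by
    calc ∑ z ∈ P, |Av g x z.1 - Av g x z.2|
        ≤ ∑ z ∈ P, ((1 / (Y : ℝ)) * ∑ n ∈ Ioc (x + z.1) (x + z.2), |g n| +
          ((z.2 - z.1 : ℕ) : ℝ) / (Y : ℝ) ^ 2 * M) := by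
          apply Finset.sum_le_sum
          intro z hzP
          have := hz z hzP
          exact b2_pair g x Y z.1 z.2 hY this.1 this.2.1 this.2.2
      _ = (1 / (Y : ℝ)) * (∑ z ∈ P, ∑ n ∈ Ioc (x + z.1) (x + z.2), |g n|) +
          (∑ z ∈ P, ((z.2 - z.1 : ℕ) : ℝ)) / (Y : ℝ) ^ 2 * M := by
          rw [Finset.sum_add_distrib, ← Finset.mul_sum, ← Finset.sum_mul, ← Finset.sum_div]
      _ ≤ (1 / (Y : ℝ)) * M + (Y : ℝ) / (Y : ℝ) ^ 2 * M := by
          apply add_le_add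
          · exact mul_le_mul_of_nonneg_left s1 (by positivity)
          · apply mul_le_mul_of_nonneg_right _ hM0
            exact div_le_div_of_nonneg_right s2' (by positivity)
      _ = 2 * M / Y := by field_simp; ring
  have sq1 : Vs g x P ≤ (∑ z ∈ P, |Av g x z.1 - Av g x z.2|) ^ 2 := by
    unfold Vs
    rw [sq (∑ z ∈ P, |Av g x z.1 - Av g x z.2|), Finset.sum_mul]
    apply Finset.sum_le_sum
    intro z hzP
    rw [← sq_abs, sq]
    apply mul_le_mul_of_nonneg_left _ (abs_nonneg _)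
    exact Finset.single_le_sum (f := fun z : ℕ × ℕ => |Av g x z.1 - Av g x z.2|)
      (fun _ _ => abs_nonneg _) hzP
  have cs : M ^ 2 ≤ (2 * Y : ℝ) * ∑ n ∈ Ioc x (x + 2 * Y), (g n) ^ 2 := by
    have := sq_sum_le_card_mul_sum_sq (s := Ioc x (x + 2 * Y)) (f := fun n => |g n|)
    rw [Nat.card_Ioc] at this
    simp only [sq_abs] at this
    have e : ((x + 2 * Y - x : ℕ) : ℝ) = 2 * Y := by
      have : x + 2 * Y - x = 2 * Y := by omega
      rw [this]; push_cast; ring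
    rw [e] at this
    exact this
  have hnn : 0 ≤ ∑ z ∈ P, |Av g x z.1 - Av g x z.2| := Finset.sum_nonneg fun _ _ => abs_nonneg _
  calc Vs g x P ≤ (∑ z ∈ P, |Av g x z.1 - Av g x z.2|) ^ 2 := sq1
    _ ≤ (2 * M / Y) ^ 2 := pow_le_pow_left₀ hnn tot 2
    _ = (4 / (Y : ℝ) ^ 2) * M ^ 2 := by field_simp; ring
    _ ≤ (4 / (Y : ℝ) ^ 2) * ((2 * Y : ℝ) * ∑ n ∈ Ioc x (x + 2 * Y), (g n) ^ 2) :=
        mul_le_mul_of_nonneg_left cs (by positivity)
    _ = (8 / (Y : ℝ)) * ∑ n ∈ Ioc x (x + 2 * Y), (g n) ^ 2 := by field_simp; ring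

theorem trivV (g : ℕ → ℝ) (Y W : ℕ) (hY : 1 ≤ Y) (hs : ∀ n, W ≤ n → g n = 0)
    (P : ℕ → Finset (ℕ × ℕ)) (hP : ∀ x, Fam Y (P x)) :
    ∑ x ∈ range W, Vs g x (P x) ≤ 16 * nsq g W := by
  have hYr : (0 : ℝ) < Y := by exact_mod_cast hY
  calc ∑ x ∈ range W, Vs g x (P x)
      ≤ ∑ x ∈ range W, (8 / (Y : ℝ)) * ∑ n ∈ Ioc x (x + 2 * Y), (g n) ^ 2 :=
        Finset.sum_le_sum fun x _ => b2_sum g x Y hY (P x) (hP x)
    _ = (8 / (Y : ℝ)) * ∑ x ∈ range W, ∑ n ∈ Ioc x (x + 2 * Y), (g n) ^ 2 := by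
        rw [Finset.mul_sum]
    _ ≤ (8 / (Y : ℝ)) * (((2 * Y : ℕ) : ℝ) * nsq g W) :=
        mul_le_mul_of_nonneg_left (b2_windows g (2 * Y) W hs) (by positivity)
    _ = 16 * nsq g W := by push_cast; field_simp; ring

theorem trivC (g : ℕ → ℝ) (Y W : ℕ) (hY : 1 ≤ Y) (hs : ∀ n, W ≤ n → g n = 0)
    (y : ℕ → ℕ) (hy : ∀ x, Y ≤ y x ∧ y x ≤ 2 * Y) :
    ∑ x ∈ range W, (Av g x (y x)) ^ 2 ≤ 2 * nsq g W := by
  have hYr : (0 : ℝ) < Y := by exact_mod_cast hY
  have one : ∀ x, (Av g x (y x)) ^ 2 ≤ (1 / (Y : ℝ)) * ∑ n ∈ Ioc x (x + 2 * Y), (g n) ^ 2 := by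
    intro x
    obtain ⟨h1, h2⟩ := hy x
    have h1r : (Y : ℝ) ≤ (y x : ℝ) := by exact_mod_cast h1
    have hy0 : (0 : ℝ) < (y x : ℝ) := lt_of_lt_of_le hYr h1r
    have cs := sq_sum_le_card_mul_sum_sq (s := Ioc x (x + y x)) (f := g)
    rw [Nat.card_Ioc] at cs
    have e : x + y x - x = y x := by omega
    rw [e] at cs
    have sub : ∑ n ∈ Ioc x (x + y x), (g n) ^ 2 ≤ ∑ n ∈ Ioc x (x + 2 * Y), (g n) ^ 2 := by
      apply Finset.sum_le_sum_of_subset_of_nonneg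
      · intro n hn
        rw [mem_Ioc] at hn ⊢
        omega
      · intro n _ _; exact sq_nonneg _
    have hQ0 : 0 ≤ ∑ n ∈ Ioc x (x + 2 * Y), (g n) ^ 2 := Finset.sum_nonneg fun _ _ => sq_nonneg _
    unfold Av
    rw [div_pow]
    calc (∑ n ∈ Ioc x (x + y x), g n) ^ 2 / (y x : ℝ) ^ 2
        ≤ ((y x : ℝ) * ∑ n ∈ Ioc x (x + y x), (g n) ^ 2) / (y x : ℝ) ^ 2 :=
          div_le_div_of_nonneg_right cs (by positivity)
      _ = (1 / (y x : ℝ)) * ∑ n ∈ Ioc x (x + y x), (g n) ^ 2 := by field_simp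
      _ ≤ (1 / (Y : ℝ)) * ∑ n ∈ Ioc x (x + 2 * Y), (g n) ^ 2 :=
          mul_le_mul (one_div_le_one_div_of_le hYr h1r) sub
            (Finset.sum_nonneg fun _ _ => sq_nonneg _) (one_div_nonneg.2 hYr.le)
  calc ∑ x ∈ range W, (Av g x (y x)) ^ 2
      ≤ ∑ x ∈ range W, (1 / (Y : ℝ)) * ∑ n ∈ Ioc x (x + 2 * Y), (g n) ^ 2 :=
        Finset.sum_le_sum fun x _ => one x
    _ = (1 / (Y : ℝ)) * ∑ x ∈ range W, ∑ n ∈ Ioc x (x + 2 * Y), (g n) ^ 2 := by
        rw [Finset.mul_sum]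
    _ ≤ (1 / (Y : ℝ)) * (((2 * Y : ℕ) : ℝ) * nsq g W) :=
        mul_le_mul_of_nonneg_left (b2_windows g (2 * Y) W hs) (by positivity)
    _ = 2 * nsq g W := by push_cast; field_simp

end MP293bbf
end

section

section

/-!
B3. Fine scales: `g` has mean zero on all cells of length `w ≤ Y`.

PROOF. `G z = Σ_{n ≤ z} g n`. Full cells have sum `0`, so `|G z| ≤ mass g w z`, and
`mass g w z ^ 2 = Σ_{n ∈ cell z} |g n| mass g w n`. Put `T n = |g n| * mass g w n`.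
(a) For `z < z'`: `(G z - G z')² ≤ 4 Σ_{n ∈ (z, z']} T n`: if `z, z'` are in one cell,
    `|G z - G z'| ≤ Σ_{(z,z']} |g| ≤ mass`; otherwise `|G z| = |Σ_{n ∈ cell z, n > z} g n|`,
    `|G z'| ≤ Σ_{n ∈ cell z', n ≤ z'} |g n|` and `a² ≤ mass * a` for both, `(a+b)² ≤ 2a² + 2b²`.
(b) For a pair `(s, t)`: `Av g x s = (G (x+s) - G x)/s`, so
    `|Av s - Av t| ≤ |G(x+s) - G(x+t)|/Y + (|G(x+t)| + |G x|) (t-s)/Y²`. Squaring (`(a+b)² ≤ 2a²+2b²`),
    summing over non-overlapping pairs, with `U_x = Σ T n` over `n` with `x < n + w`, `n < x + 2Y + w + 1`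
    (contains the cells of all `z ∈ [x, x+2Y]`):
    `Vs g x P ≤ (8/Y²) Σ_{(x,x+2Y]} T + 8 U_x / Y²` (use `Σ (t-s)² ≤ (Σ (t-s))² ≤ Y²`).
(c) Sum over `x < W`; `T n = 0` for `n ≥ W`; each `n` is in at most `4Y + 1 ≤ 5Y` windows of `U_x`
    (`w ≤ Y`) and at most `2Y` windows `(x, x+2Y]`: total `≤ (16 + 40)/Y Σ T`.
`fineC`: `(Av g x y)² ≤ (2 G(x+y)² + 2 (G x)²)/Y² ≤ 4 U_x/Y²`, total `≤ 20/Y Σ T`.
`mass_sum`: `Σ_n |g n| mass g w n = Σ_cells (Σ_cell |g|)² ≤ w Σ_cells Σ_cell g²`.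
-/

open Finset

namespace MP293bbf

/-- partial sums -/
noncomputable def b3G (g : ℕ → ℝ) (z : ℕ) : ℝ := ∑ n ∈ range (z + 1), g n

/-- weights -/
noncomputable def b3T (g : ℕ → ℝ) (w n : ℕ) : ℝ := |g n| * mass g w n

theorem b3T_nonneg (g : ℕ → ℝ) (w n : ℕ) : 0 ≤ b3T g w n :=
  mul_nonneg (abs_nonneg _) (Finset.sum_nonneg fun _ _ => abs_nonneg _)

theorem b3_sum_Ioc (g : ℕ → ℝ) (x y : ℕ) :
    ∑ n ∈ Ioc x (x + y), g n = b3G g (x + y) - b3G g x := by
  have h1 : Ioc x (x + y) = Ico (x + 1) (x + y + 1) := by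
    ext n
    simp only [mem_Ioc, mem_Ico]
    omega
  rw [h1, Finset.sum_Ico_eq_sub _ (by omega)]
  rfl

theorem b3_cells (g : ℕ → ℝ) (w : ℕ)
    (h0 : ∀ c, ∑ n ∈ Ico (w * c) (w * c + w), g n = 0) (c : ℕ) :
    ∑ n ∈ range (w * c), g n = 0 := by
  induction c with
  | zero => simp
  | succ c ih =>
    have h1 := Finset.sum_range_add_sum_Ico g (m := w * c) (n := w * c + w) (by omega)
    have h2 : w * (c + 1) = w * c + w := by ring
    rw [h2, ← h1, ih, h0 c, add_zero]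

theorem b3_div_bounds (w z : ℕ) (hw : 1 ≤ w) : w * (z / w) ≤ z ∧ z < w * (z / w) + w := by
  constructor
  · exact Nat.mul_div_le z w
  · exact Nat.lt_mul_div_succ z hw

theorem b3_G_left (g : ℕ → ℝ) (w : ℕ) (hw : 1 ≤ w)
    (h0 : ∀ c, ∑ n ∈ Ico (w * c) (w * c + w), g n = 0) (z : ℕ) :
    b3G g z = ∑ n ∈ Ico (w * (z / w)) (z + 1), g n := by
  have h1 := b3_div_bounds w z hw
  rw [Finset.sum_Ico_eq_sub _ (by omega), b3_cells g w h0, sub_zero]
  rfl

theorem b3_G_right (g : ℕ → ℝ) (w : ℕ) (hw : 1 ≤ w)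
    (h0 : ∀ c, ∑ n ∈ Ico (w * c) (w * c + w), g n = 0) (z : ℕ) :
    b3G g z = - ∑ n ∈ Ico (z + 1) (w * (z / w) + w), g n := by
  have h1 := b3_div_bounds w z hw
  have h2 : w * (z / w) + w = w * (z / w + 1) := by ring
  rw [Finset.sum_Ico_eq_sub _ (by omega), h2, b3_cells g w h0]
  unfold b3G
  ring

theorem b3_div_eq (w z n : ℕ) (hw : 1 ≤ w) (h1 : w * (z / w) ≤ n) (h2 : n < w * (z / w) + w) :
    n / w = z / w := by
  apply Nat.div_eq_of_lt_le
  · rw [mul_comm]; exact h1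
  · rw [add_mul, mul_comm, one_mul]; exact h2

theorem b3_sub (g : ℕ → ℝ) (w : ℕ) (hw : 1 ≤ w) (z : ℕ) (A : Finset ℕ)
    (hA : A ⊆ Ico (w * (z / w)) (w * (z / w) + w)) :
    (∑ n ∈ A, |g n|) ^ 2 ≤ ∑ n ∈ A, b3T g w n := by
  have h1 : ∑ n ∈ A, |g n| ≤ mass g w z :=
    Finset.sum_le_sum_of_subset_of_nonneg hA (fun _ _ _ => abs_nonneg _)
  have h2 : 0 ≤ ∑ n ∈ A, |g n| := Finset.sum_nonneg fun _ _ => abs_nonneg _
  have h3 : ∑ n ∈ A, b3T g w n = (∑ n ∈ A, |g n|) * mass g w z := by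
    rw [Finset.sum_mul]
    apply Finset.sum_congr rfl
    intro n hn
    have h4 := Finset.mem_Ico.1 (hA hn)
    unfold b3T mass
    rw [b3_div_eq w z n hw h4.1 h4.2]
  rw [h3, sq]
  exact mul_le_mul_of_nonneg_left h1 h2

theorem b3_sq_le (g : ℕ → ℝ) (w : ℕ) (hw : 1 ≤ w) (z : ℕ) (A : Finset ℕ)
    (hA : A ⊆ Ico (w * (z / w)) (w * (z / w) + w)) :
    (∑ n ∈ A, g n) ^ 2 ≤ ∑ n ∈ A, b3T g w n := by
  refine le_trans ?_ (b3_sub g w hw z A hA)
  rw [← sq_abs]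
  exact pow_le_pow_left₀ (abs_nonneg _) (Finset.abs_sum_le_sum_abs _ _) 2

theorem b3_G_sq (g : ℕ → ℝ) (w : ℕ) (hw : 1 ≤ w)
    (h0 : ∀ c, ∑ n ∈ Ico (w * c) (w * c + w), g n = 0) (z : ℕ) :
    (b3G g z) ^ 2 ≤ ∑ n ∈ Ico (w * (z / w)) (w * (z / w) + w), b3T g w n := by
  have h1 := b3_div_bounds w z hw
  rw [b3_G_left g w hw h0 z]
  have h2 : Ico (w * (z / w)) (z + 1) ⊆ Ico (w * (z / w)) (w * (z / w) + w) := by
    apply Finset.Ico_subset_Ico_right
    omega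
  exact (b3_sq_le g w hw z _ h2).trans
    (Finset.sum_le_sum_of_subset_of_nonneg h2 (fun _ _ _ => b3T_nonneg _ _ _))

theorem b3_a (g : ℕ → ℝ) (w : ℕ) (hw : 1 ≤ w)
    (h0 : ∀ c, ∑ n ∈ Ico (w * c) (w * c + w), g n = 0) (z z' : ℕ) (hz : z < z') :
    (b3G g z - b3G g z') ^ 2 ≤ 4 * ∑ n ∈ Ioc z z', b3T g w n := by
  have hb := b3_div_bounds w z hw
  have hb' := b3_div_bounds w z' hw
  have hT : 0 ≤ ∑ n ∈ Ioc z z', b3T g w n := Finset.sum_nonneg fun _ _ => b3T_nonneg _ _ _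
  by_cases hc : z / w = z' / w
  · obtain ⟨y, rfl⟩ := Nat.exists_eq_add_of_lt hz
    have h1 : b3G g (z + y + 1) - b3G g z = ∑ n ∈ Ioc z (z + y + 1), g n := by
      have := b3_sum_Ioc g z (y + 1)
      rw [← add_assoc] at this
      exact this.symm
    have h2 : (b3G g z - b3G g (z + y + 1)) ^ 2 = (∑ n ∈ Ioc z (z + y + 1), g n) ^ 2 := by
      rw [← h1]; ring
    rw [h2]
    have h3 : Ioc z (z + y + 1) ⊆ Ico (w * (z / w)) (w * (z / w) + w) := by
      intro n hn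
      rw [Finset.mem_Ioc] at hn
      rw [Finset.mem_Ico]
      rw [← hc] at hb'
      omega
    have h4 := b3_sq_le g w hw z _ h3
    linarith
  · have hlt : z / w < z' / w := lt_of_le_of_ne (Nat.div_le_div_right hz.le) hc
    have hmul : w * (z / w) + w ≤ w * (z' / w) := by
      have h5 : w * (z / w + 1) ≤ w * (z' / w) := Nat.mul_le_mul_left w hlt
      rw [mul_add, mul_one] at h5
      exact h5
    have h1 : (b3G g z) ^ 2 ≤ ∑ n ∈ Ico (z + 1) (w * (z / w) + w), b3T g w n := by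
      rw [b3_G_right g w hw h0 z, neg_sq]
      apply b3_sq_le g w hw z
      apply Finset.Ico_subset_Ico_left
      omega
    have h2 : (b3G g z') ^ 2 ≤ ∑ n ∈ Ico (w * (z' / w)) (z' + 1), b3T g w n := by
      rw [b3_G_left g w hw h0 z']
      apply b3_sq_le g w hw z'
      apply Finset.Ico_subset_Ico_right
      omega
    have h3 : ∑ n ∈ Ico (z + 1) (w * (z / w) + w), b3T g w n
        + ∑ n ∈ Ico (w * (z' / w)) (z' + 1), b3T g w n ≤ ∑ n ∈ Ioc z z', b3T g w n := by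
      rw [← Finset.sum_union]
      · apply Finset.sum_le_sum_of_subset_of_nonneg
        · intro n hn
          rw [Finset.mem_union, Finset.mem_Ico, Finset.mem_Ico] at hn
          rw [Finset.mem_Ioc]
          omega
        · intro n _ _
          exact b3T_nonneg _ _ _
      · rw [Finset.disjoint_left]
        intro n hn hn'
        rw [Finset.mem_Ico] at hn hn'
        omega
    nlinarith [sq_nonneg (b3G g z + b3G g z')]

/-- the window sum -/
noncomputable def b3U (g : ℕ → ℝ) (w Y x : ℕ) : ℝ :=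
  ∑ n ∈ Ico (x + 1 - w) (x + 2 * Y + w + 1), b3T g w n

theorem b3U_nonneg (g : ℕ → ℝ) (w Y x : ℕ) : 0 ≤ b3U g w Y x :=
  Finset.sum_nonneg fun _ _ => b3T_nonneg _ _ _

theorem b3_G_U (g : ℕ → ℝ) (w Y : ℕ) (hw : 1 ≤ w)
    (h0 : ∀ c, ∑ n ∈ Ico (w * c) (w * c + w), g n = 0) (x z : ℕ) (h1 : x ≤ z)
    (h2 : z ≤ x + 2 * Y) : (b3G g z) ^ 2 ≤ b3U g w Y x := by
  refine (b3_G_sq g w hw h0 z).trans ?_
  unfold b3U
  have hb := b3_div_bounds w z hw
  apply Finset.sum_le_sum_of_subset_of_nonneg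
  · intro n hn
    rw [Finset.mem_Ico] at hn ⊢
    omega
  · intro n _ _
    exact b3T_nonneg _ _ _

/-- one pair -/
theorem b3_pair (g : ℕ → ℝ) (w Y : ℕ) (hw : 1 ≤ w) (hY : 1 ≤ Y)
    (h0 : ∀ c, ∑ n ∈ Ico (w * c) (w * c + w), g n = 0) (x s t : ℕ) (hs : Y ≤ s) (hst : s < t)
    (ht : t ≤ 2 * Y) :
    (Av g x s - Av g x t) ^ 2 ≤ 8 / (Y : ℝ) ^ 2 * ∑ n ∈ Ioc (x + s) (x + t), b3T g w n
      + 8 * b3U g w Y x / (Y : ℝ) ^ 4 * ((t : ℝ) - s) ^ 2 := by
  have hYR : (0 : ℝ) < Y := by exact_mod_cast hY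
  have hsR : (Y : ℝ) ≤ s := by exact_mod_cast hs
  have hs0 : (0 : ℝ) < s := by linarith
  have hstR : (s : ℝ) < t := by exact_mod_cast hst
  have ht0 : (0 : ℝ) < t := by linarith
  set A := b3G g (x + s) - b3G g (x + t) with hA
  set B := b3G g (x + t) - b3G g x with hB
  have h1 : Av g x s - Av g x t = A / s + B * (((t : ℝ) - s) / (s * t)) := by
    unfold Av
    rw [b3_sum_Ioc, b3_sum_Ioc, hA, hB]
    field_simp
    ring
  have hA2 : A ^ 2 ≤ 4 * ∑ n ∈ Ioc (x + s) (x + t), b3T g w n :=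
    b3_a g w hw h0 (x + s) (x + t) (by omega)
  have hB2 : B ^ 2 ≤ 4 * b3U g w Y x := by
    have e1 := b3_G_U g w Y hw h0 x (x + t) (by omega) (by omega)
    have e2 := b3_G_U g w Y hw h0 x x le_rfl (by omega)
    rw [hB]
    nlinarith [sq_nonneg (b3G g (x + t) + b3G g x)]
  have h2 : (A / s) ^ 2 ≤ A ^ 2 / (Y : ℝ) ^ 2 := by
    rw [div_pow]
    apply div_le_div_of_nonneg_left (sq_nonneg _) (by positivity)
    exact pow_le_pow_left₀ hYR.le hsR 2
  have h3 : (((t : ℝ) - s) / (s * t)) ^ 2 ≤ ((t : ℝ) - s) ^ 2 / (Y : ℝ) ^ 4 := by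
    rw [div_pow]
    apply div_le_div_of_nonneg_left (sq_nonneg _) (by positivity)
    have e1 : (Y : ℝ) * Y ≤ s * t := mul_le_mul hsR (by linarith) hYR.le hs0.le
    have e2 : ((Y : ℝ) * Y) ^ 2 ≤ ((s : ℝ) * t) ^ 2 := pow_le_pow_left₀ (by positivity) e1 2
    calc (Y : ℝ) ^ 4 = ((Y : ℝ) * Y) ^ 2 := by ring
      _ ≤ ((s : ℝ) * t) ^ 2 := e2
  have h4 : (Av g x s - Av g x t) ^ 2
      ≤ 2 * (A / s) ^ 2 + 2 * (B ^ 2 * (((t : ℝ) - s) / (s * t)) ^ 2) := by
    rw [h1]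
    nlinarith [sq_nonneg (A / s - B * (((t : ℝ) - s) / (s * t)))]
  have h5 : A ^ 2 / (Y : ℝ) ^ 2 ≤ (4 * ∑ n ∈ Ioc (x + s) (x + t), b3T g w n) / (Y : ℝ) ^ 2 :=
    div_le_div_of_nonneg_right hA2 (by positivity)
  have h6 : B ^ 2 * (((t : ℝ) - s) / (s * t)) ^ 2
      ≤ 4 * b3U g w Y x * (((t : ℝ) - s) ^ 2 / (Y : ℝ) ^ 4) :=
    mul_le_mul hB2 h3 (sq_nonneg _) (by have := b3U_nonneg g w Y x; linarith)
  calc (Av g x s - Av g x t) ^ 2
      ≤ 2 * (A / s) ^ 2 + 2 * (B ^ 2 * (((t : ℝ) - s) / (s * t)) ^ 2) := h4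
    _ ≤ 2 * ((4 * ∑ n ∈ Ioc (x + s) (x + t), b3T g w n) / (Y : ℝ) ^ 2)
        + 2 * (4 * b3U g w Y x * (((t : ℝ) - s) ^ 2 / (Y : ℝ) ^ 4)) := by linarith
    _ = _ := by ring

/-- non-overlapping intervals -/
theorem b3_disj (P : Finset (ℕ × ℕ)) (Y x : ℕ) (hP : Fam Y P) (f : ℕ → ℝ) (hf : ∀ n, 0 ≤ f n) :
    ∑ z ∈ P, ∑ n ∈ Ioc (x + z.1) (x + z.2), f n ≤ ∑ n ∈ Ioc (x + Y) (x + 2 * Y), f n := by
  rw [← Finset.sum_biUnion]
  · apply Finset.sum_le_sum_of_subset_of_nonneg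
    · intro n hn
      rw [Finset.mem_biUnion] at hn
      obtain ⟨z, hz, hn⟩ := hn
      have h1 := hP.2 z hz
      rw [Finset.mem_Ioc] at hn ⊢
      omega
    · intro n _ _
      exact hf n
  · intro z hz z' hz' hne
    have h1 := hP.1 z hz z' hz' hne
    rw [Function.onFun, Finset.disjoint_left]
    intro n hn hn'
    rw [Finset.mem_Ioc] at hn hn'
    omega

theorem b3_len (P : Finset (ℕ × ℕ)) (Y : ℕ) (hP : Fam Y P) :
    ∑ z ∈ P, ((z.2 : ℝ) - z.1) ^ 2 ≤ (Y : ℝ) ^ 2 := by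
  have h1 := b3_disj P Y 0 hP (fun _ => 1) (fun _ => zero_le_one)
  have h2 : ∑ z ∈ P, ∑ n ∈ Ioc (0 + z.1) (0 + z.2), (1 : ℝ) = ∑ z ∈ P, ((z.2 : ℝ) - z.1) := by
    apply Finset.sum_congr rfl
    intro z hz
    have h3 := hP.2 z hz
    rw [Finset.sum_const, Nat.card_Ioc, nsmul_eq_mul, mul_one, zero_add, zero_add,
      Nat.cast_sub (by omega)]
  have h3 : ∑ n ∈ Ioc (0 + Y) (0 + 2 * Y), (1 : ℝ) = Y := by
    rw [Finset.sum_const, Nat.card_Ioc, nsmul_eq_mul, mul_one]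
    have : 0 + 2 * Y - (0 + Y) = Y := by omega
    rw [this]
  rw [h2, h3] at h1
  have h4 : ∀ z ∈ P, ((z.2 : ℝ) - z.1) ^ 2 ≤ (Y : ℝ) * ((z.2 : ℝ) - z.1) := by
    intro z hz
    obtain ⟨e1, e2, e3⟩ := hP.2 z hz
    have e1' : (Y : ℝ) ≤ z.1 := by exact_mod_cast e1
    have e2' : (z.1 : ℝ) < z.2 := by exact_mod_cast e2
    have e3' : (z.2 : ℝ) ≤ 2 * Y := by exact_mod_cast e3
    nlinarith
  calc ∑ z ∈ P, ((z.2 : ℝ) - z.1) ^ 2 ≤ ∑ z ∈ P, (Y : ℝ) * ((z.2 : ℝ) - z.1) :=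
        Finset.sum_le_sum h4
    _ = (Y : ℝ) * ∑ z ∈ P, ((z.2 : ℝ) - z.1) := by rw [Finset.mul_sum]
    _ ≤ (Y : ℝ) * Y := mul_le_mul_of_nonneg_left h1 (Nat.cast_nonneg _)
    _ = (Y : ℝ) ^ 2 := by ring

theorem b3_Vs (g : ℕ → ℝ) (w Y : ℕ) (hw : 1 ≤ w) (hY : 1 ≤ Y)
    (h0 : ∀ c, ∑ n ∈ Ico (w * c) (w * c + w), g n = 0) (x : ℕ) (P : Finset (ℕ × ℕ))
    (hP : Fam Y P) :
    Vs g x P ≤ 8 / (Y : ℝ) ^ 2 * b3U g w Y x + 8 / (Y : ℝ) ^ 2 * b3U g w Y x := by
  have hYR : (0 : ℝ) < Y := by exact_mod_cast hY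
  have hU := b3U_nonneg g w Y x
  have h1 : Vs g x P ≤ ∑ z ∈ P, (8 / (Y : ℝ) ^ 2 * ∑ n ∈ Ioc (x + z.1) (x + z.2), b3T g w n
      + 8 * b3U g w Y x / (Y : ℝ) ^ 4 * ((z.2 : ℝ) - z.1) ^ 2) := by
    apply Finset.sum_le_sum
    intro z hz
    obtain ⟨e1, e2, e3⟩ := hP.2 z hz
    exact b3_pair g w Y hw hY h0 x z.1 z.2 e1 e2 e3
  rw [Finset.sum_add_distrib, ← Finset.mul_sum, ← Finset.mul_sum] at h1
  have h2 : ∑ z ∈ P, ∑ n ∈ Ioc (x + z.1) (x + z.2), b3T g w n ≤ b3U g w Y x := by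
    refine (b3_disj P Y x hP (b3T g w) (b3T_nonneg g w)).trans ?_
    unfold b3U
    apply Finset.sum_le_sum_of_subset_of_nonneg
    · intro n hn
      rw [Finset.mem_Ioc] at hn
      rw [Finset.mem_Ico]
      omega
    · intro n _ _
      exact b3T_nonneg _ _ _
  have h3 := b3_len P Y hP
  have h4 : 8 / (Y : ℝ) ^ 2 * ∑ z ∈ P, ∑ n ∈ Ioc (x + z.1) (x + z.2), b3T g w n
      ≤ 8 / (Y : ℝ) ^ 2 * b3U g w Y x := mul_le_mul_of_nonneg_left h2 (by positivity)
  have h5 : 8 * b3U g w Y x / (Y : ℝ) ^ 4 * ∑ z ∈ P, ((z.2 : ℝ) - z.1) ^ 2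
      ≤ 8 * b3U g w Y x / (Y : ℝ) ^ 4 * (Y : ℝ) ^ 2 := mul_le_mul_of_nonneg_left h3 (by positivity)
  have h6 : 8 * b3U g w Y x / (Y : ℝ) ^ 4 * (Y : ℝ) ^ 2 = 8 / (Y : ℝ) ^ 2 * b3U g w Y x := by
    field_simp
  linarith

/-- summing the windows -/
theorem b3_sumU (g : ℕ → ℝ) (w Y W : ℕ) (hw : 1 ≤ w) (hwY : w ≤ Y)
    (hs : ∀ n, W ≤ n → g n = 0) :
    ∑ x ∈ range W, b3U g w Y x ≤ 4 * Y * ∑ n ∈ range W, b3T g w n := by
  have h1 : ∀ x, b3U g w Y x
      = ∑ n ∈ range W, if n ∈ Ico (x + 1 - w) (x + 2 * Y + w + 1) then b3T g w n else 0 := by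
    intro x
    unfold b3U
    rw [← Finset.sum_filter]
    symm
    apply Finset.sum_subset
    · intro n hn
      exact (Finset.mem_filter.1 hn).2
    · intro n hn hn'
      have h2 : W ≤ n := by
        by_contra hc
        exact hn' (Finset.mem_filter.2 ⟨Finset.mem_range.2 (by omega), hn⟩)
      unfold b3T
      rw [hs n h2, abs_zero, zero_mul]
  have h2 : ∑ x ∈ range W, b3U g w Y x = ∑ n ∈ range W, ∑ x ∈ range W,
      if n ∈ Ico (x + 1 - w) (x + 2 * Y + w + 1) then b3T g w n else 0 := by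
    rw [Finset.sum_comm]
    exact Finset.sum_congr rfl fun x _ => h1 x
  rw [h2, Finset.mul_sum]
  apply Finset.sum_le_sum
  intro n _
  rw [← Finset.sum_filter, Finset.sum_const, nsmul_eq_mul]
  apply mul_le_mul_of_nonneg_right _ (b3T_nonneg _ _ _)
  have h3 : (range W).filter (fun x => n ∈ Ico (x + 1 - w) (x + 2 * Y + w + 1))
      ⊆ Ico (n - (2 * Y + w)) (n + w) := by
    intro x hx
    rw [Finset.mem_filter, Finset.mem_Ico] at hx
    rw [Finset.mem_Ico]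
    omega
  have h4 := Finset.card_le_card h3
  rw [Nat.card_Ico] at h4
  have h5 : n + w - (n - (2 * Y + w)) ≤ 4 * Y := by omega
  have h6 := h4.trans h5
  exact_mod_cast h6

theorem fineV (g : ℕ → ℝ) (w Y W : ℕ) (hw : 1 ≤ w) (hwY : w ≤ Y) (hs : ∀ n, W ≤ n → g n = 0)
    (h0 : ∀ c, ∑ n ∈ Ico (w * c) (w * c + w), g n = 0)
    (P : ℕ → Finset (ℕ × ℕ)) (hP : ∀ x, Fam Y (P x)) :
    ∑ x ∈ range W, Vs g x (P x) ≤ 100 / Y * ∑ n ∈ range W, |g n| * mass g w n := by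
  have hY : 1 ≤ Y := hw.trans hwY
  have hYR : (0 : ℝ) < Y := by exact_mod_cast hY
  have hT : 0 ≤ ∑ n ∈ range W, b3T g w n := Finset.sum_nonneg fun _ _ => b3T_nonneg _ _ _
  calc ∑ x ∈ range W, Vs g x (P x)
      ≤ ∑ x ∈ range W, (8 / (Y : ℝ) ^ 2 * b3U g w Y x + 8 / (Y : ℝ) ^ 2 * b3U g w Y x) :=
        Finset.sum_le_sum fun x _ => b3_Vs g w Y hw hY h0 x (P x) (hP x)
    _ = 16 / (Y : ℝ) ^ 2 * ∑ x ∈ range W, b3U g w Y x := by
        rw [Finset.mul_sum]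
        apply Finset.sum_congr rfl
        intro x _
        ring
    _ ≤ 16 / (Y : ℝ) ^ 2 * (4 * Y * ∑ n ∈ range W, b3T g w n) :=
        mul_le_mul_of_nonneg_left (b3_sumU g w Y W hw hwY hs) (by positivity)
    _ = 64 / Y * ∑ n ∈ range W, b3T g w n := by
        field_simp
        ring
    _ ≤ 100 / Y * ∑ n ∈ range W, b3T g w n := by
        apply mul_le_mul_of_nonneg_right _ hT
        apply div_le_div_of_nonneg_right _ hYR.le
        norm_num
    _ = _ := rfl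

theorem fineC (g : ℕ → ℝ) (w Y W : ℕ) (hw : 1 ≤ w) (hwY : w ≤ Y) (hs : ∀ n, W ≤ n → g n = 0)
    (h0 : ∀ c, ∑ n ∈ Ico (w * c) (w * c + w), g n = 0)
    (y : ℕ → ℕ) (hy : ∀ x, Y ≤ y x ∧ y x ≤ 2 * Y) :
    ∑ x ∈ range W, (Av g x (y x)) ^ 2 ≤ 100 / Y * ∑ n ∈ range W, |g n| * mass g w n := by
  have hY : 1 ≤ Y := hw.trans hwY
  have hYR : (0 : ℝ) < Y := by exact_mod_cast hY
  have hT : 0 ≤ ∑ n ∈ range W, b3T g w n := Finset.sum_nonneg fun _ _ => b3T_nonneg _ _ _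
  have h1 : ∀ x, (Av g x (y x)) ^ 2 ≤ 4 / (Y : ℝ) ^ 2 * b3U g w Y x := by
    intro x
    obtain ⟨e1, e2⟩ := hy x
    have e3 := b3_G_U g w Y hw h0 x (x + y x) (by omega) (by omega)
    have e4 := b3_G_U g w Y hw h0 x x le_rfl (by omega)
    have e5 : (Y : ℝ) ≤ (y x : ℝ) := by exact_mod_cast e1
    unfold Av
    rw [b3_sum_Ioc, div_pow]
    have e6 : (b3G g (x + y x) - b3G g x) ^ 2 ≤ 4 * b3U g w Y x := by
      nlinarith [sq_nonneg (b3G g (x + y x) + b3G g x)]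
    calc (b3G g (x + y x) - b3G g x) ^ 2 / (y x : ℝ) ^ 2
        ≤ (b3G g (x + y x) - b3G g x) ^ 2 / (Y : ℝ) ^ 2 := by
          apply div_le_div_of_nonneg_left (sq_nonneg _) (by positivity)
          exact pow_le_pow_left₀ hYR.le e5 2
      _ ≤ (4 * b3U g w Y x) / (Y : ℝ) ^ 2 := div_le_div_of_nonneg_right e6 (by positivity)
      _ = _ := by ring
  calc ∑ x ∈ range W, (Av g x (y x)) ^ 2
      ≤ ∑ x ∈ range W, 4 / (Y : ℝ) ^ 2 * b3U g w Y x := Finset.sum_le_sum fun x _ => h1 x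
    _ = 4 / (Y : ℝ) ^ 2 * ∑ x ∈ range W, b3U g w Y x := by rw [Finset.mul_sum]
    _ ≤ 4 / (Y : ℝ) ^ 2 * (4 * Y * ∑ n ∈ range W, b3T g w n) :=
        mul_le_mul_of_nonneg_left (b3_sumU g w Y W hw hwY hs) (by positivity)
    _ = 16 / Y * ∑ n ∈ range W, b3T g w n := by
        field_simp
        ring
    _ ≤ 100 / Y * ∑ n ∈ range W, b3T g w n := by
        apply mul_le_mul_of_nonneg_right _ hT
        apply div_le_div_of_nonneg_right _ hYR.le
        norm_num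
    _ = _ := rfl

theorem mass_sum (g : ℕ → ℝ) (w C : ℕ) (hw : 1 ≤ w) :
    ∑ n ∈ range (w * C), |g n| * mass g w n ≤ w * nsq g (w * C) := by
  induction C with
  | zero => simp [nsq]
  | succ C ih =>
    have h2 : w * (C + 1) = w * C + w := by ring
    have h1 : ∀ f : ℕ → ℝ, ∑ n ∈ range (w * (C + 1)), f n
        = ∑ n ∈ range (w * C), f n + ∑ n ∈ Ico (w * C) (w * C + w), f n := by
      intro f
      rw [h2]
      exact (Finset.sum_range_add_sum_Ico f (by omega)).symm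
    unfold nsq at ih ⊢
    rw [h1, h1, mul_add]
    have hC : w * C / w = C := Nat.mul_div_cancel_left C hw
    have h3 : ∑ n ∈ Ico (w * C) (w * C + w), |g n| * mass g w n
        = (∑ n ∈ Ico (w * C) (w * C + w), |g n|) ^ 2 := by
      rw [sq, Finset.sum_mul]
      apply Finset.sum_congr rfl
      intro n hn
      rw [Finset.mem_Ico] at hn
      have h4 : n / w = C := by
        have := b3_div_eq w (w * C) n hw (by rw [hC]; exact hn.1) (by rw [hC]; exact hn.2)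
        rw [this, hC]
      unfold mass
      rw [h4]
    have h4 : (∑ n ∈ Ico (w * C) (w * C + w), |g n|) ^ 2
        ≤ w * ∑ n ∈ Ico (w * C) (w * C + w), (g n) ^ 2 := by
      have h5 := sq_sum_le_card_mul_sum_sq (s := Ico (w * C) (w * C + w)) (f := fun n => |g n|)
      rw [Nat.card_Ico, Nat.add_sub_cancel_left] at h5
      simpa only [sq_abs] using h5
    rw [h3]
    linarith

end MP293bbf
end

section

/-!
B4. Coarse scales: `g` is constant on the cells of length `w ≥ 2Y`.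

PROOF. Let `z0 = w * (x/w) + w` be the start of the next cell. If `(x, x+2Y]` is contained in the
cell of `x`, `Av g x y = g x` for all `1 ≤ y ≤ 2Y`, so `Vs = 0` and `Av - g x = 0`. Otherwise `x ≥ z0 - 2Y`, and for
`y ≤ 2Y ≤ w`: `Av g x y = g x + (g z0 - g x) * φ y`, `φ y = (y - (z0 - 1 - x))⁺ / y ∈ [0, 1]`
nondecreasing in `y`. So `Vs g x P ≤ (g z0 - g x)² Σ (φ t - φ s)² ≤ (g z0 - g x)²`
(`Σ (φ t - φ s) ≤ 1` for non-overlapping pairs) and `(Av - g x)² ≤ (g z0 - g x)²`, and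
`(g z0 - g x)² ≤ 2 (g z0)² + 2 (g x)²`. Sum over `x < W = w * C`: every cell contains `2Y` such `x`,
so the total is at most `2Y Σ_c (2 g(w c)² + 2 g(w(c+1))²) ≤ 8 Y Σ_{c < C} g(w c)² = (8Y/w) nsq g W`
(`g = 0` beyond `W`).
-/

open Finset

namespace MP293bbf

/-- the fraction of `(x, x+y]` beyond the first `j` elements -/
noncomputable def phiB4 (j y : ℕ) : ℝ := ((y - j : ℕ) : ℝ) / y

theorem phiB4_nonneg (j y : ℕ) : 0 ≤ phiB4 j y := by
  unfold phiB4; positivity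

theorem phiB4_le_one (j y : ℕ) : phiB4 j y ≤ 1 := by
  unfold phiB4
  apply div_le_one_of_le₀
  · exact_mod_cast Nat.sub_le y j
  · positivity

theorem phiB4_mono (j : ℕ) {y y' : ℕ} (hy : 1 ≤ y) (h : y ≤ y') : phiB4 j y ≤ phiB4 j y' := by
  unfold phiB4
  have hy0 : (0 : ℝ) < y := by exact_mod_cast hy
  have hy1 : (0 : ℝ) < y' := by exact_mod_cast (lt_of_lt_of_le hy h)
  rcases Nat.lt_or_ge y j with hj | hj
  · rw [Nat.sub_eq_zero_of_le hj.le]
    simp only [Nat.cast_zero, zero_div]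
    positivity
  · rw [Nat.cast_sub hj, Nat.cast_sub (hj.trans h), div_le_div_iff₀ hy0 hy1]
    have h1 : (y : ℝ) ≤ y' := by exact_mod_cast h
    have h2 : (0 : ℝ) ≤ j := by positivity
    nlinarith

theorem phiB4_zero (j y : ℕ) (h : y ≤ j) : phiB4 j y = 0 := by
  unfold phiB4; rw [Nat.sub_eq_zero_of_le h]; simp

/-- the sum of the increments over a non-overlapping family -/
theorem sum_incr_le (Y : ℕ) (hY : 1 ≤ Y) (P : Finset (ℕ × ℕ)) (hP : Fam Y P) (j : ℕ) :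
    ∑ z ∈ P, (phiB4 j z.2 - phiB4 j z.1) ≤ 1 := by
  have h1 : ∀ z ∈ P, phiB4 j z.2 - phiB4 j z.1 =
      ∑ i ∈ Ico z.1 z.2, (phiB4 j (i + 1) - phiB4 j i) := by
    intro z hz
    rw [Finset.sum_Ico_sub _ (hP.2 z hz).2.1.le]
  rw [Finset.sum_congr rfl h1]
  have hd : Set.PairwiseDisjoint (P : Set (ℕ × ℕ)) (fun z : ℕ × ℕ => Ico z.1 z.2) := by
    intro z hz z' hz' hne
    rw [Function.onFun, Finset.disjoint_left]
    intro i hi hi'
    rw [Finset.mem_Ico] at hi hi'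
    rcases hP.1 z hz z' hz' hne with h | h
    · omega
    · omega
  rw [← Finset.sum_biUnion hd]
  have hsub : P.biUnion (fun z : ℕ × ℕ => Ico z.1 z.2) ⊆ Ico Y (2 * Y) := by
    intro i hi
    rw [Finset.mem_biUnion] at hi
    obtain ⟨z, hz, hi⟩ := hi
    rw [Finset.mem_Ico] at hi ⊢
    have := hP.2 z hz
    omega
  have h2 : ∑ i ∈ P.biUnion (fun z : ℕ × ℕ => Ico z.1 z.2), (phiB4 j (i + 1) - phiB4 j i) ≤
      ∑ i ∈ Ico Y (2 * Y), (phiB4 j (i + 1) - phiB4 j i) := by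
    apply Finset.sum_le_sum_of_subset_of_nonneg hsub
    intro i hi _
    rw [Finset.mem_Ico] at hi
    have := phiB4_mono j (y := i) (y' := i + 1) (by omega) (by omega)
    linarith
  refine h2.trans ?_
  rw [Finset.sum_Ico_sub _ (by omega)]
  have := phiB4_nonneg j Y
  have := phiB4_le_one j (2 * Y)
  linarith

/-- the average on a short interval starting at `x` -/
theorem Av_eq (g : ℕ → ℝ) (w x y : ℕ) (hw : 1 ≤ w) (hy : 1 ≤ y) (hyw : y ≤ w)
    (hc : ∀ n, g n = g (w * (n / w))) :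
    Av g x y = g (w * (x / w)) +
      (g (w * (x / w + 1)) - g (w * (x / w))) * phiB4 (w - 1 - x % w) y := by
  set q := x / w with hq
  set r := x % w with hr
  have hx : x = w * q + r := (Nat.div_add_mod x w).symm
  have hrw : r < w := Nat.mod_lt _ hw
  set j := w - 1 - r with hj
  have hval : ∀ n ∈ Ioc x (x + y), g n =
      g (w * q) + (g (w * (q + 1)) - g (w * q)) * (if x + j < n then 1 else 0) := by
    intro n hn
    rw [Finset.mem_Ioc] at hn
    rw [hc n]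
    split_ifs with h
    · have : n / w = q + 1 := by
        apply Nat.div_eq_of_lt_le
        · have : (q + 1) * w = w * q + w := by ring
          omega
        · have : (q + 1 + 1) * w = w * q + w + w := by ring
          omega
      rw [this]; ring
    · have : n / w = q := by
        apply Nat.div_eq_of_lt_le
        · have : q * w = w * q := by ring
          omega
        · have : (q + 1) * w = w * q + w := by ring
          omega
      rw [this]; ring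
  have hcard : ∑ n ∈ Ioc x (x + y), (if x + j < n then (1 : ℝ) else 0) = ((y - j : ℕ) : ℝ) := by
    rw [Finset.sum_boole]
    congr 1
    have : (Ioc x (x + y)).filter (fun n => x + j < n) = Ioc (x + j) (x + y) := by
      ext n
      simp only [Finset.mem_filter, Finset.mem_Ioc]
      omega
    rw [this, Nat.card_Ioc]
    omega
  unfold Av
  rw [Finset.sum_congr rfl hval, Finset.sum_add_distrib, ← Finset.mul_sum, hcard]
  simp only [Finset.sum_const, Nat.card_Ioc, nsmul_eq_mul]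
  have hy0 : (y : ℝ) ≠ 0 := by
    have : (0 : ℝ) < y := by exact_mod_cast hy
    exact this.ne'
  have h3 : x + y - x = y := by omega
  rw [h3]
  unfold phiB4
  field_simp

theorem sum_cells (f : ℕ → ℝ) (w C : ℕ) :
    ∑ x ∈ range (w * C), f x = ∑ c ∈ range C, ∑ r ∈ range w, f (w * c + r) := by
  induction C with
  | zero => simp
  | succ C ih =>
    rw [Finset.sum_range_succ, ← ih, Nat.mul_succ, Finset.sum_range_add]

/-- the common summation -/
theorem coarse_sum (g : ℕ → ℝ) (w Y C : ℕ) (hY : 1 ≤ Y) (hwY : 2 * Y ≤ w)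
    (hs : ∀ n, w * C ≤ n → g n = 0) (hc : ∀ n, g n = g (w * (n / w)))
    (F : ℕ → ℝ)
    (hF : ∀ x, F x ≤ (if w - 1 - x % w < 2 * Y then
      (g (w * (x / w + 1)) - g (w * (x / w))) ^ 2 else 0)) :
    ∑ x ∈ range (w * C), F x ≤ 8 * Y / w * nsq g (w * C) := by
  have hw : 1 ≤ w := by omega
  have hw0 : (0 : ℝ) < w := by exact_mod_cast hw
  have hdiv : ∀ c r, r < w → (w * c + r) / w = c := by
    intro c r hr
    rw [Nat.mul_add_div (by omega), Nat.div_eq_of_lt hr]; simp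
  have hmod : ∀ c r, r < w → (w * c + r) % w = r := by
    intro c r hr
    rw [Nat.mul_add_mod, Nat.mod_eq_of_lt hr]
  have hcount : ((range w).filter (fun r => w - 1 - r < 2 * Y)).card = 2 * Y := by
    have : (range w).filter (fun r => w - 1 - r < 2 * Y) = Ico (w - 2 * Y) w := by
      ext r
      simp only [Finset.mem_filter, Finset.mem_range, Finset.mem_Ico]
      omega
    rw [this, Nat.card_Ico]; omega
  have h1 : ∑ x ∈ range (w * C), F x ≤
      ∑ c ∈ range C, (2 * Y : ℝ) * (g (w * (c + 1)) - g (w * c)) ^ 2 := by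
    calc ∑ x ∈ range (w * C), F x ≤ ∑ x ∈ range (w * C), (if w - 1 - x % w < 2 * Y then
          (g (w * (x / w + 1)) - g (w * (x / w))) ^ 2 else 0) :=
          Finset.sum_le_sum (fun x _ => hF x)
      _ = ∑ c ∈ range C, ∑ r ∈ range w, (if w - 1 - r < 2 * Y then
          (g (w * (c + 1)) - g (w * c)) ^ 2 else 0) := by
          rw [sum_cells]
          apply Finset.sum_congr rfl
          intro c _
          apply Finset.sum_congr rfl
          intro r hr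
          rw [Finset.mem_range] at hr
          rw [hdiv c r hr, hmod c r hr]
      _ = _ := by
          apply Finset.sum_congr rfl
          intro c _
          rw [← Finset.sum_filter, Finset.sum_const, hcount, nsmul_eq_mul]
          push_cast; ring
  have h2 : nsq g (w * C) = w * ∑ c ∈ range C, (g (w * c)) ^ 2 := by
    unfold nsq
    rw [sum_cells, Finset.mul_sum]
    apply Finset.sum_congr rfl
    intro c _
    have : ∀ r ∈ range w, (g (w * c + r)) ^ 2 = (g (w * c)) ^ 2 := by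
      intro r hr
      rw [Finset.mem_range] at hr
      rw [hc (w * c + r), hdiv c r hr]
    rw [Finset.sum_congr rfl this, Finset.sum_const, Finset.card_range, nsmul_eq_mul]
  have h3 : ∑ c ∈ range C, (g (w * (c + 1))) ^ 2 ≤ ∑ c ∈ range C, (g (w * c)) ^ 2 := by
    have e1 := Finset.sum_range_succ (fun c => (g (w * c)) ^ 2) C
    have e2 := Finset.sum_range_succ' (fun c => (g (w * c)) ^ 2) C
    have e3 : g (w * C) = 0 := hs _ le_rfl
    rw [e3] at e1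
    have e4 : 0 ≤ (g (w * 0)) ^ 2 := sq_nonneg _
    linarith
  calc ∑ x ∈ range (w * C), F x
      ≤ ∑ c ∈ range C, (2 * Y : ℝ) * (g (w * (c + 1)) - g (w * c)) ^ 2 := h1
    _ ≤ ∑ c ∈ range C, (2 * Y : ℝ) * (2 * (g (w * (c + 1))) ^ 2 + 2 * (g (w * c)) ^ 2) := by
        apply Finset.sum_le_sum
        intro c _
        apply mul_le_mul_of_nonneg_left _ (by positivity)
        nlinarith [sq_nonneg (g (w * (c + 1)) + g (w * c))]
    _ = (2 * Y : ℝ) * (2 * ∑ c ∈ range C, (g (w * (c + 1))) ^ 2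
          + 2 * ∑ c ∈ range C, (g (w * c)) ^ 2) := by
        rw [← Finset.mul_sum, Finset.sum_add_distrib, ← Finset.mul_sum, ← Finset.mul_sum]
    _ ≤ (2 * Y : ℝ) * (2 * ∑ c ∈ range C, (g (w * c)) ^ 2
          + 2 * ∑ c ∈ range C, (g (w * c)) ^ 2) := by
        apply mul_le_mul_of_nonneg_left _ (by positivity)
        linarith
    _ = 8 * Y / w * nsq g (w * C) := by
        rw [h2]
        field_simp
        ring

theorem coarseV (g : ℕ → ℝ) (w Y C : ℕ) (hY : 1 ≤ Y) (hwY : 2 * Y ≤ w)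
    (hs : ∀ n, w * C ≤ n → g n = 0) (hc : ∀ n, g n = g (w * (n / w)))
    (P : ℕ → Finset (ℕ × ℕ)) (hP : ∀ x, Fam Y (P x)) :
    ∑ x ∈ range (w * C), Vs g x (P x) ≤ 8 * Y / w * nsq g (w * C) := by
  apply coarse_sum g w Y C hY hwY hs hc (fun x => Vs g x (P x))
  intro x
  have hw : 1 ≤ w := by omega
  set j := w - 1 - x % w with hj
  set D := g (w * (x / w + 1)) - g (w * (x / w)) with hD
  have hterm : ∀ z ∈ P x, (Av g x z.1 - Av g x z.2) ^ 2 =
      D ^ 2 * (phiB4 j z.2 - phiB4 j z.1) ^ 2 := by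
    intro z hz
    have hz' := (hP x).2 z hz
    rw [Av_eq g w x z.1 hw (by omega) (by omega) hc, Av_eq g w x z.2 hw (by omega) (by omega) hc]
    ring
  show Vs g x (P x) ≤ _
  unfold Vs
  rw [Finset.sum_congr rfl hterm]
  split_ifs with h
  · have h1 : ∀ z ∈ P x, D ^ 2 * (phiB4 j z.2 - phiB4 j z.1) ^ 2 ≤
        D ^ 2 * (phiB4 j z.2 - phiB4 j z.1) := by
      intro z hz
      have hz' := (hP x).2 z hz
      apply mul_le_mul_of_nonneg_left _ (sq_nonneg _)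
      have e1 := phiB4_mono j (y := z.1) (y' := z.2) (by omega) (by omega)
      have e2 := phiB4_nonneg j z.1
      have e3 := phiB4_le_one j z.2
      nlinarith
    calc ∑ z ∈ P x, D ^ 2 * (phiB4 j z.2 - phiB4 j z.1) ^ 2
        ≤ ∑ z ∈ P x, D ^ 2 * (phiB4 j z.2 - phiB4 j z.1) := Finset.sum_le_sum h1
      _ = D ^ 2 * ∑ z ∈ P x, (phiB4 j z.2 - phiB4 j z.1) := by rw [Finset.mul_sum]
      _ ≤ D ^ 2 * 1 := mul_le_mul_of_nonneg_left (sum_incr_le Y hY (P x) (hP x) j) (sq_nonneg _)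
      _ = D ^ 2 := mul_one _
  · apply le_of_eq
    apply Finset.sum_eq_zero
    intro z hz
    have hz' := (hP x).2 z hz
    rw [phiB4_zero j z.2 (by omega), phiB4_zero j z.1 (by omega)]
    simp

theorem coarseC (g : ℕ → ℝ) (w Y C : ℕ) (hY : 1 ≤ Y) (hwY : 2 * Y ≤ w)
    (hs : ∀ n, w * C ≤ n → g n = 0) (hc : ∀ n, g n = g (w * (n / w)))
    (y : ℕ → ℕ) (hy : ∀ x, Y ≤ y x ∧ y x ≤ 2 * Y) :
    ∑ x ∈ range (w * C), (Av g x (y x) - g x) ^ 2 ≤ 8 * Y / w * nsq g (w * C) := by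
  apply coarse_sum g w Y C hY hwY hs hc (fun x => (Av g x (y x) - g x) ^ 2)
  intro x
  have hw : 1 ≤ w := by omega
  have hyx := hy x
  show (Av g x (y x) - g x) ^ 2 ≤ _
  rw [Av_eq g w x (y x) hw (by omega) (by omega) hc, ← hc x]
  rw [hc x]
  split_ifs with h
  · have e2 := phiB4_nonneg (w - 1 - x % w) (y x)
    have e3 := phiB4_le_one (w - 1 - x % w) (y x)
    have e4 : (phiB4 (w - 1 - x % w) (y x)) ^ 2 ≤ 1 := by nlinarith
    calc _ = (g (w * (x / w + 1)) - g (w * (x / w))) ^ 2 * (phiB4 (w - 1 - x % w) (y x)) ^ 2 := by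
          ring
      _ ≤ (g (w * (x / w + 1)) - g (w * (x / w))) ^ 2 * 1 :=
          mul_le_mul_of_nonneg_left e4 (sq_nonneg _)
      _ = _ := mul_one _
  · rw [phiB4_zero _ _ (by omega)]
    simp

end MP293bbf
end

section

/-!
B5. Square function estimates (all lemmas of B2, B3, B4 may be used).

PROOF. `w k = 2^k h`, `W = 2^K h`, `E_k = Ev f (w k)`, `d_0 = f - E_0`, `d_k = E_{k-1} - E_k` for
`1 ≤ k ≤ K`; `f = Σ_{k ≤ K} d_k + E_K`. All vanish at `n ≥ W`. `d_k` has mean zero on cells of length `w k`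
and (for `k ≥ 1`) is constant on cells of length `w (k-1)`. Orthogonality (`Pythagoras` on each
cell of length `w k`): `nsq E_{k-1} W = nsq E_k W + nsq d_k W`, so `Σ_{1 ≤ k ≤ K} nsq d_k W ≤ nsq E_0 W`.
Fix `j` with `j + 2 ≤ K`, `Y = w j`, and restrict to `x < 2^(K-1) h` (so `x + 2Y < W`: `E_K` is constant on
`[0, W)` and contributes `0` to `Vs`, and to `Av - E_j`).
* `1 ≤ k ≤ j`: `fineV`, `mass_sum`: `Σ_x Vs d_k ≤ 100 (w k/Y) nsq d_k = 100 * 2^{k-j} nsq d_k`.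
* `k = 0`: `fineV`: `≤ 100/Y Σ |d_0| mass d_0 ≤ 100/Y * 4 Σ_cells (Σ_cell f)² = 400 * 2^{-j} nsq E_0`
  (`f ≥ 0`: `Σ_cell |d_0| ≤ 2 Σ_cell f`, `nsq E_0 W = (1/h) Σ_cells (Σ_cell f)²`).
* `k = j+1`: `trivV`: `≤ 16 nsq d_k`.
* `k ≥ j+2`: `coarseV` with `w = w (k-1) ≥ 2Y`: `≤ 16 * 2^{-(k-j)} nsq d_k`.
Weighted Cauchy-Schwarz: `(Σ_k v_k)² ≤ 7 Σ_k (4/3)^{|j-k|} v_k²` since `Σ_k (3/4)^{|j-k|} ≤ 7`. So
`Σ_x Vs f x (P x j) ≤ 7 Σ_k (4/3)^{|j-k|} 400 * 2^{-|j-k|} (nsq d_k or nsq E_0) `, i.e. with ratio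
`(2/3)^{|j-k|}`; summing over `j`, `Σ_j (2/3)^{|j-k|} ≤ 5`: total `≤ 35 * 400 * 2 * nsq E_0`.
`squareC`: same with `fineC`, `trivC`, `coarseC`: for `k ≤ j`, `Ev d_k (w j) = 0`; for `k ≥ j+2` (even `k ≥ j+1`)
`Ev d_k (w j) x = d_k x`; for `k = j+1` use `(Av d_k - d_k)² ≤ 2 (Av d_k)² + 2 d_k²`.
(Any constant `C` is fine. `Ev` is linear in `f`.)
-/

open Finset

namespace MP293bbf

/-- distance of two indices -/
def dst (j k : ℕ) : ℕ := (j - k) + (k - j)

theorem geom_le (ρ : ℝ) (h0 : 0 ≤ ρ) (h1 : ρ < 1) (N : ℕ) : ∑ i ∈ range N, ρ ^ i ≤ 1 / (1 - ρ) := by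
  have h2 : 0 < 1 - ρ := by linarith
  rw [le_div_iff₀ h2, mul_comm, mul_neg_geom_sum]
  have := pow_nonneg h0 N
  linarith

theorem sum_pow_dst (ρ : ℝ) (h0 : 0 ≤ ρ) (h1 : ρ < 1) (j N : ℕ) :
    ∑ k ∈ range N, ρ ^ (dst j k) ≤ 2 / (1 - ρ) := by
  have hsub : range N ⊆ range (j + 1 + N) := by
    intro i hi
    rw [mem_range] at hi ⊢
    omega
  have h2 : ∑ k ∈ range N, ρ ^ (dst j k) ≤ ∑ k ∈ range (j + 1 + N), ρ ^ (dst j k) :=
    sum_le_sum_of_subset_of_nonneg hsub fun i _ _ => pow_nonneg h0 _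
  refine h2.trans ?_
  rw [sum_range_add]
  have h3 : ∑ k ∈ range (j + 1), ρ ^ (dst j k) = ∑ k ∈ range (j + 1), ρ ^ k := by
    rw [← sum_range_reflect (fun k => ρ ^ k) (j + 1)]
    apply sum_congr rfl
    intro k hk
    rw [mem_range] at hk
    congr 1
    unfold dst
    omega
  have h4 : ∑ k ∈ range N, ρ ^ (dst j (j + 1 + k)) ≤ ∑ k ∈ range N, ρ ^ k := by
    apply sum_le_sum
    intro k _
    have : dst j (j + 1 + k) = k + 1 := by
      unfold dst
      omega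
    rw [this, pow_succ]
    have := pow_nonneg h0 k
    nlinarith
  have h5 := geom_le ρ h0 h1 (j + 1)
  have h6 := geom_le ρ h0 h1 N
  rw [h3]
  have h7 : 2 / (1 - ρ) = 1 / (1 - ρ) + 1 / (1 - ρ) := by ring
  linarith

theorem dst_comm (j k : ℕ) : dst j k = dst k j := by
  unfold dst
  omega

/-- weighted Cauchy-Schwarz -/
theorem wcs (j N : ℕ) (v : ℕ → ℝ) :
    (∑ k ∈ range N, v k) ^ 2 ≤ 8 * ∑ k ∈ range N, (4 / 3 : ℝ) ^ (dst j k) * (v k) ^ 2 := by
  have h1 : (∑ k ∈ range N, v k) ^ 2 ≤ (∑ k ∈ range N, (3 / 4 : ℝ) ^ (dst j k)) *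
      ∑ k ∈ range N, (4 / 3 : ℝ) ^ (dst j k) * (v k) ^ 2 := by
    apply Finset.sum_sq_le_sum_mul_sum_of_sq_eq_mul
    · intro i _
      positivity
    · intro i _
      positivity
    · intro i _
      rw [← mul_assoc, ← mul_pow]
      norm_num
  refine h1.trans ?_
  apply mul_le_mul_of_nonneg_right
  · have := sum_pow_dst (3 / 4) (by norm_num) (by norm_num) j N
    norm_num at this ⊢
    exact this
  · apply sum_nonneg
    intro i _
    positivity

/-- combination of the bounds -/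
theorem combine (K : ℕ) (N F : ℕ → ℝ) (B : ℕ → ℕ → ℝ) (hN : ∀ k, 0 ≤ N k)
    (hF : ∀ j ∈ range (K - 1), F j ≤ 8 * ∑ k ∈ range (K + 1), (4 / 3 : ℝ) ^ (dst j k) * B j k)
    (hB : ∀ j ∈ range (K - 1), ∀ k ∈ range (K + 1), B j k ≤ 400 * (1 / 2 : ℝ) ^ (dst j k) * N k) :
    ∑ j ∈ range (K - 1), F j ≤ 19200 * ∑ k ∈ range (K + 1), N k := by
  have h1 : ∀ j ∈ range (K - 1), F j ≤ 3200 * ∑ k ∈ range (K + 1), (2 / 3 : ℝ) ^ (dst j k) * N k := by
    intro j hj
    refine (hF j hj).trans ?_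
    have h2 : ∑ k ∈ range (K + 1), (4 / 3 : ℝ) ^ (dst j k) * B j k ≤
        ∑ k ∈ range (K + 1), 400 * ((2 / 3 : ℝ) ^ (dst j k) * N k) := by
      apply sum_le_sum
      intro k hk
      calc (4 / 3 : ℝ) ^ (dst j k) * B j k
          ≤ (4 / 3 : ℝ) ^ (dst j k) * (400 * (1 / 2 : ℝ) ^ (dst j k) * N k) := by
            apply mul_le_mul_of_nonneg_left (hB j hj k hk)
            positivity
        _ = 400 * (((4 / 3 : ℝ) * (1 / 2)) ^ (dst j k) * N k) := by
            rw [mul_pow]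
            ring
        _ = 400 * ((2 / 3 : ℝ) ^ (dst j k) * N k) := by norm_num
    rw [← mul_sum] at h2
    linarith
  have h3 : ∑ j ∈ range (K - 1), F j ≤
      ∑ j ∈ range (K - 1), 3200 * ∑ k ∈ range (K + 1), (2 / 3 : ℝ) ^ (dst j k) * N k :=
    sum_le_sum h1
  refine h3.trans ?_
  rw [← mul_sum, sum_comm]
  have h4 : ∑ k ∈ range (K + 1), ∑ j ∈ range (K - 1), (2 / 3 : ℝ) ^ (dst j k) * N k ≤
      ∑ k ∈ range (K + 1), 6 * N k := by
    apply sum_le_sum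
    intro k _
    rw [← sum_mul]
    apply mul_le_mul_of_nonneg_right _ (hN k)
    have h5 := sum_pow_dst (2 / 3) (by norm_num) (by norm_num) k (K - 1)
    have h6 : ∑ j ∈ range (K - 1), (2 / 3 : ℝ) ^ (dst j k) =
        ∑ j ∈ range (K - 1), (2 / 3 : ℝ) ^ (dst k j) := by
      apply sum_congr rfl
      intro j _
      rw [dst_comm]
    rw [h6]
    norm_num at h5 ⊢
    exact h5
  rw [← mul_sum] at h4
  linarith

theorem B5_sum_cells (F : ℕ → ℝ) (w C : ℕ) :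
    ∑ n ∈ range (w * C), F n = ∑ c ∈ range C, ∑ n ∈ Ico (w * c) (w * c + w), F n := by
  induction C with
  | zero => simp
  | succ C ih =>
    rw [sum_range_succ, ← ih, Nat.mul_succ]
    rw [sum_range_add_sum_Ico _ (Nat.le_add_right _ _)]

theorem div_of_mem {w c n : ℕ} (hn : n ∈ Ico (w * c) (w * c + w)) : n / w = c := by
  rw [mem_Ico] at hn
  apply Nat.div_eq_of_lt_le
  · rw [mul_comm]
    exact hn.1
  · rw [Nat.succ_mul, mul_comm c w]
    exact hn.2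

theorem Ev_mem (f : ℕ → ℝ) {w c n : ℕ} (hn : n ∈ Ico (w * c) (w * c + w)) :
    Ev f w n = (∑ i ∈ Ico (w * c) (w * c + w), f i) / w := by
  unfold Ev
  rw [div_of_mem hn]

theorem sum_Ev (f : ℕ → ℝ) (w c : ℕ) (hw : 1 ≤ w) :
    ∑ n ∈ Ico (w * c) (w * c + w), Ev f w n = ∑ n ∈ Ico (w * c) (w * c + w), f n := by
  rw [sum_congr rfl fun n hn => Ev_mem f hn, sum_const, Nat.card_Ico]
  have : (w : ℝ) ≠ 0 := by positivity
  rw [nsmul_eq_mul, Nat.add_sub_cancel_left]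
  field_simp

theorem sum_Ico_two (F : ℕ → ℝ) (w c : ℕ) :
    ∑ n ∈ Ico (2 * w * c) (2 * w * c + 2 * w), F n =
      ∑ n ∈ Ico (w * (2 * c)) (w * (2 * c) + w), F n +
      ∑ n ∈ Ico (w * (2 * c + 1)) (w * (2 * c + 1) + w), F n := by
  have e1 : 2 * w * c = w * (2 * c) := by ring
  have e2 : w * (2 * c + 1) = w * (2 * c) + w := by ring
  have e3 : 2 * w * c + 2 * w = w * (2 * c) + w + w := by ring
  rw [e3, e1, e2]
  rw [sum_Ico_consecutive _ (by omega) (by omega)]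

theorem sum_Ev_two (f : ℕ → ℝ) (w c : ℕ) (hw : 1 ≤ w) :
    ∑ n ∈ Ico (2 * w * c) (2 * w * c + 2 * w), Ev f w n =
      ∑ n ∈ Ico (2 * w * c) (2 * w * c + 2 * w), f n := by
  rw [sum_Ico_two, sum_Ico_two, sum_Ev f w _ hw, sum_Ev f w _ hw]

theorem pyth (f : ℕ → ℝ) (w C : ℕ) (hw : 1 ≤ w) :
    nsq (Ev f w) (2 * w * C) = nsq (Ev f (2 * w)) (2 * w * C) +
      nsq (fun n => Ev f w n - Ev f (2 * w) n) (2 * w * C) := by
  unfold nsq
  rw [← sum_add_distrib, B5_sum_cells _ (2 * w) C, B5_sum_cells _ (2 * w) C]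
  apply sum_congr rfl
  intro c _
  set S := ∑ i ∈ Ico (2 * w * c) (2 * w * c + 2 * w), f i with hS
  have h1 : ∀ n ∈ Ico (2 * w * c) (2 * w * c + 2 * w), Ev f (2 * w) n = S / (2 * w : ℕ) :=
    fun n hn => Ev_mem f hn
  have h2 : ∑ n ∈ Ico (2 * w * c) (2 * w * c + 2 * w), (Ev f w n - Ev f (2 * w) n) = 0 := by
    rw [sum_sub_distrib, sum_Ev_two f w c hw, sum_Ev f (2 * w) c (by omega)]
    ring
  have h3 : ∑ n ∈ Ico (2 * w * c) (2 * w * c + 2 * w), (Ev f w n) ^ 2 =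
      ∑ n ∈ Ico (2 * w * c) (2 * w * c + 2 * w), ((Ev f (2 * w) n) ^ 2 +
        (Ev f w n - Ev f (2 * w) n) ^ 2) +
      2 * (S / (2 * w : ℕ)) * ∑ n ∈ Ico (2 * w * c) (2 * w * c + 2 * w),
        (Ev f w n - Ev f (2 * w) n) := by
    rw [mul_sum, ← sum_add_distrib]
    apply sum_congr rfl
    intro n hn
    rw [h1 n hn]
    ring
  rw [h3, h2]
  ring

/-- the martingale differences -/
noncomputable def DD (f : ℕ → ℝ) (h : ℕ) : ℕ → ℕ → ℝ
  | 0, n => f n - Ev f (2 ^ 0 * h) n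
  | k + 1, n => Ev f (2 ^ k * h) n - Ev f (2 ^ (k + 1) * h) n

theorem DD_tele (f : ℕ → ℝ) (h m n : ℕ) :
    ∑ k ∈ range (m + 1), DD f h k n = f n - Ev f (2 ^ m * h) n := by
  induction m with
  | zero => simp [DD]
  | succ m ih =>
    rw [sum_range_succ, ih]
    simp only [DD]
    ring

theorem DD_tail (f : ℕ → ℝ) (h j K n : ℕ) (hjK : j ≤ K) :
    ∑ k ∈ range (K + 1), (if j < k then DD f h k n else 0) =
      Ev f (2 ^ j * h) n - Ev f (2 ^ K * h) n := by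
  have h1 : ∑ k ∈ range (K + 1), (if j < k then DD f h k n else 0) +
      ∑ k ∈ range (j + 1), DD f h k n = ∑ k ∈ range (K + 1), DD f h k n := by
    have h2 : ∑ k ∈ range (j + 1), DD f h k n =
        ∑ k ∈ range (K + 1), (if j < k then 0 else DD f h k n) := by
      have h3 : range (j + 1) = (range (K + 1)).filter (fun k => ¬ j < k) := by
        ext k
        simp only [mem_range, mem_filter]
        omega
      rw [h3, sum_filter]
      apply sum_congr rfl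
      intro k _
      split_ifs <;> simp_all
    rw [h2, ← sum_add_distrib]
    apply sum_congr rfl
    intro k _
    split_ifs <;> simp
  rw [DD_tele, DD_tele] at h1
  linarith

theorem Ev_vanish (f : ℕ → ℝ) (w C : ℕ) (hw : 1 ≤ w) (hs : ∀ n, w * C ≤ n → f n = 0) (n : ℕ)
    (hn : w * C ≤ n) : Ev f w n = 0 := by
  unfold Ev
  rw [sum_eq_zero, zero_div]
  intro i hi
  rw [mem_Ico] at hi
  apply hs
  refine le_trans ?_ hi.1
  apply Nat.mul_le_mul_left
  rw [Nat.le_div_iff_mul_le (by omega), mul_comm]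
  exact hn

theorem Ev_cell (f : ℕ → ℝ) (w : ℕ) (hw : 1 ≤ w) (n : ℕ) : Ev f w n = Ev f w (w * (n / w)) := by
  unfold Ev
  rw [Nat.mul_div_cancel_left _ (by omega)]

theorem two_cell (w n : ℕ) (hw : 1 ≤ w) : (w * (n / w)) / (2 * w) = n / (2 * w) := by
  rw [mul_comm 2 w, ← Nat.div_div_eq_div_mul, ← Nat.div_div_eq_div_mul,
    Nat.mul_div_cancel_left _ (by omega)]

/-- properties of the differences -/
theorem DD_vanish (f : ℕ → ℝ) (h K : ℕ) (hh : 1 ≤ h) (hs : ∀ n, 2 ^ K * h ≤ n → f n = 0)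
    (k : ℕ) (hk : k ≤ K) (n : ℕ) (hn : 2 ^ K * h ≤ n) : DD f h k n = 0 := by
  have hE : ∀ i ≤ K, Ev f (2 ^ i * h) n = 0 := by
    intro i hi
    have e : 2 ^ K * h = 2 ^ i * h * 2 ^ (K - i) := by
      rw [mul_right_comm, ← pow_add, Nat.add_sub_cancel' hi]
    exact Ev_vanish f (2 ^ i * h) (2 ^ (K - i)) (Nat.mul_pos (by positivity) hh)
      (by rw [← e]; exact hs) n (by rw [← e]; exact hn)
  cases k with
  | zero => simp only [DD]; rw [hE 0 (by omega), hs n hn]; ring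
  | succ k => simp only [DD]; rw [hE k (by omega), hE (k + 1) hk]; ring

theorem DD_mean (f : ℕ → ℝ) (h : ℕ) (hh : 1 ≤ h) (k c : ℕ) :
    ∑ n ∈ Ico (2 ^ k * h * c) (2 ^ k * h * c + 2 ^ k * h), DD f h k n = 0 := by
  cases k with
  | zero =>
    simp only [DD]
    rw [sum_sub_distrib, sum_Ev f (2 ^ 0 * h) c (Nat.mul_pos (by positivity) hh)]
    ring
  | succ k =>
    simp only [DD]
    have e : 2 ^ (k + 1) * h = 2 * (2 ^ k * h) := by ring
    have hw : 1 ≤ 2 ^ k * h := Nat.mul_pos (by positivity) hh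
    rw [e, sum_sub_distrib, sum_Ev_two f _ c hw, sum_Ev f (2 * (2 ^ k * h)) c (by omega)]
    ring

theorem DD_const (f : ℕ → ℝ) (h : ℕ) (hh : 1 ≤ h) (k n : ℕ) :
    DD f h (k + 1) n = DD f h (k + 1) (2 ^ k * h * (n / (2 ^ k * h))) := by
  have hw : 1 ≤ 2 ^ k * h := Nat.mul_pos (by positivity) hh
  have e : 2 ^ (k + 1) * h = 2 * (2 ^ k * h) := by ring
  simp only [DD]
  rw [← Ev_cell f _ hw n, e]
  congr 1
  unfold Ev
  rw [two_cell _ _ hw]

theorem nsq_nonneg (g : ℕ → ℝ) (W : ℕ) : 0 ≤ nsq g W := sum_nonneg fun _ _ => sq_nonneg _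

theorem nsq_sum (f : ℕ → ℝ) (h K : ℕ) (hh : 1 ≤ h) (m : ℕ) (hm : m ≤ K) :
    ∑ k ∈ range m, nsq (DD f h (k + 1)) (2 ^ K * h) + nsq (Ev f (2 ^ m * h)) (2 ^ K * h) =
      nsq (Ev f h) (2 ^ K * h) := by
  induction m with
  | zero => simp
  | succ m ih =>
    rw [← ih (by omega), sum_range_succ]
    have e : 2 ^ (m + 1) * h = 2 * (2 ^ m * h) := by ring
    have e2 : 2 ^ K * h = 2 * (2 ^ m * h) * 2 ^ (K - (m + 1)) := by
      have : 2 ^ K = 2 ^ (m + 1) * 2 ^ (K - (m + 1)) := by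
        rw [← pow_add, Nat.add_sub_cancel' hm]
      rw [this]
      ring
    have hp := pyth f (2 ^ m * h) (2 ^ (K - (m + 1))) (Nat.mul_pos (by positivity) hh)
    rw [← e2, ← e] at hp
    rw [hp]
    have : nsq (DD f h (m + 1)) (2 ^ K * h) =
        nsq (fun n => Ev f (2 ^ m * h) n - Ev f (2 ^ (m + 1) * h) n) (2 ^ K * h) := by
      unfold nsq
      apply sum_congr rfl
      intro n _
      simp only [DD]
    rw [this]
    ring

/-- the norms used -/
noncomputable def NN (f : ℕ → ℝ) (h K : ℕ) : ℕ → ℝ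
  | 0 => nsq (Ev f h) (2 ^ K * h)
  | k + 1 => nsq (DD f h (k + 1)) (2 ^ K * h)

theorem NN_nonneg (f : ℕ → ℝ) (h K k : ℕ) : 0 ≤ NN f h K k := by
  cases k with
  | zero => exact nsq_nonneg _ _
  | succ k => exact nsq_nonneg _ _

theorem NN_sum (f : ℕ → ℝ) (h K : ℕ) (hh : 1 ≤ h) :
    ∑ k ∈ range (K + 1), NN f h K k ≤ 2 * nsq (Ev f h) (2 ^ K * h) := by
  rw [sum_range_succ']
  simp only [NN]
  have h1 := nsq_sum f h K hh K le_rfl
  have h2 := nsq_nonneg (Ev f (2 ^ K * h)) (2 ^ K * h)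
  linarith

/-- the finest scale -/
theorem mass_zero (f : ℕ → ℝ) (h K : ℕ) (hh : 1 ≤ h) (hf : ∀ n, 0 ≤ f n) :
    ∑ n ∈ range (2 ^ K * h), |DD f h 0 n| * mass (DD f h 0) h n ≤
      4 * h * nsq (Ev f h) (2 ^ K * h) := by
  have hh0 : (0 : ℝ) < h := by exact_mod_cast hh
  unfold nsq
  rw [mul_comm (2 ^ K) h, B5_sum_cells _ h (2 ^ K), B5_sum_cells _ h (2 ^ K), mul_sum]
  apply sum_le_sum
  intro c _
  set S := ∑ i ∈ Ico (h * c) (h * c + h), f i with hS
  have hS0 : 0 ≤ S := sum_nonneg fun i _ => hf i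
  set A := ∑ i ∈ Ico (h * c) (h * c + h), |DD f h 0 i| with hA
  have hA0 : 0 ≤ A := sum_nonneg fun i _ => abs_nonneg _
  have h1 : ∑ n ∈ Ico (h * c) (h * c + h), |DD f h 0 n| * mass (DD f h 0) h n = A ^ 2 := by
    have h2 : ∀ n ∈ Ico (h * c) (h * c + h), |DD f h 0 n| * mass (DD f h 0) h n =
        |DD f h 0 n| * A := by
      intro n hn
      unfold mass
      rw [div_of_mem hn]
    rw [sum_congr rfl h2, ← sum_mul, ← hA, sq]
  have h3 : ∑ n ∈ Ico (h * c) (h * c + h), (Ev f h n) ^ 2 = S ^ 2 / h := by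
    rw [sum_congr rfl fun n hn => by rw [Ev_mem f hn], sum_const, Nat.card_Ico,
      Nat.add_sub_cancel_left, nsmul_eq_mul, ← hS]
    field_simp
  have h4 : A ≤ 2 * S := by
    calc A ≤ ∑ i ∈ Ico (h * c) (h * c + h), (f i + Ev f h i) := by
          apply sum_le_sum
          intro i hi
          simp only [DD, pow_zero, one_mul]
          have h5 : 0 ≤ Ev f h i := by
            rw [Ev_mem f hi]
            positivity
          have h6 := hf i
          rw [abs_le]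
          constructor <;> linarith
      _ = 2 * S := by
          rw [sum_add_distrib, sum_Ev f h c hh]
          ring
  rw [h1, h3]
  calc A ^ 2 ≤ (2 * S) ^ 2 := by gcongr
    _ = 4 * h * (S ^ 2 / h) := by
        field_simp
        ring

theorem pow_half_le (j k : ℕ) (h : ℕ) (hh : 1 ≤ h) (hkj : k ≤ j) :
    ((2 ^ k * h : ℕ) : ℝ) / ((2 ^ j * h : ℕ) : ℝ) = (1 / 2 : ℝ) ^ (dst j k) := by
  have hd : dst j k = j - k := by
    unfold dst
    omega
  have hh0 : (0 : ℝ) < h := by exact_mod_cast hh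
  have e : (2 : ℝ) ^ j = 2 ^ k * 2 ^ (j - k) := by
    rw [← pow_add, Nat.add_sub_cancel' hkj]
  rw [hd]
  push_cast
  rw [e, one_div, inv_pow]
  field_simp

/-- The one-scale bound, abstract form: `G k` is the quantity at scale `k`. -/
theorem one_scale (f : ℕ → ℝ) (h K j : ℕ) (hh : 1 ≤ h) (hf : ∀ n, 0 ≤ f n)
    (G : ℕ → ℝ)
    (hfine : ∀ k ≤ j, G k ≤ 100 / ((2 ^ j * h : ℕ) : ℝ) *
      ∑ n ∈ range (2 ^ K * h), |DD f h k n| * mass (DD f h k) (2 ^ k * h) n)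
    (htriv : j + 1 ≤ K → G (j + 1) ≤ 16 * nsq (DD f h (j + 1)) (2 ^ K * h))
    (hcoarse : ∀ k, j + 1 ≤ k → k < K → G (k + 1) ≤
      8 * ((2 ^ j * h : ℕ) : ℝ) / ((2 ^ k * h : ℕ) : ℝ) * nsq (DD f h (k + 1)) (2 ^ K * h))
    (k : ℕ) (hk : k ≤ K) (hjK : j + 2 ≤ K) :
    G k ≤ 400 * (1 / 2 : ℝ) ^ (dst j k) * NN f h K k := by
  have hh0 : (0 : ℝ) < h := by exact_mod_cast hh
  rcases Nat.lt_or_ge j k with hjk | hkj
  · obtain ⟨k, rfl⟩ : ∃ k', k = k' + 1 := ⟨k - 1, by omega⟩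
    have hNN : NN f h K (k + 1) = nsq (DD f h (k + 1)) (2 ^ K * h) := rfl
    have hn0 := nsq_nonneg (DD f h (k + 1)) (2 ^ K * h)
    rw [hNN]
    rcases Nat.eq_or_lt_of_le (Nat.lt_succ_iff.mp hjk) with hjk' | hjk'
    · subst hjk'
      refine (htriv (by omega)).trans ?_
      have hd : dst j (j + 1) = 1 := by
        unfold dst
        omega
      rw [hd]
      nlinarith
    · refine (hcoarse k hjk' (by omega)).trans ?_
      apply mul_le_mul_of_nonneg_right _ hn0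
      have h1 := pow_half_le k j h hh (by omega)
      rw [mul_div_assoc, h1]
      have hd : dst k j + 1 = dst j (k + 1) := by
        unfold dst
        omega
      rw [← hd, pow_succ]
      have : (0 : ℝ) < (1 / 2) ^ dst k j := by positivity
      linarith
  · refine (hfine k hkj).trans ?_
    have hj0 : (0 : ℝ) < ((2 ^ j * h : ℕ) : ℝ) := by
      have : 0 < 2 ^ j * h := Nat.mul_pos (by positivity) hh
      exact_mod_cast this
    cases k with
    | zero =>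
      have h1 := mass_zero f h K hh hf
      have h2 := pow_half_le j 0 h hh (by omega)
      rw [← h2]
      simp only [NN, pow_zero, one_mul]
      calc 100 / ((2 ^ j * h : ℕ) : ℝ) *
          ∑ n ∈ range (2 ^ K * h), |DD f h 0 n| * mass (DD f h 0) h n
          ≤ 100 / ((2 ^ j * h : ℕ) : ℝ) * (4 * h * nsq (Ev f h) (2 ^ K * h)) := by
            apply mul_le_mul_of_nonneg_left h1
            positivity
        _ = 400 * ((h : ℝ) / ((2 ^ j * h : ℕ) : ℝ)) * nsq (Ev f h) (2 ^ K * h) := by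
            ring
    | succ k =>
      have hNN : NN f h K (k + 1) = nsq (DD f h (k + 1)) (2 ^ K * h) := rfl
      have hn0 := nsq_nonneg (DD f h (k + 1)) (2 ^ K * h)
      have hK : 2 ^ K * h = 2 ^ (k + 1) * h * 2 ^ (K - (k + 1)) := by
        have : 2 ^ K = 2 ^ (k + 1) * 2 ^ (K - (k + 1)) := by
          rw [← pow_add, Nat.add_sub_cancel' hk]
        rw [this]
        ring
      have h1 := mass_sum (DD f h (k + 1)) (2 ^ (k + 1) * h) (2 ^ (K - (k + 1)))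
        (Nat.mul_pos (by positivity) hh)
      rw [← hK] at h1
      have h2 := pow_half_le j (k + 1) h hh hkj
      rw [← h2, hNN]
      calc 100 / ((2 ^ j * h : ℕ) : ℝ) * ∑ n ∈ range (2 ^ K * h),
            |DD f h (k + 1) n| * mass (DD f h (k + 1)) (2 ^ (k + 1) * h) n
          ≤ 100 / ((2 ^ j * h : ℕ) : ℝ) * (((2 ^ (k + 1) * h : ℕ) : ℝ) *
            nsq (DD f h (k + 1)) (2 ^ K * h)) := by
            apply mul_le_mul_of_nonneg_left h1
            positivity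
        _ = 100 * (((2 ^ (k + 1) * h : ℕ) : ℝ) / ((2 ^ j * h : ℕ) : ℝ)) *
            nsq (DD f h (k + 1)) (2 ^ K * h) := by ring
        _ ≤ 400 * (((2 ^ (k + 1) * h : ℕ) : ℝ) / ((2 ^ j * h : ℕ) : ℝ)) *
            nsq (DD f h (k + 1)) (2 ^ K * h) := by
            apply mul_le_mul_of_nonneg_right _ hn0
            apply mul_le_mul_of_nonneg_right (by norm_num)
            positivity

/-- decomposition of the averages -/
theorem Av_decomp (f : ℕ → ℝ) (h K x y : ℕ) (hy : 1 ≤ y) (hxy : x + y < 2 ^ K * h) :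
    Av f x y = ∑ k ∈ range (K + 1), Av (DD f h k) x y + Ev f (2 ^ K * h) x := by
  have hy0 : (y : ℝ) ≠ 0 := by positivity
  have h1 : ∀ n ∈ Ioc x (x + y), f n = ∑ k ∈ range (K + 1), DD f h k n + Ev f (2 ^ K * h) x := by
    intro n hn
    rw [mem_Ioc] at hn
    rw [DD_tele]
    have h2 : Ev f (2 ^ K * h) n = Ev f (2 ^ K * h) x := by
      unfold Ev
      rw [Nat.div_eq_of_lt (by omega : n < 2 ^ K * h), Nat.div_eq_of_lt (by omega : x < 2 ^ K * h)]
    rw [h2]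
    ring
  unfold Av
  rw [sum_congr rfl h1, sum_add_distrib, sum_comm, sum_const, Nat.card_Ioc,
    Nat.add_sub_cancel_left, nsmul_eq_mul, add_div, sum_div]
  congr 1
  field_simp

theorem squareV : ∃ C : ℝ, 0 < C ∧ ∀ (f : ℕ → ℝ) (h K : ℕ), 1 ≤ h → (∀ n, 0 ≤ f n) →
    (∀ n, 2 ^ K * h ≤ n → f n = 0) → ∀ P : ℕ → ℕ → Finset (ℕ × ℕ),
    (∀ x j, Fam (2 ^ j * h) (P x j)) →
    ∑ j ∈ range (K - 1), ∑ x ∈ range (2 ^ (K - 1) * h), Vs f x (P x j)
      ≤ C * nsq (Ev f h) (2 ^ K * h) := by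
  refine ⟨38400, by norm_num, ?_⟩
  intro f h K hh hf hs P hP
  have hVs0 : ∀ (g : ℕ → ℝ) x Q, 0 ≤ Vs g x Q := fun g x Q => sum_nonneg fun _ _ => sq_nonneg _
  have hcomb := combine K (NN f h K)
    (fun j => ∑ x ∈ range (2 ^ (K - 1) * h), Vs f x (P x j))
    (fun j k => ∑ x ∈ range (2 ^ K * h), Vs (DD f h k) x (P x j))
    (NN_nonneg f h K) ?_ ?_
  · have h1 := NN_sum f h K hh
    linarith
  · intro j hj
    rw [mem_range] at hj
    have hK : 2 ^ K = 2 * 2 ^ (K - 1) := by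
      rw [← pow_succ']
      congr 1
      omega
    have hj2 : 2 ^ (j + 1) ≤ 2 ^ (K - 1) := Nat.pow_le_pow_right (by norm_num) (by omega)
    have hstep : ∀ x ∈ range (2 ^ (K - 1) * h), Vs f x (P x j) ≤
        8 * ∑ k ∈ range (K + 1), (4 / 3 : ℝ) ^ (dst j k) * Vs (DD f h k) x (P x j) := by
      intro x hx
      rw [mem_range] at hx
      unfold Vs
      have h2 : ∀ z ∈ P x j, (Av f x z.1 - Av f x z.2) ^ 2 ≤
          8 * ∑ k ∈ range (K + 1), (4 / 3 : ℝ) ^ (dst j k) *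
            (Av (DD f h k) x z.1 - Av (DD f h k) x z.2) ^ 2 := by
        intro z hz
        obtain ⟨z1, z2, z3⟩ := (hP x j).2 z hz
        have hpos : 1 ≤ 2 ^ j * h := Nat.mul_pos (by positivity) hh
        have hle : 2 * (2 ^ j * h) ≤ 2 ^ (K - 1) * h := by
          calc 2 * (2 ^ j * h) = 2 ^ (j + 1) * h := by ring
            _ ≤ 2 ^ (K - 1) * h := Nat.mul_le_mul_right _ hj2
        have hKh : 2 ^ K * h = 2 ^ (K - 1) * h + 2 ^ (K - 1) * h := by
          rw [hK]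
          ring
        rw [Av_decomp f h K x z.1 (by omega) (by omega),
          Av_decomp f h K x z.2 (by omega) (by omega), add_sub_add_right_eq_sub,
          ← sum_sub_distrib]
        exact wcs j (K + 1) _
      refine (sum_le_sum h2).trans (le_of_eq ?_)
      rw [← mul_sum, sum_comm]
      congr 1
      apply sum_congr rfl
      intro k _
      rw [mul_sum]
    refine (sum_le_sum hstep).trans ?_
    rw [← mul_sum, sum_comm]
    apply mul_le_mul_of_nonneg_left _ (by norm_num)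
    apply sum_le_sum
    intro k _
    rw [← mul_sum]
    apply mul_le_mul_of_nonneg_left _ (by positivity)
    apply sum_le_sum_of_subset_of_nonneg
    · intro x hx
      rw [mem_range] at hx ⊢
      refine lt_of_lt_of_le hx (Nat.mul_le_mul_right _ ?_)
      exact Nat.pow_le_pow_right (by norm_num) (by omega)
    · intro x _ _
      exact hVs0 _ _ _
  · intro j hj k hk
    rw [mem_range] at hj hk
    have hpos : ∀ i, 1 ≤ 2 ^ i * h := fun i => Nat.mul_pos (by positivity) hh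
    refine one_scale f h K j hh hf (fun k => ∑ x ∈ range (2 ^ K * h), Vs (DD f h k) x (P x j))
      ?_ ?_ ?_ k (by omega) (by omega)
    · intro k hkj
      exact fineV (DD f h k) (2 ^ k * h) (2 ^ j * h) (2 ^ K * h) (hpos k)
        (Nat.mul_le_mul_right _ (Nat.pow_le_pow_right (by norm_num) hkj))
        (fun n hn => DD_vanish f h K hh hs k (by omega) n hn) (DD_mean f h hh k)
        (fun x => P x j) (fun x => hP x j)
    · intro hjK
      exact trivV (DD f h (j + 1)) (2 ^ j * h) (2 ^ K * h) (hpos j)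
        (fun n hn => DD_vanish f h K hh hs (j + 1) hjK n hn) (fun x => P x j) (fun x => hP x j)
    · intro k hjk hkK
      have hKe : 2 ^ K * h = 2 ^ k * h * 2 ^ (K - k) := by
        have : 2 ^ K = 2 ^ k * 2 ^ (K - k) := by
          rw [← pow_add, Nat.add_sub_cancel' hkK.le]
        rw [this]
        ring
      have hle : 2 * (2 ^ j * h) ≤ 2 ^ k * h := by
        calc 2 * (2 ^ j * h) = 2 ^ (j + 1) * h := by ring
          _ ≤ 2 ^ k * h := Nat.mul_le_mul_right _ (Nat.pow_le_pow_right (by norm_num) hjk)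
      have hcv := coarseV (DD f h (k + 1)) (2 ^ k * h) (2 ^ j * h) (2 ^ (K - k)) (hpos j) hle
        (by rw [← hKe]; exact fun n hn => DD_vanish f h K hh hs (k + 1) hkK n hn)
        (DD_const f h hh k) (fun x => P x j) (fun x => hP x j)
      rw [← hKe] at hcv
      exact hcv

theorem squareC : ∃ C : ℝ, 0 < C ∧ ∀ (f : ℕ → ℝ) (h K : ℕ), 1 ≤ h → (∀ n, 0 ≤ f n) →
    (∀ n, 2 ^ K * h ≤ n → f n = 0) → ∀ y : ℕ → ℕ → ℕ,
    (∀ x j, 2 ^ j * h ≤ y x j ∧ y x j ≤ 2 * (2 ^ j * h)) →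
    ∑ j ∈ range (K - 1), ∑ x ∈ range (2 ^ (K - 1) * h), (Av f x (y x j) - Ev f (2 ^ j * h) x) ^ 2
      ≤ C * nsq (Ev f h) (2 ^ K * h) := by
  refine ⟨38400, by norm_num, ?_⟩
  intro f h K hh hf hs y hy
  have hcomb := combine K (NN f h K)
    (fun j => ∑ x ∈ range (2 ^ (K - 1) * h), (Av f x (y x j) - Ev f (2 ^ j * h) x) ^ 2)
    (fun j k => ∑ x ∈ range (2 ^ K * h),
      (Av (DD f h k) x (y x j) - (if j < k then DD f h k x else 0)) ^ 2)
    (NN_nonneg f h K) ?_ ?_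
  · have h1 := NN_sum f h K hh
    linarith
  · intro j hj
    rw [mem_range] at hj
    have hK : 2 ^ K = 2 * 2 ^ (K - 1) := by
      rw [← pow_succ']
      congr 1
      omega
    have hj2 : 2 ^ (j + 1) ≤ 2 ^ (K - 1) := Nat.pow_le_pow_right (by norm_num) (by omega)
    have hstep : ∀ x ∈ range (2 ^ (K - 1) * h), (Av f x (y x j) - Ev f (2 ^ j * h) x) ^ 2 ≤
        8 * ∑ k ∈ range (K + 1), (4 / 3 : ℝ) ^ (dst j k) *
          (Av (DD f h k) x (y x j) - (if j < k then DD f h k x else 0)) ^ 2 := by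
      intro x hx
      rw [mem_range] at hx
      obtain ⟨y1, y2⟩ := hy x j
      have hpos : 1 ≤ 2 ^ j * h := Nat.mul_pos (by positivity) hh
      have hle : 2 * (2 ^ j * h) ≤ 2 ^ (K - 1) * h := by
        calc 2 * (2 ^ j * h) = 2 ^ (j + 1) * h := by ring
          _ ≤ 2 ^ (K - 1) * h := Nat.mul_le_mul_right _ hj2
      have hKh : 2 ^ K * h = 2 ^ (K - 1) * h + 2 ^ (K - 1) * h := by
        rw [hK]
        ring
      have e : Av f x (y x j) - Ev f (2 ^ j * h) x =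
          ∑ k ∈ range (K + 1), (Av (DD f h k) x (y x j) - (if j < k then DD f h k x else 0)) := by
        rw [sum_sub_distrib, DD_tail f h j K x (by omega),
          Av_decomp f h K x (y x j) (by omega) (by omega)]
        ring
      rw [e]
      exact wcs j (K + 1) _
    refine (sum_le_sum hstep).trans ?_
    rw [← mul_sum, sum_comm]
    apply mul_le_mul_of_nonneg_left _ (by norm_num)
    apply sum_le_sum
    intro k _
    rw [← mul_sum]
    apply mul_le_mul_of_nonneg_left _ (by positivity)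
    apply sum_le_sum_of_subset_of_nonneg
    · intro x hx
      rw [mem_range] at hx ⊢
      refine lt_of_lt_of_le hx (Nat.mul_le_mul_right _ ?_)
      exact Nat.pow_le_pow_right (by norm_num) (by omega)
    · intro x _ _
      exact sq_nonneg _
  · intro j hj k hk
    rw [mem_range] at hj hk
    have hpos : ∀ i, 1 ≤ 2 ^ i * h := fun i => Nat.mul_pos (by positivity) hh
    refine one_scale f h K j hh hf (fun k => ∑ x ∈ range (2 ^ K * h),
      (Av (DD f h k) x (y x j) - (if j < k then DD f h k x else 0)) ^ 2)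
      ?_ ?_ ?_ k (by omega) (by omega)
    · intro k hkj
      have h1 : ¬ j < k := by omega
      simp only [h1, if_false, sub_zero]
      exact fineC (DD f h k) (2 ^ k * h) (2 ^ j * h) (2 ^ K * h) (hpos k)
        (Nat.mul_le_mul_right _ (Nat.pow_le_pow_right (by norm_num) hkj))
        (fun n hn => DD_vanish f h K hh hs k (by omega) n hn) (DD_mean f h hh k)
        (fun x => y x j) (fun x => hy x j)
    · intro hjK
      have h1 : j < j + 1 := by omega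
      simp only [h1, if_true]
      have h2 := trivC (DD f h (j + 1)) (2 ^ j * h) (2 ^ K * h) (hpos j)
        (fun n hn => DD_vanish f h K hh hs (j + 1) hjK n hn) (fun x => y x j) (fun x => hy x j)
      have h3 : ∑ x ∈ range (2 ^ K * h), (Av (DD f h (j + 1)) x (y x j) - DD f h (j + 1) x) ^ 2 ≤
          2 * ∑ x ∈ range (2 ^ K * h), (Av (DD f h (j + 1)) x (y x j)) ^ 2 +
          2 * nsq (DD f h (j + 1)) (2 ^ K * h) := by
        unfold nsq
        rw [mul_sum, mul_sum, ← sum_add_distrib]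
        apply sum_le_sum
        intro x _
        nlinarith [sq_nonneg (Av (DD f h (j + 1)) x (y x j) + DD f h (j + 1) x)]
      have h4 := nsq_nonneg (DD f h (j + 1)) (2 ^ K * h)
      linarith
    · intro k hjk hkK
      have h1 : j < k + 1 := by omega
      simp only [h1, if_true]
      have hKe : 2 ^ K * h = 2 ^ k * h * 2 ^ (K - k) := by
        have : 2 ^ K = 2 ^ k * 2 ^ (K - k) := by
          rw [← pow_add, Nat.add_sub_cancel' hkK.le]
        rw [this]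
        ring
      have hle : 2 * (2 ^ j * h) ≤ 2 ^ k * h := by
        calc 2 * (2 ^ j * h) = 2 ^ (j + 1) * h := by ring
          _ ≤ 2 ^ k * h := Nat.mul_le_mul_right _ (Nat.pow_le_pow_right (by norm_num) hjk)
      have hcv := coarseC (DD f h (k + 1)) (2 ^ k * h) (2 ^ j * h) (2 ^ (K - k)) (hpos j) hle
        (by rw [← hKe]; exact fun n hn => DD_vanish f h K hh hs (k + 1) hkK n hn)
        (DD_const f h hh k) (fun x => y x j) (fun x => hy x j)
      rw [← hKe] at hcv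
      exact hcv

end MP293bbf
end
end
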