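import Pool.Agent.Lib.MP_293bbf_nt.BDefs
import Pool.Agent.Lib.MP_293bbf_nt.B5
import Pool.Agent.Lib.MP_293bbf_nt.G3
import Pool.Agent.Lib.PNT.Main

section

/-!
B1. Jumps of a dyadic martingale.

`stops_bound` PROOF. Induction on `k`, for all sequences `u` and all `r`, `P`. Claim Q(k): if
`|u k - r| < lam/2` and `P` is a non-overlapping family of pairs `z.1 < z.2 ≤ k` with
`lam < |u z.1 - u z.2|` then `#P ≤ stops (lam/2) u k r`. `k = 0`: `P` is empty.
Step `k → k+1`: at most one `z ∈ P` has `z.2 = k + 1`, all other elements then satisfy `z'.2 ≤ z.1 ≤ k`.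
* stop at `k` (`lam/2 ≤ |u k - r|`): remove the `z` with `z.2 = k+1` (if any) and use Q(k) with
  reference `u k`.
* no stop (`|u k - r| < lam/2`): if no `z.2 = k+1`, use Q(k) for `u, r`. If `z.2 = k+1`: then `z.1 < k`
  (as `u k` and `u (k+1)` are both within `lam/2` of `r`); use Q(k) for the sequence
  `u' = Function.update u k (u (k+1))` (`stops` at level `k` only looks at `u 0, ..., u (k-1)`) and the
  family in which `z` is replaced by `(z.1, k)`.

`mart_jumps` PROOF. Let `w k = 2^k * h`. For every `k ≤ K`, every cell `[w k * c, w k * c + w k)`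
and every real `r`:
`(lam/2)² Σ_{x ∈ cell} stops (lam/2) (fun j => Ev f (w j) x) k r ≤ Σ_{x ∈ cell} (Ev f h x - r)²`
by induction on `k` (`k = 0`: left side `0`). Step: the cell is the union of two cells of level `k`;
on each of them `v = Ev f (w k) x` is constant `=` the average of `Ev f h` there; if
`lam/2 ≤ |v - r|`, the left side is `(lam/2)² (w k + Σ stops k v) ≤ w k (v-r)² + Σ (Ev f h x - v)²`
`= Σ (Ev f h x - r)²`; otherwise use the induction hypothesis for `r`.
Apply it with `k = K`, the cell `[0, 2^K h)`, `r = v_K` = the average (constant value of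
`Ev f (w K) x`), and `stops_bound` with `u j = Ev f (w j) x`; finally `Σ (Ev f h x - r)² ≤ Σ (Ev f h x)²`
since `r` is the average.
-/

open Finset

namespace MP293bbf

theorem B1_stops_congr (c : ℝ) (u v : ℕ → ℝ) (k : ℕ) (h : ∀ j < k, u j = v j) (r : ℝ) :
    stops c u k r = stops c v k r := by
  induction k generalizing r with
  | zero => rfl
  | succ k ih =>
    have h1 : u k = v k := h k (Nat.lt_succ_self k)
    have h2 : ∀ r, stops c u k r = stops c v k r :=
      fun r => ih (fun j hj => h j (Nat.lt_succ_of_lt hj)) r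
    simp only [stops, h1, h2]

theorem stops_bound (lam : ℝ) (hlam : 0 < lam) (k : ℕ) (u : ℕ → ℝ) (r : ℝ)
    (hr : |u k - r| < lam / 2) (P : Finset (ℕ × ℕ)) (hP : Disj P)
    (hz : ∀ z ∈ P, z.1 < z.2 ∧ z.2 ≤ k ∧ lam < |u z.1 - u z.2|) :
    P.card ≤ stops (lam / 2) u k r := by
  classical
  induction k generalizing u r P with
  | zero =>
    have hPe : P = ∅ := by
      apply Finset.eq_empty_of_forall_notMem
      intro z hzP
      obtain ⟨h1, h2, -⟩ := hz z hzP
      omega
    simp [hPe]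
  | succ k ih =>
    by_cases hs : lam / 2 ≤ |u k - r|
    · -- stop at `k`
      have hstop : stops (lam / 2) u (k + 1) r = 1 + stops (lam / 2) u k (u k) := by
        simp only [stops, if_pos hs]
      rw [hstop]
      have h1 : (P.filter (fun z => z.2 ≤ k)).card ≤ stops (lam / 2) u k (u k) := by
        apply ih u (u k)
        · simp only [sub_self, abs_zero]
          positivity
        · intro z hz1 z' hz2 hne
          exact hP z (Finset.mem_filter.1 hz1).1 z' (Finset.mem_filter.1 hz2).1 hne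
        · intro z hz1
          obtain ⟨hzP, hzk⟩ := Finset.mem_filter.1 hz1
          exact ⟨(hz z hzP).1, hzk, (hz z hzP).2.2⟩
      have h2 : (P.filter (fun z => ¬ z.2 ≤ k)).card ≤ 1 := by
        rw [Finset.card_le_one]
        intro z hz1 z' hz2
        obtain ⟨hzP, hzk⟩ := Finset.mem_filter.1 hz1
        obtain ⟨hzP', hzk'⟩ := Finset.mem_filter.1 hz2
        by_contra hne
        obtain ⟨a1, a2, -⟩ := hz z hzP
        obtain ⟨b1, b2, -⟩ := hz z' hzP'
        rcases hP z hzP z' hzP' hne with h | h <;> omega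
      have h3 := Finset.card_filter_add_card_filter_not (s := P) (fun z : ℕ × ℕ => z.2 ≤ k)
      omega
    · have hstop : stops (lam / 2) u (k + 1) r = stops (lam / 2) u k r := by
        simp only [stops, if_neg hs]
      rw [hstop]
      push Not at hs
      by_cases hex : ∃ z ∈ P, z.2 = k + 1
      · obtain ⟨z, hzP, hzk⟩ := hex
        obtain ⟨hz1, -, hz3⟩ := hz z hzP
        have hzlt : z.1 < k := by
          rcases Nat.lt_or_ge z.1 k with h | h
          · exact h
          · exfalso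
            have hzk' : z.1 = k := by omega
            rw [hzk', hzk] at hz3
            have h4 : |u k - u (k + 1)| ≤ |u k - r| + |u (k + 1) - r| := by
              have h5 : u k - u (k + 1) = (u k - r) - (u (k + 1) - r) := by ring
              rw [h5]
              exact abs_sub _ _
            linarith
        have hothers : ∀ z' ∈ P.erase z, z'.2 ≤ z.1 := by
          intro z' hz'
          obtain ⟨hne, hz'P⟩ := Finset.mem_erase.1 hz'
          obtain ⟨b1, b2, -⟩ := hz z' hz'P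
          rcases hP z hzP z' hz'P (Ne.symm hne) with h | h <;> omega
        set u' : ℕ → ℝ := Function.update u k (u (k + 1)) with hu'
        have hlow : ∀ j < k, u' j = u j := by
          intro j hj
          rw [hu', Function.update_of_ne (by omega)]
        have hk' : u' k = u (k + 1) := by rw [hu', Function.update_self]
        have hnot : (z.1, k) ∉ P.erase z := by
          intro hmem
          have := hothers _ hmem
          simp only at this
          omega
        have hcard : (insert (z.1, k) (P.erase z)).card = P.card := by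
          rw [Finset.card_insert_of_notMem hnot, Finset.card_erase_add_one hzP]
        rw [← hcard, ← B1_stops_congr (lam / 2) u' u k hlow r]
        apply ih u' r
        · rw [hk']; exact hr
        · intro a ha b hb hne
          rcases Finset.mem_insert.1 ha with rfl | ha'
          · rcases Finset.mem_insert.1 hb with rfl | hb'
            · exact absurd rfl hne
            · right
              exact hothers b hb'
          · rcases Finset.mem_insert.1 hb with rfl | hb'
            · left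
              exact hothers a ha'
            · exact hP a (Finset.mem_erase.1 ha').2 b (Finset.mem_erase.1 hb').2 hne
        · intro a ha
          rcases Finset.mem_insert.1 ha with rfl | ha'
          · refine ⟨hzlt, le_rfl, ?_⟩
            simp only
            rw [hk', hlow z.1 hzlt, ← hzk]
            exact hz3
          · have hle := hothers a ha'
            obtain ⟨b1, b2, b3⟩ := hz a (Finset.mem_erase.1 ha').2
            refine ⟨b1, by omega, ?_⟩
            rw [hlow a.1 (by omega), hlow a.2 (by omega)]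
            exact b3
      · push Not at hex
        apply ih u r hs P hP
        intro z hzP
        obtain ⟨a1, a2, a3⟩ := hz z hzP
        have := hex z hzP
        exact ⟨a1, by omega, a3⟩

/-- `Ev f w` is constant on the cells of length `w` -/
theorem B1_Ev_cell (f : ℕ → ℝ) (w c x : ℕ) (hx : x ∈ Ico (w * c) (w * c + w)) :
    Ev f w x = (∑ n ∈ Ico (w * c) (w * c + w), f n) / w := by
  rw [Finset.mem_Ico] at hx
  have hc : x / w = c := by
    apply Nat.div_eq_of_lt_le
    · rw [Nat.mul_comm]; exact hx.1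
    · calc x < w * c + w := hx.2
        _ = (c + 1) * w := by ring
  unfold Ev
  rw [hc]

theorem B1_sum_Ev_cell (f : ℕ → ℝ) (h : ℕ) (hh : 1 ≤ h) (k c : ℕ) :
    ∑ x ∈ Ico (2 ^ k * h * c) (2 ^ k * h * c + 2 ^ k * h), Ev f h x
      = ∑ n ∈ Ico (2 ^ k * h * c) (2 ^ k * h * c + 2 ^ k * h), f n := by
  induction k generalizing c with
  | zero =>
    simp only [pow_zero, one_mul]
    rw [Finset.sum_congr rfl (fun x hx => B1_Ev_cell f h c x hx)]
    rw [Finset.sum_const, Nat.card_Ico, nsmul_eq_mul]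
    have hh' : (h : ℝ) ≠ 0 := by
      have : (1 : ℝ) ≤ h := by exact_mod_cast hh
      positivity
    have h1 : h * c + h - h * c = h := by omega
    rw [h1, mul_div_cancel₀ _ hh']
  | succ k ih =>
    have e1 : 2 ^ (k + 1) * h * c = 2 ^ k * h * (2 * c) := by ring
    have e2 : 2 ^ (k + 1) * h * c + 2 ^ (k + 1) * h
        = 2 ^ k * h * (2 * c + 1) + 2 ^ k * h := by ring
    have e3 : 2 ^ k * h * (2 * c) + 2 ^ k * h = 2 ^ k * h * (2 * c + 1) := by ring
    have e4 : 2 ^ k * h * (2 * c) ≤ 2 ^ k * h * (2 * c + 1) := by rw [← e3]; omega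
    have e5 : 2 ^ k * h * (2 * c + 1) ≤ 2 ^ k * h * (2 * c + 1) + 2 ^ k * h := by omega
    rw [e2, e1, ← Finset.sum_Ico_consecutive _ e4 e5, ← Finset.sum_Ico_consecutive _ e4 e5]
    rw [ih (2 * c + 1)]
    have := ih (2 * c)
    rw [e3] at this
    rw [this]

/-- variance decomposition on a cell -/
theorem B1_var_cell (f : ℕ → ℝ) (h : ℕ) (hh : 1 ≤ h) (k c : ℕ) (v r : ℝ)
    (hv : v = (∑ n ∈ Ico (2 ^ k * h * c) (2 ^ k * h * c + 2 ^ k * h), f n)
      / ((2 ^ k * h : ℕ) : ℝ)) :
    ∑ x ∈ Ico (2 ^ k * h * c) (2 ^ k * h * c + 2 ^ k * h), (Ev f h x - r) ^ 2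
      = ((2 ^ k * h : ℕ) : ℝ) * (v - r) ^ 2
        + ∑ x ∈ Ico (2 ^ k * h * c) (2 ^ k * h * c + 2 ^ k * h), (Ev f h x - v) ^ 2 := by
  have hw : ((2 ^ k * h : ℕ) : ℝ) ≠ 0 := by
    have : 2 ^ k * h ≠ 0 := by positivity
    exact_mod_cast this
  have hs := B1_sum_Ev_cell f h hh k c
  have hsv : ∑ x ∈ Ico (2 ^ k * h * c) (2 ^ k * h * c + 2 ^ k * h), Ev f h x
      = ((2 ^ k * h : ℕ) : ℝ) * v := by
    rw [hs, hv]
    field_simp
  have e : ∀ x, (Ev f h x - r) ^ 2 = (Ev f h x - v) ^ 2 + (2 * (v - r)) * Ev f h x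
      + (r ^ 2 - v ^ 2) := by intro x; ring
  rw [Finset.sum_congr rfl (fun x _ => e x), Finset.sum_add_distrib, Finset.sum_add_distrib,
    ← Finset.mul_sum, hsv, Finset.sum_const, Nat.card_Ico, nsmul_eq_mul]
  have h1 : 2 ^ k * h * c + 2 ^ k * h - 2 ^ k * h * c = 2 ^ k * h := by omega
  rw [h1]
  ring

theorem B1_stops_cell (f : ℕ → ℝ) (h : ℕ) (lam : ℝ) (hh : 1 ≤ h) (hlam : 0 < lam) (k c : ℕ) (r : ℝ) :
    (lam / 2) ^ 2 * ∑ x ∈ Ico (2 ^ k * h * c) (2 ^ k * h * c + 2 ^ k * h),
      (stops (lam / 2) (fun j => Ev f (2 ^ j * h) x) k r : ℝ)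
      ≤ ∑ x ∈ Ico (2 ^ k * h * c) (2 ^ k * h * c + 2 ^ k * h), (Ev f h x - r) ^ 2 := by
  induction k generalizing c r with
  | zero =>
    simp only [stops, Nat.cast_zero, Finset.sum_const_zero, mul_zero]
    exact Finset.sum_nonneg (fun x _ => sq_nonneg _)
  | succ k ih =>
    have key : ∀ c', (lam / 2) ^ 2 * ∑ x ∈ Ico (2 ^ k * h * c') (2 ^ k * h * c' + 2 ^ k * h),
        (stops (lam / 2) (fun j => Ev f (2 ^ j * h) x) (k + 1) r : ℝ)
        ≤ ∑ x ∈ Ico (2 ^ k * h * c') (2 ^ k * h * c' + 2 ^ k * h), (Ev f h x - r) ^ 2 := by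
      intro c'
      set v : ℝ := (∑ n ∈ Ico (2 ^ k * h * c') (2 ^ k * h * c' + 2 ^ k * h), f n)
        / ((2 ^ k * h : ℕ) : ℝ) with hv
      by_cases hs : lam / 2 ≤ |v - r|
      · have e : ∀ x ∈ Ico (2 ^ k * h * c') (2 ^ k * h * c' + 2 ^ k * h),
            (stops (lam / 2) (fun j => Ev f (2 ^ j * h) x) (k + 1) r : ℝ)
              = 1 + (stops (lam / 2) (fun j => Ev f (2 ^ j * h) x) k v : ℝ) := by
          intro x hx
          have hEv : Ev f (2 ^ k * h) x = v := B1_Ev_cell f (2 ^ k * h) c' x hx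
          have : stops (lam / 2) (fun j => Ev f (2 ^ j * h) x) (k + 1) r
              = 1 + stops (lam / 2) (fun j => Ev f (2 ^ j * h) x) k v := by
            simp only [stops, hEv, if_pos hs]
          rw [this]
          push_cast
          ring
        rw [Finset.sum_congr rfl e, Finset.sum_add_distrib, Finset.sum_const, Nat.card_Ico,
          nsmul_eq_mul, mul_one, mul_add]
        have h1 : 2 ^ k * h * c' + 2 ^ k * h - 2 ^ k * h * c' = 2 ^ k * h := by omega
        rw [h1, B1_var_cell f h hh k c' v r hv]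
        have h2 := ih c' v
        have h3 : (lam / 2) ^ 2 ≤ (v - r) ^ 2 := by
          rw [← sq_abs (v - r)]
          have : 0 ≤ lam / 2 := by positivity
          gcongr
        have h4 : (lam / 2) ^ 2 * ((2 ^ k * h : ℕ) : ℝ) ≤ ((2 ^ k * h : ℕ) : ℝ) * (v - r) ^ 2 := by
          rw [mul_comm]
          gcongr
        linarith
      · have e : ∀ x ∈ Ico (2 ^ k * h * c') (2 ^ k * h * c' + 2 ^ k * h),
            (stops (lam / 2) (fun j => Ev f (2 ^ j * h) x) (k + 1) r : ℝ)
              = (stops (lam / 2) (fun j => Ev f (2 ^ j * h) x) k r : ℝ) := by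
          intro x hx
          have hEv : Ev f (2 ^ k * h) x = v := B1_Ev_cell f (2 ^ k * h) c' x hx
          have : stops (lam / 2) (fun j => Ev f (2 ^ j * h) x) (k + 1) r
              = stops (lam / 2) (fun j => Ev f (2 ^ j * h) x) k r := by
            simp only [stops, hEv, if_neg hs]
          rw [this]
        rw [Finset.sum_congr rfl e]
        exact ih c' r
    have e1 : 2 ^ (k + 1) * h * c = 2 ^ k * h * (2 * c) := by ring
    have e2 : 2 ^ (k + 1) * h * c + 2 ^ (k + 1) * h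
        = 2 ^ k * h * (2 * c + 1) + 2 ^ k * h := by ring
    have e3 : 2 ^ k * h * (2 * c) + 2 ^ k * h = 2 ^ k * h * (2 * c + 1) := by ring
    have e4 : 2 ^ k * h * (2 * c) ≤ 2 ^ k * h * (2 * c + 1) := by rw [← e3]; omega
    have e5 : 2 ^ k * h * (2 * c + 1) ≤ 2 ^ k * h * (2 * c + 1) + 2 ^ k * h := by omega
    rw [e2, e1, ← Finset.sum_Ico_consecutive _ e4 e5, ← Finset.sum_Ico_consecutive _ e4 e5,
      mul_add]
    have k1 := key (2 * c)
    rw [e3] at k1
    have k2 := key (2 * c + 1)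
    exact add_le_add k1 k2

theorem mart_jumps (f : ℕ → ℝ) (h K : ℕ) (lam : ℝ) (hh : 1 ≤ h) (hlam : 0 < lam)
    (P : ℕ → Finset (ℕ × ℕ)) (hP : ∀ x < 2 ^ K * h, Disj (P x))
    (hz : ∀ x < 2 ^ K * h, ∀ z ∈ P x, z.1 < z.2 ∧ z.2 ≤ K ∧
      lam < |Ev f (2 ^ z.1 * h) x - Ev f (2 ^ z.2 * h) x|) :
    ∑ x ∈ range (2 ^ K * h), ((P x).card : ℝ) ≤ 4 / lam ^ 2 * nsq (Ev f h) (2 ^ K * h) := by
  set v : ℝ := (∑ n ∈ Ico (2 ^ K * h * 0) (2 ^ K * h * 0 + 2 ^ K * h), f n)
    / ((2 ^ K * h : ℕ) : ℝ) with hv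
  have hIco : Ico (2 ^ K * h * 0) (2 ^ K * h * 0 + 2 ^ K * h) = range (2 ^ K * h) := by
    rw [mul_zero, zero_add, Finset.range_eq_Ico]
  have h1 : ∀ x ∈ range (2 ^ K * h), ((P x).card : ℝ)
      ≤ (stops (lam / 2) (fun j => Ev f (2 ^ j * h) x) K v : ℝ) := by
    intro x hx
    have hx' := Finset.mem_range.1 hx
    have hEv : Ev f (2 ^ K * h) x = v := B1_Ev_cell f (2 ^ K * h) 0 x (by rw [hIco]; exact hx)
    have := stops_bound lam hlam K (fun j => Ev f (2 ^ j * h) x) v
      (by simp only [hEv, sub_self, abs_zero]; positivity) (P x) (hP x hx') (hz x hx')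
    exact_mod_cast this
  have h2 := B1_stops_cell f h lam hh hlam K 0 v
  have h3 := B1_var_cell f h hh K 0 v 0 hv
  rw [hIco] at h2 h3
  have h4 : ∑ x ∈ range (2 ^ K * h), ((P x).card : ℝ)
      ≤ ∑ x ∈ range (2 ^ K * h),
        (stops (lam / 2) (fun j => Ev f (2 ^ j * h) x) K v : ℝ) := Finset.sum_le_sum h1
  have h5 : ∑ x ∈ range (2 ^ K * h), (Ev f h x - v) ^ 2 ≤ nsq (Ev f h) (2 ^ K * h) := by
    have h6 : nsq (Ev f h) (2 ^ K * h) = ∑ x ∈ range (2 ^ K * h), (Ev f h x - 0) ^ 2 := by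
      unfold nsq
      simp
    rw [h6, h3]
    have : 0 ≤ ((2 ^ K * h : ℕ) : ℝ) * (v - 0) ^ 2 := by positivity
    linarith
  have h7 : (lam / 2) ^ 2 * ∑ x ∈ range (2 ^ K * h), ((P x).card : ℝ)
      ≤ nsq (Ev f h) (2 ^ K * h) := by
    calc (lam / 2) ^ 2 * ∑ x ∈ range (2 ^ K * h), ((P x).card : ℝ)
        ≤ (lam / 2) ^ 2 * ∑ x ∈ range (2 ^ K * h),
          (stops (lam / 2) (fun j => Ev f (2 ^ j * h) x) K v : ℝ) := by gcongr
      _ ≤ _ := h2
      _ ≤ _ := h5
  have h8 : 4 / lam ^ 2 * nsq (Ev f h) (2 ^ K * h)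
      = nsq (Ev f h) (2 ^ K * h) / (lam / 2) ^ 2 := by
    field_simp
    ring
  rw [h8, le_div_iff₀ (by positivity)]
  linarith

end MP293bbf
end

section

/-!
B6. The jump inequality for the averages `y ↦ Av f x y` (uses `mart_jumps`, `squareV`, `squareC`).

PROOF. For `y ≥ h` let `j(y) = Nat.log 2 (y / h)`, i.e. `2^j h ≤ y < 2^{j+1} h`; for `h ≤ y < 2^(K-1) h`,
`j(y) ≤ K - 2`. For `x < 2^(K-1) h` split the pairs `z = (s, t) ∈ P x`:
(1) `j(s) = j(t) = j`: these form `P1 x j` with `Fam (2^j h)`; their number is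
    `≤ lam⁻² Σ_j Vs f x (P1 x j)`.
Otherwise `j(s) < j(t)`, and one of `|Av s - E_{j(s)}|`, `|Av t - E_{j(t)}|`, `|E_{j(s)} - E_{j(t)}|` is
`> lam/3` (`E_j = Ev f (2^j h) x`).
(2) For every `j` at most one such pair has `j(s) = j` (two such pairs: `t ≤ s'` gives
    `j(s) < j(t) ≤ j(s')`); so the number with `|Av s - E_{j(s)}| > lam/3` is at most
    `(9/lam²) Σ_j (Av f x (y x j) - E_j)²`, `y x j` = that `s` (or `2^j h` if there is none).
(3) same for `t` (two such pairs with `j(t) = j(t')`, `t ≤ s'`: `j(t) ≤ j(s') < j(t')`).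
(4) the pairs `(j(s), j(t))` of the remaining ones are a non-overlapping family (injective image)
    for `mart_jumps` with `lam/3` (apply it with the same `K`; for `x ≥ 2^(K-1) h` take the empty family).
Sum over `x`.
-/

open Finset

namespace MP293bbf

/-- the dyadic scale of `y` relative to `h` -/
def JJ (h y : ℕ) : ℕ := Nat.log 2 (y / h)

theorem JJ_le {h y : ℕ} (hh : 1 ≤ h) (hy : h ≤ y) : 2 ^ (JJ h y) * h ≤ y := by
  have h1 : y / h ≠ 0 := by
    have : 0 < y / h := Nat.div_pos hy hh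
    omega
  have h2 : 2 ^ (JJ h y) ≤ y / h := Nat.pow_log_le_self 2 h1
  calc 2 ^ (JJ h y) * h ≤ y / h * h := Nat.mul_le_mul_right _ h2
    _ ≤ y := Nat.div_mul_le_self y h

theorem lt_JJ {h y : ℕ} (hh : 1 ≤ h) : y < 2 * (2 ^ (JJ h y) * h) := by
  have h1 : y / h < 2 ^ (JJ h y + 1) := Nat.lt_pow_succ_log_self (by norm_num) _
  rw [Nat.div_lt_iff_lt_mul hh] at h1
  calc y < 2 ^ (JJ h y + 1) * h := h1
    _ = 2 * (2 ^ (JJ h y) * h) := by ring

theorem JJ_mono {h y y' : ℕ} (hy : y ≤ y') : JJ h y ≤ JJ h y' :=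
  Nat.log_mono_right (Nat.div_le_div_right hy)

theorem JJ_lt {h y K : ℕ} (hh : 1 ≤ h) (hy : h ≤ y) (hyK : y < 2 ^ K * h) : JJ h y < K := by
  have h1 := JJ_le hh hy
  have h2 : 2 ^ (JJ h y) * h < 2 ^ K * h := lt_of_le_of_lt h1 hyK
  have h3 : 2 ^ (JJ h y) < 2 ^ K := lt_of_mul_lt_mul_right h2 (Nat.zero_le _)
  exact (Nat.pow_lt_pow_iff_right (by norm_num)).mp h3

theorem Disj_subset {P Q : Finset (ℕ × ℕ)} (hP : Disj P) (hQ : Q ⊆ P) : Disj Q :=
  fun z hz z' hz' hne => hP z (hQ hz) z' (hQ hz') hne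

/-- choosing one scale representative -/
theorem pick (S : Finset (ℕ × ℕ)) (pr : ℕ × ℕ → ℕ) (J : ℕ → ℕ)
    (inj : ∀ z ∈ S, ∀ z' ∈ S, J (pr z) = J (pr z') → z = z') (N : ℕ)
    (hN : ∀ z ∈ S, J (pr z) < N) (y0 : ℕ → ℕ) :
    ∃ y : ℕ → ℕ, (∀ j, y j = y0 j ∨ ∃ z ∈ S, J (pr z) = j ∧ y j = pr z) ∧
      ∀ (F : ℕ → ℕ → ℝ) (a : ℝ), (∀ j y, 0 ≤ F j y) → (∀ z ∈ S, a ≤ F (J (pr z)) (pr z)) →
        a * S.card ≤ ∑ j ∈ range N, F j (y j) := by
  classical
  refine ⟨fun j => if hj : ∃ z ∈ S, J (pr z) = j then pr hj.choose else y0 j, ?_, ?_⟩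
  · intro j
    by_cases hj : ∃ z ∈ S, J (pr z) = j
    · right
      refine ⟨hj.choose, hj.choose_spec.1, hj.choose_spec.2, ?_⟩
      simp only [dif_pos hj]
    · left
      simp only [dif_neg hj]
  · intro F a hF ha
    have hy : ∀ z ∈ S, (if hj : ∃ z' ∈ S, J (pr z') = J (pr z) then pr hj.choose
        else y0 (J (pr z))) = pr z := by
      intro z hz
      have hj : ∃ z' ∈ S, J (pr z') = J (pr z) := ⟨z, hz, rfl⟩
      rw [dif_pos hj]
      rw [inj hj.choose hj.choose_spec.1 z hz hj.choose_spec.2]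
    have hsub : S.image (fun z => J (pr z)) ⊆ range N := by
      intro j hj
      rw [mem_image] at hj
      obtain ⟨z, hz, rfl⟩ := hj
      rw [mem_range]
      exact hN z hz
    refine le_trans ?_ (sum_le_sum_of_subset_of_nonneg hsub fun i _ _ => hF _ _)
    rw [sum_image (fun z hz z' hz' e => inj z hz z' hz' e)]
    have h1 : ∑ z ∈ S, F (J (pr z)) (if hj : ∃ z' ∈ S, J (pr z') = J (pr z) then pr hj.choose
        else y0 (J (pr z))) = ∑ z ∈ S, F (J (pr z)) (pr z) := by
      apply sum_congr rfl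
      intro z hz
      rw [hy z hz]
    rw [h1, mul_comm, ← nsmul_eq_mul]
    exact card_nsmul_le_sum S _ a ha

theorem jumps_aux : ∃ C : ℝ, 0 < C ∧ ∀ (f : ℕ → ℝ) (h K : ℕ) (lam : ℝ), 1 ≤ h → 0 < lam →
    (∀ n, 0 ≤ f n) → (∀ n, 2 ^ K * h ≤ n → f n = 0) → ∀ P : ℕ → Finset (ℕ × ℕ),
    (∀ x, Disj (P x) ∧ ∀ z ∈ P x, h ≤ z.1 ∧ z.1 < z.2 ∧ z.2 < 2 ^ (K - 1) * h ∧
      lam < |Av f x z.1 - Av f x z.2|) →
    ∑ x ∈ range (2 ^ (K - 1) * h), ((P x).card : ℝ) ≤ C / lam ^ 2 * nsq (Ev f h) (2 ^ K * h) := by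
  classical
  obtain ⟨CV, hCV, hV⟩ := squareV
  obtain ⟨CC, hCC, hC⟩ := squareC
  refine ⟨CV + 18 * CC + 36, by positivity, ?_⟩
  intro f h K lam hh hlam hf hs P hP
  set A : ℕ → Finset (ℕ × ℕ) := fun x => (P x).filter (fun z => JJ h z.1 = JJ h z.2) with hA
  set B : ℕ → Finset (ℕ × ℕ) := fun x => (P x).filter (fun z => ¬ JJ h z.1 = JJ h z.2) with hB
  have hBlt : ∀ x, ∀ z ∈ B x, JJ h z.1 < JJ h z.2 := by
    intro x z hz
    rw [hB] at hz
    simp only [mem_filter] at hz
    have h1 := JJ_mono (h := h) ((hP x).2 z hz.1).2.1.le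
    omega
  have hBP : ∀ x, B x ⊆ P x := fun x => filter_subset _ _
  -- injectivity
  have inj1 : ∀ x, ∀ z ∈ B x, ∀ z' ∈ B x, JJ h z.1 = JJ h z'.1 → z = z' := by
    intro x z hz z' hz' e
    by_contra hne
    have h1 := hBlt x z hz
    have h2 := hBlt x z' hz'
    rcases (hP x).1 z (hBP x hz) z' (hBP x hz') hne with h3 | h3
    · have := JJ_mono (h := h) h3
      omega
    · have := JJ_mono (h := h) h3
      omega
  have inj2 : ∀ x, ∀ z ∈ B x, ∀ z' ∈ B x, JJ h z.2 = JJ h z'.2 → z = z' := by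
    intro x z hz z' hz' e
    by_contra hne
    have h1 := hBlt x z hz
    have h2 := hBlt x z' hz'
    rcases (hP x).1 z (hBP x hz) z' (hBP x hz') hne with h3 | h3
    · have := JJ_mono (h := h) h3
      omega
    · have := JJ_mono (h := h) h3
      omega
  have hbd1 : ∀ x, ∀ z ∈ P x, JJ h z.1 < K - 1 := by
    intro x z hz
    obtain ⟨h1, h2, h3, _⟩ := (hP x).2 z hz
    exact JJ_lt hh h1 (by omega)
  have hbd2 : ∀ x, ∀ z ∈ P x, JJ h z.2 < K - 1 := by
    intro x z hz
    obtain ⟨h1, h2, h3, _⟩ := (hP x).2 z hz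
    exact JJ_lt hh (by omega) h3
  -- part 1
  have part1 : ∑ x ∈ range (2 ^ (K - 1) * h), ((A x).card : ℝ) ≤
      CV / lam ^ 2 * nsq (Ev f h) (2 ^ K * h) := by
    have hv := hV f h K hh hf hs (fun x j => (A x).filter (fun z => JJ h z.1 = j)) ?_
    · have h1 : ∀ x ∈ range (2 ^ (K - 1) * h), lam ^ 2 * ((A x).card : ℝ) ≤
          ∑ j ∈ range (K - 1), Vs f x ((A x).filter (fun z => JJ h z.1 = j)) := by
        intro x _
        have h2 : ((A x).card : ℝ) =
            ∑ j ∈ range (K - 1), (((A x).filter (fun z => JJ h z.1 = j)).card : ℝ) := by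
          have := card_eq_sum_card_fiberwise (s := A x) (t := range (K - 1))
            (f := fun z => JJ h z.1) (fun z hz => by
              simp only [coe_range, Set.mem_Iio]
              exact hbd1 x z (filter_subset _ _ hz))
          exact_mod_cast this
        rw [h2, mul_sum]
        apply sum_le_sum
        intro j _
        rw [mul_comm, ← nsmul_eq_mul]
        apply card_nsmul_le_sum
        intro z hz
        have h3 := ((hP x).2 z (filter_subset _ _ (filter_subset _ _ hz))).2.2.2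
        rw [← sq_abs (Av f x z.1 - Av f x z.2)]
        exact pow_le_pow_left₀ hlam.le h3.le 2
      have h4 := sum_le_sum h1
      rw [← mul_sum, sum_comm] at h4
      have h5 := h4.trans hv
      have hl2 : 0 < lam ^ 2 := by positivity
      rw [div_mul_eq_mul_div, le_div_iff₀ hl2, mul_comm]
      exact h5
    · intro x j
      refine ⟨Disj_subset (hP x).1 ((filter_subset _ _).trans (filter_subset _ _)), ?_⟩
      intro z hz
      simp only [hA, mem_filter] at hz
      obtain ⟨⟨hz1, hz2⟩, hz3⟩ := hz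
      obtain ⟨h1, h2, h3, _⟩ := (hP x).2 z hz1
      refine ⟨?_, h2, ?_⟩
      · rw [← hz3]
        exact JJ_le hh h1
      · rw [← hz3, hz2]
        exact (lt_JJ hh).le
  -- the three other families
  set B2 : ℕ → Finset (ℕ × ℕ) := fun x => (B x).filter
    (fun z => lam / 3 < |Av f x z.1 - Ev f (2 ^ (JJ h z.1) * h) x|) with hB2
  set B3 : ℕ → Finset (ℕ × ℕ) := fun x => (B x).filter
    (fun z => lam / 3 < |Av f x z.2 - Ev f (2 ^ (JJ h z.2) * h) x|) with hB3
  set B4 : ℕ → Finset (ℕ × ℕ) := fun x => (B x).filter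
    (fun z => lam / 3 < |Ev f (2 ^ (JJ h z.1) * h) x - Ev f (2 ^ (JJ h z.2) * h) x|) with hB4
  have hcardB : ∀ x, ((B x).card : ℝ) ≤ (B2 x).card + (B3 x).card + (B4 x).card := by
    intro x
    have h1 : B x ⊆ B2 x ∪ B3 x ∪ B4 x := by
      intro z hz
      have h2 := ((hP x).2 z (hBP x hz)).2.2.2
      rw [mem_union, mem_union, hB2, hB3, hB4]
      simp only [mem_filter]
      by_contra hcon
      push Not at hcon
      obtain ⟨⟨c1, c2⟩, c3⟩ := hcon
      have c1 := c1 hz
      have c2 := c2 hz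
      have c3 := c3 hz
      have h5 : |Av f x z.1 - Av f x z.2| ≤ lam := by
        have e : Av f x z.1 - Av f x z.2 =
            (Av f x z.1 - Ev f (2 ^ (JJ h z.1) * h) x) +
            (Ev f (2 ^ (JJ h z.1) * h) x - Ev f (2 ^ (JJ h z.2) * h) x) -
            (Av f x z.2 - Ev f (2 ^ (JJ h z.2) * h) x) := by ring
        rw [e]
        rw [abs_le] at c1 c2 c3 ⊢
        constructor <;> linarith [c1.1, c1.2, c2.1, c2.2, c3.1, c3.2]
      linarith
    have h2 := (card_le_card h1).trans (card_union_le _ _)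
    have h3 := card_union_le (B2 x) (B3 x)
    exact_mod_cast h2.trans (Nat.add_le_add_right h3 _)
  have part2 : ∑ x ∈ range (2 ^ (K - 1) * h), ((B2 x).card : ℝ) ≤
      9 * CC / lam ^ 2 * nsq (Ev f h) (2 ^ K * h) := by
    have hpick := fun x => pick (B2 x) Prod.fst (JJ h)
      (fun z hz z' hz' e => inj1 x z (filter_subset _ _ hz) z' (filter_subset _ _ hz') e)
      (K - 1) (fun z hz => hbd1 x z (hBP x (filter_subset _ _ hz))) (fun j => 2 ^ j * h)
    choose y hy1 hy2 using hpick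
    have hc := hC f h K hh hf hs y ?_
    · have h1 : ∀ x ∈ range (2 ^ (K - 1) * h), (lam / 3) ^ 2 * ((B2 x).card : ℝ) ≤
          ∑ j ∈ range (K - 1), (Av f x (y x j) - Ev f (2 ^ j * h) x) ^ 2 := by
        intro x _
        refine hy2 x (fun j y => (Av f x y - Ev f (2 ^ j * h) x) ^ 2) ((lam / 3) ^ 2)
          (fun _ _ => sq_nonneg _) ?_
        intro z hz
        simp only [hB2, mem_filter] at hz
        rw [← sq_abs (Av f x z.1 - Ev f (2 ^ (JJ h z.1) * h) x)]
        exact pow_le_pow_left₀ (by positivity) hz.2.le 2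
      have h4 := sum_le_sum h1
      rw [← mul_sum, sum_comm] at h4
      have h5 := h4.trans hc
      have hl2 : 0 < lam ^ 2 := by positivity
      rw [div_mul_eq_mul_div, le_div_iff₀ hl2]
      nlinarith [h5]
    · intro x j
      rcases hy1 x j with h1 | ⟨z, hz, hz1, hz2⟩
      · rw [h1]
        omega
      · rw [hz2, ← hz1]
        obtain ⟨h1, h2, h3, _⟩ := (hP x).2 z (hBP x (filter_subset _ _ hz))
        exact ⟨JJ_le hh h1, (lt_JJ hh).le⟩
  have part3 : ∑ x ∈ range (2 ^ (K - 1) * h), ((B3 x).card : ℝ) ≤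
      9 * CC / lam ^ 2 * nsq (Ev f h) (2 ^ K * h) := by
    have hpick := fun x => pick (B3 x) Prod.snd (JJ h)
      (fun z hz z' hz' e => inj2 x z (filter_subset _ _ hz) z' (filter_subset _ _ hz') e)
      (K - 1) (fun z hz => hbd2 x z (hBP x (filter_subset _ _ hz))) (fun j => 2 ^ j * h)
    choose y hy1 hy2 using hpick
    have hc := hC f h K hh hf hs y ?_
    · have h1 : ∀ x ∈ range (2 ^ (K - 1) * h), (lam / 3) ^ 2 * ((B3 x).card : ℝ) ≤
          ∑ j ∈ range (K - 1), (Av f x (y x j) - Ev f (2 ^ j * h) x) ^ 2 := by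
        intro x _
        refine hy2 x (fun j y => (Av f x y - Ev f (2 ^ j * h) x) ^ 2) ((lam / 3) ^ 2)
          (fun _ _ => sq_nonneg _) ?_
        intro z hz
        simp only [hB3, mem_filter] at hz
        rw [← sq_abs (Av f x z.2 - Ev f (2 ^ (JJ h z.2) * h) x)]
        exact pow_le_pow_left₀ (by positivity) hz.2.le 2
      have h4 := sum_le_sum h1
      rw [← mul_sum, sum_comm] at h4
      have h5 := h4.trans hc
      have hl2 : 0 < lam ^ 2 := by positivity
      rw [div_mul_eq_mul_div, le_div_iff₀ hl2]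
      nlinarith [h5]
    · intro x j
      rcases hy1 x j with h1 | ⟨z, hz, hz1, hz2⟩
      · rw [h1]
        omega
      · rw [hz2, ← hz1]
        obtain ⟨h1, h2, h3, _⟩ := (hP x).2 z (hBP x (filter_subset _ _ hz))
        exact ⟨JJ_le hh (by omega), (lt_JJ hh).le⟩
  have part4 : ∑ x ∈ range (2 ^ (K - 1) * h), ((B4 x).card : ℝ) ≤
      36 / lam ^ 2 * nsq (Ev f h) (2 ^ K * h) := by
    set Q : ℕ → Finset (ℕ × ℕ) := fun x => (B4 x).image (fun z => (JJ h z.1, JJ h z.2)) with hQ
    have hQcard : ∀ x, (Q x).card = (B4 x).card := by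
      intro x
      rw [hQ]
      apply card_image_of_injOn
      intro z hz z' hz' e
      exact inj1 x z (filter_subset _ _ hz) z' (filter_subset _ _ hz') (Prod.ext_iff.mp e).1
    have hm := mart_jumps f h K (lam / 3) hh (by positivity) Q ?_ ?_
    · have h1 : ∑ x ∈ range (2 ^ (K - 1) * h), ((B4 x).card : ℝ) ≤
          ∑ x ∈ range (2 ^ K * h), ((Q x).card : ℝ) := by
        have h2 : ∑ x ∈ range (2 ^ (K - 1) * h), ((B4 x).card : ℝ) =
            ∑ x ∈ range (2 ^ (K - 1) * h), ((Q x).card : ℝ) := by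
          apply sum_congr rfl
          intro x _
          rw [hQcard]
        rw [h2]
        apply sum_le_sum_of_subset_of_nonneg
        · intro x hx
          rw [mem_range] at hx ⊢
          refine lt_of_lt_of_le hx (Nat.mul_le_mul_right _ ?_)
          exact Nat.pow_le_pow_right (by norm_num) (by omega)
        · intro x _ _
          positivity
      refine (h1.trans hm).trans (le_of_eq ?_)
      congr 1
      field_simp
      ring
    · intro x _ q hq q' hq' hne
      rw [hQ] at hq hq'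
      simp only [mem_image] at hq hq'
      obtain ⟨z, hz, rfl⟩ := hq
      obtain ⟨z', hz', rfl⟩ := hq'
      have hzz : z ≠ z' := by
        rintro rfl
        exact hne rfl
      rcases (hP x).1 z (hBP x (filter_subset _ _ hz)) z' (hBP x (filter_subset _ _ hz')) hzz with
        h3 | h3
      · left
        exact JJ_mono h3
      · right
        exact JJ_mono h3
    · intro x _ q hq
      rw [hQ] at hq
      simp only [mem_image] at hq
      obtain ⟨z, hz, rfl⟩ := hq
      have h1 := hBlt x z (filter_subset _ _ hz)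
      have h2 := hbd2 x z (hBP x (filter_subset _ _ hz))
      simp only [hB4, mem_filter] at hz
      exact ⟨h1, by simp only; omega, hz.2⟩
  have hPcard : ∀ x, ((P x).card : ℝ) = (A x).card + (B x).card := by
    intro x
    have := card_filter_add_card_filter_not (s := P x) (fun z => JJ h z.1 = JJ h z.2)
    exact_mod_cast this.symm
  have hfinal : ∑ x ∈ range (2 ^ (K - 1) * h), ((P x).card : ℝ) ≤
      ∑ x ∈ range (2 ^ (K - 1) * h), ((A x).card : ℝ) +
      (∑ x ∈ range (2 ^ (K - 1) * h), ((B2 x).card : ℝ) +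
      ∑ x ∈ range (2 ^ (K - 1) * h), ((B3 x).card : ℝ) +
      ∑ x ∈ range (2 ^ (K - 1) * h), ((B4 x).card : ℝ)) := by
    rw [← sum_add_distrib, ← sum_add_distrib, ← sum_add_distrib]
    apply sum_le_sum
    intro x _
    rw [hPcard x]
    have := hcardB x
    linarith
  refine hfinal.trans ?_
  have e : (CV + 18 * CC + 36) / lam ^ 2 * nsq (Ev f h) (2 ^ K * h) =
      CV / lam ^ 2 * nsq (Ev f h) (2 ^ K * h) +
      (9 * CC / lam ^ 2 * nsq (Ev f h) (2 ^ K * h) +
      9 * CC / lam ^ 2 * nsq (Ev f h) (2 ^ K * h) +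
      36 / lam ^ 2 * nsq (Ev f h) (2 ^ K * h)) := by
    ring
  rw [e]
  gcongr

theorem jumps_general : ∃ C : ℝ, 0 < C ∧ ∀ (f : ℕ → ℝ) (h K : ℕ) (lam : ℝ), 1 ≤ h → 0 < lam →
    (∀ n, 0 ≤ f n) → (∀ n, 2 ^ K * h ≤ n → f n = 0) → ∀ P : ℕ → Finset (ℕ × ℕ),
    (∀ x < 2 ^ (K - 1) * h, Disj (P x) ∧ ∀ z ∈ P x, h ≤ z.1 ∧ z.1 < z.2 ∧ z.2 < 2 ^ (K - 1) * h ∧
      lam < |Av f x z.1 - Av f x z.2|) →
    ∑ x ∈ range (2 ^ (K - 1) * h), ((P x).card : ℝ) ≤ C / lam ^ 2 * nsq (Ev f h) (2 ^ K * h) := by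
  obtain ⟨C, hC, hmain⟩ := jumps_aux
  refine ⟨C, hC, ?_⟩
  intro f h K lam hh hlam hf hs P hP
  have h1 := hmain f h K lam hh hlam hf hs
    (fun x => if x < 2 ^ (K - 1) * h then P x else ∅) ?_
  · refine le_trans (le_of_eq ?_) h1
    apply sum_congr rfl
    intro x hx
    rw [mem_range] at hx
    simp only [if_pos hx]
  · intro x
    by_cases hx : x < 2 ^ (K - 1) * h
    · simp only [if_pos hx]
      exact hP x hx
    · simp only [if_neg hx]
      refine ⟨?_, ?_⟩
      · intro z hz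
        simp at hz
      · intro z hz
        simp at hz

end MP293bbf
end

section

/-!
B7. Jumps of `y ↦ R(x, y)` for integers `x ∈ (X/2, X]` (uses `jumps_general`, `pair_bound`,
`energy_le`, `Pool.Agent.Lib.PNT.pnt_pi`).

PROOF. `X` large, `L = log X`, `h = ⌊log (X/2)⌋₊` (`≤ log x` for `x > X/2`; `L ≤ 2h`), `K` = least with
`2^(K-1) h > 2X` (so `2^K h ≤ 8X`), `f n = L` if `n` is prime and `n < 2^K h`, else `0`.
For `x ∈ (X/2, X]` and `1 ≤ y ≤ x`: `Av f x y = L (π(x+y) - π(x))/y` and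
`R x y = (log x / L) Av f x y`, `0 < log x ≤ L`, so `lam < |R x s - R x t|` implies
`lam < |Av f x s - Av f x t|`. Put `P' x = P x` for `x ∈ (X/2, X]` and `∅` otherwise. Apply
`jumps_general`. Here `nsq (Ev f h) (2^K h) = (1/h) Σ_{cells of length h} (Σ_cell f)²`
`= (L²/h) Σ_cells n_c² ≤ (L²/h) energy S h`, `S` = primes `< 2^K h`, and
`energy S h ≤ |S| + 2 Σ_{d ≤ h} twin (8X) d ≤ C X / L` (`energy_le`, `pair_bound`, prime number theorem).
-/

open Finset

namespace MP293bbf

/-- squared norm of the cell averages of `L` times an indicator -/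
theorem b7_nsq_le (S : Finset ℕ) (h W : ℕ) (L : ℝ) (hh : 1 ≤ h) :
    nsq (Ev (fun n => if n ∈ S then L else 0) h) W ≤ L ^ 2 / h * (energy S h : ℝ) := by
  have hh0 : 0 < h := hh
  have hhr : (0 : ℝ) < h := by exact_mod_cast hh0
  have hmem : ∀ p n : ℕ, p ∈ Ico (h * (n / h)) (h * (n / h) + h) ↔ p / h = n / h := by
    intro p n
    rw [mem_Ico]
    constructor
    · rintro ⟨h1, h2⟩
      apply le_antisymm
      · have : p / h < n / h + 1 := by
          rw [Nat.div_lt_iff_lt_mul hh0]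
          calc p < h * (n / h) + h := h2
            _ = (n / h + 1) * h := by ring
        omega
      · rw [Nat.le_div_iff_mul_le hh0]
        calc n / h * h = h * (n / h) := by ring
          _ ≤ p := h1
    · intro he
      rw [← he]
      constructor
      · exact Nat.mul_div_le p h
      · have := Nat.lt_mul_div_succ p hh0
        calc p < h * (p / h + 1) := this
          _ = h * (p / h) + h := by ring
  have hcell : ∀ n : ℕ, Ev (fun n => if n ∈ S then L else 0) h n =
      L * ((S.filter (fun p => p / h = n / h)).card : ℝ) / h := by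
    intro n
    unfold Ev
    congr 1
    rw [← Finset.sum_filter, Finset.sum_const, nsmul_eq_mul, mul_comm]
    congr 2
    apply congrArg
    ext p
    simp only [mem_filter]
    rw [hmem]
    exact and_comm
  unfold nsq
  have h1 : ∀ n ∈ range W, (Ev (fun n => if n ∈ S then L else 0) h n) ^ 2 =
      L ^ 2 / (h : ℝ) ^ 2 *
        (((S ×ˢ S).filter (fun z => z.1 / h = n / h ∧ z.2 / h = n / h)).card : ℝ) := by
    intro n _
    rw [hcell n]
    have h2 : (S ×ˢ S).filter (fun z => z.1 / h = n / h ∧ z.2 / h = n / h) =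
        (S.filter (fun p => p / h = n / h)) ×ˢ (S.filter (fun p => p / h = n / h)) := by
      ext z
      simp only [mem_filter, mem_product]
      tauto
    rw [h2, card_product]
    push_cast
    field_simp
  rw [Finset.sum_congr rfl h1, ← Finset.mul_sum]
  have h3 : ∑ n ∈ range W,
      (((S ×ˢ S).filter (fun z => z.1 / h = n / h ∧ z.2 / h = n / h)).card : ℝ) ≤
      h * (energy S h : ℝ) := by
    have h4 : ∀ n ∈ range W,
        (((S ×ˢ S).filter (fun z => z.1 / h = n / h ∧ z.2 / h = n / h)).card : ℝ) =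
        ∑ z ∈ S ×ˢ S, if z.1 / h = n / h ∧ z.2 / h = n / h then (1 : ℝ) else 0 := by
      intro n _
      rw [Finset.card_filter]
      push_cast
      rfl
    rw [Finset.sum_congr rfl h4, Finset.sum_comm]
    unfold energy
    rw [Finset.card_filter]
    push_cast
    rw [Finset.mul_sum]
    refine Finset.sum_le_sum (fun z _ => ?_)
    by_cases hz : z.1 / h = z.2 / h
    · have hz1 : z.1 < z.2 + h ∧ z.2 < z.1 + h := by
        have a1 := Nat.mul_div_le z.1 h
        have a2 := Nat.lt_mul_div_succ z.1 hh0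
        have a3 := Nat.mul_div_le z.2 h
        have a4 := Nat.lt_mul_div_succ z.2 hh0
        rw [hz] at a1 a2
        have a5 : h * (z.2 / h + 1) = h * (z.2 / h) + h := by ring
        rw [a5] at a2 a4
        constructor <;> omega
      rw [if_pos hz1, mul_one]
      have h5 : (∑ n ∈ range W, if z.1 / h = n / h ∧ z.2 / h = n / h then (1 : ℝ) else 0) =
          (((range W).filter (fun n => z.1 / h = n / h ∧ z.2 / h = n / h)).card : ℝ) := by
        rw [Finset.card_filter]
        push_cast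
        rfl
      rw [h5]
      have h6 : (range W).filter (fun n => z.1 / h = n / h ∧ z.2 / h = n / h) ⊆
          Ico (h * (z.1 / h)) (h * (z.1 / h) + h) := by
        intro n hn
        rw [mem_filter] at hn
        rw [hmem]
        exact hn.2.1.symm
      have h7 := card_le_card h6
      rw [Nat.card_Ico] at h7
      have h8 : h * (z.1 / h) + h - h * (z.1 / h) = h := by omega
      rw [h8] at h7
      exact_mod_cast h7
    · have h5 : (∑ n ∈ range W, if z.1 / h = n / h ∧ z.2 / h = n / h then (1 : ℝ) else 0) = 0 := by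
        apply Finset.sum_eq_zero
        intro n _
        rw [if_neg]
        rintro ⟨e1, e2⟩
        exact hz (e1.trans e2.symm)
      rw [h5]
      split_ifs <;> positivity
  calc L ^ 2 / (h : ℝ) ^ 2 * ∑ n ∈ range W,
      (((S ×ˢ S).filter (fun z => z.1 / h = n / h ∧ z.2 / h = n / h)).card : ℝ)
      ≤ L ^ 2 / (h : ℝ) ^ 2 * (h * (energy S h : ℝ)) :=
        mul_le_mul_of_nonneg_left h3 (by positivity)
    _ = L ^ 2 / h * (energy S h : ℝ) := by
        field_simp

theorem b7_count (x y : ℕ) :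
    ((Nat.primeCounting (x + y) : ℝ) - (Nat.primeCounting x : ℝ)) =
      (((Ioc x (x + y)).filter Nat.Prime).card : ℝ) := by
  have h1 : (Nat.primeCounting (x + y)) = Nat.primeCounting x +
      ((Ioc x (x + y)).filter Nat.Prime).card := by
    induction y with
    | zero => simp
    | succ y ih =>
      have e1 : Ioc x (x + (y + 1)) = insert (x + y + 1) (Ioc x (x + y)) := by
        ext n
        simp only [mem_insert, mem_Ioc]
        omega
      have e2 : x + y + 1 ∉ (Ioc x (x + y)).filter Nat.Prime := by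
        simp only [mem_filter, mem_Ioc]
        omega
      rw [e1, filter_insert]
      have e3 : Nat.primeCounting (x + (y + 1)) = Nat.primeCounting (x + y) +
          if (x + y + 1).Prime then 1 else 0 := by
        rw [Nat.primeCounting, Nat.primeCounting, Nat.primeCounting',
          ← add_assoc, Nat.count_succ]
      rw [e3, ih]
      split_ifs with hp
      · rw [card_insert_of_notMem e2]
        ring
      · rfl
  rw [h1]
  push_cast
  ring

theorem b7_R (x y : ℕ) :
    R x y = (((Ioc x (x + y)).filter Nat.Prime).card : ℝ) / y * Real.log x := by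
  unfold R cnt
  have h1 : ⌊(x : ℝ) + (y : ℝ)⌋₊ = x + y := by
    have : ((x : ℝ) + (y : ℝ)) = ((x + y : ℕ) : ℝ) := by push_cast; ring
    rw [this, Nat.floor_natCast]
  rw [h1, Nat.floor_natCast, b7_count, div_div_eq_mul_div]
  ring

theorem b7_Av (W x y : ℕ) (L : ℝ) (hW : x + y < W) :
    Av (fun n => if n ∈ (range W).filter Nat.Prime then L else 0) x y =
      (((Ioc x (x + y)).filter Nat.Prime).card : ℝ) / y * L := by
  unfold Av
  rw [← Finset.sum_filter, Finset.sum_const, nsmul_eq_mul]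
  have : (Ioc x (x + y)).filter (fun n => n ∈ (range W).filter Nat.Prime) =
      (Ioc x (x + y)).filter Nat.Prime := by
    ext n
    simp only [mem_filter, mem_Ioc, mem_range]
    constructor
    · rintro ⟨h1, h2, h3⟩
      exact ⟨h1, h3⟩
    · rintro ⟨h1, h3⟩
      exact ⟨h1, by omega, h3⟩
  rw [this]
  ring

theorem b7_energy (W X h : ℕ) (hW : W ≤ 8 * X) :
    (energy ((range W).filter Nat.Prime) h : ℝ) ≤
      (Nat.primeCounting (8 * X) : ℝ) + 2 * ∑ d ∈ Icc 1 h, twin (8 * X) d := by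
  have h1 := energy_le ((range W).filter Nat.Prime) h
  have h2 : ((range W).filter Nat.Prime).card ≤ Nat.primeCounting (8 * X) := by
    rw [Nat.primeCounting, Nat.primeCounting', Nat.count_eq_card_filter_range]
    apply card_le_card
    intro n hn
    rw [mem_filter, mem_range] at hn ⊢
    exact ⟨by omega, hn.2⟩
  have h3 : ∀ d ∈ Icc 1 h, (((((range W).filter Nat.Prime).filter
      (fun p => p + d ∈ (range W).filter Nat.Prime)).card : ℕ) : ℝ) ≤ twin (8 * X) d := by
    intro d _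
    unfold twin
    have : (((range W).filter Nat.Prime).filter
      (fun p => p + d ∈ (range W).filter Nat.Prime)) ⊆
        (Icc 1 (8 * X)).filter (fun p => p.Prime ∧ (p + d).Prime) := by
      intro p hp
      rw [mem_filter, mem_filter, mem_range, mem_filter, mem_range] at hp
      rw [mem_filter, mem_Icc]
      obtain ⟨⟨a1, a2⟩, a3, a4⟩ := hp
      exact ⟨⟨a2.one_le, by omega⟩, a2, a4⟩
    exact_mod_cast card_le_card this
  have h4 : (energy ((range W).filter Nat.Prime) h : ℝ) ≤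
      (((range W).filter Nat.Prime).card : ℝ) + 2 * ∑ d ∈ Icc 1 h,
        (((((range W).filter Nat.Prime).filter
          (fun p => p + d ∈ (range W).filter Nat.Prime)).card : ℕ) : ℝ) := by
    exact_mod_cast h1
  have h5 := Finset.sum_le_sum h3
  have h6 : (((range W).filter Nat.Prime).card : ℝ) ≤ (Nat.primeCounting (8 * X) : ℝ) := by
    exact_mod_cast h2
  linarith

theorem jumps_block : ∃ C X0 : ℝ, 0 < C ∧ ∀ (X : ℕ) (lam : ℝ), X0 ≤ X → 0 < lam →
    ∀ P : ℕ → Finset (ℕ × ℕ),
    (∀ x ∈ Ioc (X / 2) X, Disj (P x) ∧ ∀ z ∈ P x, Real.log x ≤ (z.1 : ℝ) ∧ z.1 < z.2 ∧ z.2 ≤ x ∧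
      lam < |R x z.1 - R x z.2|) →
    ∑ x ∈ Ioc (X / 2) X, ((P x).card : ℝ) ≤ C / lam ^ 2 * X := by
  obtain ⟨C1, hC1, hJ⟩ := jumps_general
  obtain ⟨C2, X2, hC2, hT⟩ := pair_bound
  -- the prime counting function
  have hpi := Pool.Agent.Lib.PNT.pnt_pi.eventually (gt_mem_nhds (show (1 : ℝ) < 2 by norm_num))
  rw [Filter.eventually_atTop] at hpi
  obtain ⟨X3, hX3⟩ := hpi
  refine ⟨C1 * (32 + 16 * C2), max (Real.exp 4) (max X2 X3), by positivity, ?_⟩
  intro X lam hX hlam P hP
  have hXe : Real.exp 4 ≤ (X : ℝ) := (le_max_left _ _).trans hX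
  have hXpos : (0 : ℝ) < X := lt_of_lt_of_le (Real.exp_pos _) hXe
  have hX2 : X2 ≤ ((8 * X : ℕ) : ℝ) := by
    have := ((le_max_left X2 X3).trans (le_max_right (Real.exp 4) _)).trans hX
    push_cast; linarith
  have hX3' : X3 ≤ ((8 * X : ℕ) : ℝ) := by
    have := ((le_max_right X2 X3).trans (le_max_right (Real.exp 4) _)).trans hX
    push_cast; linarith
  set L : ℝ := Real.log X with hL
  have hL4 : 4 ≤ L := by
    rw [hL, Real.le_log_iff_exp_le hXpos]
    exact hXe
  have hLpos : 0 < L := by linarith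
  set h : ℕ := ⌊Real.log ((X : ℝ) / 2)⌋₊ with hh
  have hlog2 : Real.log 2 < 1 := by
    have := Real.log_two_lt_d9
    linarith
  have hlogX2 : Real.log ((X : ℝ) / 2) = L - Real.log 2 := by
    rw [Real.log_div hXpos.ne' (by norm_num)]
  have hLh : L ≤ 2 * h := by
    have : Real.log ((X : ℝ) / 2) < h + 1 := Nat.lt_floor_add_one _
    rw [hlogX2] at this
    linarith
  have hhle : (h : ℝ) ≤ Real.log ((X : ℝ) / 2) := by
    apply Nat.floor_le
    rw [hlogX2]; linarith
  have hh2 : (2 : ℝ) ≤ h := by linarith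
  have hh1 : 1 ≤ h := by
    have : (1 : ℝ) ≤ h := by linarith
    exact_mod_cast this
  have hhX : (h : ℝ) ≤ X := by
    have h1 : L ≤ X - 1 := Real.log_le_sub_one_of_pos hXpos
    have h2 : 0 < Real.log 2 := Real.log_pos (by norm_num)
    linarith [hlogX2]
  have hhXn : h ≤ X := by exact_mod_cast hhX
  have hX1n : 1 ≤ X := by omega
  -- the number of scales
  have hex : ∃ k : ℕ, 2 * X < 2 ^ k * h := by
    refine ⟨2 * X, ?_⟩
    calc 2 * X < 2 ^ (2 * X) := Nat.lt_two_pow_self
      _ = 2 ^ (2 * X) * 1 := by ring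
      _ ≤ 2 ^ (2 * X) * h := Nat.mul_le_mul_left _ hh1
  classical
  obtain ⟨k, hk, hkmin⟩ : ∃ k : ℕ, 2 * X < 2 ^ k * h ∧ ∀ j < k, ¬ 2 * X < 2 ^ j * h :=
    ⟨Nat.find hex, Nat.find_spec hex, fun j hj => Nat.find_min hex hj⟩
  have hk0 : k ≠ 0 := by
    rintro rfl
    simp at hk
    omega
  obtain ⟨k', rfl⟩ := Nat.exists_eq_succ_of_ne_zero hk0
  have hk8 : 2 ^ (k' + 1 + 1) * h ≤ 8 * X := by
    have := hkmin k' (by omega)
    push Not at this
    calc 2 ^ (k' + 1 + 1) * h = 4 * (2 ^ k' * h) := by ring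
      _ ≤ 4 * (2 * X) := Nat.mul_le_mul_left _ this
      _ = 8 * X := by ring
  set W : ℕ := 2 ^ (k' + 1 + 1) * h with hW
  set S : Finset ℕ := (range W).filter Nat.Prime with hS
  have hK1 : 2 ^ (k' + 1 + 1 - 1) * h = 2 ^ (k' + 1) * h := by
    have : k' + 1 + 1 - 1 = k' + 1 := by omega
    rw [this]
  have hkW : 2 ^ (k' + 1) * h ≤ W := by
    rw [hW]
    apply Nat.mul_le_mul_right
    exact Nat.pow_le_pow_right (by norm_num) (by omega)
  have hsk : 2 ^ (k' + 1) * h = 2 ^ k'.succ * h := rfl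
  -- apply the general jump inequality
  have hmain := hJ (fun n => if n ∈ S then L else 0) h (k' + 1 + 1) lam hh1 hlam
    (fun n => by show 0 ≤ (if n ∈ S then L else 0); split_ifs <;> linarith)
    (fun n hn => by
      show (if n ∈ S then L else 0) = 0
      rw [if_neg]
      rw [hS, mem_filter, mem_range]
      omega)
    (fun x => if x ∈ Ioc (X / 2) X then P x else ∅)
    (by
      intro x _
      by_cases hx : x ∈ Ioc (X / 2) X
      · simp only [if_pos hx]
        obtain ⟨hd, hz⟩ := hP x hx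
        refine ⟨hd, fun z hzz => ?_⟩
        obtain ⟨z1, z2, z3, z4⟩ := hz z hzz
        rw [mem_Ioc] at hx
        have hxX : (x : ℝ) ≤ X := by exact_mod_cast hx.2
        have hxlow : (X : ℝ) / 2 ≤ x := by
          have : X < 2 * x := by omega
          have : (X : ℝ) < 2 * x := by exact_mod_cast this
          linarith
        have hx0 : (0 : ℝ) < x := by linarith
        have hlogx : (h : ℝ) ≤ Real.log x :=
          hhle.trans (Real.log_le_log (by linarith) hxlow)
        have hlogx2 : Real.log x ≤ L := Real.log_le_log hx0 hxX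
        refine ⟨?_, z2, ?_, ?_⟩
        · have : (h : ℝ) ≤ z.1 := hlogx.trans z1
          exact_mod_cast this
        · rw [hK1]
          have : 2 * X < 2 ^ (k' + 1) * h := hk
          omega
        · have hb1 : x + z.1 < W := by
            have : 2 * X < 2 ^ (k' + 1) * h := hk
            omega
          have hb2 : x + z.2 < W := by
            have : 2 * X < 2 ^ (k' + 1) * h := hk
            omega
          rw [hS, b7_Av W x z.1 L hb1, b7_Av W x z.2 L hb2, ← sub_mul, abs_mul,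
            abs_of_pos hLpos]
          rw [b7_R, b7_R, ← sub_mul, abs_mul, abs_of_nonneg (by linarith : 0 ≤ Real.log x)] at z4
          exact lt_of_lt_of_le z4 (mul_le_mul_of_nonneg_left hlogx2 (abs_nonneg _))
      · simp only [if_neg hx]
        refine ⟨?_, ?_⟩
        · intro z hz; simp at hz
        · intro z hz; simp at hz)
  -- the left side
  have hleft : ∑ x ∈ Ioc (X / 2) X, ((P x).card : ℝ) ≤
      ∑ x ∈ range (2 ^ (k' + 1 + 1 - 1) * h),
        (((if x ∈ Ioc (X / 2) X then P x else ∅ : Finset (ℕ × ℕ)).card : ℕ) : ℝ) := by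
    have h1 : ∑ x ∈ Ioc (X / 2) X, ((P x).card : ℝ) =
        ∑ x ∈ Ioc (X / 2) X,
          (((if x ∈ Ioc (X / 2) X then P x else ∅ : Finset (ℕ × ℕ)).card : ℕ) : ℝ) := by
      apply Finset.sum_congr rfl
      intro x hx
      rw [if_pos hx]
    rw [h1]
    apply Finset.sum_le_sum_of_subset_of_nonneg
    · intro x hx
      rw [mem_Ioc] at hx
      rw [mem_range, hK1]
      have : 2 * X < 2 ^ (k' + 1) * h := hk
      omega
    · intro x _ _
      positivity
  have hnsq := b7_nsq_le S h W L hh1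
  have hen := b7_energy W X h hk8
  have htw := hT (8 * X) hX2 h
  have hpc := hX3 ((8 * X : ℕ) : ℝ) hX3'
  rw [Nat.floor_natCast] at hpc
  have h8pos : (0 : ℝ) < ((8 * X : ℕ) : ℝ) := by push_cast; linarith
  have hlog8 : L ≤ Real.log ((8 * X : ℕ) : ℝ) := by
    apply Real.log_le_log hXpos
    push_cast; linarith
  have hlog8pos : 0 < Real.log ((8 * X : ℕ) : ℝ) := by linarith
  have hpc2 : (Nat.primeCounting (8 * X) : ℝ) ≤ 16 * X / L := by
    rw [div_lt_iff₀ h8pos] at hpc
    rw [le_div_iff₀ hLpos]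
    calc (Nat.primeCounting (8 * X) : ℝ) * L
        ≤ (Nat.primeCounting (8 * X) : ℝ) * Real.log ((8 * X : ℕ) : ℝ) :=
          mul_le_mul_of_nonneg_left hlog8 (Nat.cast_nonneg _)
      _ ≤ 2 * ((8 * X : ℕ) : ℝ) := hpc.le
      _ = 16 * X := by push_cast; ring
  have htw2 : ∑ d ∈ Icc 1 h, twin (8 * X) d ≤ 8 * C2 * h * X / L ^ 2 := by
    refine htw.trans ?_
    rw [div_le_div_iff₀ (by positivity) (by positivity)]
    have h1 : L ^ 2 ≤ (Real.log ((8 * X : ℕ) : ℝ)) ^ 2 := pow_le_pow_left₀ hLpos.le hlog8 2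
    have h2 : (0 : ℝ) ≤ 8 * C2 * h * X := by positivity
    calc C2 * h * ((8 * X : ℕ) : ℝ) * L ^ 2 = 8 * C2 * h * X * L ^ 2 := by push_cast; ring
      _ ≤ 8 * C2 * h * X * (Real.log ((8 * X : ℕ) : ℝ)) ^ 2 :=
        mul_le_mul_of_nonneg_left h1 h2
  have hen2 : (energy S h : ℝ) ≤ 16 * X / L + 16 * C2 * h * X / L ^ 2 := by
    have : 2 * (8 * C2 * h * X / L ^ 2) = 16 * C2 * h * X / L ^ 2 := by ring
    linarith [hen, htw2, hpc2]
  have hhpos : (0 : ℝ) < h := by linarith
  have hfin : L ^ 2 / h * (energy S h : ℝ) ≤ (32 + 16 * C2) * X := by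
    calc L ^ 2 / h * (energy S h : ℝ)
        ≤ L ^ 2 / h * (16 * X / L + 16 * C2 * h * X / L ^ 2) :=
          mul_le_mul_of_nonneg_left hen2 (by positivity)
      _ = 16 * X * (L / h) + 16 * C2 * X := by
          field_simp
      _ ≤ 16 * X * 2 + 16 * C2 * X := by
          have : L / h ≤ 2 := by
            rw [div_le_iff₀ hhpos]
            exact hLh
          have := mul_le_mul_of_nonneg_left this (by positivity : (0 : ℝ) ≤ 16 * X)
          linarith
      _ = (32 + 16 * C2) * X := by ring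
  calc ∑ x ∈ Ioc (X / 2) X, ((P x).card : ℝ)
      ≤ C1 / lam ^ 2 * nsq (Ev (fun n => if n ∈ S then L else 0) h) W := hleft.trans hmain
    _ ≤ C1 / lam ^ 2 * ((32 + 16 * C2) * X) :=
        mul_le_mul_of_nonneg_left (hnsq.trans hfin) (by positivity)
    _ = C1 * (32 + 16 * C2) / lam ^ 2 * X := by ring

end MP293bbf
end

section

/-!
B8. Jumps of `y ↦ R(x, y)`, all integers `2 ≤ x ≤ X` (uses `jumps_block`).

PROOF. Let `C, X0` be as in `jumps_block` (`X0 ≥ 2` w.l.o.g.). For `X ≥ X1` decompose `[2, X]` into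
the blocks `(X_i/2, X_i]`, `X_0 = X`, `X_{i+1} = X_i / 2` (natural division), as long as `X_i ≥ X0`, and the rest
`x < X0`. The blocks give `≤ Σ_i C/lam² X_i ≤ 2 C/lam² X`. For the rest: `#P x ≤ x ≤ X0` (the
intervals `[s, t)` are disjoint non-empty in `[0, x)`), total `≤ X0² ≤ X ≤ X / lam²` for
`X ≥ X1 = X0²` (`lam ≤ 1`). (Strong induction on `X` is a convenient way to write it.)
-/

open Finset

namespace MP293bbf

theorem B8_card_le_of_disj (x : ℕ) (P : Finset (ℕ × ℕ)) (hP : Disj P)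
    (hz : ∀ z ∈ P, z.1 < z.2 ∧ z.2 ≤ x) : P.card ≤ x := by
  have h1 : P.card ≤ (range x).card := by
    apply Finset.card_le_card_of_injOn (fun z => z.1)
    · intro z hzP
      have := hz z hzP
      exact Finset.mem_coe.2 (Finset.mem_range.2 (by simp only; omega))
    · intro z hzP z' hzP' heq
      simp only at heq
      by_contra hne
      have a := hz z hzP
      have b := hz z' hzP'
      rcases hP z hzP z' hzP' hne with h | h <;> omega
  simpa using h1

theorem jumps_primes : ∃ C X0 : ℝ, 0 < C ∧ ∀ (X : ℕ) (lam : ℝ), X0 ≤ X → 0 < lam → lam ≤ 1 →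
    ∀ P : ℕ → Finset (ℕ × ℕ),
    (∀ x ∈ Icc 2 X, Disj (P x) ∧ ∀ z ∈ P x, Real.log x ≤ (z.1 : ℝ) ∧ z.1 < z.2 ∧ z.2 ≤ x ∧
      lam < |R x z.1 - R x z.2|) →
    ∑ x ∈ Icc 2 X, ((P x).card : ℝ) ≤ C / lam ^ 2 * X := by
  obtain ⟨C, X0, hC, hblock⟩ := jumps_block
  obtain ⟨M, hM2, hMX⟩ : ∃ M : ℕ, 2 ≤ M ∧ X0 ≤ M := by
    refine ⟨max 2 ⌈X0⌉₊, le_max_left _ _, ?_⟩
    calc X0 ≤ (⌈X0⌉₊ : ℝ) := Nat.le_ceil X0
      _ ≤ ((max 2 ⌈X0⌉₊ : ℕ) : ℝ) := by exact_mod_cast le_max_right _ _
  have main : ∀ (X : ℕ) (lam : ℝ), 0 < lam → lam ≤ 1 →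
      ∀ P : ℕ → Finset (ℕ × ℕ),
      (∀ x ∈ Icc 2 X, Disj (P x) ∧ ∀ z ∈ P x, Real.log x ≤ (z.1 : ℝ) ∧ z.1 < z.2 ∧ z.2 ≤ x ∧
        lam < |R x z.1 - R x z.2|) →
      ∑ x ∈ Icc 2 X, ((P x).card : ℝ) ≤ 2 * C / lam ^ 2 * X + (M : ℝ) ^ 2 := by
    intro X
    induction X using Nat.strong_induction_on with
    | _ X ih =>
      intro lam hlam hlam1 P hP
      rcases Nat.lt_or_ge X M with hXM | hXM
      · have h1 : ∀ x ∈ Icc 2 X, ((P x).card : ℝ) ≤ X := by
          intro x hx
          have hc := B8_card_le_of_disj x (P x) (hP x hx).1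
            (fun z hz => ⟨((hP x hx).2 z hz).2.1, ((hP x hx).2 z hz).2.2.1⟩)
          have hxX := (Finset.mem_Icc.1 hx).2
          exact_mod_cast hc.trans hxX
        have h2 : ∑ x ∈ Icc 2 X, ((P x).card : ℝ) ≤ ((Icc 2 X).card : ℝ) * X := by
          have := Finset.sum_le_card_nsmul (Icc 2 X) (fun x => ((P x).card : ℝ)) (X : ℝ) h1
          rwa [nsmul_eq_mul] at this
        have h3 : ((Icc 2 X).card : ℝ) ≤ M := by
          rw [Nat.card_Icc]
          have : X + 1 - 2 ≤ M := by omega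
          exact_mod_cast this
        have h4 : (X : ℝ) ≤ M := by exact_mod_cast hXM.le
        have h5 : ((Icc 2 X).card : ℝ) * X ≤ (M : ℝ) * M := by gcongr
        have h6 : 0 ≤ 2 * C / lam ^ 2 * X := by positivity
        nlinarith
      · have hlt : X / 2 < X := by omega
        have hP1 : ∀ x ∈ Icc 2 (X / 2), Disj (P x) ∧ ∀ z ∈ P x, Real.log x ≤ (z.1 : ℝ) ∧
            z.1 < z.2 ∧ z.2 ≤ x ∧ lam < |R x z.1 - R x z.2| := by
          intro x hx
          apply hP x
          rw [Finset.mem_Icc] at hx ⊢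
          omega
        have hP2 : ∀ x ∈ Ioc (X / 2) X, Disj (P x) ∧ ∀ z ∈ P x, Real.log x ≤ (z.1 : ℝ) ∧
            z.1 < z.2 ∧ z.2 ≤ x ∧ lam < |R x z.1 - R x z.2| := by
          intro x hx
          apply hP x
          rw [Finset.mem_Ioc] at hx
          rw [Finset.mem_Icc]
          omega
        have h1 := ih (X / 2) hlt lam hlam hlam1 P hP1
        have hX0 : X0 ≤ (X : ℝ) := hMX.trans (by exact_mod_cast hXM)
        have h2 := hblock X lam hX0 hlam P hP2
        have h3 : ∑ x ∈ Icc 2 X, ((P x).card : ℝ)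
            = ∑ x ∈ Icc 2 (X / 2), ((P x).card : ℝ) + ∑ x ∈ Ioc (X / 2) X, ((P x).card : ℝ) := by
          rw [← Finset.sum_union]
          · apply Finset.sum_congr _ (fun _ _ => rfl)
            ext x
            simp only [Finset.mem_union, Finset.mem_Icc, Finset.mem_Ioc]
            omega
          · rw [Finset.disjoint_left]
            intro x hx hx'
            rw [Finset.mem_Icc] at hx
            rw [Finset.mem_Ioc] at hx'
            omega
        have h4 : ((X / 2 : ℕ) : ℝ) ≤ (X : ℝ) / 2 := Nat.cast_div_le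
        have h5 : 2 * C / lam ^ 2 * ((X / 2 : ℕ) : ℝ) ≤ 2 * C / lam ^ 2 * ((X : ℝ) / 2) := by
          gcongr
        have h6 : 2 * C / lam ^ 2 * ((X : ℝ) / 2) = C / lam ^ 2 * X := by ring
        have h7 : 2 * C / lam ^ 2 * X = C / lam ^ 2 * X + C / lam ^ 2 * X := by ring
        rw [h3]
        linarith
  refine ⟨2 * C + 1, (M : ℝ) ^ 2, by positivity, ?_⟩
  intro X lam hX hlam hlam1 P hP
  have h1 := main X lam hlam hlam1 P hP
  have h2 : (X : ℝ) ≤ 1 / lam ^ 2 * X := by
    have h3 : 1 ≤ 1 / lam ^ 2 := by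
      rw [le_div_iff₀ (by positivity)]
      nlinarith
    have h4 : (0 : ℝ) ≤ X := Nat.cast_nonneg X
    nlinarith
  have h5 : (2 * C + 1) / lam ^ 2 * X = 2 * C / lam ^ 2 * X + 1 / lam ^ 2 * X := by ring
  rw [h5]
  linarith

end MP293bbf
end
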