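import Pool.Agent.Lib.MP_293bbf_nt.Defs

/-!
Definitions for the jump theorem (part B).
-/

open Finset

namespace MP293bbf

/-- average of `f` over `(x, x+y]` -/
noncomputable def Av (f : ℕ → ℝ) (x y : ℕ) : ℝ := (∑ n ∈ Ioc x (x + y), f n) / y

/-- average of `f` over the cell `[w c, w c + w)` of length `w` containing `x` (`c = x / w`) -/
noncomputable def Ev (f : ℕ → ℝ) (w x : ℕ) : ℝ :=
  (∑ n ∈ Ico (w * (x / w)) (w * (x / w) + w), f n) / w

/-- squared `l²` norm on `[0, W)` -/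
noncomputable def nsq (f : ℕ → ℝ) (W : ℕ) : ℝ := ∑ n ∈ range W, (f n) ^ 2

/-- mass of `|g|` in the cell of length `w` containing `n` -/
noncomputable def mass (g : ℕ → ℝ) (w n : ℕ) : ℝ :=
  ∑ i ∈ Ico (w * (n / w)) (w * (n / w) + w), |g i|

/-- the pairs `(s, t)` of `P` do not overlap -/
def Disj (P : Finset (ℕ × ℕ)) : Prop :=
  ∀ z ∈ P, ∀ z' ∈ P, z ≠ z' → z.2 ≤ z'.1 ∨ z'.2 ≤ z.1

/-- a non-overlapping family of pairs in `[Y, 2Y]` -/
def Fam (Y : ℕ) (P : Finset (ℕ × ℕ)) : Prop :=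
  Disj P ∧ ∀ z ∈ P, Y ≤ z.1 ∧ z.1 < z.2 ∧ z.2 ≤ 2 * Y

/-- quadratic variation of `y ↦ Av g x y` along the pairs of `P` -/
noncomputable def Vs (g : ℕ → ℝ) (x : ℕ) (P : Finset (ℕ × ℕ)) : ℝ :=
  ∑ z ∈ P, (Av g x z.1 - Av g x z.2) ^ 2

/-- greedy number of stops of the sequence `u (k-1), u (k-2), ..., u 0` with reference value `r` -/
noncomputable def stops (c : ℝ) (u : ℕ → ℝ) : ℕ → ℝ → ℕ
  | 0, _ => 0
  | k + 1, r => if c ≤ |u k - r| then 1 + stops c u k (u k) else stops c u k r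

end MP293bbf
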