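import Mathlib

/-!
MP_293bbf_nt, two-sided Chebyshev bounds at all scales (helper71): common definitions.
-/

open Finset

namespace MP293bbf

/-- `Σ 1/a` over squarefree `1 ≤ a ≤ y` coprime to `m`. -/
noncomputable def sqf (m y : ℕ) : ℝ :=
  ∑ a ∈ (Icc 1 y).filter (fun a => Squarefree a ∧ a.Coprime m), (1 : ℝ) / a

/-- `Σ τ(q)/q` over squarefree `1 ≤ q ≤ y` coprime to `m`. -/
noncomputable def sq2 (m y : ℕ) : ℝ :=
  ∑ q ∈ (Icc 1 y).filter (fun q => Squarefree q ∧ q.Coprime m), (q.divisors.card : ℝ) / q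

/-- `σ(m)/m = Σ_{k ∣ m} 1/k`. -/
noncomputable def sig (m : ℕ) : ℝ := ∑ k ∈ m.divisors, (1 : ℝ) / k

/-- number of `p ≤ X` with `p` and `p + d` prime. -/
noncomputable def twin (X d : ℕ) : ℝ :=
  (((Icc 1 X).filter (fun p => p.Prime ∧ (p + d).Prime)).card : ℝ)

/-- number of primes in `(a, b]`. -/
noncomputable def cnt (a b : ℝ) : ℝ :=
  (Nat.primeCounting ⌊b⌋₊ : ℝ) - (Nat.primeCounting ⌊a⌋₊ : ℝ)

/-- `R(x,y) = (π(x+y) - π(x)) / (y / log x)`. -/
noncomputable def R (x y : ℝ) : ℝ := cnt x (x + y) / (y / Real.log x)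

/-- number of elements of `S` in `[u, v)`. -/
def num (S : Finset ℕ) (u v : ℕ) : ℕ := (S.filter (fun q => u ≤ q ∧ q < v)).card

/-- number of ordered pairs of elements of `S` at distance `< h`. -/
def energy (S : Finset ℕ) (h : ℕ) : ℕ :=
  ((S ×ˢ S).filter (fun z => z.1 < z.2 + h ∧ z.2 < z.1 + h)).card

end MP293bbf
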