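import Pool.Agent.Lib.H62.ShortPi3

/-!
Equivalent forms of the uniform prime asymptotics in intervals longer than all powers of the
logarithm, in terms of the extreme normalised densities at the scales `(log x)^a`.
-/

open Filter Topology

namespace Pool.Agent.Results.MP_293bbf_nt.GapCloses

/-- `R(x,y) = (π(x+y) - π(x)) / (y / log x)`. -/
noncomputable def R (x y : ℝ) : ℝ :=
  ((Nat.primeCounting ⌊x + y⌋₊ : ℝ) - (Nat.primeCounting ⌊x⌋₊ : ℝ)) / (y / Real.log x)

/-- `L(h) = liminf_{x → ∞} R(x, h x)`, as an extended real. -/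
noncomputable def L (h : ℝ → ℝ) : EReal := liminf (fun x : ℝ => ((R x (h x) : ℝ) : EReal)) atTop

/-- `U(h) = limsup_{x → ∞} R(x, h x)`, as an extended real. -/
noncomputable def U (h : ℝ → ℝ) : EReal := limsup (fun x : ℝ => ((R x (h x) : ℝ) : EReal)) atTop

/-- The scale function `x ↦ (log x)^a`. -/
noncomputable def lp (a : ℝ) : ℝ → ℝ := fun x => Real.log x ^ a

/-- The assertion of Q1. -/
def UniformPNT : Prop :=
  ∀ ε : ℝ, 0 < ε → ∃ N : ℝ, 1 < N ∧ ∀ x y : ℝ, N ≤ x → Real.log x ^ N ≤ y → y ≤ x →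
    |R x y - 1| ≤ ε

open Pool.Agent.Lib.H62 in
theorem R_eq (x y : ℝ) : R x y = Rr x y := rfl

open Pool.Agent.Lib.H62 in
theorem one_le_U {a : ℝ} (ha : 0 < a) : 1 ≤ U (lp a) := by
  by_contra hcon
  push Not at hcon
  -- pick a real between
  obtain ⟨q, hq1, hq2⟩ := EReal.lt_iff_exists_real_btwn.mp hcon
  have h1 : ∀ᶠ x : ℝ in atTop, ((R x (lp a x) : ℝ) : EReal) < (q : EReal) :=
    eventually_lt_of_limsup_lt hq1
  have h2 : ∀ᶠ x : ℝ in atTop, Rr x (Real.log x ^ a) ≤ max q 0 := by
    filter_upwards [h1] with x hx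
    have := EReal.coe_lt_coe_iff.mp hx
    exact le_max_of_le_left this.le
  have h3 := one_le_of_eventually_le ha (le_max_right _ _) h2
  have h4 : q < 1 := by exact_mod_cast hq2
  rcases max_cases q 0 with ⟨h, _⟩ | ⟨h, _⟩ <;> linarith

open Pool.Agent.Lib.H62 in
theorem L_le_one {a : ℝ} (ha : 0 < a) : L (lp a) ≤ 1 := by
  by_contra hcon
  push Not at hcon
  obtain ⟨q, hq1, hq2⟩ := EReal.lt_iff_exists_real_btwn.mp hcon
  have h1 : ∀ᶠ x : ℝ in atTop, (q : EReal) < ((R x (lp a x) : ℝ) : EReal) :=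
    eventually_lt_of_lt_liminf hq2
  have h2 : ∀ᶠ x : ℝ in atTop, q ≤ Rr x (Real.log x ^ a) := by
    filter_upwards [h1] with x hx
    have := EReal.coe_lt_coe_iff.mp hx
    exact this.le
  have h3 := le_one_of_eventually_ge ha h2
  have h4 : 1 < q := by exact_mod_cast hq1
  linarith

open Pool.Agent.Lib.H62 in
/-- From one scale with extreme densities close to `1` to the uniform statement. -/
theorem uniform_of_one_scale {a ε : ℝ} (ha : 0 < a) (hε : 0 < ε)
    (hU : U (lp a) ≤ ((1 + ε : ℝ) : EReal)) (hL : ((1 - ε : ℝ) : EReal) ≤ L (lp a)) :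
    ∃ N : ℝ, 1 < N ∧ ∀ x y : ℝ, N ≤ x → Real.log x ^ N ≤ y → y ≤ x → |R x y - 1| ≤ 3 * ε := by
  have h1 : ∀ᶠ x : ℝ in atTop, ((R x (lp a x) : ℝ) : EReal) < ((1 + 2 * ε : ℝ) : EReal) := by
    refine eventually_lt_of_limsup_lt (lt_of_le_of_lt hU ?_)
    exact_mod_cast (by linarith : 1 + ε < 1 + 2 * ε)
  have h2 : ∀ᶠ x : ℝ in atTop, ((1 - 2 * ε : ℝ) : EReal) < ((R x (lp a x) : ℝ) : EReal) := by
    refine eventually_lt_of_lt_liminf (lt_of_lt_of_le ?_ hL)
    exact_mod_cast (by linarith : 1 - 2 * ε < 1 - ε)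
  have h1' : ∀ᶠ x : ℝ in atTop, Rr x (Real.log x ^ a) ≤ 1 + 2 * ε := by
    filter_upwards [h1] with x hx
    exact (EReal.coe_lt_coe_iff.mp hx).le
  have h2' : ∀ᶠ x : ℝ in atTop, max (1 - 2 * ε) 0 ≤ Rr x (Real.log x ^ a) := by
    filter_upwards [h2, eventually_ge_atTop (1 : ℝ)] with x hx hx1
    exact max_le (EReal.coe_lt_coe_iff.mp hx).le
      (Rr_nonneg hx1 (Real.rpow_nonneg (Real.log_nonneg hx1) _))
  have h3 := eventually_upper ha (by linarith) h1' hε
  have h4 := eventually_lower ha (le_max_right _ _) h2' hε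
  obtain ⟨X, hX⟩ := eventually_atTop.mp (h3.and h4)
  refine ⟨max (max X (a + 1)) (Real.exp 1), ?_, ?_⟩
  · have := Real.add_one_le_exp (1 : ℝ)
    exact lt_max_of_lt_right (by linarith)
  · intro x y hx hy hyx
    have hxX : X ≤ x := (le_max_left _ _).trans ((le_max_left _ _).trans hx)
    have hxe : Real.exp 1 ≤ x := (le_max_right _ _).trans hx
    have hNa : a + 1 ≤ max (max X (a + 1)) (Real.exp 1) :=
      (le_max_right _ _).trans (le_max_left _ _)
    have hlog : 1 ≤ Real.log x := by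
      rw [← Real.log_exp 1]
      exact Real.log_le_log (Real.exp_pos 1) hxe
    have hy' : Real.log x ^ (a + 1) ≤ y :=
      (Real.rpow_le_rpow_of_exponent_le hlog hNa).trans hy
    obtain ⟨g1, g2⟩ := hX x hxX
    have g3 := g1 y hy' hyx
    have g4 := g2 y hy' hyx
    have g5 : 1 - 2 * ε ≤ max (1 - 2 * ε) 0 := le_max_left _ _
    rw [R_eq, abs_le]
    constructor <;> linarith

open Pool.Agent.Lib.H62 in
/-- From the uniform statement to all large scales. -/
theorem scales_of_uniform (h : UniformPNT) {ε : ℝ} (hε : 0 < ε) :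
    ∃ A : ℝ, 0 < A ∧ ∀ a : ℝ, A ≤ a →
      U (lp a) ≤ ((1 + ε : ℝ) : EReal) ∧ ((1 - ε : ℝ) : EReal) ≤ L (lp a) := by
  obtain ⟨N, hN1, hN⟩ := h ε hε
  refine ⟨N, by linarith, fun a ha => ?_⟩
  have hev : ∀ᶠ x : ℝ in atTop, |R x (lp a x) - 1| ≤ ε := by
    filter_upwards [eventually_ge_atTop N, eventually_ge_atTop (Real.exp 1),
      eventually_rpow_log_le (b := a) one_pos] with x h1 h2 h3
    have hlog : 1 ≤ Real.log x := by
      rw [← Real.log_exp 1]
      exact Real.log_le_log (Real.exp_pos 1) h2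
    exact hN x (lp a x) h1 (Real.rpow_le_rpow_of_exponent_le hlog ha) (by simpa [lp] using h3)
  constructor
  · apply limsup_le_of_le
    · isBoundedDefault
    · filter_upwards [hev] with x hx
      rw [abs_le] at hx
      exact_mod_cast (by linarith [hx.2] : R x (lp a x) ≤ 1 + ε)
  · apply le_liminf_of_le
    · isBoundedDefault
    · filter_upwards [hev] with x hx
      rw [abs_le] at hx
      exact_mod_cast (by linarith [hx.1] : 1 - ε ≤ R x (lp a x))

/-- Four equivalent forms of the uniform statement of Q1. -/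
theorem result : List.TFAE [
    UniformPNT,
    Tendsto (fun a : ℝ => L (lp a)) atTop (𝓝 1) ∧ Tendsto (fun a : ℝ => U (lp a)) atTop (𝓝 1),
    Tendsto (fun a : ℝ => U (lp a) - L (lp a)) atTop (𝓝 0),
    ∀ ε : ℝ, 0 < ε → ∃ a : ℝ, 1 < a ∧ U (lp a) ≤ L (lp a) + (ε : EReal)] := by
  tfae_have 1 → 2 := by
    intro h
    constructor
    · rw [tendsto_order]
      constructor
      · intro b hb
        obtain ⟨q, hq1, hq2⟩ := EReal.lt_iff_exists_real_btwn.mp hb
        have hq3 : q < 1 := by exact_mod_cast hq2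
        obtain ⟨A, _, hA⟩ := scales_of_uniform h (ε := 1 - q) (by linarith)
        filter_upwards [eventually_ge_atTop A] with a ha
        have := (hA a ha).2
        simp only [sub_sub_cancel] at this
        exact hq1.trans_le this
      · intro b hb
        filter_upwards [eventually_gt_atTop (0 : ℝ)] with a ha
        exact (L_le_one ha).trans_lt hb
    · rw [tendsto_order]
      constructor
      · intro b hb
        filter_upwards [eventually_gt_atTop (0 : ℝ)] with a ha
        exact hb.trans_le (one_le_U ha)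
      · intro b hb
        obtain ⟨q, hq1, hq2⟩ := EReal.lt_iff_exists_real_btwn.mp hb
        have hq3 : 1 < q := by exact_mod_cast hq1
        obtain ⟨A, _, hA⟩ := scales_of_uniform h (ε := q - 1) (by linarith)
        filter_upwards [eventually_ge_atTop A] with a ha
        have := (hA a ha).1
        rw [show 1 + (q - 1) = q by ring] at this
        exact this.trans_lt hq2
  tfae_have 2 → 3 := by
    rintro ⟨hL, hU⟩
    rw [tendsto_order]
    constructor
    · intro b hb
      filter_upwards [eventually_gt_atTop (0 : ℝ)] with a ha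
      have h1 := L_le_one ha
      have h2 := one_le_U ha
      have h3 : (0 : EReal) ≤ U (lp a) - L (lp a) := by
        calc (0 : EReal) = ((1 - 1 : ℝ) : EReal) := by norm_num
          _ = 1 - 1 := by rw [EReal.coe_sub]; rfl
          _ ≤ U (lp a) - L (lp a) := EReal.sub_le_sub h2 h1
      exact hb.trans_le h3
    · intro b hb
      obtain ⟨q, hq1, hq2⟩ := EReal.lt_iff_exists_real_btwn.mp hb
      have hq3 : 0 < q := by exact_mod_cast hq1
      have e1 := (tendsto_order.mp hL).1 (((1 - q / 2 : ℝ)) : EReal)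
        (by exact_mod_cast (by linarith : 1 - q / 2 < 1))
      have e2 := (tendsto_order.mp hU).2 (((1 + q / 2 : ℝ)) : EReal)
        (by exact_mod_cast (by linarith : 1 < 1 + q / 2))
      filter_upwards [e1, e2] with a h1 h2
      refine lt_of_le_of_lt (EReal.sub_le_sub h2.le h1.le) ?_
      rw [← EReal.coe_sub]
      refine lt_of_eq_of_lt ?_ hq2
      congr 1
      ring
  tfae_have 3 → 4 := by
    intro h ε hε
    have h1 := (tendsto_order.mp h).2 ((ε : ℝ) : EReal) (by exact_mod_cast hε)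
    obtain ⟨a, ha1, ha2⟩ := (h1.and (eventually_gt_atTop (1 : ℝ))).exists
    refine ⟨a, ha2, ?_⟩
    have h0 : 0 < a := by linarith
    have hLtop : L (lp a) ≠ ⊤ := ne_top_of_le_ne_top (EReal.coe_ne_top 1) (L_le_one h0)
    have hLbot : L (lp a) ≠ ⊥ := by
      intro hb
      rw [hb] at ha1
      have : U (lp a) - ⊥ = ⊤ := by
        apply EReal.sub_bot
        intro hU
        have := one_le_U h0
        rw [hU] at this
        exact absurd this (not_le_of_gt (EReal.bot_lt_coe 1))
      rw [this] at ha1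
      exact absurd ha1 (by simp)
    have := (EReal.sub_le_iff_le_add (Or.inl hLbot) (Or.inl hLtop)).mp ha1.le
    rwa [add_comm] at this
  tfae_have 4 → 1 := by
    intro h ε hε
    obtain ⟨a, ha1, ha2⟩ := h (ε / 3) (by linarith)
    have h0 : 0 < a := by linarith
    have h1 := L_le_one h0
    have h2 := one_le_U h0
    have hU : U (lp a) ≤ ((1 + ε / 3 : ℝ) : EReal) := by
      calc U (lp a) ≤ L (lp a) + ((ε / 3 : ℝ) : EReal) := ha2
        _ ≤ 1 + ((ε / 3 : ℝ) : EReal) := by gcongr
        _ = _ := by norm_cast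
    have hL : ((1 - ε / 3 : ℝ) : EReal) ≤ L (lp a) := by
      have h3 : (1 : EReal) ≤ L (lp a) + ((ε / 3 : ℝ) : EReal) := h2.trans ha2
      rw [EReal.coe_sub]
      exact (EReal.sub_le_iff_le_add (Or.inl (EReal.coe_ne_bot _))
        (Or.inl (EReal.coe_ne_top _))).mpr h3
    obtain ⟨N, hN1, hN⟩ := uniform_of_one_scale h0 (by linarith : 0 < ε / 3) hU hL
    refine ⟨N, hN1, fun x y h1 h2 h3 => ?_⟩
    have := hN x y h1 h2 h3
    linarith
  tfae_finish

end Pool.Agent.Results.MP_293bbf_nt.GapCloses
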