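import Pool.Agent.Lib.H62.ShortPi3

/-!
The lower half of the inequality of Q1, uniformly in all `0 < y ≤ η p`, for intervals `[p, p+y]`
starting at a prime `p`, holds for a set of primes of positive lower relative logarithmic density.
-/

open Filter Topology Set

namespace Pool.Agent.Results.MP_293bbf_nt.LowerHalfAllY

open Pool.Agent.Lib.H62

/-- `p` is good if every interval `[p, p+y]` with `0 < y ≤ η p` contains at least
`(1-ε) y / log p` primes. -/
def GoodPrime (ε η : ℝ) (p : ℕ) : Prop :=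
  p.Prime ∧ ∀ y : ℝ, 0 < y → y ≤ η * p →
    (1 - ε) * (y / Real.log p) ≤
      (Nat.primeCounting ⌊(p : ℝ) + y⌋₊ : ℝ) - (Nat.primeCounting (p - 1) : ℝ)

section
variable (m : ℝ)

/-- `Ψ(z) = ∑_{p ≤ z} log p / p - m log z`. -/
noncomputable def Psi (z : ℝ) : ℝ := Sm z - m * Real.log z

/-- the future infimum of `Psi` -/
noncomputable def futInf (z : ℝ) : ℝ := sInf (Psi m '' Ici z)

variable {m}

theorem Psi_lower {C : ℝ} (hC : ∀ x : ℝ, 1 ≤ x → Real.log x - C ≤ Sm x) {z : ℝ} (hz : 1 ≤ z) :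
    (1 - m) * Real.log z - C ≤ Psi m z := by
  unfold Psi
  have := hC z hz
  linarith

theorem bddBelow_Psi {C : ℝ} (hC : ∀ x : ℝ, 1 ≤ x → Real.log x - C ≤ Sm x) (hm : m ≤ 1) {z : ℝ}
    (hz : 1 ≤ z) : BddBelow (Psi m '' Ici z) := by
  refine ⟨-C, ?_⟩
  rintro _ ⟨w, hw, rfl⟩
  have hw1 : 1 ≤ w := hz.trans hw
  have h1 := Psi_lower (m := m) hC hw1
  have h2 := Real.log_nonneg hw1
  nlinarith

theorem futInf_le {C : ℝ} (hC : ∀ x : ℝ, 1 ≤ x → Real.log x - C ≤ Sm x) (hm : m ≤ 1) {z w : ℝ}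
    (hz : 1 ≤ z) (hzw : z ≤ w) : futInf m z ≤ Psi m w :=
  csInf_le (bddBelow_Psi hC hm hz) ⟨w, hzw, rfl⟩

theorem le_futInf {z b : ℝ} (h : ∀ w, z ≤ w → b ≤ Psi m w) : b ≤ futInf m z := by
  apply le_csInf
  · exact ⟨_, z, self_mem_Ici, rfl⟩
  · rintro _ ⟨w, hw, rfl⟩; exact h w hw

theorem Sm_succ (n : ℕ) : Sm ((n : ℝ) + 1) = Sm n +
    (if (n + 1).Prime then Real.log ((n : ℝ) + 1) / ((n : ℝ) + 1) else 0) := by
  have h1 : ⌊(n : ℝ) + 1⌋₊ = n + 1 := by
    have := Nat.floor_natCast (R := ℝ) (n + 1)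
    push_cast at this
    exact this
  unfold Sm
  rw [h1, Nat.floor_natCast, ← Finset.insert_Ioc_right_eq_Ioc_add_one (Nat.zero_le n),
    Finset.filter_insert]
  split_ifs with h
  · rw [Finset.sum_insert (by simp)]
    push_cast
    ring
  · simp

theorem Sm_const {n : ℕ} {z : ℝ} (h1 : (n : ℝ) ≤ z) (h2 : z < (n : ℝ) + 1) : Sm z = Sm n := by
  have : ⌊z⌋₊ = n := by
    rw [Nat.floor_eq_iff ((Nat.cast_nonneg n).trans h1)]
    exact ⟨h1, h2⟩
  unfold Sm
  rw [this, Nat.floor_natCast]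

/-- A prime at which the future infimum jumps is a prime whose whole future is dense. -/
def Dense (m : ℝ) (p : ℕ) : Prop :=
  p.Prime ∧ ∀ z : ℝ, (p : ℝ) ≤ z → m * (Real.log z - Real.log p) ≤ Sm z - Sm ((p : ℝ) - 1)

open Classical in
theorem futInf_step {C : ℝ} (hC : ∀ x : ℝ, 1 ≤ x → Real.log x - C ≤ Sm x) (hm : m ≤ 1)
    (hm0 : 0 ≤ m) (n : ℕ) (hn : 1 ≤ n) :
    futInf m ((n : ℝ) + 1) ≤ futInf m n +
      (if Dense m (n + 1) then Real.log ((n : ℝ) + 1) / ((n : ℝ) + 1) else 0) := by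
  have hn' : (1 : ℝ) ≤ n := by exact_mod_cast hn
  have hn1 : (1 : ℝ) ≤ (n : ℝ) + 1 := by linarith
  set e : ℝ := (if Dense m (n + 1) then Real.log ((n : ℝ) + 1) / ((n : ℝ) + 1) else 0) with he
  have he0 : 0 ≤ e := by
    rw [he]; split_ifs
    · exact div_nonneg (Real.log_nonneg hn1) (by linarith)
    · exact le_rfl
  -- it suffices to bound `futInf (n+1) - e` by all values from `n` on
  have key : futInf m ((n : ℝ) + 1) - e ≤ futInf m n := by
    apply le_futInf
    intro w hw
    rcases le_or_gt ((n : ℝ) + 1) w with h | h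
    · have := futInf_le hC hm hn1 h
      linarith
    · -- here `Psi w ≥ ℓ`
      have hS : Sm w = Sm n := Sm_const hw h
      have hlog : Real.log w ≤ Real.log ((n : ℝ) + 1) := Real.log_le_log (by linarith) h.le
      have hPsi : Sm n - m * Real.log ((n : ℝ) + 1) ≤ Psi m w := by
        unfold Psi; rw [hS]; nlinarith
      suffices hs : futInf m ((n : ℝ) + 1) - e ≤ Sm n - m * Real.log ((n : ℝ) + 1) by linarith
      by_cases hd : Dense m (n + 1)
      · have h1 := futInf_le hC hm hn1 (le_refl ((n : ℝ) + 1))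
        have h2 := Sm_succ n
        rw [if_pos hd.1] at h2
        have h3 : e = Real.log ((n : ℝ) + 1) / ((n : ℝ) + 1) := by rw [he, if_pos hd]
        unfold Psi at h1
        rw [h2] at h1
        rw [h3]
        linarith
      · have h3 : e = 0 := by rw [he, if_neg hd]
        rw [h3, sub_zero]
        by_cases hp : (n + 1).Prime
        · -- not dense: there is a low point in the future
          have h4 : ∃ z : ℝ, (((n + 1 : ℕ) : ℝ)) ≤ z ∧ Sm z - Sm ((((n + 1 : ℕ) : ℝ)) - 1) <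
              m * (Real.log z - Real.log ((n + 1 : ℕ) : ℝ)) := by
            by_contra hcon
            push Not at hcon
            exact hd ⟨hp, fun z hz => hcon z hz⟩
          obtain ⟨z, hz1, hz2⟩ := h4
          push_cast at hz1 hz2
          rw [show (n : ℝ) + 1 - 1 = n by ring] at hz2
          have h5 := futInf_le hC hm hn1 hz1
          unfold Psi at h5
          linarith
        · have h1 := futInf_le hC hm hn1 (le_refl ((n : ℝ) + 1))
          have h2 := Sm_succ n
          rw [if_neg hp, add_zero] at h2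
          unfold Psi at h1
          rw [h2] at h1
          exact h1
  linarith

open Classical in
theorem sum_dense {C : ℝ} (hC : ∀ x : ℝ, 1 ≤ x → Real.log x - C ≤ Sm x) (hm : m ≤ 1)
    (hm0 : 0 ≤ m) (N : ℕ) (hN : 1 ≤ N) :
    (1 - m) * Real.log N - C ≤
      ∑ p ∈ (Finset.Ioc 1 N).filter (Dense m), Real.log p / p := by
  have h1 : futInf m N ≤ futInf m 1 +
      ∑ p ∈ (Finset.Ioc 1 N).filter (Dense m), Real.log p / p := by
    induction N, hN using Nat.le_induction with
    | base => simp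
    | succ n hn ih =>
      have h2 := futInf_step (m := m) hC hm hm0 n hn
      have h3 : ∑ p ∈ (Finset.Ioc 1 (n + 1)).filter (Dense m), Real.log p / p =
          ∑ p ∈ (Finset.Ioc 1 n).filter (Dense m), Real.log p / p +
          (if Dense m (n + 1) then Real.log ((n : ℝ) + 1) / ((n : ℝ) + 1) else 0) := by
        rw [← Finset.insert_Ioc_right_eq_Ioc_add_one hn, Finset.filter_insert]
        split_ifs with h
        · rw [Finset.sum_insert (by simp)]
          push_cast
          ring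
        · simp
      rw [h3]
      push_cast
      linarith
  have h2 : futInf m 1 ≤ 0 := by
    have := futInf_le (m := m) hC hm (le_refl (1 : ℝ)) (le_refl (1 : ℝ))
    have h3 : Psi m 1 = 0 := by
      unfold Psi Sm
      rw [Nat.floor_one, Real.log_one, mul_zero, sub_zero]
      apply Finset.sum_eq_zero
      intro p hp
      simp only [Finset.mem_filter, Finset.mem_Ioc] at hp
      have := hp.2.two_le
      omega
    linarith
  have h3 : (1 - m) * Real.log N - C ≤ futInf m N := by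
    apply le_futInf
    intro w hw
    have hN' : (1 : ℝ) ≤ N := by exact_mod_cast hN
    have h4 := Psi_lower (m := m) hC (hN'.trans hw)
    have h5 : Real.log N ≤ Real.log w := Real.log_le_log (by linarith) hw
    nlinarith
  linarith

end

theorem goodPrime_of_dense {ε η m : ℝ} (hm0 : 0 ≤ m)
    (hm : 1 - ε ≤ m * (1 - η / 2)) {p : ℕ} (hp3 : 3 ≤ p) (hd : Dense m p) : GoodPrime ε η p := by
  refine ⟨hd.1, fun y hy hyp => ?_⟩
  have hp : (3 : ℝ) ≤ p := by exact_mod_cast hp3
  have hp0 : (0 : ℝ) < p := by linarith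
  have he : Real.exp 1 < 3 := Real.exp_one_lt_three
  have hlogp : 1 ≤ Real.log p := by
    rw [← Real.log_exp 1]
    exact Real.log_le_log (Real.exp_pos 1) (by linarith)
  have h1 := hd.2 (p + y) (by linarith)
  -- bound the sum by the count
  have h2 : Sm (p + y) - Sm ((p : ℝ) - 1) ≤ (Real.log p / p) *
      ((Nat.primeCounting ⌊(p : ℝ) + y⌋₊ : ℝ) - (Nat.primeCounting (p - 1) : ℝ)) := by
    have e0 : ⌊(p : ℝ) - 1⌋₊ = p - 1 := by
      have : ((p - 1 : ℕ) : ℝ) = (p : ℝ) - 1 := by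
        rw [Nat.cast_sub (by omega)]; simp
      rw [← this, Nat.floor_natCast]
    have e1 := Sm_sub ((p : ℝ) - 1) (p + y) (by linarith)
    have e2 := rpi_sub ((p : ℝ) - 1) (p + y) (by linarith)
    rw [e1]
    have e3 : rpi ((p : ℝ) + y) - rpi ((p : ℝ) - 1) =
      (Nat.primeCounting ⌊(p : ℝ) + y⌋₊ : ℝ) - (Nat.primeCounting (p - 1) : ℝ) := by
        unfold rpi; rw [e0]
    rw [← e3, e2]
    have : ∀ q ∈ (Finset.Ioc ⌊(p : ℝ) - 1⌋₊ ⌊(p : ℝ) + y⌋₊).filter Nat.Prime,
        Real.log q / q ≤ Real.log p / p := by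
      intro q hq
      simp only [Finset.mem_filter, Finset.mem_Ioc] at hq
      rw [e0] at hq
      have hpq : p ≤ q := by omega
      have hpq' : (p : ℝ) ≤ q := by exact_mod_cast hpq
      exact Real.log_div_self_antitoneOn (show Real.exp 1 ≤ (p : ℝ) by linarith)
        (show Real.exp 1 ≤ (q : ℝ) by linarith) hpq'
    calc _ ≤ ∑ q ∈ (Finset.Ioc ⌊(p : ℝ) - 1⌋₊ ⌊(p : ℝ) + y⌋₊).filter Nat.Prime,
          Real.log p / p := Finset.sum_le_sum this
      _ = _ := by rw [Finset.sum_const, nsmul_eq_mul]; ring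
  have h3 : (y / p) * (1 - η / 2) ≤ Real.log (p + y) - Real.log p := by
    rw [← Real.log_div (by linarith) hp0.ne']
    have e1 : ((p : ℝ) + y) / p = 1 + y / p := by field_simp
    rw [e1]
    set t := y / p with ht
    have ht0 : 0 < t := by positivity
    have htη : t ≤ η := by rw [ht, div_le_iff₀ hp0]; exact hyp
    have h4 : t - t ^ 2 / 2 ≤ Real.log (1 + t) := by
      have := Real.le_log_one_add_of_nonneg ht0.le
      refine le_trans ?_ this
      rw [le_div_iff₀ (by linarith)]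
      nlinarith [pow_pos ht0 3]
    nlinarith
  have h5 : (1 - ε) * (y / p) ≤ (Real.log p / p) *
      ((Nat.primeCounting ⌊(p : ℝ) + y⌋₊ : ℝ) - (Nat.primeCounting (p - 1) : ℝ)) := by
    calc (1 - ε) * (y / p) ≤ (m * (1 - η / 2)) * (y / p) := by gcongr
      _ = m * ((y / p) * (1 - η / 2)) := by ring
      _ ≤ m * (Real.log (p + y) - Real.log p) := by gcongr
      _ ≤ Sm (p + y) - Sm ((p : ℝ) - 1) := h1
      _ ≤ _ := h2
  have h6 : (1 - ε) * (y / Real.log p) = ((1 - ε) * (y / p)) * (p / Real.log p) := by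
    field_simp
  rw [h6]
  calc ((1 - ε) * (y / p)) * (p / Real.log p) ≤ ((Real.log p / p) *
      ((Nat.primeCounting ⌊(p : ℝ) + y⌋₊ : ℝ) - (Nat.primeCounting (p - 1) : ℝ))) *
        (p / Real.log p) := by gcongr
    _ = _ := by field_simp

open Classical in
/-- **Theorem.** For `0 < ε < 1` and `0 < η < 2ε` the primes `p` such that for all `0 < y ≤ η p`
the interval `[p, p+y]` contains at least `(1-ε) y / log p` primes satisfy
`∑_{p ≤ X, p good} log p / p ≥ ((ε - η/2)/(1 - η/2)) log X - C`. -/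
theorem result (ε η : ℝ) (hε : ε < 1) (_hη : 0 < η) (hηε : η < 2 * ε) :
    ∃ C : ℝ, ∀ X : ℕ, 1 ≤ X →
      (ε - η / 2) / (1 - η / 2) * Real.log X - C ≤
        ∑ p ∈ (Finset.Icc 1 X).filter (GoodPrime ε η), Real.log p / p := by
  obtain ⟨C, hC⟩ := mertens_prime_lower
  have hη2 : 0 < 1 - η / 2 := by linarith
  set m := (1 - ε) / (1 - η / 2) with hm
  have hm0 : 0 ≤ m := by rw [hm]; apply div_nonneg <;> linarith
  have hm1 : m ≤ 1 := by rw [hm, div_le_one hη2]; linarith
  have hmm : 1 - ε ≤ m * (1 - η / 2) := by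
    rw [hm, div_mul_cancel₀ _ hη2.ne']
  refine ⟨C + Real.log 2 / 2, fun X hX => ?_⟩
  have h1 := sum_dense (m := m) (C := C) hC hm1 hm0 X hX
  have h2 : 1 - m = (ε - η / 2) / (1 - η / 2) := by
    rw [hm, eq_div_iff hη2.ne', sub_mul, div_mul_cancel₀ _ hη2.ne']
    ring
  rw [h2] at h1
  have h3 : ∑ p ∈ (Finset.Ioc 1 X).filter (Dense m), Real.log p / p ≤
      Real.log 2 / 2 + ∑ p ∈ (Finset.Icc 1 X).filter (GoodPrime ε η), Real.log p / p := by
    have hsub : (Finset.Ioc 1 X).filter (Dense m) ⊆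
        {2} ∪ (Finset.Icc 1 X).filter (GoodPrime ε η) := by
      intro p hp
      simp only [Finset.mem_filter, Finset.mem_Ioc] at hp
      simp only [Finset.mem_union, Finset.mem_singleton, Finset.mem_filter, Finset.mem_Icc]
      rcases Nat.lt_or_ge 2 p with h | h
      · right
        exact ⟨⟨by omega, hp.1.2⟩, goodPrime_of_dense hm0 hmm h hp.2⟩
      · left; omega
    have hnn : ∀ p : ℕ, 0 ≤ Real.log (p : ℝ) / p := by
      intro p
      rcases Nat.eq_zero_or_pos p with h | h
      · simp [h]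
      · exact div_nonneg (Real.log_nonneg (by exact_mod_cast h)) (by positivity)
    calc _ ≤ ∑ p ∈ {2} ∪ (Finset.Icc 1 X).filter (GoodPrime ε η), Real.log (p : ℝ) / p :=
          Finset.sum_le_sum_of_subset_of_nonneg hsub (fun p _ _ => hnn p)
      _ ≤ ∑ p ∈ ({2} : Finset ℕ), Real.log (p : ℝ) / p +
          ∑ p ∈ (Finset.Icc 1 X).filter (GoodPrime ε η), Real.log (p : ℝ) / p := by
          rw [← Finset.sum_union_inter]
          have : 0 ≤ ∑ p ∈ ({2} : Finset ℕ) ∩ (Finset.Icc 1 X).filter (GoodPrime ε η),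
            Real.log (p : ℝ) / p := Finset.sum_nonneg fun p _ => hnn p
          linarith
      _ = _ := by simp
  linarith

end Pool.Agent.Results.MP_293bbf_nt.LowerHalfAllY
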